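import Pool.Agent.Lib.H5C.RegP
import Pool.Agent.Lib.H68T.HDEC

/-!
# Chunk HDEC (port of `H68T/HDEC.lean` to the regime `RegP`)
-/

open Finset ArithmeticFunction Pool.Agent.Lib.H68T

namespace Pool.Agent.Lib.H5C

/-- the error terms live on short integers -/
lemma hdp_err : ∃ K : ℝ, 1 ≤ K ∧ ∀ Q X : ℕ, RegP K Q X → ∀ m : ℕ, Real.exp (-2) * X < m →
    (3 * (muV (VV X) * hdsL Q) + -(3 * (muV (VV X) * muV (VV X) * hds Q * hdsL Q)) +
        (muV (VV X) + -hduh X) * (muV (VV X) * muV (VV X) + muV (VV X) * hduh X +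
          hduh X * hduh X) * (hds Q * hds Q) * hdsL Q) m = 0 := by
  obtain ⟨K, hK, h1⟩ := regp_pow_le (3601 * Real.exp 5) 60 (1 / 12) (by norm_num)
  refine ⟨K, hK, fun Q X hR m hm => ?_⟩
  have hQ : 1 ≤ Q := hR.Q_pos hK
  have hX : 1 ≤ X := hR.X_pos (by linarith)
  have hQr : (1 : ℝ) ≤ Q := by exact_mod_cast hQ
  have hXr : (1 : ℝ) ≤ X := by exact_mod_cast hX
  set E : ℝ := Real.exp 1 * (Q : ℝ) ^ 20 with hE
  set V : ℝ := (VV X : ℝ) with hV
  have he1 : (1 : ℝ) ≤ Real.exp 1 := Real.one_le_exp (by norm_num)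
  have hE1 : 1 ≤ E := by
    have : (1 : ℝ) ≤ (Q : ℝ) ^ 20 := one_le_pow₀ hQr
    rw [hE]; nlinarith
  have hV1 : 1 ≤ V := by
    have : 1 ≤ VV X := by
      unfold VV
      rw [Nat.one_le_floor_iff]
      apply Real.one_le_rpow _ (by norm_num)
      push_cast; linarith
    rw [hV]; exact_mod_cast this
  have hX4 : 1 ≤ (X : ℝ) ^ ((1 : ℝ) / 4) := Real.one_le_rpow hXr (by norm_num)
  set Z : ℝ := (X : ℝ) ^ ((1 : ℝ) / 4) * (V * V) * (E * E) * E with hZ
  have hVV : 1 ≤ V * V := by nlinarith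
  have hEE : 1 ≤ E * E := by nlinarith
  have hZ1 : V * V * E * E ≤ Z := by
    have e : Z = ((X : ℝ) ^ ((1 : ℝ) / 4) * E) * (V * V * E * E) := by rw [hZ]; ring
    rw [e]
    have h2 : 1 ≤ (X : ℝ) ^ ((1 : ℝ) / 4) * E := by nlinarith
    have h3 : 0 ≤ V * V * E * E := by positivity
    nlinarith
  have hZ2 : V * E ≤ Z := by
    have : V * E ≤ V * V * E * E := by
      have h2 : 1 ≤ V * E := by nlinarith
      have e : V * V * E * E = (V * E) * (V * E) := by ring
      rw [e]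
      nlinarith
    linarith
  have hsupp : hdSupp (3 * (muV (VV X) * hdsL Q) +
      -(3 * (muV (VV X) * muV (VV X) * hds Q * hdsL Q)) +
        (muV (VV X) + -hduh X) * (muV (VV X) * muV (VV X) + muV (VV X) * hduh X +
          hduh X * hduh X) * (hds Q * hds Q) * hdsL Q) Z := by
    refine hdSupp_add (hdSupp_add ?_ ?_) ?_
    · exact hdSupp_mono (hd_supp3 (hdSupp_mul (by linarith) (hd_supp_u _) (hd_supp_sL hQ))) hZ2
    · refine hdSupp_mono (hd_supp_neg (hd_supp3 (hdSupp_mul (by positivity)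
        (hdSupp_mul (by positivity) (hdSupp_mul (by linarith) (hd_supp_u _) (hd_supp_u _))
          (hd_supp_s hQ)) (hd_supp_sL hQ)))) hZ1
    · refine hdSupp_mul (by positivity) (hdSupp_mul (by positivity) (hdSupp_mul (by positivity)
        (hd_supp_ul X) ?_) (hdSupp_mul (by linarith) (hd_supp_s hQ) (hd_supp_s hQ)))
        (hd_supp_sL hQ)
      refine hdSupp_add (hdSupp_add ?_ ?_) ?_
      · exact hdSupp_mul (by linarith) (hd_supp_u _) (hd_supp_u _)
      · exact hdSupp_mul (by linarith) (hd_supp_u _) (hd_supp_uh _)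
      · exact hdSupp_mul (by linarith) (hd_supp_uh _) (hd_supp_uh _)
  apply hsupp
  refine lt_of_le_of_lt ?_ hm
  -- Z ≤ exp(-2) X
  have hV2 : V ≤ 60 * (X : ℝ) ^ ((1 : ℝ) / 3) := by
    have h2 : V ≤ ((60 * X : ℕ) : ℝ) ^ ((1 : ℝ) / 3) := Nat.floor_le (by positivity)
    have h3 : ((60 * X : ℕ) : ℝ) ^ ((1 : ℝ) / 3) = (60 : ℝ) ^ ((1 : ℝ) / 3) *
        (X : ℝ) ^ ((1 : ℝ) / 3) := by
      push_cast
      rw [Real.mul_rpow (by norm_num) (by positivity)]
    have h4 : (60 : ℝ) ^ ((1 : ℝ) / 3) ≤ 60 := by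
      calc (60 : ℝ) ^ ((1 : ℝ) / 3) ≤ (60 : ℝ) ^ (1 : ℝ) :=
            Real.rpow_le_rpow_of_exponent_le (by norm_num) (by norm_num)
        _ = 60 := Real.rpow_one _
    rw [h3] at h2
    exact h2.trans (mul_le_mul_of_nonneg_right h4 (by positivity))
  have h2 := h1 Q X hR
  have h3 : (Q : ℝ) ^ (60 : ℝ) = (Q : ℝ) ^ 60 := by rw [← Real.rpow_natCast]; norm_num
  rw [h3] at h2
  have hVV2 : V * V ≤ 3600 * (X : ℝ) ^ ((2 : ℝ) / 3) := by
    have h4 : V * V ≤ (60 * (X : ℝ) ^ ((1 : ℝ) / 3)) * (60 * (X : ℝ) ^ ((1 : ℝ) / 3)) :=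
      mul_le_mul hV2 hV2 (by linarith) (by positivity)
    have h5 : (X : ℝ) ^ ((2 : ℝ) / 3) = (X : ℝ) ^ ((1 : ℝ) / 3) * (X : ℝ) ^ ((1 : ℝ) / 3) := by
      rw [← Real.rpow_add (by linarith)]; norm_num
    rw [h5]; linarith
  have hE3 : (E * E) * E = Real.exp 3 * (Q : ℝ) ^ 60 := by
    have : Real.exp 3 = Real.exp 1 * Real.exp 1 * Real.exp 1 := by
      rw [← Real.exp_add, ← Real.exp_add]; norm_num
    rw [hE, this]; ring
  have hX11 : (X : ℝ) ^ ((1 : ℝ) / 4) * (X : ℝ) ^ ((2 : ℝ) / 3) * (X : ℝ) ^ ((1 : ℝ) / 12) = X := by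
    rw [← Real.rpow_add (by linarith), ← Real.rpow_add (by linarith)]
    norm_num
  have h6 : Z ≤ (X : ℝ) ^ ((1 : ℝ) / 4) * (3600 * (X : ℝ) ^ ((2 : ℝ) / 3)) *
      (Real.exp 3 * (Q : ℝ) ^ 60) := by
    rw [hZ, mul_assoc _ (E * E) E, hE3]
    apply mul_le_mul_of_nonneg_right _ (by positivity)
    exact mul_le_mul_of_nonneg_left hVV2 (by positivity)
  have h7 : Real.exp 3 = Real.exp (-2) * Real.exp 5 := by
    rw [← Real.exp_add]; norm_num
  calc Z ≤ (X : ℝ) ^ ((1 : ℝ) / 4) * (3600 * (X : ℝ) ^ ((2 : ℝ) / 3)) *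
      (Real.exp 3 * (Q : ℝ) ^ 60) := h6
    _ = Real.exp (-2) * ((X : ℝ) ^ ((1 : ℝ) / 4) * (X : ℝ) ^ ((2 : ℝ) / 3) *
        (3600 * Real.exp 5 * (Q : ℝ) ^ 60)) := by rw [h7]; ring
    _ ≤ Real.exp (-2) * ((X : ℝ) ^ ((1 : ℝ) / 4) * (X : ℝ) ^ ((2 : ℝ) / 3) *
        ((X : ℝ) ^ ((1 : ℝ) / 12))) := by
        apply mul_le_mul_of_nonneg_left _ (Real.exp_pos _).le
        apply mul_le_mul_of_nonneg_left _ (by positivity)
        refine le_trans ?_ h2
        apply mul_le_mul_of_nonneg_right _ (by positivity)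
        apply mul_le_mul_of_nonneg_right _ (Real.exp_pos _).le
        norm_num
    _ = Real.exp (-2) * X := by rw [hX11]

lemma hdp_bounds : ∃ K : ℝ, 1 ≤ K ∧ ∀ Q X : ℕ, RegP K Q X →
    hdN (60 * X) (hda1 X) ≤ (Real.log X) ^ (7 : ℝ) ∧
    hdN (60 * X) (hda0 Q X) ≤ (Real.log X) ^ (7 : ℝ) := by
  refine ⟨1000, by norm_num, fun Q X hR => ?_⟩
  have hX : 1 ≤ X := hR.X_pos (by norm_num)
  have hXr : (1000 : ℝ) ≤ X := hR.X_ge (by norm_num)
  have hlX : (1001 : ℝ) ≤ Real.log X := by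
    have := hR.logX_ge (by norm_num)
    have h2 := Real.add_one_le_exp (1000 : ℝ)
    linarith
  set N := 60 * X with hN
  set L := Real.log X with hL
  set H : ℝ := 1 + Real.log N with hH
  have hlogN : Real.log N = Real.log 60 + L := by
    rw [hN, hL]; push_cast
    rw [Real.log_mul (by norm_num) (by positivity)]
  have hlog60 : Real.log 60 ≤ 60 := (Real.log_le_sub_one_of_pos (by norm_num)).trans (by norm_num)
  have hlog60' : 0 ≤ Real.log 60 := Real.log_nonneg (by norm_num)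
  have hH2 : H ≤ 2 * L := by rw [hH, hlogN]; linarith
  have hH1 : 1 ≤ H := by rw [hH, hlogN]; linarith
  have hmu : ∀ a : ℕ, |((moebius a : ℤ) : ℝ)| ≤ 1 := fun a => by
    exact_mod_cast ArithmeticFunction.abs_moebius_le_one
  set u := muV (VV X) with hu
  have hNu : hdN N u ≤ H := by
    have := hdN_le_of (N := N) (f := u) (C := 1) zero_le_one (fun a ha _ => by
      rw [hu]; unfold muV
      rw [hd_af_pos _ ha]
      split_ifs
      · exact hmu a
      · simp)
    linarith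
  have hNo : hdN N one1 ≤ H := by
    have := hdN_le_of (N := N) (f := one1) (C := 1) zero_le_one (fun a ha _ => by
      unfold one1
      rw [hd_af_pos _ ha]
      simp)
    linarith
  have hNs : hdN N (hds Q) ≤ H := by
    have := hdN_le_of (N := N) (f := hds Q) (C := 1) zero_le_one (fun a ha _ => by
      unfold hds
      rw [hd_af_pos _ ha, abs_of_nonneg (hd_rho_nonneg Q a)]
      exact hd_rho_le_one Q a)
    linarith
  have hNsL : hdN N (hdsL Q) ≤ H * H := by
    have := hdN_le_of (N := N) (f := hdsL Q) (C := H) (by linarith) (fun a ha haN => by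
      unfold hdsL
      have ha0 : (1 : ℝ) ≤ a := by exact_mod_cast ha
      have h1 : 0 ≤ Real.log a := Real.log_nonneg ha0
      have h2 : Real.log a ≤ Real.log N := Real.log_le_log (by linarith) (by exact_mod_cast haN)
      rw [hd_af_pos _ ha, abs_of_nonneg (mul_nonneg (hd_rho_nonneg Q a) h1)]
      have h3 := mul_le_mul_of_nonneg_right (hd_rho_le_one Q a) h1
      rw [one_mul] at h3
      linarith)
    exact this
  have n0 := hdN_nonneg N
  have hH0 : 0 ≤ H := by linarith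
  have muluu : hdN N (u * u) ≤ H * H :=
    (hdN_mul N u u).trans (mul_le_mul hNu hNu (n0 _) hH0)
  have muluuu : hdN N (u * u * u) ≤ H * H * H :=
    (hdN_mul N (u * u) u).trans (mul_le_mul muluu hNu (n0 _) (by positivity))
  have a1 : hdN N (u * u * one1) ≤ H * H * H :=
    (hdN_mul N (u * u) one1).trans (mul_le_mul muluu hNo (n0 _) (by positivity))
  have a2 : hdN N (u * u * u * one1) ≤ H * H * H * H :=
    (hdN_mul N (u * u * u) one1).trans (mul_le_mul muluuu hNo (n0 _) (by positivity))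
  have a3 : hdN N (u * u * u * one1 * one1) ≤ H * H * H * H * H :=
    (hdN_mul N _ one1).trans (mul_le_mul a2 hNo (n0 _) (by positivity))
  have b1 : hdN N (u * u * hdsL Q) ≤ H * H * (H * H) :=
    (hdN_mul N (u * u) _).trans (mul_le_mul muluu hNsL (n0 _) (by positivity))
  have b2 : hdN N (u * u * u * hds Q) ≤ H * H * H * H :=
    (hdN_mul N (u * u * u) _).trans (mul_le_mul muluuu hNs (n0 _) (by positivity))
  have b3 : hdN N (u * u * u * hds Q * hdsL Q) ≤ H * H * H * H * (H * H) :=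
    (hdN_mul N _ _).trans (mul_le_mul b2 hNsL (n0 _) (by positivity))
  have b4 : hdN N (u * u * u * one1 * hdsL Q) ≤ H * H * H * H * (H * H) :=
    (hdN_mul N _ _).trans (mul_le_mul a2 hNsL (n0 _) (by positivity))
  have hfin : 7 * H ^ 6 ≤ L ^ (7 : ℝ) := by
    have e : L ^ (7 : ℝ) = L ^ 7 := by rw [← Real.rpow_natCast]; norm_num
    rw [e]
    have h1 : H ^ 6 ≤ (2 * L) ^ 6 := pow_le_pow_left₀ hH0 hH2 6
    have h2 : (0 : ℝ) ≤ L ^ 6 := by positivity
    have e2 : (2 * L) ^ 6 = 64 * L ^ 6 := by ring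
    have e3 : L ^ 7 = L ^ 6 * L := by ring
    rw [e2] at h1
    rw [e3]
    nlinarith
  have p1 : H ≤ H ^ 6 := by
    calc H = H ^ 1 := (pow_one H).symm
      _ ≤ H ^ 6 := pow_le_pow_right₀ hH1 (by norm_num)
  have p3 : H * H * H ≤ H ^ 6 := by
    calc H * H * H = H ^ 3 := by ring
      _ ≤ H ^ 6 := pow_le_pow_right₀ hH1 (by norm_num)
  have p4 : H * H * (H * H) ≤ H ^ 6 := by
    calc H * H * (H * H) = H ^ 4 := by ring
      _ ≤ H ^ 6 := pow_le_pow_right₀ hH1 (by norm_num)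
  have p5 : H * H * H * H * H ≤ H ^ 6 := by
    calc H * H * H * H * H = H ^ 5 := by ring
      _ ≤ H ^ 6 := pow_le_pow_right₀ hH1 (by norm_num)
  have p6 : H * H * H * H * (H * H) ≤ H ^ 6 := le_of_eq (by ring)
  constructor
  · refine le_trans ?_ hfin
    unfold hda1
    rw [← hu]
    refine (hdN_add N _ _).trans ?_
    have s1 := hdN_add N (u + u + u + -(u * u * one1) + -(u * u * one1)) (-(u * u * one1))
    have s2 := hdN_add N (u + u + u + -(u * u * one1)) (-(u * u * one1))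
    have s3 := hdN_add N (u + u + u) (-(u * u * one1))
    have s4 := hdN_add N (u + u) u
    have s5 := hdN_add N u u
    have s6 := hdN_neg N (u * u * one1)
    rw [s6] at s1 s2 s3
    linarith
  · refine le_trans ?_ hfin
    unfold hda0
    rw [← hu]
    refine (hdN_add N _ _).trans ?_
    have s1 := hdN_add N (-(u * u * hdsL Q) + -(u * u * hdsL Q) + -(u * u * hdsL Q))
      (u * u * u * hds Q * hdsL Q)
    have s2 := hdN_add N (-(u * u * hdsL Q) + -(u * u * hdsL Q)) (-(u * u * hdsL Q))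
    have s3 := hdN_add N (-(u * u * hdsL Q)) (-(u * u * hdsL Q))
    have s6 := hdN_neg N (u * u * hdsL Q)
    rw [s6] at s2 s3
    linarith

/-- **Decomposition.** For `RegP K Q X` there are real sequences `α₀, α₁` with
`∑ |α_j(a)|/a ≤ (log X)^7` such that for every character and every `t`,
`F_ψ = FF(ψ hmain) + ∑_j ∑_a α_j(a) ψ(a) a^(-1-it) Long_j(a)`.

Proof. Write (Dirichlet convolutions, `u = μ 1_{≤V}`, `s = ρ`, `l = 1 - ρ`, `sℓ = ρ log`,
`lℓ = (1-ρ) log`, `1 = s + l`, `log = sℓ + lℓ`; `V = VV X`, `60 X < (V+1)³`). `heath_brown` gives on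
`m ≤ 60X`: `Λ = [3u*sℓ - 3u²*s*sℓ + u³*s*s*sℓ] + α₁ * lℓ + α₀ * l` with
`α₁ = 3u - 3u²*1 + u³*1*1`, `α₀ = -3u²*sℓ + u³*s*sℓ + u³*1*sℓ`.
If `v(m) ≠ 0` then `m ≥ X/e²` while `3u*sℓ`, `u²*s*sℓ` live on `m ≤ V² (e Q^20)²  < X/e²`; and in
`u³*s*s*sℓ` each `a_i ≥ (X/e²)/(V² (e Q^20)³) ≥ X^(1/4)`, so `u` may be replaced by `μ 1_{[A,V]}`,
which gives `hmain`. Twisting by `ψ` is harmless because `ψ` is completely multiplicative.
The bound for `α_j`: all factors are bounded by `1` or `log (60X)` and supported in `[1, 60X]` after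
truncation, so `∑_{a ≤ 60X} |α_j(a)|/a ≤ 7 (1 + log(60X))^6 ≤ (log X)^7`.
Note `Long j a` has `v(a n)` and `n ≤ 60X`; for `a > 60X` it vanishes. -/
theorem decompositionP : ∃ K : ℝ, ∀ Q X : ℕ, RegP K Q X → ∃ α : ℕ → ℕ → ℝ,
    (∀ j ∈ range 2, ∑ a ∈ Icc 1 (60 * X), |α j a| / a ≤ (Real.log X) ^ (7 : ℝ)) ∧
    ∀ (p : Σ r : ℕ, DirichletCharacter ℂ r), 1 ≤ p.1 → ∀ t : ℝ,
      FL X p t = FF X (fun m => (hmain Q X m : ℂ) * p.2 (m : ZMod p.1)) t +
        ∑ j ∈ range 2, ∑ a ∈ Icc 1 (60 * X), (α j a : ℂ) * p.2 (a : ZMod p.1) *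
          (a : ℂ) ^ (-(1 + t * Complex.I)) * Long Q X p j a t := by
  obtain ⟨K1, hK1, herr⟩ := hdp_err
  obtain ⟨K2, hK2, hbd⟩ := hdp_bounds
  refine ⟨K1 + K2, fun Q X hR => ?_⟩
  have hR1 : RegP K1 Q X := hR.mono (by linarith) (by linarith)
  have hR2 : RegP K2 Q X := hR.mono (by linarith) (by linarith)
  have hX : 1 ≤ X := hR1.X_pos (by linarith)
  set N := 60 * X with hN
  refine ⟨fun j a => if j = 0 then hda0 Q X a else hda1 X a, ?_, ?_⟩
  · intro j hj
    rw [Finset.mem_range] at hj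
    interval_cases j
    · exact (hbd Q X hR2).2
    · exact (hbd Q X hR2).1
  · intro p hp t
    set F : ℕ → ℂ := fun m => p.2 (m : ZMod p.1) * (v X m : ℂ) * (m : ℂ) ^ (-(1 + t * Complex.I))
      with hF
    have hFhigh : ∀ m, N < m → F m = 0 := by
      intro m hm
      rw [hF]
      simp only
      rw [hd_v_high hX hm]
      simp
    have hFL : FL X p t = ∑ m ∈ Icc 1 N, (vonMangoldt m : ℂ) * F m := by
      unfold FL FF
      apply Finset.sum_congr rfl
      intro m _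
      rw [hF]; ring
    have hFm : FF X (fun m => (hmain Q X m : ℂ) * p.2 (m : ZMod p.1)) t =
        ∑ m ∈ Icc 1 N, (hmain Q X m : ℂ) * F m := by
      unfold FF
      apply Finset.sum_congr rfl
      intro m _
      rw [hF]; ring
    have hkey : ∀ m ∈ Icc 1 N, (vonMangoldt m : ℂ) * F m = (hmain Q X m : ℂ) * F m +
        ((((hda1 X * hdlL Q) m : ℝ) : ℂ) * F m + (((hda0 Q X * hdl Q) m : ℝ) : ℂ) * F m) := by
      intro m hm
      rw [Finset.mem_Icc] at hm
      rcases le_or_gt (m : ℝ) (Real.exp (-2) * X) with h | h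
      · have : F m = 0 := by
          rw [hF]; simp only
          rw [hd_v_low hX hm.1 h]; simp
        rw [this]; simp
      · have e1 := herr Q X hR1 m h
        have hV : m < (VV X + 1) ^ 3 := by
          have h1 : (m : ℝ) ≤ ((60 * X : ℕ) : ℝ) := by exact_mod_cast hm.2
          have h2 : ((60 * X : ℕ) : ℝ) ^ ((1 : ℝ) / 3) < (VV X : ℝ) + 1 := Nat.lt_floor_add_one _
          have h3 : ((60 * X : ℕ) : ℝ) = (((60 * X : ℕ) : ℝ) ^ ((1 : ℝ) / 3)) ^ 3 := by
            rw [← Real.rpow_natCast, ← Real.rpow_mul (by positivity)]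
            norm_num
          have h4 : (((60 * X : ℕ) : ℝ) ^ ((1 : ℝ) / 3)) ^ 3 < ((VV X : ℝ) + 1) ^ 3 :=
            pow_lt_pow_left₀ h2 (by positivity) (by norm_num)
          have h5 : (m : ℝ) < ((VV X : ℝ) + 1) ^ 3 := by
            rw [← h3] at h4; linarith
          exact_mod_cast h5
        have e2 := heath_brown (VV X) m hV
        rw [hd_ring Q X, ArithmeticFunction.add_apply, e1, add_zero, ArithmeticFunction.add_apply,
          ArithmeticFunction.add_apply] at e2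
        rw [e2]
        push_cast
        ring
    rw [hFL, hFm, Finset.sum_congr rfl hkey, Finset.sum_add_distrib, Finset.sum_add_distrib,
      hd_conv N _ _ F hFhigh, hd_conv N _ _ F hFhigh]
    congr 1
    rw [Finset.sum_range_succ, Finset.sum_range_one, add_comm]
    have hFmul : ∀ a n : ℕ, F (a * n) = p.2 (a : ZMod p.1) * p.2 (n : ZMod p.1) *
        (v X (a * n) : ℂ) * ((a : ℂ) ^ (-(1 + t * Complex.I)) *
        (n : ℂ) ^ (-(1 + t * Complex.I))) := by
      intro a n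
      rw [hF]
      simp only
      rw [Nat.cast_mul, map_mul]
      have : ((a * n : ℕ) : ℂ) ^ (-(1 + t * Complex.I)) = (a : ℂ) ^ (-(1 + t * Complex.I)) *
        (n : ℂ) ^ (-(1 + t * Complex.I)) := by
        push_cast
        exact Complex.natCast_mul_natCast_cpow a n _
      rw [this]
    congr 1
    · apply Finset.sum_congr rfl
      intro a _
      beta_reduce
      simp only [if_true]
      unfold Long
      rw [Finset.mul_sum]
      apply Finset.sum_congr rfl
      intro n hn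
      rw [Finset.mem_Icc] at hn
      rw [hFmul]
      unfold hdl
      rw [hd_af_pos _ hn.1]
      push_cast
      ring
    · apply Finset.sum_congr rfl
      intro a _
      beta_reduce
      simp only [one_ne_zero, if_false]
      unfold Long
      rw [Finset.mul_sum]
      apply Finset.sum_congr rfl
      intro n hn
      rw [Finset.mem_Icc] at hn
      rw [hFmul]
      unfold hdlL
      rw [hd_af_pos _ hn.1]
      push_cast
      ring

end Pool.Agent.Lib.H5C
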