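import Pool.Agent.Lib.H5C.RegP
import Pool.Agent.Lib.H68T.LONG1

/-!
# Chunk LONG (port of `H68T/LONG1.lean` to the regime `RegP`)
-/

open Finset Pool.Agent.Lib.H68T

namespace Pool.Agent.Lib.H5C

/-- Non-trivial primitive character: `|∑_{n ≤ u} ψ(n)| ≤ r ≤ Q`, partial summation against
`W(u) = (1-ρ(u)) (log u)^j v(au) u^(-1-it)`, supported on `u ≥ Q^20`,
`|W'(u)| ≤ C (1+|t|) log X · u^(-2)`. Total `C Q (1 + Q^7) log X Q^(-20) ≤ Q^(-11)`. -/
theorem long_smallP : ∃ K : ℝ, ∀ Q X : ℕ, RegP K Q X → ∀ p ∈ PC Q, p ≠ p0 → ∀ j ∈ range 2,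
    ∀ a : ℕ, 1 ≤ a → ∀ t : ℝ, |t| ≤ (Q : ℝ) ^ 7 → ‖Long Q X p j a t‖ ≤ (Q : ℝ) ^ (-11 : ℝ) := by
  obtain ⟨B, hB1, hB, -⟩ := LONG_sT
  obtain ⟨K, hK1, hK⟩ := regp_log_le (2 * (3 * B + 3) * 7) 1 1 one_pos
  refine ⟨K, fun Q X hreg p hp hp0 j hj a ha t ht => ?_⟩
  have hK0 : 0 < K := by linarith
  have hQ := hreg.Q_pos hK1
  have hX := hreg.X_pos hK0
  have hlX := hreg.logX_ge_one hK0
  have hQ0 : (0:ℝ) < Q := by exact_mod_cast hQ
  have hQ1 : (1:ℝ) ≤ Q := by exact_mod_cast hQ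
  have hX0 : (0:ℝ) < X := by exact_mod_cast hX
  have ha1 : (1:ℝ) ≤ a := by exact_mod_cast ha
  obtain ⟨r, ψ⟩ := p
  rw [mem_PC] at hp
  obtain ⟨hr1, hrQ, hprim⟩ := hp
  simp only at hr1 hrQ hprim
  have : NeZero r := ⟨by omega⟩
  have hψ : ψ ≠ 1 := by
    rintro rfl
    apply hp0
    have h1 := (DirichletCharacter.isPrimitive_def _).mp hprim
    rw [DirichletCharacter.conductor_one] at h1
    subst h1
    rfl
  set α := Real.log ((Q : ℝ) ^ 20) with hα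
  set c := Real.log ((a : ℝ) / X) with hc
  have hN : (0:ℝ) < ((60 * X : ℕ) : ℝ) := by positivity
  have hlog60 : (4:ℝ) ≤ Real.log 60 := by
    rw [Real.le_log_iff_exp_le (by norm_num)]
    have : Real.exp 4 = (Real.exp 1) ^ 4 := by
      rw [← Real.exp_nat_mul]; norm_num
    rw [this]
    have h1 := Real.exp_one_lt_d9
    calc (Real.exp 1) ^ 4 ≤ (2.7182818286:ℝ) ^ 4 :=
          pow_le_pow_left₀ (Real.exp_pos 1).le h1.le 4
      _ ≤ 60 := by norm_num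
  have e1 : Long Q X ⟨r, ψ⟩ j a t = ∑ n ∈ Icc 1 (60 * X), LONG_W α c j t n * ψ (n : ZMod r) := by
    unfold Long
    apply sum_congr rfl
    intro n hn
    rw [mem_Icc] at hn
    rw [← LONG_term Q X hQ hX j a ha t n hn.1]
    ring
  rw [e1, LONG_abel (fun n => LONG_W α c j t n)]
  have hend : LONG_W α c j t ((60 * X : ℕ) : ℝ) = 0 := by
    apply LONG_W_zero_right
    rw [hc, ← Real.log_mul hN.ne' (by positivity)]
    refine hlog60.trans (Real.log_le_log (by norm_num) ?_)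
    push_cast
    rw [mul_assoc, ← mul_div_assoc, mul_comm (X:ℝ) (a:ℝ), mul_div_assoc, div_self hX0.ne', mul_one]
    nlinarith
  rw [hend, zero_mul, zero_sub, norm_neg]
  -- split the range
  have hsplit : ∑ n ∈ range (60 * X), (LONG_W α c j t ((n + 1 : ℕ) : ℝ) - LONG_W α c j t (n : ℝ)) *
      ∑ m ∈ Icc 1 n, ψ (m : ZMod r) =
      ∑ n ∈ Ico (Q ^ 20) (60 * X), (LONG_W α c j t ((n + 1 : ℕ) : ℝ) - LONG_W α c j t (n : ℝ)) *
      ∑ m ∈ Icc 1 n, ψ (m : ZMod r) := by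
    symm
    apply sum_subset
    · intro n hn
      rw [mem_Ico] at hn
      exact mem_range.mpr hn.2
    · intro n hn hn'
      rw [mem_range] at hn
      rw [mem_Ico, not_and] at hn'
      have hlt : n < Q ^ 20 := by
        by_contra h
        exact hn' (not_lt.mp h) hn
      rcases Nat.eq_zero_or_pos n with h0 | h0
      · subst h0; simp
      · have z1 : LONG_W α c j t (n : ℝ) = 0 := by
          apply LONG_W_zero_left
          rw [hα]
          apply Real.log_le_log (by exact_mod_cast h0)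
          exact_mod_cast hlt.le
        have z2 : LONG_W α c j t ((n + 1 : ℕ) : ℝ) = 0 := by
          apply LONG_W_zero_left
          rw [hα]
          apply Real.log_le_log (by positivity)
          exact_mod_cast hlt
        rw [z1, z2]; simp
  have hsplit' : ∑ n ∈ range (60 * X), ((fun n : ℕ => LONG_W α c j t (n : ℝ)) (n + 1) -
      (fun n : ℕ => LONG_W α c j t (n : ℝ)) n) * ∑ m ∈ Icc 1 n, ψ (m : ZMod r) =
      ∑ n ∈ Ico (Q ^ 20) (60 * X), (LONG_W α c j t ((n + 1 : ℕ) : ℝ) - LONG_W α c j t (n : ℝ)) *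
      ∑ m ∈ Icc 1 n, ψ (m : ZMod r) := hsplit
  rw [hsplit']
  set D := (3 * B + 2 + |t|) * (1 + Real.log ((60 * X : ℕ) : ℝ)) with hD
  have hlN : 0 ≤ Real.log ((60 * X : ℕ) : ℝ) := Real.log_natCast_nonneg _
  have hD0 : 0 ≤ D := by
    have := abs_nonneg t
    positivity
  have hterm : ∀ n ∈ Ico (Q ^ 20) (60 * X), ‖(LONG_W α c j t ((n + 1 : ℕ) : ℝ) -
      LONG_W α c j t (n : ℝ)) * ∑ m ∈ Icc 1 n, ψ (m : ZMod r)‖ ≤ (D * Q) * (1 / (n : ℝ) ^ 2) := by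
    intro n hn
    rw [mem_Ico] at hn
    have hn1 : 1 ≤ n := le_trans (Nat.one_le_pow _ _ hQ) hn.1
    have hn1' : (1:ℝ) ≤ n := by exact_mod_cast hn1
    have h1 := LONG_W_diff hB1 hB α c j hj t (n : ℝ) ((n + 1 : ℕ) : ℝ) hn1' (by push_cast; linarith)
    have h2 := LONG_char_sum r ψ hψ n
    have h3 : (r : ℝ) ≤ Q := by exact_mod_cast hrQ
    have h4 : Real.log ((n + 1 : ℕ) : ℝ) ≤ Real.log ((60 * X : ℕ) : ℝ) := by
      apply Real.log_le_log (by positivity)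
      exact_mod_cast hn.2
    have h5 : (((n + 1 : ℕ) : ℝ) - n) = 1 := by push_cast; ring
    rw [h5] at h1
    rw [norm_mul]
    have h6 : ‖LONG_W α c j t ((n + 1 : ℕ) : ℝ) - LONG_W α c j t (n : ℝ)‖ ≤ D * (1 / (n : ℝ) ^ 2) := by
      refine h1.trans ?_
      rw [hD]
      have := abs_nonneg t
      gcongr
    calc _ ≤ (D * (1 / (n : ℝ) ^ 2)) * Q := by
          apply mul_le_mul h6 (h2.trans h3) (norm_nonneg _) (by positivity)
      _ = _ := by ring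
  refine (norm_sum_le _ _).trans ((sum_le_sum hterm).trans ?_)
  rw [← mul_sum]
  have hs := LONG_sum_inv_sq (Q ^ 20) (60 * X) (Nat.one_le_pow _ _ hQ)
  have hQ7 : (1:ℝ) ≤ (Q:ℝ) ^ 7 := one_le_pow₀ hQ1
  have hl60 : Real.log ((60 * X : ℕ) : ℝ) ≤ 6 * Real.log X := by
    push_cast
    rw [Real.log_mul (by norm_num) hX0.ne']
    have : Real.log 60 ≤ 5 := by
      rw [Real.log_le_iff_le_exp (by norm_num)]
      have : Real.exp 5 = (Real.exp 1) ^ 5 := by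
        rw [← Real.exp_nat_mul]; norm_num
      rw [this]
      have h1 := Real.exp_one_gt_d9
      calc (60:ℝ) ≤ (2.7182818283:ℝ) ^ 5 := by norm_num
        _ ≤ _ := pow_le_pow_left₀ (by norm_num) h1.le 5
    nlinarith
  have hDle : D ≤ (3 * B + 3) * (Q:ℝ) ^ 7 * (7 * Real.log X) := by
    rw [hD]
    have h1 : 3 * B + 2 + |t| ≤ (3 * B + 3) * (Q:ℝ) ^ 7 := by nlinarith
    have h2 : 1 + Real.log ((60 * X : ℕ) : ℝ) ≤ 7 * Real.log X := by linarith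
    exact mul_le_mul h1 h2 (by linarith) (by positivity)
  have hKQ := hK Q X hreg
  rw [Real.rpow_one, Real.rpow_one] at hKQ
  have hfin : (Q : ℝ) ^ (-11 : ℝ) = 1 / (Q:ℝ) ^ 11 := by
    rw [Real.rpow_neg hQ0.le, one_div]
    norm_num
  rw [hfin]
  have hs' : ∑ n ∈ Ico (Q ^ 20) (60 * X), 1 / (n : ℝ) ^ 2 ≤ 2 / (Q:ℝ) ^ 20 := by
    push_cast at hs
    exact hs
  calc D * Q * ∑ n ∈ Ico (Q ^ 20) (60 * X), 1 / (n : ℝ) ^ 2
      ≤ ((3 * B + 3) * (Q:ℝ) ^ 7 * (7 * Real.log X)) * Q * (2 / (Q:ℝ) ^ 20) := by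
        gcongr
    _ = (2 * (3 * B + 3) * 7 * Real.log X) * ((Q:ℝ) ^ 8 / (Q:ℝ) ^ 20) := by ring
    _ ≤ Q * ((Q:ℝ) ^ 8 / (Q:ℝ) ^ 20) := by
        apply mul_le_mul_of_nonneg_right hKQ (by positivity)
    _ = 1 / (Q:ℝ) ^ 11 := by
        field_simp

end Pool.Agent.Lib.H5C
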