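import Pool.Agent.Lib.H5C.RegP
import Pool.Agent.Lib.H68T.MAINI

/-!
# Chunk MAINI (port of `H68T/MAINI.lean` to the regime `RegP`)
-/

open Finset MeasureTheory Pool.Agent.Lib.H68T

namespace Pool.Agent.Lib.H5C

open scoped FourierTransform SchwartzMap ContDiff

theorem mainp_logbound {Q X : ℕ} (h : RegP 100 Q X) :
    1 + Real.log ((3 * Q ^ 20 : ℕ) : ℝ) ≤ Real.log X ∧ 1 ≤ Real.log X := by
  have h1 := h.logX_ge (by norm_num)
  have h2 := h.logQ_le (by norm_num)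
  have hQ := h.Q_pos (by norm_num)
  have hQ' : (0 : ℝ) < Q := by exact_mod_cast hQ
  have h3 : (101 : ℝ) ≤ Real.exp 100 := by
    have := Real.add_one_le_exp (100 : ℝ)
    linarith
  have h4 : Real.log 3 ≤ 2 := by
    have := Real.log_le_sub_one_of_pos (x := (3 : ℝ)) (by norm_num)
    linarith
  have h5 : Real.log ((3 * Q ^ 20 : ℕ) : ℝ) = Real.log 3 + 20 * Real.log Q := by
    push_cast
    rw [Real.log_mul (by norm_num) (by positivity), Real.log_pow]
    push_cast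
    ring
  rw [h5]
  constructor <;> linarith

theorem mainp_hmain_norm {Q X : ℕ} (h : RegP 100 Q X) (p : Σ r : ℕ, DirichletCharacter ℂ r)
    (t : ℝ) : ‖LSeries (fun n => MAINI_tw p.2 (hmain Q X) n) (1 + t * Complex.I)‖ ≤
      (Real.log X) ^ (4 : ℝ) * ‖Mu X p t‖ ^ 3 := by
  have hX : 1 ≤ X := h.X_pos (by norm_num)
  have hQ : 1 ≤ Q := h.Q_pos (by norm_num)
  obtain ⟨hl1, hl2⟩ := mainp_logbound h
  obtain ⟨hF1, hM⟩ := MAINI_series_Mu X p hX t
  have hF2 := MAINI_FS_rho hQ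
  have hF3 := MAINI_FS_rholog hQ
  set f1 := af (fun a => if AA X ≤ a ∧ a ≤ VV X then (ArithmeticFunction.moebius a : ℝ) else 0)
    with hf1
  set f2 := af (rho Q) with hf2
  set f3 := af (fun n => rho Q n * Real.log n) with hf3
  have hm : hmain Q X = f1 * f1 * f1 * (f2 * f2) * f3 := by
    unfold hmain
    rw [← hf1, ← hf2, ← hf3]
    ring
  have hF11 := MAINI_FS_mul hF1 hF1
  have hF111 := MAINI_FS_mul hF11 hF1
  have hF22 := MAINI_FS_mul hF2 hF2
  have hF12 := MAINI_FS_mul hF111 hF22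
  rw [hm, MAINI_series_mul p.2 hF12 hF3, MAINI_series_mul p.2 hF111 hF22,
    MAINI_series_mul p.2 hF11 hF1, MAINI_series_mul p.2 hF1 hF1, MAINI_series_mul p.2 hF2 hF2, hM]
  have hN : ‖LSeries (fun n => MAINI_tw p.2 f2 n) (1 + t * Complex.I)‖ ≤ Real.log X := by
    refine (MAINI_series_le p.2 hF2 (B := 1) ?_ zero_le_one t).trans (by linarith)
    intro n hn
    rw [hf2, MAINI_af_apply _ (mem_Icc.mp hn).1, abs_le]
    have := MAINI_rho_bd Q n
    constructor <;> linarith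
  have hN' : ‖LSeries (fun n => MAINI_tw p.2 f3 n) (1 + t * Complex.I)‖ ≤
      Real.log X * Real.log X := by
    refine (MAINI_series_le p.2 hF3 (B := Real.log X) ?_ (by linarith) t).trans
      (mul_le_mul_of_nonneg_left hl1 (by linarith))
    intro n hn
    obtain ⟨hn1, hn2⟩ := mem_Icc.mp hn
    have hn1' : (1 : ℝ) ≤ n := by exact_mod_cast hn1
    have hn2' : (n : ℝ) ≤ ((3 * Q ^ 20 : ℕ) : ℝ) := by exact_mod_cast hn2
    have h5 : 0 ≤ Real.log n := Real.log_nonneg hn1'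
    have h6 : Real.log n ≤ Real.log ((3 * Q ^ 20 : ℕ) : ℝ) :=
      Real.log_le_log (by linarith) hn2'
    obtain ⟨h7, h8⟩ := MAINI_rho_bd Q n
    rw [hf3, MAINI_af_apply _ hn1, abs_of_nonneg (mul_nonneg h7 h5)]
    nlinarith
  rw [norm_mul, norm_mul, norm_mul, norm_mul, norm_mul]
  set N := ‖LSeries (fun n => MAINI_tw p.2 f2 n) (1 + t * Complex.I)‖ with hNdef
  set N' := ‖LSeries (fun n => MAINI_tw p.2 f3 n) (1 + t * Complex.I)‖ with hNdef'
  have h0 : 0 ≤ N := norm_nonneg _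
  have h0' : 0 ≤ N' := norm_nonneg _
  have h4 : (Real.log X) ^ (4 : ℝ) = Real.log X * Real.log X * (Real.log X * Real.log X) := by
    have : (Real.log X) ^ (4 : ℝ) = (Real.log X) ^ (4 : ℕ) := by
      rw [← Real.rpow_natCast]
      norm_num
    rw [this]
    ring
  rw [h4]
  have h5 : N * N ≤ Real.log X * Real.log X := mul_le_mul hN hN h0 (by linarith)
  have h6 : N * N * N' ≤ Real.log X * Real.log X * (Real.log X * Real.log X) :=
    mul_le_mul h5 hN' h0' (by positivity)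
  calc ‖Mu X p t‖ * ‖Mu X p t‖ * ‖Mu X p t‖ * (N * N) * N' = (N * N * N') * ‖Mu X p t‖ ^ 3 := by
        ring
    _ ≤ _ := mul_le_mul_of_nonneg_right h6 (by positivity)

/-- `w` is smooth of compact support, so `w(y) = ∫ ŵ(τ) e^(2πiτy) dτ` with
`|ŵ(τ)| ≤ C/(1+τ²)`. With `v(m) = w(log(m/X))` the variables separate:
`FF X (ψ hmain) t = ∫ ŵ(τ) X^(-2πiτ) M_ψ(t - 2πτ)³ N(t-2πτ)² N'(t-2πτ) dτ`,
`N(t) = ∑ ρ(n) ψ(n) n^(-1-it)`, `N'(t) = ∑ ρ(n) log n ψ(n) n^(-1-it)` (sums over `n ≤ e Q^20`),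
`|N| ≤ 1 + log(e Q^20) ≤ log X`, `|N'| ≤ (log X)²`. (All products `m` of the six variables are
`≤ V³ (e Q^20)³`; `v(m) = 0` unless `m ≤ 60X`, so the sum over `m ≤ 60 X` in `FF` is complete.)
Substitute `τ → τ/(2π)`. -/
theorem main_integralP : ∃ C K : ℝ, 0 < C ∧ ∀ Q X : ℕ, RegP K Q X →
    ∀ p : Σ r : ℕ, DirichletCharacter ℂ r, 1 ≤ p.1 → ∀ t : ℝ,
    ‖FF X (fun m => (hmain Q X m : ℂ) * p.2 (m : ZMod p.1)) t‖ ≤
      C * (Real.log X) ^ (4 : ℝ) * ∫ τ : ℝ, (1 + τ ^ 2)⁻¹ * ‖Mu X p (t + τ)‖ ^ 3 := by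
  obtain ⟨W, C, hC, hWc, hWb, hW⟩ := MAINI_w_rep
  refine ⟨C, 100, hC, fun Q X h p _ t => ?_⟩
  have hX : 1 ≤ X := h.X_pos (by norm_num)
  have hX' : (0 : ℝ) < X := by exact_mod_cast hX
  have hQ : 1 ≤ Q := h.Q_pos (by norm_num)
  obtain ⟨hl1, hl2⟩ := mainp_logbound h
  obtain ⟨hF1, -⟩ := MAINI_series_Mu X p hX t
  have hF2 := MAINI_FS_rho hQ
  have hF3 := MAINI_FS_rholog hQ
  have hFh : ∃ N, 60 * X ≤ N ∧ MAINI_FS (hmain Q X) N := by
    set f1 := af (fun a => if AA X ≤ a ∧ a ≤ VV X then (ArithmeticFunction.moebius a : ℝ) else 0)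
      with hf1
    set f2 := af (rho Q) with hf2
    set f3 := af (fun n => rho Q n * Real.log n) with hf3
    have hm : hmain Q X = f1 * f1 * f1 * (f2 * f2) * f3 := by
      unfold hmain
      rw [← hf1, ← hf2, ← hf3]
      ring
    have hF := MAINI_FS_mul (MAINI_FS_mul (MAINI_FS_mul (MAINI_FS_mul hF1 hF1) hF1)
      (MAINI_FS_mul hF2 hF2)) hF3
    rw [← hm] at hF
    refine ⟨max (60 * X) _, le_max_left _ _, fun n hn => hF n (lt_of_le_of_lt (le_max_right _ _) hn)⟩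
  obtain ⟨N, hN60, hFN⟩ := hFh
  set G : ℝ → ℂ := fun τ => W τ * Complex.exp (-((τ * Real.log X : ℝ) * Complex.I)) with hG
  have hGc : Continuous G := by
    rw [hG]
    fun_prop
  have hGb : ∀ τ, ‖G τ‖ ≤ C * (1 + τ ^ 2)⁻¹ := by
    intro τ
    rw [hG]
    simp only [norm_mul]
    rw [Complex.norm_exp]
    have h1 : (-(((τ * Real.log X : ℝ) : ℂ) * Complex.I)).re = 0 := by
      rw [Complex.neg_re, Complex.re_ofReal_mul, Complex.I_re, mul_zero, neg_zero]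
    rw [h1, Real.exp_zero, mul_one]
    exact hWb τ
  -- one term
  have hterm : ∀ m : ℕ, 1 ≤ m → (v X m : ℂ) * (m : ℂ) ^ (-(1 + t * Complex.I)) =
      ∫ τ : ℝ, G τ * (m : ℂ) ^ (-(1 + ((t - τ : ℝ) : ℂ) * Complex.I)) := by
    intro m hm
    have hm' : (0 : ℝ) < m := by exact_mod_cast hm
    have hmc : (m : ℂ) ≠ 0 := by exact_mod_cast hm'.ne'
    unfold v
    rw [hW, ← integral_mul_const]
    refine integral_congr_ae (Filter.Eventually.of_forall fun τ => ?_)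
    simp only [hG]
    rw [Real.log_div hm'.ne' hX'.ne', Complex.cpow_def_of_ne_zero hmc,
      Complex.cpow_def_of_ne_zero hmc, mul_assoc, mul_assoc, ← Complex.exp_add, ← Complex.exp_add]
    congr 2
    have h1 : Complex.log (m : ℂ) = ((Real.log m : ℝ) : ℂ) := by
      rw [Complex.ofReal_log hm'.le]
      simp
    rw [h1]
    push_cast
    ring
  have hcont : ∀ m : ℕ, Continuous fun τ : ℝ => (m : ℂ) ^ (-(1 + ((t - τ : ℝ) : ℂ) * Complex.I)) := by
    intro m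
    refine Continuous.const_cpow (by fun_prop) (Or.inr fun τ h => ?_)
    have h1 := congrArg Complex.re h
    simp at h1
  have hint : ∀ m : ℕ, 1 ≤ m → Integrable fun τ : ℝ =>
      G τ * (m : ℂ) ^ (-(1 + ((t - τ : ℝ) : ℂ) * Complex.I)) := by
    intro m hm
    refine MAINI_integrable_bound hGc hGb (hcont m) (B := (m : ℝ)⁻¹) fun τ => ?_
    rw [MAINI_norm_cpow hm]
  -- the whole sum
  have hFF : FF X (fun m => (hmain Q X m : ℂ) * p.2 (m : ZMod p.1)) t =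
      ∫ τ : ℝ, G τ * LSeries (fun n => MAINI_tw p.2 (hmain Q X) n)
        (1 + ((t - τ : ℝ) : ℂ) * Complex.I) := by
    unfold FF
    have h1 : ∑ m ∈ Icc 1 (60 * X), (hmain Q X m : ℂ) * p.2 (m : ZMod p.1) * (v X m : ℂ) *
        (m : ℂ) ^ (-(1 + t * Complex.I)) = ∑ m ∈ Icc 1 N, (hmain Q X m : ℂ) *
          p.2 (m : ZMod p.1) * (v X m : ℂ) * (m : ℂ) ^ (-(1 + t * Complex.I)) := by
      refine Finset.sum_subset (Finset.Icc_subset_Icc_right hN60) fun m hm hm' => ?_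
      have h2 : 60 * X < m := by
        by_contra hcon
        exact hm' (mem_Icc.mpr ⟨(mem_Icc.mp hm).1, by omega⟩)
      rw [MAINI_v_zero hX h2]
      simp
    rw [h1]
    have h2 : ∀ m ∈ Icc 1 N, (hmain Q X m : ℂ) * p.2 (m : ZMod p.1) * (v X m : ℂ) *
        (m : ℂ) ^ (-(1 + t * Complex.I)) = ∫ τ : ℝ, (hmain Q X m : ℂ) * p.2 (m : ZMod p.1) *
          (G τ * (m : ℂ) ^ (-(1 + ((t - τ : ℝ) : ℂ) * Complex.I))) := by
      intro m hm
      rw [integral_const_mul, ← hterm m (mem_Icc.mp hm).1]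
      ring
    rw [Finset.sum_congr rfl h2, ← integral_finsetSum]
    · refine integral_congr_ae (Filter.Eventually.of_forall fun τ => ?_)
      simp only
      rw [MAINI_series p.2 hFN, Finset.mul_sum]
      refine Finset.sum_congr rfl fun m _ => ?_
      ring
    · intro m hm
      exact (hint m (mem_Icc.mp hm).1).const_mul _
  rw [hFF]
  have hMub : ∀ τ : ℝ, ‖Mu X p τ‖ ≤ 1 + Real.log (60 * X) := fun τ => Mu_le X p τ hX
  have hbint : Integrable fun τ : ℝ => (1 + τ ^ 2)⁻¹ * ‖Mu X p (t - τ)‖ ^ 3 := by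
    have h1 : Integrable (fun τ : ℝ => (1 + Real.log (60 * X)) ^ 3 * (1 + τ ^ 2)⁻¹) :=
      integrable_inv_one_add_sq.const_mul _
    have hc := continuous_Mu X p
    refine h1.mono' ?_ (Filter.Eventually.of_forall fun τ => ?_)
    · refine Continuous.aestronglyMeasurable ?_
      refine Continuous.mul ?_ (by fun_prop)
      exact Continuous.inv₀ (by fun_prop) (fun τ => by positivity)
    · have h2 : (0 : ℝ) ≤ (1 + τ ^ 2)⁻¹ := by positivity
      rw [Real.norm_of_nonneg (by positivity), mul_comm]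
      exact mul_le_mul_of_nonneg_right (pow_le_pow_left₀ (norm_nonneg _) (hMub _) 3) h2
  have hle : ‖∫ τ : ℝ, G τ * LSeries (fun n => MAINI_tw p.2 (hmain Q X) n)
        (1 + ((t - τ : ℝ) : ℂ) * Complex.I)‖ ≤
      ∫ τ : ℝ, C * (Real.log X) ^ (4 : ℝ) * ((1 + τ ^ 2)⁻¹ * ‖Mu X p (t - τ)‖ ^ 3) := by
    refine norm_integral_le_of_norm_le (hbint.const_mul _) (Filter.Eventually.of_forall fun τ => ?_)
    rw [norm_mul]
    have h1 := mainp_hmain_norm h p (t - τ)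
    calc ‖G τ‖ * ‖LSeries (fun n => MAINI_tw p.2 (hmain Q X) n)
          (1 + ((t - τ : ℝ) : ℂ) * Complex.I)‖
        ≤ (C * (1 + τ ^ 2)⁻¹) * ((Real.log X) ^ (4 : ℝ) * ‖Mu X p (t - τ)‖ ^ 3) :=
          mul_le_mul (hGb τ) h1 (norm_nonneg _) ((norm_nonneg _).trans (hGb τ))
      _ = _ := by ring
  refine hle.trans (le_of_eq ?_)
  rw [integral_const_mul]
  congr 1
  rw [← integral_neg_eq_self (fun τ : ℝ => (1 + τ ^ 2)⁻¹ * ‖Mu X p (t + τ)‖ ^ 3)]
  refine integral_congr_ae (Filter.Eventually.of_forall fun τ => ?_)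
  simp only [neg_sq, ← sub_eq_add_neg]

end Pool.Agent.Lib.H5C
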