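import Pool.Agent.Lib.H5C.RegP
import Pool.Agent.Lib.H68T.MV

/-!
# Chunk MV (port of `H68T/MV.lean` to the regime `RegP`)
-/

open Finset MeasureTheory ComplexConjugate Pool.Agent.Lib.H68T

namespace Pool.Agent.Lib.H5C

/-- **Mean value theorem.** `T = Q^11`, `S = ∑_p ∫_{-T}^{T} ‖M_p(t)‖² dt ≤ 100 (log X)^3`.

Proof (duality). `S = ∑_a μ(a)/a conj(E_a)`, `E_a = ∑_p ∫ M_p(t) conj(ψ_p(a)) a^(it) dt`, so
`S² ≤ (∑_a 1/a) (∑_a |E_a|²/a)`, all sums over `a ∈ [AA X, VV X]`; and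
`∑_a |E_a|²/a = ∑_{p,p'} ∫∫ M_p(t) conj(M_{p'}(t')) K_{p,p'}(t-t')`,
`K_{p,p'}(u) = ∑_a conj(ψ_p(a)) ψ_{p'}(a) a^(-1+iu)`. For `p ≠ p'` the function `conj ψ_p ψ_{p'}`
is periodic mod `r r'` with mean `0` (as `ψ_p, ψ_{p'}` are distinct primitive characters, their
lifts to level `r r'` differ), so `|K|` is small by `periodic_sum`; for `p = p'` one has
`|K(u)| ≤ (2 log V + 4) / (1 + |u|)` up to a small error, and Schur's test (`mv_dual`) finishes. -/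
theorem mean_valueP : ∃ K : ℝ, ∀ Q X : ℕ, RegP K Q X →
    ∑ p ∈ PC Q, ∫ t in (-(Q : ℝ) ^ 11)..((Q : ℝ) ^ 11), ‖Mu X p t‖ ^ 2 ≤
      100 * (Real.log X) ^ (3 : ℝ) := by
  obtain ⟨K1, hK1, h1⟩ := regp_pow_le 60 26 (1 / 4) (by norm_num)
  refine ⟨K1 + 100, fun Q X hR => ?_⟩
  have hR1 : RegP K1 Q X := hR.mono (by linarith) (by linarith)
  have hR2 : RegP 100 Q X := hR.mono (by linarith) (by linarith)
  have hX0 : 0 < X := hR2.X_pos (by norm_num)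
  have hXr : (100 : ℝ) ≤ X := hR2.X_ge (by norm_num)
  have hlX : (101 : ℝ) ≤ Real.log X := by
    have := hR2.logX_ge (by norm_num)
    have h2 := Real.add_one_le_exp (100 : ℝ)
    linarith
  have hQ1 : (100 : ℝ) ≤ Q := hR2.Q_ge (by norm_num)
  have hQ1' : (1 : ℝ) ≤ Q := by linarith
  have hlQ : 100 * Real.log Q ≤ Real.log X := hR2.logQ_le (by norm_num)
  have hlQ1 : 1 ≤ Real.log Q := by
    have := hR2.logQ_ge (by norm_num)
    linarith
  rcases lt_or_ge (VV X) (AA X) with hVA | hAV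
  · -- empty sum
    have h3 : ∀ p t, Mu X p t = 0 := by
      intro p t
      unfold Mu
      rw [Finset.Icc_eq_empty (by omega), Finset.sum_empty]
    have : ∑ p ∈ PC Q, ∫ t in (-(Q : ℝ) ^ 11)..((Q : ℝ) ^ 11), ‖Mu X p t‖ ^ 2 = 0 := by
      apply Finset.sum_eq_zero
      intro p _
      simp [h3]
    rw [this]
    positivity
  have hA : 1 ≤ AA X := by
    unfold AA
    rw [Nat.one_le_ceil_iff]
    positivity
  have hT0 : (0 : ℝ) ≤ (Q : ℝ) ^ 11 := by positivity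
  refine (mv_main Q X ((Q : ℝ) ^ 11) hT0 hA hAV).trans ?_
  -- bounds for the parameters
  have hVlog : Real.log (VV X) ≤ Real.log X := by
    have hV1 : (1 : ℝ) ≤ (VV X : ℝ) := by exact_mod_cast hA.trans hAV
    have h2 : (VV X : ℝ) ≤ ((60 * X : ℕ) : ℝ) ^ ((1 : ℝ) / 3) := Nat.floor_le (by positivity)
    have h3 : Real.log (VV X) ≤ (1 / 3) * Real.log ((60 * X : ℕ) : ℝ) := by
      rw [← Real.log_rpow (by positivity)]
      exact Real.log_le_log (by linarith) h2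
    have h4 : Real.log ((60 * X : ℕ) : ℝ) = Real.log 60 + Real.log X := by
      push_cast
      rw [Real.log_mul (by norm_num) (by positivity)]
    have h5 : Real.log 60 ≤ Real.log X := Real.log_le_log (by norm_num) (by linarith)
    have h6 : 0 ≤ Real.log X := by linarith
    linarith
  have hlogT : Real.log (1 + 2 * (Q : ℝ) ^ 11) ≤ Real.log X := by
    have h2 : 1 + 2 * (Q : ℝ) ^ 11 ≤ (Q : ℝ) ^ 12 := by
      have h3 : (1 : ℝ) ≤ (Q : ℝ) ^ 11 := one_le_pow₀ hQ1'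
      have h4 : (Q : ℝ) ^ 12 = (Q : ℝ) ^ 11 * Q := by ring
      rw [h4]
      nlinarith
    have h3 : Real.log (1 + 2 * (Q : ℝ) ^ 11) ≤ 12 * Real.log Q := by
      have := Real.log_le_log (by positivity) h2
      rw [Real.log_pow] at this
      push_cast at this
      exact this
    linarith
  have hsmall : (Q : ℝ) ^ 2 * (2 * (Q : ℝ) ^ 11) *
      (10 * (Q : ℝ) ^ 2 * (1 + 2 * (Q : ℝ) ^ 11) / AA X) ≤ 1 := by
    have hA' : (X : ℝ) ^ ((1 : ℝ) / 4) ≤ AA X := Nat.le_ceil _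
    have hXp : 0 < (X : ℝ) ^ ((1 : ℝ) / 4) := by positivity
    have hAp : (0 : ℝ) < AA X := hXp.trans_le hA'
    have h2 := h1 Q X hR1
    have h3 : (Q : ℝ) ^ (26 : ℝ) = (Q : ℝ) ^ 26 := by
      rw [← Real.rpow_natCast]; norm_num
    rw [h3] at h2
    rw [← mul_div_assoc, div_le_one hAp]
    have h4 : 1 + 2 * (Q : ℝ) ^ 11 ≤ 3 * (Q : ℝ) ^ 11 := by
      have h3 : (1 : ℝ) ≤ (Q : ℝ) ^ 11 := one_le_pow₀ hQ1'
      linarith
    calc (Q : ℝ) ^ 2 * (2 * (Q : ℝ) ^ 11) * (10 * (Q : ℝ) ^ 2 * (1 + 2 * (Q : ℝ) ^ 11))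
        ≤ (Q : ℝ) ^ 2 * (2 * (Q : ℝ) ^ 11) * (10 * (Q : ℝ) ^ 2 * (3 * (Q : ℝ) ^ 11)) := by
          gcongr
      _ = 60 * (Q : ℝ) ^ 26 := by ring
      _ ≤ _ := h2.trans hA'
  set L := Real.log X with hL
  have hV0 : 0 ≤ Real.log (VV X) := Real.log_nonneg (by exact_mod_cast hA.trans hAV)
  have hT1 : 0 ≤ Real.log (1 + 2 * (Q : ℝ) ^ 11) := Real.log_nonneg (by linarith)
  have h8 : (2 * Real.log (VV X) + 4) * (2 * Real.log (1 + 2 * (Q : ℝ) ^ 11)) ≤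
      (2 * L + 4) * (2 * L) := by
    apply mul_le_mul (by linarith) (by linarith) (by linarith) (by linarith)
  have h9 : (2 * Real.log (VV X) + 4) * (2 * Real.log (1 + 2 * (Q : ℝ) ^ 11)) +
      (Q : ℝ) ^ 2 * (2 * (Q : ℝ) ^ 11) *
      (10 * (Q : ℝ) ^ 2 * (1 + 2 * (Q : ℝ) ^ 11) / AA X) ≤ 6 * L ^ 2 := by
    nlinarith
  have h10 : 1 + Real.log (VV X) ≤ 2 * L := by linarith
  calc _ ≤ (6 * L ^ 2) * (2 * L) := mul_le_mul h9 h10 (by linarith) (by positivity)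
    _ ≤ 100 * L ^ 3 := by nlinarith [pow_pos (by linarith : 0 < L) 3]
    _ = 100 * L ^ (3 : ℝ) := by
      rw [← Real.rpow_natCast]; norm_num

end Pool.Agent.Lib.H5C
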