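import Pool.Agent.Lib.H5C.Defs
import Pool.Agent.Lib.H56G.Wgt1

/-!
# Chunk PM4a: taking primes away from a configuration
-/

open Finset
open Pool.Agent.Lib.H56G

namespace Pool.Agent.Lib.H5C

variable {ι J : Type} [Fintype ι] [DecidableEq ι] [Fintype J] [DecidableEq J]

/-- Take the primes of `E` away. -/
def rem (κ : ι → Option J) (E : Finset ι) : ι → Option J := fun i => if i ∈ E then none else κ i

theorem pm4a_vv (s : Sys ι J) (z θ : ℝ) (A : Finset ι) (hA : A ≠ ∅) :
    vv s (tb s z θ) A = θ ^ 2 * ((bw s z A) ^ 2 * s.phi A) := by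
  unfold vv gam tb
  rw [if_neg hA, neg_sq]
  ring

theorem pm4a_vv_empty (s : Sys ι J) (bb : Finset ι → ℝ) : vv s bb ∅ = 1 := by
  simp [vv, gam, Sys.phi]

theorem pm4a_vv_nonneg (s : Sys ι J) (bb : Finset ι → ℝ) (A : Finset ι) : 0 ≤ vv s bb A :=
  mul_nonneg (sq_nonneg _) (zero_le_one.trans (one_le_phi s A))

theorem pm4a_rho (s : Sys ι J) (A : Finset ι) (i : ι) (hi : i ∈ A) :
    s.rho A = (s.pr i : ℝ) * s.rho (A.erase i) := by
  unfold Sys.rho
  rw [Finset.mul_prod_erase A (fun i => (s.pr i : ℝ)) hi]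

theorem pm4a_phi (s : Sys ι J) (A : Finset ι) (i : ι) (hi : i ∈ A) :
    s.phi A = ((s.pr i : ℝ) - 1) * s.phi (A.erase i) := by
  unfold Sys.phi
  rw [Finset.mul_prod_erase A (fun i => ((s.pr i : ℝ) - 1)) hi]

/-- One part: `vv A ≤ (C²/(p-1)) vv (A \ {p})`. For `A = {p}`:
`vv A = θ²/(S² (p-1) log² p) ≤ C²/(p-1)`; otherwise `bb A ≤ bb (A \ {p})/(p-1)`
(`ρ(A \ {p}) ≤ ρ(A) ≤ z`). -/
theorem vv_erase (s : Sys ι J) (h3 : ∀ i, 3 ≤ s.pr i) (z θ C : ℝ) (hθ : 0 ≤ θ) (hθ1 : θ ≤ 1)
    (hS : 0 < SS s z) (hC1 : 1 ≤ C) (hC : 1 / SS s z ≤ C) (A : Finset ι) (i : ι) (hi : i ∈ A) :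
    vv s (tb s z θ) A ≤ C ^ 2 / ((s.pr i : ℝ) - 1) * vv s (tb s z θ) (A.erase i) := by
  have hA : A ≠ ∅ := Finset.ne_empty_of_mem hi
  have hp3 : (3 : ℝ) ≤ (s.pr i : ℝ) := by exact_mod_cast h3 i
  have hp : (0 : ℝ) < (s.pr i : ℝ) - 1 := by linarith
  have hθ2 : θ ^ 2 ≤ 1 := by nlinarith
  have hC2 : 1 ≤ C ^ 2 := by nlinarith
  have hR0 : 0 ≤ C ^ 2 / ((s.pr i : ℝ) - 1) * vv s (tb s z θ) (A.erase i) :=
    mul_nonneg (by positivity) (pm4a_vv_nonneg s _ _)
  by_cases hzA : s.rho A ≤ z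
  · by_cases hE : A.erase i = ∅
    · rw [hE, pm4a_vv_empty, mul_one, pm4a_vv s z θ A hA]
      have hφ : s.phi A = (s.pr i : ℝ) - 1 := by
        rw [pm4a_phi s A i hi, hE]
        simp [Sys.phi]
      have hρ : s.rho A = (s.pr i : ℝ) := by
        rw [pm4a_rho s A i hi, hE]
        simp [Sys.rho]
      have hbw : bw s z A = 1 / (SS s z * (((s.pr i : ℝ) - 1) * Real.log (s.pr i : ℝ))) := by
        unfold bw
        rw [if_pos ⟨hA, hzA⟩, hφ, hρ]
      have hlog : 1 ≤ Real.log (s.pr i : ℝ) := by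
        rw [Real.le_log_iff_exp_le (by linarith)]
        have := Real.exp_one_lt_d9
        linarith
      have hl0 : 0 < Real.log (s.pr i : ℝ) := by linarith
      have e1 : (bw s z A) ^ 2 * s.phi A =
          (1 / SS s z) ^ 2 * (1 / Real.log (s.pr i : ℝ)) ^ 2 * (1 / ((s.pr i : ℝ) - 1)) := by
        rw [hbw, hφ]
        field_simp
      rw [e1]
      have h4 : (1 / Real.log (s.pr i : ℝ)) ^ 2 ≤ 1 := by
        have h5 : 1 / Real.log (s.pr i : ℝ) ≤ 1 := by
          rw [div_le_one hl0]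
          exact hlog
        have h6 : 0 ≤ 1 / Real.log (s.pr i : ℝ) := by positivity
        nlinarith
      have h7 : (1 / SS s z) ^ 2 ≤ C ^ 2 := pow_le_pow_left₀ (by positivity) hC 2
      calc θ ^ 2 * ((1 / SS s z) ^ 2 * (1 / Real.log (s.pr i : ℝ)) ^ 2 *
            (1 / ((s.pr i : ℝ) - 1)))
          ≤ 1 * (C ^ 2 * 1 * (1 / ((s.pr i : ℝ) - 1))) := by gcongr
        _ = C ^ 2 / ((s.pr i : ℝ) - 1) := by ring
    · rw [pm4a_vv s z θ A hA, pm4a_vv s z θ _ hE]
      have hr := wgt1_one_lt_rho s (A.erase i) hE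
      have hph : 0 < s.phi (A.erase i) := lt_of_lt_of_le zero_lt_one (one_le_phi s _)
      have hρ := pm4a_rho s A i hi
      have hφ := pm4a_phi s A i hi
      have hρle : s.rho (A.erase i) ≤ s.rho A := by
        rw [hρ]
        nlinarith
      have hl : 0 < Real.log (s.rho (A.erase i)) := Real.log_pos hr
      have hll : Real.log (s.rho (A.erase i)) ≤ Real.log (s.rho A) :=
        Real.log_le_log (by linarith) hρle
      have hb : bw s z A ≤ bw s z (A.erase i) / ((s.pr i : ℝ) - 1) := by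
        unfold bw
        rw [if_pos ⟨hA, hzA⟩, if_pos ⟨hE, hρle.trans hzA⟩, div_div]
        apply one_div_le_one_div_of_le (by positivity)
        rw [hφ]
        calc SS s z * (s.phi (A.erase i) * Real.log (s.rho (A.erase i))) * ((s.pr i : ℝ) - 1)
            = SS s z * (((s.pr i : ℝ) - 1) * s.phi (A.erase i) *
                Real.log (s.rho (A.erase i))) := by ring
          _ ≤ SS s z * (((s.pr i : ℝ) - 1) * s.phi (A.erase i) * Real.log (s.rho A)) := by
              gcongr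
      have hb0 := bw_nonneg s z A
      have hb1 := bw_nonneg s z (A.erase i)
      have h8 : (bw s z A) ^ 2 ≤ (bw s z (A.erase i) / ((s.pr i : ℝ) - 1)) ^ 2 :=
        pow_le_pow_left₀ hb0 hb 2
      calc θ ^ 2 * ((bw s z A) ^ 2 * s.phi A)
          ≤ θ ^ 2 * ((bw s z (A.erase i) / ((s.pr i : ℝ) - 1)) ^ 2 *
              (((s.pr i : ℝ) - 1) * s.phi (A.erase i))) := by
            rw [hφ]
            gcongr
        _ = 1 / ((s.pr i : ℝ) - 1) * (θ ^ 2 * ((bw s z (A.erase i)) ^ 2 *
              s.phi (A.erase i))) := by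
            field_simp
        _ ≤ C ^ 2 / ((s.pr i : ℝ) - 1) * (θ ^ 2 * ((bw s z (A.erase i)) ^ 2 *
              s.phi (A.erase i))) := by
            gcongr
  · have hbw : bw s z A = 0 := by
      unfold bw
      rw [if_neg (fun h => hzA h.2)]
    rw [pm4a_vv s z θ A hA, hbw]
    simpa using hR0

theorem pm4a_step (s : Sys ι J) (h3 : ∀ i, 3 ≤ s.pr i) (z θ C : ℝ) (hθ : 0 ≤ θ) (hθ1 : θ ≤ 1)
    (hS : 0 < SS s z) (hC1 : 1 ≤ C) (hC : 1 / SS s z ≤ C) (κ : ι → Option J) (i : ι) :
    wt s (tb s z θ) κ ≤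
      (if i ∈ supp κ then C ^ 2 / ((s.pr i : ℝ) - 1) else 1) *
        wt s (tb s z θ) (fun i' => if i' = i then none else κ i') := by
  by_cases hi : i ∈ supp κ
  · rw [if_pos hi]
    obtain ⟨j, hj⟩ : ∃ j, κ i = some j := by
      rw [off_mem_supp] at hi
      exact Option.ne_none_iff_exists'.mp hi
    have hpart : part (fun i' => if i' = i then none else κ i') j = (part κ j).erase i := by
      ext i'
      rw [off_mem_part, Finset.mem_erase, off_mem_part]
      by_cases h : i' = i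
      · simp [h]
      · simp [h]
    have hother : ∀ j' ∈ univ.erase j,
        part (fun i' => if i' = i then none else κ i') j' = part κ j' := by
      intro j' hj'
      have hne := Finset.ne_of_mem_erase hj'
      ext i'
      rw [off_mem_part, off_mem_part]
      by_cases h : i' = i
      · subst h
        rw [if_pos rfl, hj]
        simp [hne.symm]
      · simp [h]
    unfold wt
    rw [← Finset.mul_prod_erase univ _ (Finset.mem_univ j),
      ← Finset.mul_prod_erase univ (fun j' => vv s (tb s z θ)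
        (part (fun i' => if i' = i then none else κ i') j')) (Finset.mem_univ j), hpart,
      Finset.prod_congr rfl (fun j' hj' => by rw [hother j' hj'] :
        ∀ j' ∈ univ.erase j, vv s (tb s z θ)
          (part (fun i' => if i' = i then none else κ i') j') = vv s (tb s z θ) (part κ j')),
      ← mul_assoc]
    refine mul_le_mul_of_nonneg_right ?_
      (Finset.prod_nonneg fun j' _ => pm4a_vv_nonneg s _ _)
    exact vv_erase s h3 z θ C hθ hθ1 hS hC1 hC (part κ j) i ((off_mem_part κ j i).mpr hj)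
  · rw [if_neg hi, one_mul]
    have h : (fun i' => if i' = i then none else κ i') = κ := by
      funext i'
      by_cases h' : i' = i
      · subst h'
        rw [if_pos rfl]
        rw [off_mem_supp, not_not] at hi
        exact hi.symm
      · rw [if_neg h']
    rw [h]

/-- Induction on `E` (`vv_erase` for the part of `κ` which contains the prime). -/
theorem wt_rem (s : Sys ι J) (h3 : ∀ i, 3 ≤ s.pr i) (z θ C : ℝ) (hθ : 0 ≤ θ) (hθ1 : θ ≤ 1)
    (hS : 0 < SS s z) (hC1 : 1 ≤ C) (hC : 1 / SS s z ≤ C) (κ : ι → Option J) (E : Finset ι) :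
    wt s (tb s z θ) κ ≤
      (∏ i ∈ E ∩ supp κ, C ^ 2 / ((s.pr i : ℝ) - 1)) * wt s (tb s z θ) (rem κ E) := by
  have hnn : ∀ i, 0 ≤ C ^ 2 / ((s.pr i : ℝ) - 1) := fun i => by
    have hp3 : (3 : ℝ) ≤ (s.pr i : ℝ) := by exact_mod_cast h3 i
    have hp : (0 : ℝ) < (s.pr i : ℝ) - 1 := by linarith
    positivity
  induction E using Finset.induction_on with
  | empty =>
    have h : rem κ ∅ = κ := by
      funext i
      simp [rem]
    rw [h]
    simp
  | insert a E ha ih =>
    have hstep := pm4a_step s h3 z θ C hθ hθ1 hS hC1 hC (rem κ E) a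
    have hrem : (fun i' => if i' = a then none else rem κ E i') = rem κ (insert a E) := by
      funext i'
      unfold rem
      by_cases h1 : i' = a
      · simp [h1]
      · simp [h1, Finset.mem_insert]
    rw [hrem] at hstep
    have hsupp : (a ∈ supp (rem κ E)) ↔ (a ∈ supp κ) := by
      rw [off_mem_supp, off_mem_supp]
      unfold rem
      rw [if_neg ha]
    have hprod : ∏ i ∈ insert a E ∩ supp κ, C ^ 2 / ((s.pr i : ℝ) - 1) =
        (∏ i ∈ E ∩ supp κ, C ^ 2 / ((s.pr i : ℝ) - 1)) *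
          (if a ∈ supp (rem κ E) then C ^ 2 / ((s.pr a : ℝ) - 1) else 1) := by
      by_cases h : a ∈ supp κ
      · rw [if_pos (hsupp.mpr h), Finset.insert_inter_of_mem h, Finset.prod_insert
          (fun h' => ha (Finset.mem_inter.mp h').1), mul_comm]
      · rw [if_neg (fun h' => h (hsupp.mp h')), Finset.insert_inter_of_notMem h, mul_one]
    rw [hprod, mul_assoc]
    exact ih.trans (mul_le_mul_of_nonneg_left hstep (Finset.prod_nonneg fun i _ => hnn i))

end Pool.Agent.Lib.H5C
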