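import Pool.Agent.Lib.H5C.Defs
import Pool.Agent.Lib.H56G.Wgt1
import Pool.Agent.Lib.H5C.PM4a

/-!
# Chunk PM4b: taking primes away from a configuration
-/

open Finset
open Pool.Agent.Lib.H56G

namespace Pool.Agent.Lib.H5C

variable {ι J : Type} [Fintype ι] [DecidableEq ι] [Fintype J] [DecidableEq J]

/-- Sum over the fibres of `κ ↦ rem κ E` (each fibre is a `Fintype.piFinset`). -/
theorem sum_rem (E : Finset ι) (F : (ι → Option J) → ℝ) (H : ι → Option J → ℝ) :
    ∑ κ : ι → Option J, F (rem κ E) * ∏ i ∈ E, H i (κ i) =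
      (∏ i ∈ E, ∑ a : Option J, H i a) *
        ∑ κ ∈ univ.filter (fun κ : ι → Option J => ∀ i ∈ E, κ i = none), F κ := by
  classical
  have h1 := Finset.sum_fiberwise_of_maps_to (s := (univ : Finset (ι → Option J)))
    (t := univ.filter (fun κ : ι → Option J => ∀ i ∈ E, κ i = none)) (g := fun κ => rem κ E)
    (fun κ _ => Finset.mem_filter.2 ⟨mem_univ _, fun i hi => by simp [rem, hi]⟩)
    (fun κ => F (rem κ E) * ∏ i ∈ E, H i (κ i))
  rw [← h1, Finset.mul_sum]
  refine Finset.sum_congr rfl fun κ' hκ' => ?_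
  have hκ'E := (Finset.mem_filter.1 hκ').2
  have h2 : univ.filter (fun κ : ι → Option J => rem κ E = κ') =
      Fintype.piFinset (fun i => if i ∈ E then (univ : Finset (Option J)) else {κ' i}) := by
    ext κ
    rw [Finset.mem_filter, Fintype.mem_piFinset]
    constructor
    · rintro ⟨_, h⟩ i
      split_ifs with hi
      · exact mem_univ _
      · rw [Finset.mem_singleton, ← h]
        simp [rem, hi]
    · intro h
      refine ⟨mem_univ _, ?_⟩
      funext i
      have hi' := h i
      by_cases hi : i ∈ E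
      · simp [rem, hi, hκ'E i hi]
      · rw [if_neg hi, Finset.mem_singleton] at hi'
        simp [rem, hi, hi']
  have h3 : ∑ κ ∈ univ.filter (fun κ : ι → Option J => rem κ E = κ'),
      F (rem κ E) * ∏ i ∈ E, H i (κ i) =
      F κ' * ∑ κ ∈ univ.filter (fun κ : ι → Option J => rem κ E = κ'),
        ∏ i, if i ∈ E then H i (κ i) else 1 := by
    rw [Finset.mul_sum]
    refine Finset.sum_congr rfl fun κ hκ => ?_
    rw [(Finset.mem_filter.1 hκ).2, Finset.prod_ite_mem, Finset.univ_inter]
  rw [h3, h2, ← Finset.prod_univ_sum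
    (t := fun i => if i ∈ E then (univ : Finset (Option J)) else {κ' i})
    (f := fun i a => if i ∈ E then H i a else 1), mul_comm]
  congr 1
  rw [← Finset.prod_subset (Finset.subset_univ E)]
  · refine Finset.prod_congr rfl fun i hi => ?_
    simp [hi]
  · intro i _ hi
    simp [hi]

end Pool.Agent.Lib.H5C
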