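import Pool.Agent.Lib.H5C.PM3
import Pool.Agent.Lib.H5C.PM4
import Pool.Agent.Lib.H56G.Coef1

/-!
# Chunk PM5a: the coefficients of the non-trivial families are small
-/

open Finset
open Pool.Agent.Lib.H56G

namespace Pool.Agent.Lib.H5C

variable {ι J : Type} [Fintype ι] [DecidableEq ι] [Fintype J] [DecidableEq J]

/-- The factor of a prime at which the family is not trivial; the exponent of `C/√(p-1)` is the
number of `a, a'` different from `none`. `(j,j)`: `|J| C²/(p-1)`; `(j,j')`:
`|J|² 4 C²/(p-1)² ≤ 4 |J| C²/(p-1)`; `(j,none)`, `(none,j)`: `2 · |J| · 2 C/(p-1)`. -/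
theorem pair_one (s : Sys ι J) (i : ι) (C : ℝ) (hC : 1 ≤ C)
    (hJ : (Fintype.card J : ℝ) ≤ (s.pr i : ℝ) - 1) :
    ∑ a : Option J, ∑ a' : Option J, g2 s i a a' / (√(qw s i a) * √(qw s i a')) *
      ((if a = none then 1 else C / √((s.pr i : ℝ) - 1)) *
        (if a' = none then 1 else C / √((s.pr i : ℝ) - 1))) ≤
      9 * C ^ 2 * Fintype.card J / ((s.pr i : ℝ) - 1) := by
  have hp2 : (2 : ℝ) ≤ s.pr i := by exact_mod_cast (s.prime i).two_le
  set q : ℝ := (s.pr i : ℝ) - 1 with hq
  have hq0 : 0 < q := by rw [hq]; linarith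
  have hsq : √q * √q = q := Real.mul_self_sqrt hq0.le
  have hsq0 : 0 < √q := Real.sqrt_pos.2 hq0
  set N : ℝ := (Fintype.card J : ℝ) with hN
  have hN0 : 0 ≤ N := by positivity
  have q1 : ∀ j : J, qw s i (some j) = q := fun j => rfl
  have q0 : qw s i (none : Option J) = 1 := rfl
  rw [Fintype.sum_option]
  simp_rw [Fintype.sum_option]
  have t00 : g2 s i (none : Option J) none = 0 := rfl
  have t01 : ∀ j : J, g2 s i none (some j) = 2 := fun j => rfl
  have t10 : ∀ j : J, g2 s i (some j) none = 2 := fun j => rfl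
  have t11 : ∀ j j' : J, g2 s i (some j) (some j') = if j = j' then q else 4 := fun j j' => rfl
  simp only [t00, t01, t10, t11, q1, q0, Real.sqrt_one, if_true, reduceCtorEq, if_false, one_mul,
    mul_one, zero_div, zero_add]
  have e1 : ∀ j : J, 2 / √q * (C / √q) = 2 * C / q := by
    intro j
    rw [div_mul_div_comm, hsq]
  have h2 : ∀ j : J, ∑ j' : J, (if j = j' then q else 4) / (√q * √q) * (C / √q * (C / √q)) ≤
      5 * C ^ 2 / q := by
    intro j
    rw [← Finset.sum_mul, ← Finset.sum_div, hsq]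
    have e2 : C / √q * (C / √q) = C ^ 2 / q := by
      rw [div_mul_div_comm, hsq, sq]
    rw [e2]
    have h3 : ∑ j' : J, (if j = j' then q else 4) ≤ 5 * q := by
      calc ∑ j' : J, (if j = j' then q else 4) ≤ ∑ j' : J, ((if j = j' then q else 0) + 4) := by
            apply Finset.sum_le_sum
            intro j' _
            split_ifs
            · linarith
            · linarith
        _ = q + 4 * N := by
            rw [Finset.sum_add_distrib, Finset.sum_ite_eq, if_pos (mem_univ _), Finset.sum_const,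
              nsmul_eq_mul, hN, Finset.card_univ]
            ring
        _ ≤ 5 * q := by linarith
    calc (∑ j' : J, (if j = j' then q else 4)) / q * (C ^ 2 / q) ≤ 5 * q / q * (C ^ 2 / q) := by
          gcongr
      _ = 5 * C ^ 2 / q := by
          field_simp
  calc ∑ j : J, 2 / √q * (C / √q) + ∑ j : J, (2 / √q * (C / √q) +
        ∑ j' : J, (if j = j' then q else 4) / (√q * √q) * (C / √q * (C / √q)))
      ≤ ∑ j : J, 2 * C / q + ∑ j : J, (2 * C / q + 5 * C ^ 2 / q) := by
        apply add_le_add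
        · exact Finset.sum_le_sum fun j _ => (e1 j).le
        · exact Finset.sum_le_sum fun j _ => add_le_add (e1 j).le (h2 j)
    _ = N * (4 * C + 5 * C ^ 2) / q := by
        rw [Finset.sum_const, Finset.sum_const, nsmul_eq_mul, nsmul_eq_mul, Finset.card_univ, ← hN]
        ring
    _ ≤ N * (9 * C ^ 2) / q := by
        have : 4 * C + 5 * C ^ 2 ≤ 9 * C ^ 2 := by nlinarith
        gcongr
    _ = 9 * C ^ 2 * N / q := by ring

end Pool.Agent.Lib.H5C
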