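import Pool.Agent.Lib.H5C.PM3
import Pool.Agent.Lib.H5C.PM4
import Pool.Agent.Lib.H56G.Coef1
import Pool.Agent.Lib.H5C.PM5a

/-!
# Chunk PM5b: the coefficients of the non-trivial families are small
-/

open Finset
open Pool.Agent.Lib.H56G

namespace Pool.Agent.Lib.H5C

variable {ι J : Type} [Fintype ι] [DecidableEq ι] [Fintype J] [DecidableEq J]

theorem PM5b_q_pos (s : Sys ι J) (i : ι) (a : Option J) : 0 < qw s i a := by
  have hp2 : (2 : ℝ) ≤ s.pr i := by exact_mod_cast (s.prime i).two_le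
  cases a with
  | none => exact one_pos
  | some j =>
    show 0 < (s.pr i : ℝ) - 1
    linarith

theorem PM5b_sqrt_ph (s : Sys ι J) (κ : ι → Option J) :
    √(s.ph κ) = ∏ i, √(qw s i (κ i)) := by
  rw [← Real.sqrt_prod _ (fun i _ => (PM5b_q_pos s i (κ i)).le)]
  congr 1
  unfold Sys.ph Sys.phi supp
  rw [Finset.prod_filter]
  apply Finset.prod_congr rfl
  intro i _
  cases h : κ i with
  | none => simp [qw]
  | some j => simp [qw]

/-- The normalised size of the coefficient. -/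
noncomputable def PM5b_n (s : Sys ι J) (z θ D : ℝ) (κ : ι → Option J) : ℝ :=
  if s.r κ ≤ D then √(wt s (tb s z θ) κ) else 0

theorem PM5b_n_nonneg (s : Sys ι J) (z θ D : ℝ) (κ : ι → Option J) : 0 ≤ PM5b_n s z θ D κ := by
  unfold PM5b_n
  split_ifs
  · exact Real.sqrt_nonneg _
  · exact le_rfl

theorem PM5b_n_sq (s : Sys ι J) (z θ D : ℝ) (κ : ι → Option J) :
    PM5b_n s z θ D κ ^ 2 ≤ wt s (tb s z θ) κ := by
  unfold PM5b_n
  split_ifs
  · rw [Real.sq_sqrt (wt_nonneg s _ κ)]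
  · rw [zero_pow two_ne_zero]
    exact wt_nonneg s _ κ

theorem PM5b_c (s : Sys ι J) (z θ D c : ℝ) (κ : ι → Option J)
    (hc : |c| ≤ |cc s (tb s z θ) D κ|) : |c| * √(s.ph κ) ≤ PM5b_n s z θ D κ := by
  unfold PM5b_n
  split_ifs with h
  · rw [← cc_sq_mul_ph s (tb s z θ) D κ h, Real.sqrt_mul (sq_nonneg _), Real.sqrt_sq_eq_abs]
    exact mul_le_mul_of_nonneg_right hc (Real.sqrt_nonneg _)
  · have h0 : cc s (tb s z θ) D κ = 0 := by
      unfold cc
      rw [if_neg h]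
    rw [h0, abs_zero] at hc
    have h1 : |c| = 0 := le_antisymm hc (abs_nonneg _)
    rw [h1, zero_mul]

/-- The cost of taking away. -/
noncomputable def PM5b_t (s : Sys ι J) (C : ℝ) (E : Finset ι) (i : ι) (a : Option J) : ℝ :=
  if i ∈ E then (if a = none then 1 else C / √((s.pr i : ℝ) - 1)) else 1

theorem PM5b_t_nonneg (s : Sys ι J) (C : ℝ) (hC : 1 ≤ C) (E : Finset ι) (i : ι) (a : Option J) :
    0 ≤ PM5b_t s C E i a := by
  unfold PM5b_t
  split_ifs
  · exact zero_le_one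
  · positivity
  · exact zero_le_one

theorem PM5b_r_rem (s : Sys ι J) (κ : ι → Option J) (E : Finset ι) : s.r (rem κ E) ≤ s.r κ := by
  unfold Sys.r Sys.rho
  apply Finset.prod_le_prod_of_subset_of_one_le
  · intro i hi
    unfold supp rem at hi
    unfold supp
    rw [mem_filter] at hi ⊢
    refine ⟨mem_univ _, ?_⟩
    by_contra h
    have := hi.2
    split_ifs at this
    · simp at this
    · exact h this
  · intro i _
    positivity
  · intro i _ _
    have hp2 : (2 : ℝ) ≤ s.pr i := by exact_mod_cast (s.prime i).two_le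
    linarith

theorem PM5b_rem (s : Sys ι J) (h3 : ∀ i, 3 ≤ s.pr i) (z θ C D : ℝ)
    (hθ : 0 ≤ θ) (hθ1 : θ ≤ 1) (hS : 0 < SS s z) (hC1 : 1 ≤ C) (hC : 1 / SS s z ≤ C)
    (κ : ι → Option J) (E : Finset ι) :
    PM5b_n s z θ D κ ≤ (∏ i, PM5b_t s C E i (κ i)) * PM5b_n s z θ D (rem κ E) := by
  by_cases h : s.r κ ≤ D
  · have h' : s.r (rem κ E) ≤ D := (PM5b_r_rem s κ E).trans h
    unfold PM5b_n
    rw [if_pos h, if_pos h']
    have h1 := wt_rem s h3 z θ C hθ hθ1 hS hC1 hC κ E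
    have h2 : (∏ i, PM5b_t s C E i (κ i)) = √(∏ i ∈ E ∩ supp κ, C ^ 2 / ((s.pr i : ℝ) - 1)) := by
      rw [Real.sqrt_prod]
      · have e1 : ∀ i, PM5b_t s C E i (κ i) =
            if i ∈ E ∩ supp κ then √(C ^ 2 / ((s.pr i : ℝ) - 1)) else 1 := by
          intro i
          unfold PM5b_t
          by_cases hi : i ∈ E
          · rw [if_pos hi]
            by_cases hk : κ i = none
            · rw [if_pos hk, if_neg]
              rw [mem_inter]
              rintro ⟨_, h4⟩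
              unfold supp at h4
              rw [mem_filter, hk] at h4
              simp at h4
            · rw [if_neg hk, if_pos]
              · rw [Real.sqrt_div (by positivity), Real.sqrt_sq (by linarith)]
              · rw [mem_inter]
                refine ⟨hi, ?_⟩
                unfold supp
                rw [mem_filter]
                refine ⟨mem_univ _, ?_⟩
                rw [Option.isSome_iff_ne_none]
                exact hk
          · rw [if_neg hi, if_neg]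
            rw [mem_inter]
            exact fun h4 => hi h4.1
        rw [Finset.prod_congr rfl (fun i _ => e1 i), Finset.prod_ite_mem, Finset.univ_inter]
      · intro i _
        have hp2 : (2 : ℝ) ≤ s.pr i := by exact_mod_cast (s.prime i).two_le
        have : 0 < (s.pr i : ℝ) - 1 := by linarith
        positivity
    rw [h2, ← Real.sqrt_mul]
    · exact Real.sqrt_le_sqrt h1
    · apply Finset.prod_nonneg
      intro i _
      have hp2 : (2 : ℝ) ≤ s.pr i := by exact_mod_cast (s.prime i).two_le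
      have : 0 < (s.pr i : ℝ) - 1 := by linarith
      positivity
  · have h0 : PM5b_n s z θ D κ = 0 := by unfold PM5b_n; rw [if_neg h]
    rw [h0]
    exact mul_nonneg (Finset.prod_nonneg fun i _ => PM5b_t_nonneg s C hC1 E i _)
      (PM5b_n_nonneg s z θ D _)

theorem PM5b_schur {α : Type} [Fintype α] (F : α → ℝ) (A : α → α → ℝ)
    (hs : ∀ x y, A x y = A y x) (h0 : ∀ x y, 0 ≤ A x y) :
    ∑ x, ∑ y, F x * F y * A x y ≤ ∑ x, F x ^ 2 * ∑ y, A x y := by
  have h1 : ∑ x, ∑ y, F x * F y * A x y ≤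
      ∑ x, ∑ y, (1 / 2 * (F x ^ 2 * A x y) + 1 / 2 * (F y ^ 2 * A x y)) := by
    apply Finset.sum_le_sum
    intro x _
    apply Finset.sum_le_sum
    intro y _
    have h2 : F x * F y ≤ 1 / 2 * F x ^ 2 + 1 / 2 * F y ^ 2 := by nlinarith [sq_nonneg (F x - F y)]
    calc F x * F y * A x y ≤ (1 / 2 * F x ^ 2 + 1 / 2 * F y ^ 2) * A x y :=
          mul_le_mul_of_nonneg_right h2 (h0 x y)
      _ = _ := by ring
  refine h1.trans (le_of_eq ?_)
  have e1 : ∑ x, ∑ y, (1 / 2 * (F x ^ 2 * A x y) + 1 / 2 * (F y ^ 2 * A x y)) =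
      1 / 2 * ∑ x, ∑ y, F x ^ 2 * A x y + 1 / 2 * ∑ x, ∑ y, F y ^ 2 * A x y := by
    rw [Finset.mul_sum, Finset.mul_sum, ← Finset.sum_add_distrib]
    apply Finset.sum_congr rfl
    intro x _
    rw [Finset.mul_sum, Finset.mul_sum, ← Finset.sum_add_distrib]
  have e2 : ∑ x, ∑ y, F y ^ 2 * A x y = ∑ x, ∑ y, F x ^ 2 * A x y := by
    rw [Finset.sum_comm]
    apply Finset.sum_congr rfl
    intro x _
    apply Finset.sum_congr rfl
    intro y _
    rw [hs y x]
  rw [e1, e2]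
  have e3 : ∑ x, F x ^ 2 * ∑ y, A x y = ∑ x, ∑ y, F x ^ 2 * A x y := by
    apply Finset.sum_congr rfl
    intro x _
    rw [Finset.mul_sum]
  rw [e3]
  ring

/-- The unnormalised bound at one prime. -/
noncomputable def PM5b_h (s : Sys ι J) (E : Finset ι) (i : ι) (a a' : Option J) : ℝ :=
  if i ∈ E then g2 s i a a' else |g1 s i a a'|

theorem PM5b_g2_nonneg (s : Sys ι J) (i : ι) (a a' : Option J) : 0 ≤ g2 s i a a' := by
  have hp2 : (2 : ℝ) ≤ s.pr i := by exact_mod_cast (s.prime i).two_le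
  cases a with
  | none =>
    cases a' with
    | none => exact le_rfl
    | some j' => exact zero_le_two
  | some j =>
    cases a' with
    | none => exact zero_le_two
    | some j' =>
      show 0 ≤ if j = j' then (s.pr i : ℝ) - 1 else 4
      split_ifs
      · linarith
      · norm_num

theorem PM5b_h_nonneg (s : Sys ι J) (E : Finset ι) (i : ι) (a a' : Option J) :
    0 ≤ PM5b_h s E i a a' := by
  unfold PM5b_h
  split_ifs
  · exact PM5b_g2_nonneg s i a a'
  · exact abs_nonneg _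

theorem PM5b_h_symm (s : Sys ι J) (E : Finset ι) (i : ι) (a a' : Option J) :
    PM5b_h s E i a a' = PM5b_h s E i a' a := by
  unfold PM5b_h
  cases a with
  | none =>
    cases a' with
    | none => rfl
    | some j' => rfl
  | some j =>
    cases a' with
    | none => rfl
    | some j' =>
      have e1 : g2 s i (some j) (some j') = g2 s i (some j') (some j) := by
        show (if j = j' then (s.pr i : ℝ) - 1 else 4) = if j' = j then (s.pr i : ℝ) - 1 else 4
        by_cases h : j = j'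
        · rw [if_pos h, if_pos h.symm]
        · rw [if_neg h, if_neg (fun h' => h h'.symm)]
      have e2 : g1 s i (some j) (some j') = g1 s i (some j') (some j) := by
        show (if j = j' then ((s.pr i : ℝ) ^ 2 - s.pr i - 1) / ((s.pr i : ℝ) - 1)
          else -(((s.pr i : ℝ) + 1) / ((s.pr i : ℝ) - 1))) =
          if j' = j then ((s.pr i : ℝ) ^ 2 - s.pr i - 1) / ((s.pr i : ℝ) - 1)
          else -(((s.pr i : ℝ) + 1) / ((s.pr i : ℝ) - 1))
        by_cases h : j = j'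
        · rw [if_pos h, if_pos h.symm]
        · rw [if_neg h, if_neg (fun h' => h h'.symm)]
      rw [e1, e2]

/-- The normalised matrix at one prime. -/
noncomputable def PM5b_L (s : Sys ι J) (C : ℝ) (E : Finset ι) (i : ι) (a a' : Option J) : ℝ :=
  PM5b_h s E i a a' / (√(qw s i a) * √(qw s i a')) * (PM5b_t s C E i a * PM5b_t s C E i a')

theorem PM5b_L_nonneg (s : Sys ι J) (C : ℝ) (hC : 1 ≤ C) (E : Finset ι) (i : ι) (a a' : Option J) :
    0 ≤ PM5b_L s C E i a a' := by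
  unfold PM5b_L
  have h1 := PM5b_h_nonneg s E i a a'
  have h2 := PM5b_t_nonneg s C hC E i a
  have h3 := PM5b_t_nonneg s C hC E i a'
  positivity

theorem PM5b_L_symm (s : Sys ι J) (C : ℝ) (E : Finset ι) (i : ι) (a a' : Option J) :
    PM5b_L s C E i a a' = PM5b_L s C E i a' a := by
  unfold PM5b_L
  rw [PM5b_h_symm, mul_comm (√(qw s i a)), mul_comm (PM5b_t s C E i a)]

theorem PM5b_term (s : Sys ι J) (h3 : ∀ i, 3 ≤ s.pr i) (z θ C D : ℝ)
    (hθ : 0 ≤ θ) (hθ1 : θ ≤ 1) (hS : 0 < SS s z) (hC1 : 1 ≤ C) (hC : 1 / SS s z ≤ C) (j0 : J)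
    (c' : (ι → Option J) → ℝ) (hc : ∀ κ ∈ noJ j0, |c' κ| ≤ |cc s (tb s z θ) D κ|) (χ : Fam s)
    (κ κ' : ι → Option J) (hκ : κ ∈ noJ j0) (hκ' : κ' ∈ noJ j0) :
    ‖((c' κ * c' κ' : ℝ) : ℂ) * ∏ i, gh s j0 i (κ i) (κ' i) (χ i)‖ ≤
      PM5b_n s z θ D (rem κ (csupp s χ)) * PM5b_n s z θ D (rem κ' (csupp s χ)) *
        ∏ i, PM5b_L s C (csupp s χ) i (κ i) (κ' i) := by
  classical
  set E := csupp s χ with hE
  have hk : ∀ i, κ i ≠ some j0 := by
    unfold noJ at hκ
    exact (mem_filter.1 hκ).2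
  have hk' : ∀ i, κ' i ≠ some j0 := by
    unfold noJ at hκ'
    exact (mem_filter.1 hκ').2
  have hg : ∀ i, ‖gh s j0 i (κ i) (κ' i) (χ i)‖ ≤ PM5b_h s E i (κ i) (κ' i) := by
    intro i
    unfold PM5b_h
    by_cases hi : i ∈ E
    · rw [if_pos hi]
      apply norm_gh_le s j0 i _ _ (hk i) (hk' i)
      rw [hE] at hi
      unfold csupp at hi
      exact (mem_filter.1 hi).2
    · rw [if_neg hi]
      have h1 : χ i = 1 := by
        by_contra h
        apply hi
        rw [hE]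
        unfold csupp
        rw [mem_filter]
        exact ⟨mem_univ _, h⟩
      rw [h1, gh_one s j0 i _ _ (hk i) (hk' i), Complex.norm_real, Real.norm_eq_abs]
  have hq : ∀ i a, √(qw s i a) ≠ 0 := fun i a => (Real.sqrt_pos.2 (PM5b_q_pos s i a)).ne'
  have e1 : ∏ i, PM5b_h s E i (κ i) (κ' i) =
      (∏ i, PM5b_h s E i (κ i) (κ' i) / (√(qw s i (κ i)) * √(qw s i (κ' i)))) *
        (√(s.ph κ) * √(s.ph κ')) := by
    rw [PM5b_sqrt_ph, PM5b_sqrt_ph, ← Finset.prod_mul_distrib, ← Finset.prod_mul_distrib]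
    apply Finset.prod_congr rfl
    intro i _
    have h1 := hq i (κ i)
    have h2 := hq i (κ' i)
    field_simp
  have e2 : ∏ i, PM5b_L s C E i (κ i) (κ' i) =
      (∏ i, PM5b_h s E i (κ i) (κ' i) / (√(qw s i (κ i)) * √(qw s i (κ' i)))) *
        ((∏ i, PM5b_t s C E i (κ i)) * ∏ i, PM5b_t s C E i (κ' i)) := by
    rw [← Finset.prod_mul_distrib, ← Finset.prod_mul_distrib]
    rfl
  set P := ∏ i, PM5b_h s E i (κ i) (κ' i) / (√(qw s i (κ i)) * √(qw s i (κ' i))) with hP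
  have hP0 : 0 ≤ P := by
    apply Finset.prod_nonneg
    intro i _
    have := PM5b_h_nonneg s E i (κ i) (κ' i)
    positivity
  have n1 := (PM5b_c s z θ D (c' κ) κ (hc κ hκ)).trans
    (PM5b_rem s h3 z θ C D hθ hθ1 hS hC1 hC κ E)
  have n2 := (PM5b_c s z θ D (c' κ') κ' (hc κ' hκ')).trans
    (PM5b_rem s h3 z θ C D hθ hθ1 hS hC1 hC κ' E)
  calc ‖((c' κ * c' κ' : ℝ) : ℂ) * ∏ i, gh s j0 i (κ i) (κ' i) (χ i)‖
      = |c' κ| * |c' κ'| * ∏ i, ‖gh s j0 i (κ i) (κ' i) (χ i)‖ := by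
        rw [norm_mul, Complex.norm_real, Real.norm_eq_abs, abs_mul, norm_prod]
    _ ≤ |c' κ| * |c' κ'| * ∏ i, PM5b_h s E i (κ i) (κ' i) := by
        apply mul_le_mul_of_nonneg_left _ (by positivity)
        exact Finset.prod_le_prod (fun i _ => norm_nonneg _) (fun i _ => hg i)
    _ = (|c' κ| * √(s.ph κ)) * (|c' κ'| * √(s.ph κ')) * P := by
        rw [e1]
        ring
    _ ≤ ((∏ i, PM5b_t s C E i (κ i)) * PM5b_n s z θ D (rem κ E)) *
        ((∏ i, PM5b_t s C E i (κ' i)) * PM5b_n s z θ D (rem κ' E)) * P := by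
        apply mul_le_mul_of_nonneg_right _ hP0
        apply mul_le_mul n1 n2 (by positivity)
        exact mul_nonneg (Finset.prod_nonneg fun i _ => PM5b_t_nonneg s C hC1 E i _)
          (PM5b_n_nonneg s z θ D _)
    _ = _ := by
        rw [e2]
        ring

/-- With `E = csupp s χ` and `n(κ) = √(wt κ)` (`|c' κ| √(ph κ) ≤ n(κ)`, and `c' κ = 0` if `r κ > D`):
`‖wch‖ ≤ ∑_{κ,κ'} n(κ) n(κ') ∏_i ‖gh‖/(√q √q')`, and by `wt_rem`
`n(κ) ≤ ∏_{E ∩ supp κ} (C/√(p-1)) n(rem κ E)`; `n n' ≤ (n² + n'²)/2` and symmetry reduce this to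
`∑_κ n(rem κ E)² ∏_{i ∈ E} H_i(κ i) ∏_{i ∉ E} (row sum)`, with `row_prod` for `rem κ E` and
`T = Eᶜ` (only `κ` with `r (rem κ E) ≤ D`), `sum_rem` and `pair_one`. -/
theorem norm_wch_le (s : Sys ι J) (W : ℕ) (hW : 2 ≤ W) (hpr : ∀ i, W < s.pr i)
    (hJW : Fintype.card J ≤ W) (z θ C D : ℝ) (hD : 1 ≤ D)
    (hθ : 0 ≤ θ) (hθ1 : θ ≤ 1) (hS : 0 < SS s z) (hC1 : 1 ≤ C) (hC : 1 / SS s z ≤ C) (j0 : J)
    (c' : (ι → Option J) → ℝ) (hc : ∀ κ ∈ noJ j0, |c' κ| ≤ |cc s (tb s z θ) D κ|) (χ : Fam s) :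
    ‖wch s j0 c' χ‖ ≤ RR J W D * ZZ s (tb s z θ) *
      ∏ i ∈ csupp s χ, (9 * C ^ 2 * Fintype.card J / ((s.pr i : ℝ) - 1)) := by
  classical
  have h3 : ∀ i, 3 ≤ s.pr i := fun i => by have := hpr i; omega
  set E := csupp s χ with hE
  set n := PM5b_n s z θ D with hn
  set A : (ι → Option J) → (ι → Option J) → ℝ := fun κ κ' => ∏ i, PM5b_L s C E i (κ i) (κ' i)
    with hA
  have hA0 : ∀ κ κ', 0 ≤ A κ κ' := fun κ κ' =>
    Finset.prod_nonneg fun i _ => PM5b_L_nonneg s C hC1 E i _ _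
  have hn0 : ∀ κ, 0 ≤ n κ := PM5b_n_nonneg s z θ D
  have s1 : ‖wch s j0 c' χ‖ ≤ ∑ κ, ∑ κ', n (rem κ E) * n (rem κ' E) * A κ κ' := by
    unfold wch
    calc ‖∑ κ ∈ noJ j0, ∑ κ' ∈ noJ j0, ((c' κ * c' κ' : ℝ) : ℂ) *
          ∏ i, gh s j0 i (κ i) (κ' i) (χ i)‖
        ≤ ∑ κ ∈ noJ j0, ∑ κ' ∈ noJ j0, ‖((c' κ * c' κ' : ℝ) : ℂ) *
          ∏ i, gh s j0 i (κ i) (κ' i) (χ i)‖ :=
          (norm_sum_le _ _).trans (Finset.sum_le_sum fun κ _ => norm_sum_le _ _)
      _ ≤ ∑ κ ∈ noJ j0, ∑ κ' ∈ noJ j0, n (rem κ E) * n (rem κ' E) * A κ κ' := by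
          apply Finset.sum_le_sum
          intro κ hκ
          apply Finset.sum_le_sum
          intro κ' hκ'
          exact PM5b_term s h3 z θ C D hθ hθ1 hS hC1 hC j0 c' hc χ κ κ' hκ hκ'
      _ ≤ ∑ κ ∈ noJ j0, ∑ κ', n (rem κ E) * n (rem κ' E) * A κ κ' := by
          apply Finset.sum_le_sum
          intro κ _
          apply Finset.sum_le_univ_sum_of_nonneg
          intro κ'
          exact mul_nonneg (mul_nonneg (hn0 _) (hn0 _)) (hA0 _ _)
      _ ≤ _ := by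
          apply Finset.sum_le_univ_sum_of_nonneg
          intro κ
          apply Finset.sum_nonneg
          intro κ' _
          exact mul_nonneg (mul_nonneg (hn0 _) (hn0 _)) (hA0 _ _)
  have s2 : ∑ κ, ∑ κ', n (rem κ E) * n (rem κ' E) * A κ κ' ≤
      ∑ κ, n (rem κ E) ^ 2 * ∑ κ', A κ κ' :=
    PM5b_schur (fun κ => n (rem κ E)) A
      (fun κ κ' => Finset.prod_congr rfl fun i _ => PM5b_L_symm s C E i _ _) hA0
  set H : ι → Option J → ℝ := fun i a => ∑ a', PM5b_L s C E i a a' with hH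
  have hH0 : ∀ i a, 0 ≤ H i a := fun i a =>
    Finset.sum_nonneg fun a' _ => PM5b_L_nonneg s C hC1 E i _ _
  have s3 : ∀ κ, ∑ κ', A κ κ' = ∏ i, H i (κ i) := by
    intro κ
    rw [hH, hA]
    simp only
    rw [Finset.prod_univ_sum, Fintype.piFinset_univ]
  have hRR : 0 ≤ RR J W D := (Real.exp_pos _).le
  have s4 : ∀ κ, n (rem κ E) ^ 2 * ∏ i, H i (κ i) ≤
      RR J W D * (n (rem κ E) ^ 2 * ∏ i ∈ E, H i (κ i)) := by
    intro κ
    by_cases hr : s.r (rem κ E) ≤ D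
    · rw [← Finset.prod_mul_prod_compl E (fun i => H i (κ i))]
      have h4 : ∏ i ∈ Eᶜ, H i (κ i) ≤ RR J W D := by
        have h5 := row_prod s W hW hpr D (rem κ E) hr Eᶜ
        refine le_trans (le_of_eq ?_) h5
        apply Finset.prod_congr rfl
        intro i hi
        rw [mem_compl] at hi
        have e1 : rem κ E i = κ i := by unfold rem; rw [if_neg hi]
        rw [e1, hH]
        simp only
        apply Finset.sum_congr rfl
        intro a' _
        unfold PM5b_L PM5b_h PM5b_t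
        rw [if_neg hi, if_neg hi, if_neg hi, one_mul, mul_one]
      have h6 : 0 ≤ ∏ i ∈ E, H i (κ i) := Finset.prod_nonneg fun i _ => hH0 i _
      have h7 : 0 ≤ n (rem κ E) ^ 2 * ∏ i ∈ E, H i (κ i) := by positivity
      calc n (rem κ E) ^ 2 * ((∏ i ∈ E, H i (κ i)) * ∏ i ∈ Eᶜ, H i (κ i))
          = (n (rem κ E) ^ 2 * ∏ i ∈ E, H i (κ i)) * ∏ i ∈ Eᶜ, H i (κ i) := by ring
        _ ≤ (n (rem κ E) ^ 2 * ∏ i ∈ E, H i (κ i)) * RR J W D :=
            mul_le_mul_of_nonneg_left h4 h7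
        _ = _ := by ring
    · have h0 : n (rem κ E) = 0 := by
        rw [hn]
        unfold PM5b_n
        rw [if_neg hr]
      rw [h0, zero_pow two_ne_zero, zero_mul, zero_mul, mul_zero]
  have s5 : ∀ i ∈ E, ∑ a, H i a ≤ 9 * C ^ 2 * Fintype.card J / ((s.pr i : ℝ) - 1) := by
    intro i hi
    have hJ : (Fintype.card J : ℝ) ≤ (s.pr i : ℝ) - 1 := by
      have h5 : Fintype.card J + 1 ≤ s.pr i := by have := hpr i; omega
      have h6 : ((Fintype.card J + 1 : ℕ) : ℝ) ≤ s.pr i := by exact_mod_cast h5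
      push_cast at h6
      linarith
    refine le_trans (le_of_eq ?_) (pair_one s i C hC1 hJ)
    rw [hH]
    simp only
    apply Finset.sum_congr rfl
    intro a _
    apply Finset.sum_congr rfl
    intro a' _
    unfold PM5b_L PM5b_h PM5b_t
    rw [if_pos hi, if_pos hi, if_pos hi]
  calc ‖wch s j0 c' χ‖ ≤ ∑ κ, n (rem κ E) ^ 2 * ∏ i, H i (κ i) := by
        refine (s1.trans s2).trans (le_of_eq ?_)
        apply Finset.sum_congr rfl
        intro κ _
        rw [s3]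
    _ ≤ ∑ κ, RR J W D * (n (rem κ E) ^ 2 * ∏ i ∈ E, H i (κ i)) :=
        Finset.sum_le_sum fun κ _ => s4 κ
    _ = RR J W D * ((∏ i ∈ E, ∑ a : Option J, H i a) *
        ∑ κ ∈ univ.filter (fun κ : ι → Option J => ∀ i ∈ E, κ i = none), n κ ^ 2) := by
        rw [← Finset.mul_sum, sum_rem E (fun κ => n κ ^ 2) H]
    _ ≤ RR J W D * ((∏ i ∈ E, (9 * C ^ 2 * Fintype.card J / ((s.pr i : ℝ) - 1))) *
        ZZ s (tb s z θ)) := by
        apply mul_le_mul_of_nonneg_left _ hRR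
        apply mul_le_mul
        · exact Finset.prod_le_prod (fun i _ => Finset.sum_nonneg fun a _ => hH0 i a) s5
        · unfold ZZ
          calc ∑ κ ∈ univ.filter (fun κ : ι → Option J => ∀ i ∈ E, κ i = none), n κ ^ 2
              ≤ ∑ κ, n κ ^ 2 := Finset.sum_le_univ_sum_of_nonneg fun κ => sq_nonneg _
            _ ≤ _ := Finset.sum_le_sum fun κ _ => PM5b_n_sq s z θ D κ
        · exact Finset.sum_nonneg fun κ _ => sq_nonneg _
        · apply Finset.prod_nonneg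
          intro i _
          have hp2 : (2 : ℝ) ≤ s.pr i := by exact_mod_cast (s.prime i).two_le
          have : 0 < (s.pr i : ℝ) - 1 := by linarith
          positivity
    _ = _ := by ring

/-- If moreover `9 C² |J| ≤ W^(1/8)`, then every factor is `≤ W^(-7/8) ≤ 1`. -/
theorem norm_wch_small (s : Sys ι J) (W : ℕ) (hW : 2 ≤ W) (hpr : ∀ i, W < s.pr i)
    (hJW : Fintype.card J ≤ W) (z θ C D : ℝ) (hD : 1 ≤ D)
    (hθ : 0 ≤ θ) (hθ1 : θ ≤ 1) (hS : 0 < SS s z) (hC1 : 1 ≤ C) (hC : 1 / SS s z ≤ C) (j0 : J)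
    (c' : (ι → Option J) → ℝ) (hc : ∀ κ ∈ noJ j0, |c' κ| ≤ |cc s (tb s z θ) D κ|)
    (hJ : 9 * C ^ 2 * Fintype.card J ≤ (W : ℝ) ^ (1 / 8 : ℝ))
    (χ : Fam s) (hχ : χ ≠ fun _ => 1) :
    ‖wch s j0 c' χ‖ ≤ RR J W D * ZZ s (tb s z θ) * (W : ℝ) ^ (-(7 / 8) : ℝ) := by
  classical
  refine (norm_wch_le s W hW hpr hJW z θ C D hD hθ hθ1 hS hC1 hC j0 c' hc χ).trans ?_
  have hRR : 0 ≤ RR J W D := (Real.exp_pos _).le
  have hZ : 0 ≤ ZZ s (tb s z θ) := zero_le_one.trans (one_le_ZZ s _)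
  apply mul_le_mul_of_nonneg_left _ (mul_nonneg hRR hZ)
  have hW0 : (0 : ℝ) < W := by
    have : 0 < W := by omega
    exact_mod_cast this
  have hW1 : (1 : ℝ) ≤ W := by
    have : 1 ≤ W := by omega
    exact_mod_cast this
  have hw : (W : ℝ) ^ (-(7 / 8) : ℝ) ≤ 1 := Real.rpow_le_one_of_one_le_of_nonpos hW1 (by norm_num)
  have hf : ∀ i, 9 * C ^ 2 * Fintype.card J / ((s.pr i : ℝ) - 1) ≤ (W : ℝ) ^ (-(7 / 8) : ℝ) := by
    intro i
    have h5 : W + 1 ≤ s.pr i := hpr i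
    have h6 : ((W + 1 : ℕ) : ℝ) ≤ s.pr i := by exact_mod_cast h5
    push_cast at h6
    have h7 : (W : ℝ) ≤ (s.pr i : ℝ) - 1 := by linarith
    calc 9 * C ^ 2 * Fintype.card J / ((s.pr i : ℝ) - 1)
        ≤ (W : ℝ) ^ (1 / 8 : ℝ) / W := by gcongr
      _ = (W : ℝ) ^ (-(7 / 8) : ℝ) := by
          rw [← Real.rpow_sub_one hW0.ne']
          norm_num
  have hf0 : ∀ i, 0 ≤ 9 * C ^ 2 * Fintype.card J / ((s.pr i : ℝ) - 1) := by
    intro i
    have hp2 : (2 : ℝ) ≤ s.pr i := by exact_mod_cast (s.prime i).two_le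
    have : 0 < (s.pr i : ℝ) - 1 := by linarith
    positivity
  have hne : ∃ i, i ∈ csupp s χ := by
    by_contra hcon
    push Not at hcon
    apply hχ
    funext i
    by_contra h
    apply hcon i
    unfold csupp
    rw [mem_filter]
    exact ⟨mem_univ _, h⟩
  obtain ⟨i, hi⟩ := hne
  rw [← Finset.mul_prod_erase _ _ hi]
  calc _ ≤ (W : ℝ) ^ (-(7 / 8) : ℝ) * 1 := by
        apply mul_le_mul (hf i) _ (Finset.prod_nonneg fun i _ => hf0 i) (by positivity)
        exact Finset.prod_le_one (fun i _ => hf0 i) (fun i _ => (hf i).trans hw)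
    _ = _ := mul_one _

end Pool.Agent.Lib.H5C
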