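import Pool.Agent.Lib.H56G.Maj3

/-!
# Chunk TH3: two forms without small prime factors (general coefficients)
-/

open Finset
open Pool.Agent.Lib.H56G

namespace Pool.Agent.Lib.H5C

variable {ι J : Type} [Fintype ι] [DecidableEq ι] [Fintype J] [DecidableEq J]

/-- The coefficients of the restriction to the `t` with no prime dividing the form `j1`,
extended by `0`. -/
noncomputable def cr (j1 : J) (c : (ι → Option J) → ℝ) (κ : ι → Option J) : ℝ :=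
  if κ ∈ noJ j1 then cp j1 c κ else 0

theorem th3_sum_cr (s : Sys ι J) (c : (ι → Option J) → ℝ) (j1 : J) (t : ℕ)
    (ht : ∀ i, ¬ s.pr i ∣ s.b j1 + s.M * t) :
    ∑ κ, c κ * s.U κ t = ∑ κ, cr j1 c κ * s.U κ t := by
  rw [sum_eq_of_not_dvd s c j1 t ht]
  unfold noJ
  rw [Finset.sum_filter]
  refine Finset.sum_congr rfl fun κ _ => ?_
  unfold cr
  by_cases h : κ ∈ noJ j1
  · rw [if_pos h, if_pos ((off_mem_noJ κ j1).1 h)]
  · rw [if_neg h, if_neg (fun h' => h ((off_mem_noJ κ j1).2 h')), zero_mul]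

theorem th3_cr_le (s : Sys ι J) (c : (ι → Option J) → ℝ) (D1 : ℝ) (j1 : J)
    (hc : ∀ κ, c κ ≠ 0 → s.r κ ≤ D1) (κ : ι → Option J) (h : cr j1 c κ ≠ 0) : s.r κ ≤ D1 := by
  unfold cr at h
  by_cases h1 : κ ∈ noJ j1
  · rw [if_pos h1] at h
    exact maj1_r_le_of_cp_ne s c D1 j1 hc κ h
  · rw [if_neg h1] at h
    exact absurd rfl h

/-- the majorant coefficients of `cr j1 c` in the form `j2` vanish outside `noJ j1` -/
theorem th3_cmaj_noJ (s : Sys ι J) (c : (ι → Option J) → ℝ) (D2 : ℝ) (j1 j2 : J) (hj : j1 ≠ j2)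
    (κ : ι → Option J) (h : cmaj s (cr j1 c) D2 j2 κ ≠ 0) : κ ∈ noJ j1 := by
  obtain ⟨κ', hκ', A, hA, rfl⟩ := maj3_exists_ins j2 κ
  rw [cmaj_ins s (cr j1 c) D2 j2 κ' hκ' A hA] at h
  have h0 : cp j2 (cr j1 c) κ' ≠ 0 := by
    intro h4
    rw [h4] at h
    simp at h
  have h1 : κ' ∈ noJ j1 := by
    unfold cp at h0
    obtain ⟨B, hB, hne⟩ := Finset.exists_ne_zero_of_sum_ne_zero h0
    rw [Finset.mem_powerset] at hB
    unfold cr at hne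
    by_cases h2 : ins κ' j2 B ∈ noJ j1
    · rw [off_mem_noJ] at h2 ⊢
      intro i
      by_cases h3 : i ∈ B
      · rw [(off_mem_free κ' i).1 (hB h3)]
        simp
      · have := h2 i
        unfold ins at this
        rwa [if_neg h3] at this
    · rw [if_neg h2] at hne
      exact absurd rfl hne
  rw [off_mem_noJ] at h1 ⊢
  intro i
  unfold ins
  by_cases h3 : i ∈ A
  · rw [if_pos h3]
    intro h4
    exact hj (Option.some.inj h4).symm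
  · rw [if_neg h3]
    exact h1 i

theorem th3_cp_eq (d : (ι → Option J) → ℝ) (j1 : J) (hd : ∀ κ, d κ ≠ 0 → κ ∈ noJ j1)
    (κ : ι → Option J) : cp j1 d κ = d κ := by
  unfold cp
  rw [Finset.sum_eq_single ∅]
  · have h0 : ins κ j1 ∅ = κ := by
      funext i
      simp [ins]
    rw [h0]
  · intro A _ hne
    by_contra h
    have h1 := hd _ h
    rw [off_mem_noJ] at h1
    obtain ⟨i, hi⟩ := Finset.nonempty_iff_ne_empty.mpr hne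
    apply h1 i
    unfold ins
    rw [if_pos hi]
  · intro h
    exact absurd (Finset.empty_mem_powerset _) h

theorem th3_ph_le_ps (s : Sys ι J) (κ : ι → Option J) : s.ph κ ≤ s.ps κ := by
  unfold Sys.ph Sys.phi Sys.ps
  refine Finset.prod_le_prod (fun i _ => ?_) (fun i _ => ?_)
  · have h : (1 : ℝ) ≤ s.pr i := by exact_mod_cast (s.prime i).one_le
    linarith
  · have h : (0 : ℝ) ≤ Fintype.card J := Nat.cast_nonneg _
    linarith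

/-- Apply `cmaj` in `j2` to `cr j1 c`: `d = cmaj s (cr j1 c) D2 j2` vanishes outside `noJ j1`, and
`∑ d U = ∑ c U` where no prime divides the forms `j1`, `j2` (`sum_eq_of_not_dvd`, `sum_cmaj_eq`).
As `cp j1 d κ = d κ` for `κ ∈ noJ j1`, `maj` for `d` and `j1` gives the bound
`Y (K/V0) ∑ d² ph + 18 (D1 D2 D2)^8`, and `∑ d² ph ≤ ∑ d² ps ≤ (K/V0) ∑ cp² ph` by `norm_cmaj_le`. -/
theorem pair_maj (s : Sys ι J) (W : ℕ) (hW1 : 1 ≤ W) (hpr : ∀ i, W < s.pr i)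
    (hJ : Fintype.card J ≤ W) (c : (ι → Option J) → ℝ) (D1 D2 V0 K : ℝ) (hD1 : 1 ≤ D1)
    (hD2 : 1 ≤ D2) (hV0 : 1 ≤ V0) (hK0 : 0 ≤ K) (j1 j2 : J) (hj : j1 ≠ j2)
    (hc : ∀ κ, c κ ≠ 0 → s.r κ ≤ D1)
    (hcp : ∀ κ ∈ noJ j2, |cp j2 (cr j1 c) κ| ≤ 1)
    (hV : ∀ κ : ι → Option J, s.r κ ≤ D1 * D2 → V0 ≤ s.VV D2 κ)
    (hK : ∀ κ : ι → Option J, s.r κ ≤ D1 * D2 * D2 → s.ps κ ≤ K * s.ph κ) (Y : ℕ) :
    ∑ t ∈ (Icc 1 Y).filter (fun t => (∀ i, ¬ s.pr i ∣ s.b j1 + s.M * t) ∧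
        ∀ i, ¬ s.pr i ∣ s.b j2 + s.M * t), (∑ κ, c κ * s.U κ t) ^ 2
      ≤ Y * (K / V0) ^ 2 * ∑ κ ∈ noJ j2, (cp j2 (cr j1 c) κ) ^ 2 * s.ph κ +
        18 * (D1 * D2 * D2) ^ 8 := by
  have hD12 : D1 ≤ D1 * D2 := le_mul_of_one_le_right (by linarith) hD2
  have hD12' : 1 ≤ D1 * D2 := by linarith
  have hD122 : D1 * D2 ≤ D1 * D2 * D2 := le_mul_of_one_le_right (by linarith) hD2
  have hc1 : ∀ κ, cr j1 c κ ≠ 0 → s.r κ ≤ D1 := th3_cr_le s c D1 j1 hc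
  have hV1 : ∀ κ ∈ noJ j2, s.r κ ≤ D1 → V0 ≤ s.VV D2 κ := fun κ _ h => hV κ (h.trans hD12)
  set d := cmaj s (cr j1 c) D2 j2 with hd
  have hdJ : ∀ κ, d κ ≠ 0 → κ ∈ noJ j1 := fun κ h => th3_cmaj_noJ s c D2 j1 j2 hj κ h
  have hcpd : ∀ κ, cp j1 d κ = d κ := th3_cp_eq d j1 hdJ
  have hdr : ∀ κ, d κ ≠ 0 → s.r κ ≤ D1 * D2 := maj3_r_le s (cr j1 c) D1 D2 j2 hc1
  have hd1 : ∀ κ ∈ noJ j1, |cp j1 d κ| ≤ 1 := by
    intro κ _
    rw [hcpd κ]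
    exact maj3_abs_le s (cr j1 c) D1 D2 V0 j2 hV0 hc1 hcp hV1 κ
  have h1 := maj s W hW1 hpr hJ d (D1 * D2) D2 V0 K hD12' hD2 hV0 hK0 j1 hdr hd1
    (fun κ _ h => hV κ h) hK Y
  have h2 := norm_cmaj_le s (cr j1 c) D1 D2 V0 K j2 hV0 hK0 hc1 hV1
    (fun κ h => hK κ (h.trans hD122))
  rw [← hd] at h2
  have h3 : ∑ κ ∈ noJ j1, (cp j1 d κ) ^ 2 * s.ph κ ≤
      K / V0 * ∑ κ ∈ noJ j2, (cp j2 (cr j1 c) κ) ^ 2 * s.ph κ := by
    refine le_trans ?_ h2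
    calc ∑ κ ∈ noJ j1, (cp j1 d κ) ^ 2 * s.ph κ
        ≤ ∑ κ ∈ noJ j1, (d κ) ^ 2 * s.ps κ := by
          refine Finset.sum_le_sum fun κ _ => ?_
          rw [hcpd κ]
          exact mul_le_mul_of_nonneg_left (th3_ph_le_ps s κ) (sq_nonneg _)
      _ ≤ ∑ κ, (d κ) ^ 2 * s.ps κ := by
          refine Finset.sum_le_sum_of_subset_of_nonneg (Finset.subset_univ _) fun κ _ _ => ?_
          have h4 : 0 ≤ s.ph κ := le_trans zero_le_one (one_le_phi s (supp κ))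
          exact mul_nonneg (sq_nonneg _) (h4.trans (th3_ph_le_ps s κ))
  have hY : (0 : ℝ) ≤ Y := Nat.cast_nonneg Y
  have h5 : ∑ t ∈ (Icc 1 Y).filter (fun t => (∀ i, ¬ s.pr i ∣ s.b j1 + s.M * t) ∧
        ∀ i, ¬ s.pr i ∣ s.b j2 + s.M * t), (∑ κ, c κ * s.U κ t) ^ 2 ≤
      ∑ t ∈ (Icc 1 Y).filter (fun t => ∀ i, ¬ s.pr i ∣ s.b j1 + s.M * t),
        (∑ κ, d κ * s.U κ t) ^ 2 := by
    have h6 : ∑ t ∈ (Icc 1 Y).filter (fun t => (∀ i, ¬ s.pr i ∣ s.b j1 + s.M * t) ∧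
        ∀ i, ¬ s.pr i ∣ s.b j2 + s.M * t), (∑ κ, c κ * s.U κ t) ^ 2 =
        ∑ t ∈ (Icc 1 Y).filter (fun t => (∀ i, ¬ s.pr i ∣ s.b j1 + s.M * t) ∧
        ∀ i, ¬ s.pr i ∣ s.b j2 + s.M * t), (∑ κ, d κ * s.U κ t) ^ 2 := by
      refine Finset.sum_congr rfl fun t ht => ?_
      rw [Finset.mem_filter] at ht
      rw [th3_sum_cr s c j1 t ht.2.1, hd,
        sum_cmaj_eq s (cr j1 c) D1 D2 V0 j2 hV0 hc1 hV1 t ht.2.2]
    rw [h6]
    refine Finset.sum_le_sum_of_subset_of_nonneg ?_ fun t _ _ => sq_nonneg _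
    intro t ht
    rw [Finset.mem_filter] at ht ⊢
    exact ⟨ht.1, ht.2.1⟩
  refine h5.trans (h1.trans ?_)
  have h7 : (Y : ℝ) * (K / V0) * ∑ κ ∈ noJ j1, (cp j1 d κ) ^ 2 * s.ph κ ≤
      Y * (K / V0) * (K / V0 * ∑ κ ∈ noJ j2, (cp j2 (cr j1 c) κ) ^ 2 * s.ph κ) := by
    refine mul_le_mul_of_nonneg_left h3 ?_
    have : 0 ≤ K / V0 := div_nonneg hK0 (by linarith)
    positivity
  calc _ ≤ Y * (K / V0) * (K / V0 * ∑ κ ∈ noJ j2, (cp j2 (cr j1 c) κ) ^ 2 * s.ph κ) +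
        18 * (D1 * D2 * D2) ^ 8 := by linarith
    _ = _ := by ring

end Pool.Agent.Lib.H5C
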