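import Pool.Agent.Lib.H5C.TH1
import Pool.Agent.Lib.H5C.TH3

/-!
# Chunk TH4: coefficients for two forms
-/

open Finset
open Pool.Agent.Lib.H56G

namespace Pool.Agent.Lib.H5C

variable {ι J : Type} [Fintype ι] [DecidableEq ι] [Fintype J] [DecidableEq J]

theorem th4_ins_noJ (κ : ι → Option J) (j1 j2 : J) (hj : j1 ≠ j2) (hκ : κ ∈ noJ j1)
    (B : Finset ι) : ins κ j2 B ∈ noJ j1 := by
  rw [off_mem_noJ] at hκ ⊢
  intro i
  unfold ins
  by_cases h3 : i ∈ B
  · rw [if_pos h3]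
    intro h4
    exact hj (Option.some.inj h4).symm
  · rw [if_neg h3]
    exact hκ i

theorem th4_ins_not_noJ (κ : ι → Option J) (j1 j2 : J) (hκ : κ ∉ noJ j1)
    (B : Finset ι) (hB : B ⊆ free κ) : ins κ j2 B ∉ noJ j1 := by
  intro h
  apply hκ
  rw [off_mem_noJ] at h ⊢
  intro i
  by_cases h3 : i ∈ B
  · rw [(off_mem_free κ i).1 (hB h3)]
    simp
  · have := h i
    unfold ins at this
    rwa [if_neg h3] at this

theorem th4_ins_empty (κ : ι → Option J) (j : J) : ins κ j ∅ = κ := by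
  funext i
  simp [ins]

/-- the value of `cc` at `ins κ j A` -/
theorem th4_cc_ins (s : Sys ι J) (bb : Finset ι → ℝ) (D : ℝ) (j0 : J) (κ : ι → Option J)
    (hκ : κ ∈ noJ j0) (A : Finset ι) (hA : A ⊆ free κ) :
    cc s bb D (ins κ j0 A) =
      cc s bb D κ * (if A = ∅ then 1 else if s.r κ * s.rho A ≤ D then - bb A else 0) := by
  have hr0 : 0 ≤ s.r κ := le_trans zero_le_one (one_le_rho s _)
  rw [coef2_cc_ins s bb D j0 κ hκ A hA]
  unfold cc
  by_cases hE : A = ∅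
  · subst hE
    have : s.rho ∅ = 1 := by simp [Sys.rho]
    rw [this, mul_one]
    simp [gam]
  · simp only [hE, if_false]
    by_cases hD : s.r κ * s.rho A ≤ D
    · have hD2 : s.r κ ≤ D := le_trans (le_mul_of_one_le_right hr0 (one_le_rho s A)) hD
      rw [if_pos hD, if_pos hD2]
      simp only [gam, hE, if_false, hD, if_true]
      ring
    · simp [hD]

/-- For `κ ∈ noJ j1 ∩ noJ j2` (with `cp_cc`, `coef2_cc_ins`):
`cp j2 (cr j1 cc) κ = cc κ (br κ - ∑_B tb B · br (ins κ j2 B))`, the sum over the nonempty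
`B ⊆ free κ` with `r κ ρ B ≤ D`; it is `0` if `κ ∉ noJ j1`. -/
theorem cp_cr (s : Sys ι J) (bb : Finset ι → ℝ) (D : ℝ) (j1 j2 : J) (hj : j1 ≠ j2)
    (κ : ι → Option J) (hκ : κ ∈ noJ j2) :
    cp j2 (cr j1 (cc s bb D)) κ = if κ ∈ noJ j1 then cc s bb D κ *
      (br s bb D κ - ∑ B ∈ (free κ).powerset.filter (fun B => B ≠ ∅ ∧ s.r κ * s.rho B ≤ D),
        bb B * br s bb D (ins κ j2 B)) else 0 := by
  by_cases h1 : κ ∈ noJ j1
  · rw [if_pos h1]
    have h2 : ∀ B ∈ (free κ).powerset, cr j1 (cc s bb D) (ins κ j2 B) =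
        cc s bb D κ * (if B = ∅ then br s bb D κ else
          if s.r κ * s.rho B ≤ D then - (bb B * br s bb D (ins κ j2 B)) else 0) := by
      intro B hB
      rw [Finset.mem_powerset] at hB
      have h3 := th4_ins_noJ κ j1 j2 hj h1 B
      unfold cr
      rw [if_pos h3, cp_cc s bb D j1 _ h3, th4_cc_ins s bb D j2 κ hκ B hB]
      by_cases hE : B = ∅
      · subst hE
        rw [if_pos rfl, if_pos rfl, th4_ins_empty]
        unfold br
        ring
      · rw [if_neg hE, if_neg hE]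
        by_cases hD : s.r κ * s.rho B ≤ D
        · rw [if_pos hD, if_pos hD]
          unfold br
          ring
        · rw [if_neg hD, if_neg hD]
          ring
    have h4 : cp j2 (cr j1 (cc s bb D)) κ =
        ∑ B ∈ (free κ).powerset, cr j1 (cc s bb D) (ins κ j2 B) := rfl
    rw [h4, Finset.sum_congr rfl h2, ← Finset.mul_sum]
    congr 1
    rw [← Finset.sum_erase_add _ _ (empty_mem_powerset (free κ))]
    simp only [if_true]
    rw [add_comm, sub_eq_add_neg]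
    congr 1
    rw [← Finset.sum_neg_distrib, Finset.sum_filter]
    rw [← Finset.sum_erase_add (free κ).powerset _ (empty_mem_powerset (free κ))]
    simp only [ne_eq, not_true_eq_false, false_and, if_false, add_zero]
    refine Finset.sum_congr rfl fun A hA => ?_
    have hE : A ≠ ∅ := Finset.ne_of_mem_erase hA
    simp [hE]
  · rw [if_neg h1]
    unfold cp
    refine Finset.sum_eq_zero fun B hB => ?_
    rw [Finset.mem_powerset] at hB
    unfold cr
    rw [if_neg (th4_ins_not_noJ κ j1 j2 h1 B hB)]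

/-- `br` increases -/
theorem th4_br_mono (s : Sys ι J) (bb : Finset ι → ℝ) (h0 : ∀ A, 0 ≤ bb A) (D : ℝ) (j : J)
    (κ : ι → Option J) (B : Finset ι) (hB : B ⊆ free κ) :
    br s bb D κ ≤ br s bb D (ins κ j B) := by
  unfold br
  have h1 : ∑ A ∈ (free (ins κ j B)).powerset.filter
      (fun A => A ≠ ∅ ∧ s.r (ins κ j B) * s.rho A ≤ D), bb A ≤
      ∑ A ∈ (free κ).powerset.filter (fun A => A ≠ ∅ ∧ s.r κ * s.rho A ≤ D), bb A := by
    refine Finset.sum_le_sum_of_subset_of_nonneg ?_ fun A _ _ => h0 A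
    intro A hA
    rw [mem_filter, mem_powerset] at hA ⊢
    obtain ⟨hA1, hA2, hA3⟩ := hA
    refine ⟨?_, hA2, ?_⟩
    · intro i hi
      have h2 := (off_mem_free _ i).1 (hA1 hi)
      rw [off_mem_free]
      unfold ins at h2
      by_cases h3 : i ∈ B
      · rw [if_pos h3] at h2
        exact absurd h2 (by simp)
      · rwa [if_neg h3] at h2
    · refine le_trans ?_ hA3
      rw [r_ins s κ j B hB]
      have h4 := one_le_rho s A
      have h5 := one_le_rho s B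
      have h6 : 1 ≤ s.r κ := one_le_rho s (supp κ)
      have h7 : s.r κ ≤ s.r κ * s.rho B := le_mul_of_one_le_right (by linarith) h5
      exact mul_le_mul_of_nonneg_right h7 (by linarith)
  linarith

/-- the bracket of `cp_cr` -/
noncomputable def th4_E (s : Sys ι J) (bb : Finset ι → ℝ) (D : ℝ) (j2 : J)
    (κ : ι → Option J) : ℝ :=
  br s bb D κ - ∑ B ∈ (free κ).powerset.filter (fun B => B ≠ ∅ ∧ s.r κ * s.rho B ≤ D),
        bb B * br s bb D (ins κ j2 B)

theorem th4_E_le (s : Sys ι J) (bb : Finset ι → ℝ) (h0 : ∀ A, 0 ≤ bb A) (D : ℝ) (j2 : J)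
    (κ : ι → Option J) : th4_E s bb D j2 κ ≤ (br s bb D κ) ^ 2 := by
  unfold th4_E
  have h1 : (∑ B ∈ (free κ).powerset.filter (fun B => B ≠ ∅ ∧ s.r κ * s.rho B ≤ D), bb B) *
      br s bb D κ ≤ ∑ B ∈ (free κ).powerset.filter (fun B => B ≠ ∅ ∧ s.r κ * s.rho B ≤ D),
        bb B * br s bb D (ins κ j2 B) := by
    rw [Finset.sum_mul]
    refine Finset.sum_le_sum fun B hB => ?_
    rw [mem_filter, mem_powerset] at hB
    exact mul_le_mul_of_nonneg_left (th4_br_mono s bb h0 D j2 κ B hB.1) (h0 B)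
  have h2 : ∑ B ∈ (free κ).powerset.filter (fun B => B ≠ ∅ ∧ s.r κ * s.rho B ≤ D), bb B =
      1 - br s bb D κ := by
    unfold br
    ring
  rw [h2] at h1
  nlinarith

theorem th4_le_E (s : Sys ι J) (bb : Finset ι → ℝ) (h0 : ∀ A, 0 ≤ bb A) (D m : ℝ) (j2 : J)
    (κ : ι → Option J)
    (hm : ∀ B ∈ (free κ).powerset, bb B ≠ 0 → br s bb D (ins κ j2 B) ≤ m) :
    br s bb D κ - (1 - br s bb D κ) * m ≤ th4_E s bb D j2 κ := by
  unfold th4_E
  have h1 : ∑ B ∈ (free κ).powerset.filter (fun B => B ≠ ∅ ∧ s.r κ * s.rho B ≤ D),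
        bb B * br s bb D (ins κ j2 B) ≤
      (∑ B ∈ (free κ).powerset.filter (fun B => B ≠ ∅ ∧ s.r κ * s.rho B ≤ D), bb B) * m := by
    rw [Finset.sum_mul]
    refine Finset.sum_le_sum fun B hB => ?_
    rw [mem_filter] at hB
    by_cases hb : bb B = 0
    · rw [hb, zero_mul, zero_mul]
    · exact mul_le_mul_of_nonneg_left (hm B hB.1 hb) (h0 B)
  have h2 : ∑ B ∈ (free κ).powerset.filter (fun B => B ≠ ∅ ∧ s.r κ * s.rho B ≤ D), bb B =
      1 - br s bb D κ := by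
    unfold br
    ring
  rw [h2] at h1
  linarith

/-- `br κ ≤ br (ins κ j2 B) ≤ 1` (fewer sets `A` are allowed), so the bracket `E` of `cp_cr` satisfies
`2 br κ - 1 ≤ E ≤ (br κ)²`; hence `|E| ≤ 1`. -/
theorem abs_cp_cr_le (s : Sys ι J) (z θ : ℝ) (hθ : 0 ≤ θ) (hθ1 : θ ≤ 1) (hS : 0 < SS s z)
    (D : ℝ) (j1 j2 : J) (hj : j1 ≠ j2) (κ : ι → Option J) (hκ : κ ∈ noJ j2) :
    |cp j2 (cr j1 (cc s (tb s z θ) D)) κ| ≤ |cc s (tb s z θ) D κ| := by
  rw [cp_cr s (tb s z θ) D j1 j2 hj κ hκ]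
  split_ifs with h1
  · have h0 := tb_nonneg s z θ hθ
    have hb := br_bounds s z θ hθ hS D κ
    have h2 := th4_E_le s (tb s z θ) h0 D j2 κ
    have h3 := th4_le_E s (tb s z θ) h0 D 1 j2 κ
      (fun B _ _ => (br_bounds s z θ hθ hS D _).2)
    rw [abs_mul]
    refine mul_le_of_le_one_right (abs_nonneg _) ?_
    have h4 : |th4_E s (tb s z θ) D j2 κ| ≤ 1 := by
      rw [abs_le]
      constructor
      · linarith [hb.1]
      · refine h2.trans ?_
        have h5 : 0 ≤ br s (tb s z θ) D κ := by linarith [hb.1]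
        nlinarith [hb.2]
    exact h4
  · rw [abs_zero]
    exact abs_nonneg _

/-- If `r κ z² ≤ D`: `br κ ≤ (1-θ) + τ` and `br (ins κ j2 B) ≤ (1-θ) + τ` (`br_le`; `ρ B ≤ z` where
`tb B ≠ 0`), so `-τ ≤ (1-θ) - θ ((1-θ)+τ) ≤ E ≤ ((1-θ)+τ)²`. -/
theorem abs_cp_cr_mul (s : Sys ι J) (z θ : ℝ) (hθ : 0 ≤ θ) (hθ1 : θ ≤ 1) (hz : 1 ≤ z)
    (hS : 0 < SS s z) (D τ : ℝ) (hτ0 : 0 ≤ τ)
    (hτ : ∀ κ : ι → Option J, s.r κ ≤ D →
      ∑ i ∈ supp κ, ∑ A ∈ univ.filter (fun A : Finset ι => i ∈ A), tb s z θ A ≤ τ)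
    (j1 j2 : J) (hj : j1 ≠ j2) (κ : ι → Option J) (hκ : κ ∈ noJ j2) (hr : s.r κ * z ^ 2 ≤ D) :
    |cp j2 (cr j1 (cc s (tb s z θ) D)) κ| ≤
      |cc s (tb s z θ) D κ| * (((1 - θ) + τ) ^ 2 + τ) := by
  have hr1 : 1 ≤ s.r κ := one_le_rho s (supp κ)
  rw [cp_cr s (tb s z θ) D j1 j2 hj κ hκ]
  split_ifs with h1
  · have h0 := tb_nonneg s z θ hθ
    have hb := br_bounds s z θ hθ hS D κ
    have h2 := th4_E_le s (tb s z θ) h0 D j2 κ
    have hz2 : z ≤ z ^ 2 := by nlinarith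
    have hrz : s.r κ * z ≤ D := (mul_le_mul_of_nonneg_left hz2 (by linarith)).trans hr
    have hrD : s.r κ ≤ D := (le_mul_of_one_le_right (by linarith) hz).trans hrz
    have hbr : br s (tb s z θ) D κ ≤ (1 - θ) + τ := by
      have := br_le s z θ hθ hS D κ hrz
      linarith [hτ κ hrD]
    have h3 := th4_le_E s (tb s z θ) h0 D ((1 - θ) + τ) j2 κ (fun B hB hne => by
      rw [mem_powerset] at hB
      have hρ := tb_rho s z θ B hne
      have hρ1 := one_le_rho s B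
      have e1 : s.r (ins κ j2 B) * z ≤ D := by
        rw [r_ins s κ j2 B hB]
        calc s.r κ * s.rho B * z ≤ s.r κ * z * z := by gcongr
          _ = s.r κ * z ^ 2 := by ring
          _ ≤ D := hr
      have e2 : s.r (ins κ j2 B) ≤ D := by
        refine le_trans (le_mul_of_one_le_right ?_ hz) e1
        have := one_le_rho s (supp (ins κ j2 B))
        exact le_trans zero_le_one this
      have := br_le s z θ hθ hS D (ins κ j2 B) e1
      linarith [hτ _ e2])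
    rw [abs_mul]
    refine mul_le_mul_of_nonneg_left ?_ (abs_nonneg _)
    have h4 : |th4_E s (tb s z θ) D j2 κ| ≤ ((1 - θ) + τ) ^ 2 + τ := by
      have h5 : 0 ≤ br s (tb s z θ) D κ := by linarith [hb.1]
      rw [abs_le]
      constructor
      · have h6 : (1 - br s (tb s z θ) D κ) * ((1 - θ) + τ) ≤ θ * ((1 - θ) + τ) :=
          mul_le_mul_of_nonneg_right (by linarith [hb.1]) (by linarith)
        nlinarith [hb.1, mul_nonneg (sub_nonneg.mpr hθ1) (sub_nonneg.mpr hθ1),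
          mul_nonneg (sub_nonneg.mpr hθ1) hτ0]
      · have h7 : (br s (tb s z θ) D κ) ^ 2 ≤ ((1 - θ) + τ) ^ 2 :=
          pow_le_pow_left₀ h5 hbr 2
        linarith
    exact h4
  · rw [abs_zero]
    have h8 : 0 ≤ ((1 - θ) + τ) ^ 2 + τ := by positivity
    exact mul_nonneg (abs_nonneg _) h8

/-- Split at `r κ z² ≤ D`. -/
theorem sum_cp_cr_sq (s : Sys ι J) (z θ : ℝ) (hθ : 0 ≤ θ) (hθ1 : θ ≤ 1) (hz : 1 < z)
    (hS : 0 < SS s z) (D τ ε : ℝ) (hτ0 : 0 ≤ τ)
    (hτ : ∀ κ : ι → Option J, s.r κ ≤ D →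
      ∑ i ∈ supp κ, ∑ A ∈ univ.filter (fun A : Finset ι => i ∈ A), tb s z θ A ≤ τ)
    (hε : ∑ κ ∈ univ.filter (fun κ : ι → Option J => D < s.r κ * z ^ 2), wt s (tb s z θ) κ
      ≤ ε * ZZ s (tb s z θ)) (j1 j2 : J) (hj : j1 ≠ j2) :
    ∑ κ ∈ noJ j2, (cp j2 (cr j1 (cc s (tb s z θ) D)) κ) ^ 2 * s.ph κ ≤
      ((((1 - θ) + τ) ^ 2 + τ) ^ 2 + ε) * ZZ s (tb s z θ) := by
  set T := ((1 - θ) + τ) ^ 2 + τ with hT
  have hT0 : 0 ≤ T := by positivity
  have hph : ∀ κ : ι → Option J, 0 ≤ s.ph κ := fun κ =>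
    zero_le_one.trans (one_le_phi s (supp κ))
  have hterm : ∀ κ ∈ noJ j2, (cp j2 (cr j1 (cc s (tb s z θ) D)) κ) ^ 2 * s.ph κ ≤
      T ^ 2 * wt s (tb s z θ) κ + if D < s.r κ * z ^ 2 then wt s (tb s z θ) κ else 0 := by
    intro κ hκ
    have hw := wt_nonneg s (tb s z θ) κ
    have hr1 : 1 ≤ s.r κ := one_le_rho s (supp κ)
    have h1 := abs_cp_cr_le s z θ hθ hθ1 hS D j1 j2 hj κ hκ
    have h4 : 0 ≤ T ^ 2 * wt s (tb s z θ) κ := by positivity
    rcases lt_or_ge D (s.r κ) with hr | hr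
    · have h2 : cc s (tb s z θ) D κ = 0 := by
        unfold cc
        rw [if_neg (not_le.2 hr)]
      rw [h2, abs_zero] at h1
      have h3 : cp j2 (cr j1 (cc s (tb s z θ) D)) κ = 0 :=
        abs_eq_zero.1 (le_antisymm h1 (abs_nonneg _))
      rw [h3]
      split_ifs
      · simp only [ne_eq, OfNat.ofNat_ne_zero, not_false_eq_true, zero_pow, zero_mul]
        linarith
      · simp only [ne_eq, OfNat.ofNat_ne_zero, not_false_eq_true, zero_pow, zero_mul]
        linarith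
    · have h5 := cc_sq_mul_ph s (tb s z θ) D κ hr
      rcases lt_or_ge D (s.r κ * z ^ 2) with hz2 | hz2
      · rw [if_pos hz2]
        have h6 : (cp j2 (cr j1 (cc s (tb s z θ) D)) κ) ^ 2 ≤ (cc s (tb s z θ) D κ) ^ 2 :=
          sq_le_sq.2 h1
        have h7 := mul_le_mul_of_nonneg_right h6 (hph κ)
        rw [h5] at h7
        linarith
      · rw [if_neg (not_lt.2 hz2), add_zero]
        have h8 := abs_cp_cr_mul s z θ hθ hθ1 hz.le hS D τ hτ0 hτ j1 j2 hj κ hκ hz2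
        have h10 : (cp j2 (cr j1 (cc s (tb s z θ) D)) κ) ^ 2 ≤
            T ^ 2 * (cc s (tb s z θ) D κ) ^ 2 := by
          have h11 : |cp j2 (cr j1 (cc s (tb s z θ) D)) κ| ≤ |T * cc s (tb s z θ) D κ| := by
            rw [abs_mul, abs_of_nonneg hT0, mul_comm]
            exact h8
          have h12 := sq_le_sq.2 h11
          rwa [mul_pow] at h12
        have h7 := mul_le_mul_of_nonneg_right h10 (hph κ)
        rw [mul_assoc, h5] at h7
        exact h7
  have hnn : ∀ κ : ι → Option J, 0 ≤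
      T ^ 2 * wt s (tb s z θ) κ + if D < s.r κ * z ^ 2 then wt s (tb s z θ) κ else 0 := by
    intro κ
    have hw := wt_nonneg s (tb s z θ) κ
    have h4 : 0 ≤ T ^ 2 * wt s (tb s z θ) κ := by positivity
    split_ifs
    · linarith
    · linarith
  calc ∑ κ ∈ noJ j2, (cp j2 (cr j1 (cc s (tb s z θ) D)) κ) ^ 2 * s.ph κ
      ≤ ∑ κ ∈ noJ j2, (T ^ 2 * wt s (tb s z θ) κ +
          if D < s.r κ * z ^ 2 then wt s (tb s z θ) κ else 0) := Finset.sum_le_sum hterm
    _ ≤ ∑ κ, (T ^ 2 * wt s (tb s z θ) κ +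
          if D < s.r κ * z ^ 2 then wt s (tb s z θ) κ else 0) :=
        Finset.sum_le_sum_of_subset_of_nonneg (Finset.subset_univ _) fun κ _ _ => hnn κ
    _ = T ^ 2 * ZZ s (tb s z θ) +
        ∑ κ ∈ univ.filter (fun κ : ι → Option J => D < s.r κ * z ^ 2), wt s (tb s z θ) κ := by
        rw [Finset.sum_add_distrib, ← Finset.mul_sum, Finset.sum_filter]
        rfl
    _ ≤ (T ^ 2 + ε) * ZZ s (tb s z θ) := by linarith

end Pool.Agent.Lib.H5C
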