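import Pool.Agent.Lib.H56G.ParNum

/-!
# Chunk PAR: the parameters (pure asymptotics)
-/

open Finset Real

namespace Pool.Agent.Lib.H5C

/-- `W = ⌈(log X)^16⌉` -/
noncomputable def WX (X : ℕ) : ℕ := ⌈(log X) ^ 16⌉₊

/-- `N = ⌊X^(δ/8)⌋` -/
noncomputable def NX (δ : ℝ) (X : ℕ) : ℕ := ⌊(X : ℝ) ^ (δ / 8)⌋₊

/-- `z = exp (δ log X/(128 logloglog X))` -/
noncomputable def zX (δ : ℝ) (X : ℕ) : ℝ := exp (δ * log X / (128 * log (log (log X))))

theorem par_core (X : ℕ) (δ L l2 l3 : ℝ) (hδ : 0 < δ) (hδ1 : δ ≤ 1 / 100) (hX : 0 < (X : ℝ))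
    (hL : log X = L) (h2 : log L = l2) (h3 : log l2 = l3)
    (D1 : 10 ^ 6 ≤ L) (D2 : 10 ^ 4 ≤ l2) (D3 : 4 ≤ l3)
    (D4 : log (4121600 / δ) + 2 * l3 ≤ 0.18 * l2) (D5 : 257600 * l2 ≤ δ * L)
    (R : ℕ) (hR : (R : ℝ) ≤ δ / 1280000 * L) (S : ℝ)
    (hS : log (log (zX δ X) / (2000 * log (WX X))) / (2000 * log (WX X)) ≤ S) :
    2 ≤ WX X ∧ R ≤ WX X ∧ WX X ≤ NX δ X ∧ 1 < zX δ X ∧ zX δ X ^ 2 ≤ NX δ X ∧
    2000 * log (WX X) ≤ log (zX δ X) ∧ 1 / 40000 ≤ S ∧ 1 / (S * log (WX X)) ≤ 1 / 4 ∧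
    1 ≤ log (NX δ X) / (1000 * log (WX X)) ∧
    log (NX δ X) / (1000 * log (WX X)) ≥ δ / 200000 * (L / l2) ∧
    4 * log (NX δ X) / WX X ≤ 1 / 2 ∧
    exp (6 * (R + 1) * log (NX δ X) / WX X) ≤ 3 / 2 ∧
    exp (3 * R / √(WX X : ℝ) + 6 * R * log (NX δ X) / WX X) ≤ 3 / 2 ∧
    9 * (40000 : ℝ) ^ 2 * R ≤ (WX X : ℝ) ^ (1 / 8 : ℝ) ∧
    (zX δ X ^ 2 / NX δ X) ^ (1 / log (zX δ X)) * (1 + 2 / (S * log (zX δ X))) ^ R ≤
      l2⁻¹ ^ 7 ∧
    2 * log (NX δ X) * ((2 / S + 1) / WX X) ≤ L⁻¹ ^ 8 ∧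
    18 * ((NX δ X : ℝ) * NX δ X * NX δ X) ^ 8 ≤ (X : ℝ) ^ (1 / 4 : ℝ) := by
  have hL0 : 0 < L := by linarith
  have hl2pos : 0 < l2 := by linarith
  have hl3pos : 0 < l3 := by linarith
  have hexp2 : exp l2 = L := by rw [← h2, exp_log hL0]
  have hexp3 : exp l3 = l2 := by rw [← h3, exp_log hl2pos]
  have hl32 : l3 ≤ l2 := by
    rw [← h3]
    exact (log_le_sub_one_of_pos hl2pos).trans (by linarith)
  have hδL : 257600 * 10 ^ 4 ≤ δ * L := by linarith
  have hδL2 : δ * L ≤ L / 100 := by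
    have := mul_le_mul_of_nonneg_right hδ1 hL0.le
    linarith
  have hxe : ∀ y : ℝ, (X : ℝ) ^ y = exp (L * y) := fun y => by rw [rpow_def_of_pos hX, hL]
  -- WX
  have hLpow : ∀ n : ℕ, n ≠ 0 → L ≤ L ^ n := fun n hn => le_self_pow₀ (by linarith) hn
  have hW1 : L ^ 16 ≤ (WX X : ℝ) := by unfold WX; rw [hL]; exact Nat.le_ceil _
  have hW2 : (WX X : ℝ) ≤ 2 * L ^ 16 := by
    unfold WX
    rw [hL]
    have h := (Nat.ceil_lt_add_one (show 0 ≤ L ^ 16 by positivity)).le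
    have h1 : (1 : ℝ) ≤ L ^ 16 := one_le_pow₀ (by linarith)
    linarith
  have hL16 : L ≤ L ^ 16 := hLpow 16 (by norm_num)
  have hWpos : (0 : ℝ) < WX X := by linarith
  have hlog2 : log 2 ≤ 1 := by
    have := log_two_lt_d9; linarith
  have hlogW1 : 16 * l2 ≤ log (WX X) := by
    have h5 : log (L ^ 16) ≤ log (WX X) := log_le_log (by positivity) hW1
    rw [log_pow, h2] at h5
    push_cast at h5
    exact h5
  have hlogW2 : log (WX X) ≤ 16.1 * l2 := by
    have h5 : log (WX X) ≤ log (2 * L ^ 16) := log_le_log hWpos hW2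
    rw [log_mul (by norm_num) (by positivity), log_pow, h2] at h5
    push_cast at h5
    linarith
  have hlogWpos : 0 < log (WX X) := by linarith
  -- zX
  have hlz : log (zX δ X) = δ * L / (128 * l3) := by
    unfold zX; rw [log_exp, hL, h2, h3]
  have hlzpos : 0 < log (zX δ X) := by rw [hlz]; positivity
  have hzpos : 0 < zX δ X := exp_pos _
  have hze : zX δ X = exp (δ * L / (128 * l3)) := by
    unfold zX; rw [hL, h2, h3]
  -- NX
  have hX8 : (X : ℝ) ^ (δ / 8) = exp (δ * L / 8) := by rw [hxe]; congr 1; ring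
  have hN1 : (NX δ X : ℝ) ≤ exp (δ * L / 8) := by
    unfold NX; rw [hX8]; exact Nat.floor_le (exp_pos _).le
  have hN2 : exp (δ * L / 8) - 1 < (NX δ X : ℝ) := by
    unfold NX; rw [hX8]; exact Nat.sub_one_lt_floor _
  have he8 : (2 : ℝ) ≤ exp (δ * L / 8) := by
    have := add_one_le_exp (δ * L / 8)
    linarith
  have hN3 : exp (δ * L / 8) / 2 ≤ (NX δ X : ℝ) := by linarith
  have hN0 : (0 : ℝ) < NX δ X := by linarith
  have hlN1 : log (NX δ X) ≤ δ * L / 8 := by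
    have := log_le_log hN0 hN1
    rwa [log_exp] at this
  have hlN2 : δ * L / 8 - 1 ≤ log (NX δ X) := by
    have h5 := log_le_log (by positivity) hN3
    rw [log_div (exp_pos _).ne' (by norm_num), log_exp] at h5
    linarith
  have hlNpos : 0 < log (NX δ X) := by linarith
  have hlN4 : log (NX δ X) ≤ L / 800 := by linarith
  -- S lower bound
  have hA : 0.82 * l2 ≤ log (log (zX δ X) / (2000 * log (WX X))) := by
    have hA0 : exp (0.82 * l2) ≤ log (zX δ X) / (2000 * log (WX X)) := by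
      rw [le_div_iff₀ (by positivity), hlz]
      rw [le_div_iff₀ (by positivity)]
      have h5 : exp (0.82 * l2) * (2000 * log (WX X)) * (128 * l3)
          ≤ exp (0.82 * l2) * (2000 * (16.1 * l2)) * (128 * l2) := by
        have h7 : 0 < exp (0.82 * l2) := exp_pos _
        gcongr
      refine h5.trans ?_
      have h8 : exp (0.82 * l2) * (2000 * (16.1 * l2)) * (128 * l2)
          = δ * (exp (0.82 * l2) * exp (log (4121600 / δ) + 2 * l3)) := by
        rw [exp_add, exp_log (by positivity), two_mul l3, exp_add, hexp3]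
        field_simp
        ring
      rw [h8, ← exp_add]
      calc δ * exp (0.82 * l2 + (log (4121600 / δ) + 2 * l3)) ≤ δ * exp l2 := by
            gcongr
            linarith
        _ = δ * L := by rw [hexp2]
    have := log_le_log (exp_pos _) hA0
    rwa [log_exp] at this
  have hSlow : 1 / 40000 ≤ S := by
    refine le_trans ?_ hS
    rw [le_div_iff₀ (by positivity)]
    linarith only [hA, hlogW2, hl2pos]
  have hSpos : 0 < S := by linarith
  have hR0 : (0 : ℝ) ≤ R := Nat.cast_nonneg R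
  have hR' : (R : ℝ) ≤ L / 128000000 := by
    have : δ / 1280000 * L = δ * L / 1280000 := by ring
    rw [this] at hR
    linarith
  have hR1 : (R : ℝ) + 1 ≤ L := by linarith
  refine ⟨?_, ?_, ?_, ?_, ?_, ?_, hSlow, ?_, ?_, ?_, ?_, ?_, ?_, ?_, ?_, ?_, ?_⟩
  · have : (2 : ℝ) ≤ WX X := by linarith
    exact_mod_cast this
  · have : (R : ℝ) ≤ WX X := by linarith
    exact_mod_cast this
  · -- W ≤ N
    have h5 : (WX X : ℝ) ≤ NX δ X := by
      refine (hW2.trans ?_).trans hN3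
      have h6 : L ^ 16 = exp (16 * l2) := by
        have : (16 : ℝ) * l2 = ((16 : ℕ) : ℝ) * l2 := by norm_num
        rw [this, exp_nat_mul, hexp2]
      have h7 : 4 * exp (16 * l2) ≤ exp (δ * L / 8) := by
        have h8 : (4 : ℝ) ≤ exp 2 := by
          have h9 := exp_one_gt_d9
          have h10 : exp 2 = exp 1 * exp 1 := by rw [← exp_add]; norm_num
          rw [h10]
          nlinarith
        calc 4 * exp (16 * l2) ≤ exp 2 * exp (16 * l2) := by gcongr
          _ = exp (2 + 16 * l2) := by rw [exp_add]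
          _ ≤ exp (δ * L / 8) := exp_le_exp.mpr (by linarith)
      rw [h6]
      linarith
    exact_mod_cast h5
  · rw [hze]
    exact one_lt_exp_iff.mpr (by positivity)
  · -- z^2 ≤ N
    refine le_trans ?_ hN3
    have h5 : zX δ X ^ 2 = exp (δ * L / (64 * l3)) := by
      rw [hze, ← exp_nat_mul]
      congr 1
      field_simp
      ring
    have h6 : δ * L / (64 * l3) ≤ δ * L / 8 - 1 := by
      rw [div_le_iff₀ (by positivity)]
      nlinarith
    rw [h5]
    have h7 : exp (δ * L / (64 * l3)) ≤ exp (δ * L / 8 - 1) := exp_le_exp.mpr h6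
    have h8 : exp (δ * L / 8 - 1) ≤ exp (δ * L / 8) / 2 := by
      rw [exp_sub]
      have := exp_one_gt_d9
      gcongr
      linarith
    linarith
  · have h5 : 1 ≤ log (zX δ X) / (2000 * log (WX X)) := by
      by_contra hneg
      push Not at hneg
      have h6 : log (log (zX δ X) / (2000 * log (WX X))) ≤ 0 :=
        log_nonpos (by positivity) hneg.le
      linarith
    rwa [le_div_iff₀ (by positivity), one_mul] at h5
  · -- 1/(S log W)
    rw [div_le_div_iff₀ (by positivity) (by norm_num)]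
    have h5 : 1 / 40000 * (16 * l2) ≤ S * log (WX X) := by gcongr
    linarith
  · rw [le_div_iff₀ (by positivity)]
    linarith
  · -- lower bound of V0
    show δ / 200000 * (L / l2) ≤ log (NX δ X) / (1000 * log (WX X))
    have h5 : (δ * L / 8 - 1) / (1000 * (16.1 * l2)) ≤
        log (NX δ X) / (1000 * log (WX X)) := by
      have h6 : 0 ≤ δ * L / 8 - 1 := by linarith
      gcongr
    refine le_trans ?_ h5
    rw [le_div_iff₀ (by positivity)]
    have h6 : δ / 200000 * (L / l2) * (1000 * (16.1 * l2)) = δ * L * (16100 / 200000) := by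
      field_simp
      norm_num
    rw [h6]
    linarith
  · rw [div_le_iff₀ hWpos]
    linarith
  · -- exp 12
    have h5 : 6 * ((R : ℝ) + 1) * log (NX δ X) / WX X ≤ 1 / 4 := by
      rw [div_le_iff₀ hWpos]
      have h6 : 6 * ((R : ℝ) + 1) * log (NX δ X) ≤ 6 * L * (L / 800) := by gcongr
      have h7 : L ^ 2 ≤ L ^ 16 := pow_le_pow_right₀ (by linarith) (by norm_num)
      have h8 : 6 * L * (L / 800) = L ^ 2 * (6 / 800) := by ring
      have h9 : 0 < L ^ 2 := by positivity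
      linarith
    have h6 := one_sub_le_exp_neg (1 / 4 : ℝ)
    rw [exp_neg] at h6
    have h7 : 0 < exp (1 / 4 : ℝ) := exp_pos _
    have h8 : exp (1 / 4 : ℝ) * (1 - 1 / 4) ≤ 1 := by
      calc exp (1 / 4) * (1 - 1 / 4) ≤ exp (1 / 4) * (exp (1 / 4))⁻¹ := by gcongr
        _ = 1 := mul_inv_cancel₀ h7.ne'
    have h9 : exp (6 * ((R : ℝ) + 1) * log (NX δ X) / WX X) ≤ exp (1 / 4) :=
      exp_le_exp.mpr h5
    linarith
  · -- exp 13
    have hsq : L ^ 8 ≤ √(WX X : ℝ) := by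
      rw [Real.le_sqrt (by positivity) hWpos.le]
      calc (L ^ 8) ^ 2 = L ^ 16 := by ring
        _ ≤ _ := hW1
    have hsqpos : 0 < √(WX X : ℝ) := lt_of_lt_of_le (by positivity) hsq
    have h5 : 3 * (R : ℝ) / √(WX X : ℝ) ≤ 1 / 8 := by
      rw [div_le_iff₀ hsqpos]
      have h6 : L ≤ L ^ 8 := hLpow 8 (by norm_num)
      linarith
    have h5' : 6 * (R : ℝ) * log (NX δ X) / WX X ≤ 1 / 8 := by
      rw [div_le_iff₀ hWpos]
      have h6 : 6 * (R : ℝ) * log (NX δ X) ≤ 6 * L * (L / 800) := by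
        have : (R : ℝ) ≤ L := by linarith
        gcongr
      have h7 : L ^ 2 ≤ L ^ 16 := pow_le_pow_right₀ (by linarith) (by norm_num)
      have h8 : 6 * L * (L / 800) = L ^ 2 * (6 / 800) := by ring
      have h9 : 0 < L ^ 2 := by positivity
      linarith
    have h6 := one_sub_le_exp_neg (1 / 4 : ℝ)
    rw [exp_neg] at h6
    have h7 : 0 < exp (1 / 4 : ℝ) := exp_pos _
    have h8 : exp (1 / 4 : ℝ) * (1 - 1 / 4) ≤ 1 := by
      calc exp (1 / 4) * (1 - 1 / 4) ≤ exp (1 / 4) * (exp (1 / 4))⁻¹ := by gcongr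
        _ = 1 := mul_inv_cancel₀ h7.ne'
    have h9 : exp (3 * (R : ℝ) / √(WX X : ℝ) + 6 * R * log (NX δ X) / WX X) ≤ exp (1 / 4) :=
      exp_le_exp.mpr (by linarith)
    linarith
  · -- W^(1/8)
    have h5 : L ^ 2 ≤ (WX X : ℝ) ^ (1 / 8 : ℝ) := by
      have h6 : (L ^ 16) ^ (1 / 8 : ℝ) = L ^ 2 := by
        rw [← rpow_natCast L 16, ← rpow_mul hL0.le, ← rpow_natCast L 2]
        norm_num
      rw [← h6]
      exact rpow_le_rpow (by positivity) hW1 (by norm_num)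
    refine le_trans ?_ h5
    have h6 : 9 * (40000 : ℝ) ^ 2 * R ≤ 9 * (40000 : ℝ) ^ 2 * (L / 128000000) := by gcongr
    nlinarith
  · -- ε
    have h5 : (zX δ X ^ 2 / NX δ X) ^ (1 / log (zX δ X)) ≤ exp (3 - 16 * l3) := by
      rw [rpow_def_of_pos (by positivity)]
      apply exp_le_exp.mpr
      rw [log_div (by positivity) hN0.ne', mul_one_div, div_le_iff₀ hlzpos, log_pow]
      push_cast
      have h6 : (16 * l3 - 1) * log (zX δ X) ≤ δ * L / 8 - 1 := by
        rw [hlz]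
        have h7 : (16 * l3 - 1) * (δ * L / (128 * l3)) = δ * L / 8 - δ * L / (128 * l3) := by
          field_simp
          ring
        rw [h7]
        have h8 : 1 ≤ δ * L / (128 * l3) := by
          rw [le_div_iff₀ (by positivity)]; linarith
        linarith
      have h9 : (3 - 16 * l3) * log (zX δ X) =
          2 * log (zX δ X) - (16 * l3 - 1) * log (zX δ X) := by ring
      rw [h9]
      linarith only [h6, hlN2]
    have h9 : (1 + 2 / (S * log (zX δ X))) ^ R ≤ exp (8 * l3) := by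
      have h10 : 1 + 2 / (S * log (zX δ X)) ≤ exp (2 / (S * log (zX δ X))) := by
        have := add_one_le_exp (2 / (S * log (zX δ X)))
        linarith
      calc (1 + 2 / (S * log (zX δ X))) ^ R ≤ (exp (2 / (S * log (zX δ X)))) ^ R := by gcongr
        _ = exp (R * (2 / (S * log (zX δ X)))) := by rw [← exp_nat_mul]
        _ ≤ exp (8 * l3) := by
          apply exp_le_exp.mpr
          rw [mul_div_assoc', div_le_iff₀ (by positivity), hlz]
          have h11 : 8 * l3 * (1 / 40000 * (δ * L / (128 * l3))) ≤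
              8 * l3 * (S * (δ * L / (128 * l3))) := by gcongr
          refine le_trans ?_ h11
          have h12 : 8 * l3 * (1 / 40000 * (δ * L / (128 * l3))) =
              2 * (δ / 1280000 * L) := by
            field_simp
            ring
          rw [h12]
          linarith
    have hfin : exp (-7 * l3) = l2⁻¹ ^ 7 := by
      have : -7 * l3 = -(((7 : ℕ) : ℝ) * l3) := by push_cast; ring
      rw [this, exp_neg, exp_nat_mul, hexp3, inv_pow]
    rw [← hfin]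
    calc (zX δ X ^ 2 / NX δ X) ^ (1 / log (zX δ X)) * (1 + 2 / (S * log (zX δ X))) ^ R
        ≤ exp (3 - 16 * l3) * exp (8 * l3) := by
          apply mul_le_mul h5 h9 _ (exp_pos _).le
          positivity
      _ = exp (3 - 16 * l3 + 8 * l3) := by rw [← exp_add]
      _ ≤ exp (-7 * l3) := exp_le_exp.mpr (by linarith)
  · -- τ
    have h5 : 2 / S + 1 ≤ 80001 := by
      have : 2 / S ≤ 80000 := by
        rw [div_le_iff₀ hSpos]; linarith
      linarith
    calc 2 * log (NX δ X) * ((2 / S + 1) / WX X) ≤ 2 * (L / 800) * (80001 / L ^ 16) := by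
          gcongr
      _ ≤ L⁻¹ ^ 8 := by
          rw [inv_pow, ← one_div, le_div_iff₀ (by positivity)]
          have h6 : 2 * (L / 800) * (80001 / L ^ 16) * L ^ 8 = (80001 / 400) / L ^ 7 := by
            field_simp
            ring
          rw [h6, div_le_one (by positivity)]
          have h7 : L ≤ L ^ 7 := hLpow 7 (by norm_num)
          linarith
  · -- N^24
    have h5 : ((NX δ X : ℝ) * NX δ X * NX δ X) ^ 8 ≤ exp (0.03 * L) := by
      have h6 : ((NX δ X : ℝ) * NX δ X * NX δ X) ^ 8 ≤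
          (exp (δ * L / 8) * exp (δ * L / 8) * exp (δ * L / 8)) ^ 8 := by gcongr
      refine h6.trans ?_
      rw [← exp_add, ← exp_add, ← exp_nat_mul]
      apply exp_le_exp.mpr
      push_cast
      linarith
    have h6 : (18 : ℝ) ≤ exp (0.22 * L) := by
      have := add_one_le_exp (0.22 * L)
      linarith
    have h7 : (X : ℝ) ^ (1 / 4 : ℝ) = exp (0.22 * L) * exp (0.03 * L) := by
      rw [hxe, ← exp_add]
      congr 1
      ring
    rw [h7]
    gcongr

/-- The numbers needed for `upp` and `prime_low` (cf. `par_num` and `parnum_core` in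
`H56G/ParNum.lean`). `L = log X`, `l2 = log L`, `l3 = log l2`. `log W ∼ 16 l2`, `log N ∼ δ L/8`,
`log z = δ L/(128 l3)`, so `S ≥ log (log z/(2000 log W))/(2000 log W) ≥ 1/40000`;
`(z²/N)^(1/log z) = exp (2 - log N/log z) ≤ exp (3 - 16 l3)` and
`(1 + 2/(S log z))^R ≤ exp (2 R/(S log z)) ≤ exp (8 l3)` if `R ≤ c0 L` with
`c0 ≤ δ/(32 · 40000 · ...)`, so `ε = e^3 l2^(-8) ≤ l2^(-7)`;
`τ = 2 log N (2/S + 1)/W ≤ L^(-14)`; `K = exp (2 (R+1) · 3 log N/W) ≤ 1 + 1/l2`. -/
theorem par_num (δ : ℝ) (hδ : 0 < δ) (hδ1 : δ ≤ 1 / 100) : ∃ c0 : ℝ, 0 < c0 ∧ ∃ X₀ : ℕ,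
    ∀ X : ℕ, X₀ ≤ X → ∀ R : ℕ, (R : ℝ) ≤ c0 * log X → ∀ S : ℝ,
    log (log (zX δ X) / (2000 * log (WX X))) / (2000 * log (WX X)) ≤ S →
    2 ≤ WX X ∧ R ≤ WX X ∧ WX X ≤ NX δ X ∧ 1 < zX δ X ∧ zX δ X ^ 2 ≤ NX δ X ∧
    2000 * log (WX X) ≤ log (zX δ X) ∧ 1 / 40000 ≤ S ∧ 1 / (S * log (WX X)) ≤ 1 / 4 ∧
    1 ≤ log (NX δ X) / (1000 * log (WX X)) ∧
    log (NX δ X) / (1000 * log (WX X)) ≥ δ / 200000 * (log X / log (log X)) ∧
    4 * log (NX δ X) / WX X ≤ 1 / 2 ∧
    exp (6 * (R + 1) * log (NX δ X) / WX X) ≤ 3 / 2 ∧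
    exp (3 * R / √(WX X : ℝ) + 6 * R * log (NX δ X) / WX X) ≤ 3 / 2 ∧
    9 * (40000 : ℝ) ^ 2 * R ≤ (WX X : ℝ) ^ (1 / 8 : ℝ) ∧
    (zX δ X ^ 2 / NX δ X) ^ (1 / log (zX δ X)) * (1 + 2 / (S * log (zX δ X))) ^ R ≤
      (log (log X))⁻¹ ^ 7 ∧
    2 * log (NX δ X) * ((2 / S + 1) / WX X) ≤ (log X)⁻¹ ^ 8 ∧
    18 * ((NX δ X : ℝ) * NX δ X * NX δ X) ^ 8 ≤ (X : ℝ) ^ (1 / 4 : ℝ) := by
  refine ⟨δ / 1280000, by positivity, ?_⟩
  have T0 : Filter.Tendsto (fun n : ℕ => (n : ℝ)) Filter.atTop Filter.atTop :=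
    tendsto_natCast_atTop_atTop
  have T1 : Filter.Tendsto (fun n : ℕ => log (n : ℝ)) Filter.atTop Filter.atTop :=
    tendsto_log_atTop.comp T0
  have T2 : Filter.Tendsto (fun n : ℕ => log (log (n : ℝ))) Filter.atTop Filter.atTop :=
    tendsto_log_atTop.comp T1
  have T3 : Filter.Tendsto (fun n : ℕ => log (log (log (n : ℝ)))) Filter.atTop Filter.atTop :=
    tendsto_log_atTop.comp T2
  have hlo : ∀ c : ℝ, 0 < c → ∀ᶠ y : ℝ in Filter.atTop, log y ≤ c * y := by
    intro c hc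
    filter_upwards [isLittleO_log_id_atTop.def hc, Filter.eventually_ge_atTop 1] with y hy hy1
    simp only [id_eq, norm_eq_abs] at hy
    rw [abs_of_nonneg (log_nonneg hy1), abs_of_nonneg (by linarith)] at hy
    exact hy
  have E1 : ∀ᶠ n : ℕ in Filter.atTop, (10 : ℝ) ^ 6 ≤ log (n : ℝ) := T1.eventually_ge_atTop _
  have E2 : ∀ᶠ n : ℕ in Filter.atTop, (10 : ℝ) ^ 4 ≤ log (log (n : ℝ)) :=
    T2.eventually_ge_atTop _
  have E3 : ∀ᶠ n : ℕ in Filter.atTop, (4 : ℝ) ≤ log (log (log (n : ℝ))) :=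
    T3.eventually_ge_atTop _
  have E4a : ∀ᶠ n : ℕ in Filter.atTop, log (log (log (n : ℝ))) ≤ 0.01 * log (log (n : ℝ)) :=
    T2.eventually (hlo 0.01 (by norm_num))
  have E4b : ∀ᶠ n : ℕ in Filter.atTop, log (4121600 / δ) / 0.1 ≤ log (log (n : ℝ)) :=
    T2.eventually_ge_atTop _
  have E5 : ∀ᶠ n : ℕ in Filter.atTop, log (log (n : ℝ)) ≤ (δ / 257600) * log (n : ℝ) :=
    T1.eventually (hlo (δ / 257600) (by positivity))
  have E6 : ∀ᶠ n : ℕ in Filter.atTop, 0 < (n : ℝ) := T0.eventually_gt_atTop _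
  obtain ⟨X₀, hX₀⟩ := Filter.eventually_atTop.mp
    ((E1.and (E2.and E3)).and ((E4a.and E4b).and (E5.and E6)))
  refine ⟨X₀, fun X hX R hR S hS => ?_⟩
  obtain ⟨⟨h1, h2, h3⟩, ⟨h4a, h4b⟩, h5, h6⟩ := hX₀ X hX
  have h4b' : log (4121600 / δ) ≤ 0.1 * log (log (X : ℝ)) := by
    rw [div_le_iff₀ (by norm_num)] at h4b
    linarith
  refine par_core X δ (log X) (log (log X)) (log (log (log X))) hδ hδ1 h6 rfl rfl rfl h1 h2 h3
    (by linarith) ?_ R hR S hS
  have h7 : δ / 257600 * log (X : ℝ) = δ * log (X : ℝ) / 257600 := by ring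
  rw [h7, le_div_iff₀ (by norm_num)] at h5
  linarith

end Pool.Agent.Lib.H5C
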