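import Pool.Agent.Lib.H5C.TH2
import Pool.Agent.Lib.H5C.TH4
import Pool.Agent.Lib.H5C.PAR
import Pool.Agent.Lib.H56G.Slow

/-!
# Chunk TH5a: the upper bounds
-/

open Finset
open Pool.Agent.Lib.H56G

namespace Pool.Agent.Lib.H5C

/-- The sieve primes of `s` are the primes in `(WX X, NX δ X]`. -/
def IsSieve {ι J : Type} (s : Sys ι J) (δ : ℝ) (X : ℕ) : Prop :=
  (∀ i, WX X < s.pr i) ∧ (∀ i, s.pr i ≤ NX δ X) ∧
    ∀ p, p.Prime → WX X < p → p ≤ NX δ X → ∃ i, s.pr i = p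

theorem th5_U_abs {ι J : Type} [Fintype ι] [DecidableEq ι] [Fintype J] [DecidableEq J]
    (s : Sys ι J) (κ : ι → Option J) (t : ℕ) : |s.U κ t| ≤ s.r κ := by
  unfold Sys.U
  rw [Finset.abs_prod]
  have h1 : s.r κ = ∏ i, if (κ i).isSome then (s.pr i : ℝ) else 1 := by
    unfold Sys.r Sys.rho supp
    rw [Finset.prod_filter]
  rw [h1]
  exact Finset.prod_le_prod (fun i _ => abs_nonneg _) fun i _ => gram2_elim_abs s i (κ i) t

/-- `|L(t)| ≤ ∑_{r κ ≤ D} |c κ| r κ ≤ 3 D² D` (`card_le`, `abs_cc_le_one`, `|U κ t| ≤ r κ`, cf.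
`gram2_elim_abs`). -/
theorem L_sq_le {ι J : Type} [Fintype ι] [DecidableEq ι] [Fintype J] [DecidableEq J]
    (s : Sys ι J) (W : ℕ) (hW : 1 ≤ W) (hpr : ∀ i, W < s.pr i) (hJ : Fintype.card J ≤ W)
    (z θ D : ℝ) (hθ : 0 ≤ θ) (hθ1 : θ ≤ 1) (hS : 0 < SS s z) (hD : 1 ≤ D) (t : ℕ) :
    (∑ κ, cc s (tb s z θ) D κ * s.U κ t) ^ 2 ≤ 9 * D ^ 6 := by
  have h0 := tb_nonneg s z θ hθ
  have h1 := tb_le_one s z θ hθ hθ1 hS
  have hc1 := abs_cc_le_one s (tb s z θ) h0 h1 D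
  have hc : ∀ κ : ι → Option J, cc s (tb s z θ) D κ ≠ 0 → s.r κ ≤ D := by
    intro κ h
    by_contra h'
    exact h (if_neg h')
  have hsum := main0_sum_abs s W hW hpr hJ (cc s (tb s z θ) D) D hD hc hc1
  have h2 : |∑ κ, cc s (tb s z θ) D κ * s.U κ t| ≤ 3 * D ^ 2 * D := by
    calc |∑ κ, cc s (tb s z θ) D κ * s.U κ t| ≤ ∑ κ, |cc s (tb s z θ) D κ * s.U κ t| :=
          Finset.abs_sum_le_sum_abs _ _
      _ ≤ ∑ κ, |cc s (tb s z θ) D κ| * D := by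
          refine Finset.sum_le_sum fun κ _ => ?_
          rw [abs_mul]
          by_cases h : cc s (tb s z θ) D κ = 0
          · rw [h, abs_zero, zero_mul, zero_mul]
          · exact mul_le_mul_of_nonneg_left ((th5_U_abs s κ t).trans (hc κ h)) (abs_nonneg _)
      _ = (∑ κ, |cc s (tb s z θ) D κ|) * D := by rw [Finset.sum_mul]
      _ ≤ 3 * D ^ 2 * D := mul_le_mul_of_nonneg_right hsum (by linarith)
  calc (∑ κ, cc s (tb s z θ) D κ * s.U κ t) ^ 2 = |∑ κ, cc s (tb s z θ) D κ * s.U κ t| ^ 2 :=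
        (sq_abs _).symm
    _ ≤ (3 * D ^ 2 * D) ^ 2 := pow_le_pow_left₀ (abs_nonneg _) h2 2
    _ = 9 * D ^ 6 := by ring

/-- The numbers `V0`: as in `suppress` (`H56G/Suppress.lean`), from `vlow`, `VV_ge`, `card_supp_le`. -/
theorem vv_low (δ : ℝ) (hδ : 0 < δ) (hδ1 : δ ≤ 1 / 100) : ∃ X₀ : ℕ, ∀ X : ℕ, X₀ ≤ X →
    ∀ {ι J : Type} [Fintype ι] [DecidableEq ι] [Fintype J] [DecidableEq J] (s : Sys ι J),
    IsSieve s δ X → ∀ κ : ι → Option J, s.r κ ≤ (NX δ X : ℝ) * NX δ X →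
    Real.log (NX δ X) / (1000 * Real.log (WX X)) ≤ s.VV (NX δ X) κ := by
  obtain ⟨c0, hc0, X₀, hpar⟩ := par_num δ hδ hδ1
  refine ⟨max X₀ 1, fun X hX => ?_⟩
  intro ι J _ _ _ _ s hs κ hκ
  have hX0 : X₀ ≤ X := (le_max_left _ _).trans hX
  have hX1 : 1 ≤ X := (le_max_right _ _).trans hX
  have hR : ((0 : ℕ) : ℝ) ≤ c0 * Real.log X := by
    have : 0 ≤ Real.log X := Real.log_natCast_nonneg X
    push_cast
    positivity
  obtain ⟨hW2, -, hWN, -, -, -, -, -, hV1, -, hNW, -⟩ := hpar X hX0 0 hR _ le_rfl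
  obtain ⟨hpr, hprN, hall⟩ := hs
  have hN1 : (1 : ℝ) ≤ NX δ X := by exact_mod_cast (by omega : 1 ≤ NX δ X)
  have hW1 : 1 ≤ WX X := by omega
  have hWpos : (0 : ℝ) < WX X := by exact_mod_cast (by omega : 0 < WX X)
  have hlogN : 0 ≤ Real.log (NX δ X) := Real.log_nonneg hN1
  have hlogW : 0 < Real.log (WX X) := Real.log_pos (by exact_mod_cast (by omega : 1 < WX X))
  have h1 := VV_ge s (WX X) hW1 hpr (NX δ X) κ
  have h2 := card_supp_le s κ _ hκ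
  have h3 := vlow s (WX X) (NX δ X) hW2 hpr hall (NX δ X) hN1 le_rfl
  set V := ∑ A ∈ univ.filter (fun A : Finset ι => s.rho A ≤ (NX δ X : ℝ)), 1 / s.phi A with hV
  have h4 : ((supp κ).card : ℝ) / WX X ≤ 1 / 2 := by
    refine le_trans ?_ hNW
    have h5 : 2 * Real.log ((NX δ X : ℝ) * NX δ X) = 4 * Real.log (NX δ X) := by
      rw [Real.log_mul (by linarith) (by linarith)]
      ring
    rw [h5] at h2
    gcongr
  have h5 : Real.log (NX δ X) / (500 * Real.log (WX X)) ≤ V := by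
    rw [div_le_iff₀ (by positivity)]
    linarith
  have h6 : 0 ≤ Real.log (NX δ X) / (500 * Real.log (WX X)) := by positivity
  have h7 : (1 / 2 : ℝ) * V ≤ (1 - ((supp κ).card : ℝ) / WX X) * V :=
    mul_le_mul_of_nonneg_right (by linarith) (by linarith)
  have h8 : Real.log (NX δ X) / (1000 * Real.log (WX X)) =
      1 / 2 * (Real.log (NX δ X) / (500 * Real.log (WX X))) := by
    field_simp
    ring
  rw [h8]
  linarith

end Pool.Agent.Lib.H5C
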