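import Pool.Agent.Lib.H5C.Defs
import Pool.Agent.Lib.H68T.INVA
import Pool.Agent.Lib.H68X.XEX
import Pool.Agent.Lib.H68X.XMU

/-!
# Chunk AN4: bad characters of small conductor
-/

open Finset
open Pool.Agent.Lib.H68T

namespace Pool.Agent.Lib.H5C

/-- `sw K ≤ 1` in the regime `Reg K` -/
theorem an4_sw_le_one {K₁ : ℝ} (hK₁ : 1 ≤ K₁) {Q X : ℕ} (h : Reg K₁ Q X) : sw K₁ Q X ≤ 1 := by
  have hll : 1 ≤ Real.log (Real.log X) := hK₁.trans h.1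
  have hlQ : 1 ≤ Real.log Q := hK₁.trans (h.logQ_ge hK₁)
  have hQ : (0:ℝ) < Q := by exact_mod_cast h.Q_pos hK₁
  have hK0 : 0 < K₁ := by linarith
  have h1 : 1 ≤ Real.log X / (K₁ * Real.log Q) := by
    rw [le_div_iff₀ (by positivity), one_mul]
    have h2 := h.2.2
    have h3 : K₁ * Real.log Q ≤ K₁ * (Real.log Q * Real.log (Real.log X)) := by
      apply mul_le_mul_of_nonneg_left _ hK0.le
      exact le_mul_of_one_le_right (by linarith) hll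
    linarith
  have he : Real.exp (-1 : ℝ) ≤ 1 / 2 := by
    have := Real.exp_neg_one_lt_d9
    linarith
  have e1 : Real.exp (-(Real.log X / (K₁ * Real.log Q))) ≤ 1 / 2 :=
    (Real.exp_le_exp.2 (by linarith)).trans he
  have e2 : (Q : ℝ) ^ (-(1 / K₁)) ≤ 1 / 2 := by
    rw [Real.rpow_def_of_pos hQ]
    refine (Real.exp_le_exp.2 ?_).trans he
    have h4 : K₁ ≤ Real.log Q := h.logQ_ge hK₁
    have h5 : 1 ≤ Real.log Q * (1 / K₁) := by
      rw [mul_one_div, le_div_iff₀ hK0, one_mul]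
      exact h4
    linarith
  unfold sw
  linarith

theorem an4_log_floor (z : ℝ) (hz : 2 ≤ z) : z - 1 ≤ Real.log ⌊Real.exp z⌋₊ ∧
    Real.log ⌊Real.exp z⌋₊ ≤ z := by
  have h1 : Real.exp z - 1 < ⌊Real.exp z⌋₊ := Nat.sub_one_lt_floor _
  have h2 : (⌊Real.exp z⌋₊ : ℝ) ≤ Real.exp z := Nat.floor_le (Real.exp_pos _).le
  have h3 : Real.exp (z - 1) ≤ Real.exp z - 1 := by
    have h4 : Real.exp z = Real.exp 1 * Real.exp (z - 1) := by rw [← Real.exp_add]; ring_nf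
    have h5 : 2 ≤ Real.exp 1 := by linarith [Real.add_one_le_exp (1:ℝ)]
    have h6 : 2 ≤ Real.exp (z - 1) := by linarith [Real.add_one_le_exp (z - 1)]
    have h7 := mul_le_mul_of_nonneg_right h5 (Real.exp_pos (z - 1)).le
    linarith
  have h0 : 0 < (⌊Real.exp z⌋₊ : ℝ) := by
    have := Real.exp_pos (z - 1)
    linarith
  constructor
  · rw [Real.le_log_iff_exp_le h0]
    linarith
  · rw [Real.log_le_iff_le_exp h0]
    exact h2

/-- The level: `Q₁ = ⌊exp (L/(K log L))⌋` satisfies `Reg K Q₁ X` for large `X`. -/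
theorem an4_reg (K : ℝ) (hK : 1 ≤ K) : ∃ X₀ : ℕ, ∀ X : ℕ, X₀ ≤ X →
    Reg K ⌊Real.exp (Real.log X / (K * Real.log (Real.log X)))⌋₊ X := by
  set S : ℝ := 16 * (K + 2) * K + 2 with hS
  have hK0 : 0 < K := by linarith
  have hS1 : 1 ≤ S := by
    have : 0 ≤ 16 * (K + 2) * K := by positivity
    rw [hS]; linarith
  refine ⟨⌈Real.exp (Real.exp K + S ^ 2)⌉₊, fun X hX => ?_⟩
  have hX1 : Real.exp (Real.exp K + S ^ 2) ≤ X := (Nat.le_ceil _).trans (by exact_mod_cast hX)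
  have hX0 : (0 : ℝ) < X := (Real.exp_pos _).trans_le hX1
  set L := Real.log X with hL
  have hLge : Real.exp K + S ^ 2 ≤ L := (Real.le_log_iff_exp_le hX0).mpr hX1
  have hLK : Real.exp K ≤ L := by nlinarith [sq_nonneg S]
  have hLS : S ^ 2 ≤ L := by linarith [Real.exp_pos K]
  have hL0 : 0 < L := (Real.exp_pos _).trans_le hLK
  have hllK : K ≤ Real.log L := (Real.le_log_iff_exp_le hL0).mpr hLK
  set ℓ := Real.log L with hℓ
  have hℓ1 : 1 ≤ ℓ := hK.trans hllK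
  have hℓ0 : 0 < ℓ := by linarith
  have hsq : S ≤ Real.sqrt L := by
    rw [Real.le_sqrt (by linarith) hL0.le]
    exact hLS
  have hsq2 : Real.sqrt L * Real.sqrt L = L := Real.mul_self_sqrt hL0.le
  have hlog : ℓ ^ 2 ≤ 16 * Real.sqrt L := by
    have h1 := Real.log_le_rpow_div hL0.le (show (0:ℝ) < 1 / 4 by norm_num)
    have h2 : ℓ ≤ 4 * L ^ (1 / 4 : ℝ) := by
      rw [hℓ]
      linarith
    have h3 : ℓ ^ 2 ≤ (4 * L ^ (1 / 4 : ℝ)) ^ 2 := pow_le_pow_left₀ hℓ0.le h2 2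
    have h4 : (4 * L ^ (1 / 4 : ℝ)) ^ 2 = 16 * Real.sqrt L := by
      rw [mul_pow, ← Real.rpow_natCast (L ^ (1 / 4 : ℝ)), ← Real.rpow_mul hL0.le,
        Real.sqrt_eq_rpow]
      norm_num
    linarith
  have hmain : (K * ℓ + 2) * (K * ℓ) ≤ L := by
    have h1 : (K * ℓ + 2) * (K * ℓ) ≤ (K + 2) * K * ℓ ^ 2 := by
      have h2 : K * ℓ ≤ K * ℓ ^ 2 := by
        apply mul_le_mul_of_nonneg_left _ hK0.le
        rw [sq]
        exact le_mul_of_one_le_left hℓ0.le hℓ1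
      have h3 : (K * ℓ + 2) * (K * ℓ) = K * K * ℓ ^ 2 + 2 * (K * ℓ) := by ring
      rw [h3]
      linarith
    calc (K * ℓ + 2) * (K * ℓ) ≤ (K + 2) * K * ℓ ^ 2 := h1
      _ ≤ (K + 2) * K * (16 * Real.sqrt L) := mul_le_mul_of_nonneg_left hlog (by positivity)
      _ = (16 * (K + 2) * K) * Real.sqrt L := by ring
      _ ≤ Real.sqrt L * Real.sqrt L := by
          apply mul_le_mul_of_nonneg_right _ (Real.sqrt_nonneg _)
          linarith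
      _ = L := hsq2
  have hz : K * ℓ + 2 ≤ L / (K * ℓ) := by
    rw [le_div_iff₀ (by positivity)]
    exact hmain
  obtain ⟨hq1, hq2⟩ := an4_log_floor (L / (K * ℓ)) (by
    have : 0 ≤ K * ℓ := by positivity
    linarith)
  refine ⟨hllK, by linarith, ?_⟩
  calc K * (Real.log ⌊Real.exp (L / (K * ℓ))⌋₊ * ℓ) ≤ K * (L / (K * ℓ) * ℓ) := by
        apply mul_le_mul_of_nonneg_left _ hK0.le
        exact mul_le_mul_of_nonneg_right hq2 hℓ0.le
    _ = L := by field_simp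

/-- With one possible exception bad characters have large conductor.

Proof. `L = log X`, `Q₁ = ⌊exp (L/(K₁ log L))⌋` with `K₁` much larger than the constants `K` of
`Mu_of_inv` below; `Reg K Q₁ X` holds for large `X`. Take `c` from `exc_data`. If `Good c Q₁`,
then `inv_all c` gives `InvStmt` for all `p ∈ PC Q₁`; put `pe = p0`. Otherwise some real primitive
`ψ ≠ 1` mod `r ≤ Q₁` has a zero `σ ∈ [1 - c/log Q₁, 1]`, `σ < 1` because
`LFunction (1) ≠ 0` (cf. `H68T/PAGE2.lean`), `exc_data` gives `InvStmt` for all `p ∈ PC Q₁`,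
`p ≠ ⟨r, ψ⟩ =: pe`. By `Mu_of_inv`, `‖Mu X p t‖ ≤ sw K Q₁ X ≤ 2 L^(-K₁/K) < L^(-10)` for
`|t| ≤ Q₁^11`, `L^10 ≤ Q₁^11`; so `p` is not bad (for any `Q`). -/
theorem small_cond : ∃ K₁ : ℝ, 1 ≤ K₁ ∧ ∃ X₀ : ℕ, ∀ X : ℕ, X₀ ≤ X → ∃ pe : PCh, 1 ≤ pe.1 ∧
    ∀ Q : ℕ, ∀ p ∈ Bad Q X, p ≠ pe →
      Real.exp (Real.log X / (K₁ * Real.log (Real.log X))) < p.1 := by
  classical
  obtain ⟨c, c', C, Ke, hc, hc', hC, hexc⟩ := exc_data
  obtain ⟨a, C₂, K₂, ha, hC₂, hinv⟩ := inv_all c hc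
  obtain ⟨K₃, hK₃1, hK₃⟩ := Mu_of_inv c' C hc'
  obtain ⟨K₄, hK₄1, hK₄⟩ := Mu_of_inv a C₂ ha
  obtain ⟨K₆, hK₆0, hK₆1, hK₆⟩ := sw_absorb 1 10 (K₃ + K₄) (by linarith)
  have a1 := abs_nonneg Ke
  have a2 := abs_nonneg K₂
  have b1 := le_abs_self Ke
  have b2 := le_abs_self K₂
  set K : ℝ := |Ke| + |K₂| + K₃ + K₄ + K₆ + 1 with hK
  have hK1 : 1 ≤ K := by rw [hK]; linarith
  have hK0 : 0 ≤ K := by linarith
  obtain ⟨X₀, hX₀⟩ := an4_reg K hK1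
  refine ⟨K, hK1, X₀, fun X hX => ?_⟩
  have hR := hX₀ X hX
  set Q₁ := ⌊Real.exp (Real.log X / (K * Real.log (Real.log X)))⌋₊ with hQ₁
  have r3 : Reg K₃ Q₁ X := hR.mono hK0 (by rw [hK]; linarith)
  have r4 : Reg K₄ Q₁ X := hR.mono hK0 (by rw [hK]; linarith)
  have r6 : Reg K₆ Q₁ X := hR.mono hK0 (by rw [hK]; linarith)
  have hQK : K ≤ Q₁ := hR.Q_ge hK1
  have hQpos : 0 < Q₁ := hR.Q_pos hK1
  have hQr1 : (1 : ℝ) ≤ Q₁ := by exact_mod_cast hQpos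
  have hL1 : 1 ≤ Real.log X := hR.logX_ge_one (by linarith)
  set L := Real.log X with hL
  have hL0 : 0 < L := by linarith
  have hLQ : L ≤ Q₁ := by
    calc L = L ^ (1 : ℝ) := (Real.rpow_one L).symm
      _ ≤ L ^ K := Real.rpow_le_rpow_of_exponent_le hL1 hK1
      _ ≤ Q₁ := hR.pow_le (by linarith)
  have ht : ∀ t : ℝ, |t| ≤ L ^ 10 → |t| ≤ (Q₁ : ℝ) ^ 11 := by
    intro t ht
    calc |t| ≤ L ^ 10 := ht
      _ ≤ (Q₁ : ℝ) ^ 10 := pow_le_pow_left₀ hL0.le hLQ 10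
      _ ≤ (Q₁ : ℝ) ^ 11 := pow_le_pow_right₀ hQr1 (by norm_num)
  have hsmall : sw (K₃ + K₄) Q₁ X ≤ (L ^ 10)⁻¹ := by
    have h1 := hK₆ Q₁ X r6
    have h2 := an4_sw_le_one hK₆1 r6
    have h3 : L ^ (10 : ℝ) = L ^ 10 := by rw [← Real.rpow_natCast]; norm_num
    rw [one_mul, h3] at h1
    rw [← one_div, le_div_iff₀ (by positivity)]
    linarith
  have s3 : sw K₃ Q₁ X ≤ (L ^ 10)⁻¹ := (sw_mono (by linarith) (by linarith) hQpos).trans hsmall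
  have s4 : sw K₄ Q₁ X ≤ (L ^ 10)⁻¹ := (sw_mono (by linarith) (by linarith) hQpos).trans hsmall
  -- membership in `PC Q₁`
  have hmem : ∀ Q : ℕ, ∀ p ∈ Bad Q X, (p.1 : ℝ) ≤ Real.exp (L / (K * Real.log L)) →
      p ∈ PC Q₁ ∧ ∃ t : ℝ, |t| ≤ (Q₁ : ℝ) ^ 11 ∧ (L ^ 10)⁻¹ < ‖Mu X p t‖ := by
    intro Q p hp hle
    unfold Bad PC1 at hp
    rw [mem_filter, mem_filter] at hp
    obtain ⟨⟨hpQ, -⟩, t, ht1, ht2⟩ := hp
    rw [mem_PC] at hpQ
    refine ⟨mem_PC.2 ⟨hpQ.1, ?_, hpQ.2.2⟩, t, ht t ht1, ht2⟩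
    rw [hQ₁]
    exact Nat.le_floor hle
  by_cases hG : Good c Q₁
  · refine ⟨p0, le_refl _, fun Q p hp _ => ?_⟩
    by_contra hcon
    push Not at hcon
    obtain ⟨hpc, t, ht1, ht2⟩ := hmem Q p hp hcon
    have h1 := hK₄ Q₁ X r4 p (mem_PC.1 hpc).1
      (hinv Q₁ (by rw [hK] at hQK; linarith) hG p hpc) t ht1
    linarith
  · unfold Good at hG
    push Not at hG
    obtain ⟨r, hrne, ψ, hrQ, hprim, hψ1, hψ2, β, hβ1, hβ2, hβ3⟩ := hG
    have hβlt : β < 1 := by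
      rcases eq_or_lt_of_le hβ2 with h0 | h0
      · exfalso
        rw [h0] at hβ3
        refine DirichletCharacter.LFunction_ne_zero_of_one_le_re ψ (Or.inl hψ1) ?_ hβ3
        simp
      · exact h0
    have hE : Exc c Q₁ r ψ β := ⟨hrQ, hprim, hψ1, hψ2, hβ1, hβlt, hβ3⟩
    have hED := hexc Q₁ (by rw [hK] at hQK; linarith) r ψ β hE
    refine ⟨⟨r, ψ⟩, Nat.pos_of_ne_zero (NeZero.ne r), fun Q p hp hpe => ?_⟩
    by_contra hcon
    push Not at hcon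
    obtain ⟨hpc, t, ht1, ht2⟩ := hmem Q p hp hcon
    have h1 := hK₃ Q₁ X r3 p (mem_PC.1 hpc).1 (hED.inv p hpc hpe) t ht1
    linarith

end Pool.Agent.Lib.H5C
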