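import Pool.Agent.Lib.H5C.Defs
import Pool.Agent.Lib.H68T.PNTE
import Pool.Agent.Lib.H68T.BPS

/-!
# Chunk AN6b: the principal character; primes instead of prime powers
-/

open Finset
open Pool.Agent.Lib.H68T

namespace Pool.Agent.Lib.H5C

theorem an6_lp_nonneg (n : ℕ) : 0 ≤ lp (n : ℤ) := by
  unfold Pool.Agent.Lib.H68T.lp
  split_ifs with h
  · rw [Int.toNat_natCast] at h
    have : (1 : ℝ) ≤ ((n : ℤ) : ℝ) := by exact_mod_cast h.one_lt.le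
    exact Real.log_nonneg this
  · exact le_refl _

theorem an6_SP_sub (X : ℕ) (hX : 1 ≤ X) (p : PCh) :
    ‖SP X (fun P => p.2 (P : ZMod p.1)) - FL X p 0‖ ≤
      9 / X * (2 * √((60 * X : ℕ) : ℝ) * Real.log ((60 * X : ℕ) : ℝ)) := by
  have h9 : (0 : ℝ) ≤ 9 / X := by positivity
  refine le_trans ?_ (mul_le_mul_of_nonneg_left (BPS_prime_powers X hX) h9)
  unfold SP FL FF
  rw [← Finset.sum_sub_distrib, Finset.mul_sum]
  refine (norm_sum_le _ _).trans (Finset.sum_le_sum fun m hm => ?_)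
  rw [mem_Icc] at hm
  have hm0 : (m : ℂ) ≠ 0 := by
    have : m ≠ 0 := by omega
    exact_mod_cast this
  have h1 : (m : ℂ) ^ (-(1 + ((0 : ℝ) : ℂ) * Complex.I)) = (m : ℂ)⁻¹ := by
    rw [Complex.ofReal_zero, zero_mul, add_zero, Complex.cpow_neg_one]
  rw [h1]
  have h2 : ((lp (m : ℤ) * v X m / m : ℝ) : ℂ) * p.2 (m : ZMod p.1) -
      (ArithmeticFunction.vonMangoldt m : ℂ) * p.2 (m : ZMod p.1) * (v X m : ℂ) * (m : ℂ)⁻¹ =
      (((lp (m : ℤ) - ArithmeticFunction.vonMangoldt m) * (v X m / m) : ℝ) : ℂ) *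
        p.2 (m : ZMod p.1) := by
    push_cast
    ring
  rw [h2, norm_mul, Complex.norm_real, norm_mul,
    Real.norm_of_nonpos (by linarith [BPS_lp_le m]), neg_sub,
    Real.norm_of_nonneg (div_nonneg (BPS_v_nonneg X m) (Nat.cast_nonneg m))]
  have h3 : 0 ≤ ArithmeticFunction.vonMangoldt m - lp (m : ℤ) := by linarith [BPS_lp_le m]
  calc (ArithmeticFunction.vonMangoldt m - lp (m : ℤ)) * (v X m / m) * ‖p.2 (m : ZMod p.1)‖
      ≤ (ArithmeticFunction.vonMangoldt m - lp (m : ℤ)) * (9 / X) * 1 := by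
        refine mul_le_mul ?_ (DirichletCharacter.norm_le_one _ _) (norm_nonneg _) (by positivity)
        exact mul_le_mul_of_nonneg_left (BPS_v_div_le hX hm.1) h3
    _ = 9 / X * (ArithmeticFunction.vonMangoldt m - lp (m : ℤ)) := by ring

/-- `0 ≤ Λ(m) - lp(m)`, `∑_{m ≤ 60 X} (Λ(m) - lp(m)) ≤ 2 √(60X) log (60X)` (`BPS_prime_powers`), and the
weight `v(m)/m` is at most `e²/X`. -/
theorem SP_sub_FL : ∃ X₀ : ℕ, ∀ X : ℕ, X₀ ≤ X → ∀ p : PCh, 1 ≤ p.1 →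
    ‖SP X (fun P => p.2 (P : ZMod p.1)) - FL X p 0‖ ≤ (X : ℝ) ^ (-(1 / 3) : ℝ) := by
  -- log (60 X) ≤ c X^(1/6)
  have h1 : ∀ᶠ x : ℝ in Filter.atTop, ‖Real.log x‖ ≤ (1 / 100000) * ‖x ^ (1 / 6 : ℝ)‖ :=
    (isLittleO_log_rpow_atTop (by norm_num : (0 : ℝ) < 1 / 6)).bound (by norm_num)
  obtain ⟨B, hB⟩ := Filter.eventually_atTop.mp h1
  refine ⟨⌈|B|⌉₊ + 1, fun X hX p _ => ?_⟩
  have hX1 : 1 ≤ X := by omega
  have hXr : (1 : ℝ) ≤ X := by exact_mod_cast hX1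
  have hX0 : (0 : ℝ) < X := by linarith
  refine (an6_SP_sub X hX1 p).trans ?_
  have hc : ((60 * X : ℕ) : ℝ) = 60 * X := by push_cast; ring
  rw [hc]
  have hB' : B ≤ 60 * X := by
    have h2 : |B| ≤ (⌈|B|⌉₊ : ℝ) := Nat.le_ceil _
    have h3 : ((⌈|B|⌉₊ + 1 : ℕ) : ℝ) ≤ X := by exact_mod_cast hX
    push_cast at h3
    have := le_abs_self B
    linarith
  have h4 := hB _ hB'
  have h60 : (0 : ℝ) < 60 * X := by linarith
  rw [Real.norm_of_nonneg (Real.rpow_nonneg h60.le _)] at h4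
  have h5 : Real.log (60 * X) ≤ 1 / 100000 * (60 * (X : ℝ)) ^ (1 / 6 : ℝ) :=
    (le_abs_self _).trans h4
  have h6 : (60 * (X : ℝ)) ^ (1 / 6 : ℝ) ≤ 60 * (X : ℝ) ^ (1 / 6 : ℝ) := by
    rw [Real.mul_rpow (by norm_num) hX0.le]
    refine mul_le_mul_of_nonneg_right ?_ (Real.rpow_nonneg hX0.le _)
    calc (60 : ℝ) ^ (1 / 6 : ℝ) ≤ (60 : ℝ) ^ (1 : ℝ) :=
          Real.rpow_le_rpow_of_exponent_le (by norm_num) (by norm_num)
      _ = 60 := Real.rpow_one _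
  have h7 : √(60 * (X : ℝ)) ≤ 60 * (X : ℝ) ^ (1 / 2 : ℝ) := by
    rw [Real.sqrt_eq_rpow, Real.mul_rpow (by norm_num) hX0.le]
    refine mul_le_mul_of_nonneg_right ?_ (Real.rpow_nonneg hX0.le _)
    calc (60 : ℝ) ^ (1 / 2 : ℝ) ≤ (60 : ℝ) ^ (1 : ℝ) :=
          Real.rpow_le_rpow_of_exponent_le (by norm_num) (by norm_num)
      _ = 60 := Real.rpow_one _
  have hs0 : 0 ≤ √(60 * (X : ℝ)) := Real.sqrt_nonneg _
  have hl : Real.log (60 * X) ≤ 60 / 100000 * (X : ℝ) ^ (1 / 6 : ℝ) := by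
    calc Real.log (60 * X) ≤ 1 / 100000 * (60 * (X : ℝ)) ^ (1 / 6 : ℝ) := h5
      _ ≤ 1 / 100000 * (60 * (X : ℝ) ^ (1 / 6 : ℝ)) := by gcongr
      _ = _ := by ring
  have hl0 : 0 ≤ Real.log (60 * X) := Real.log_nonneg (by linarith)
  have e1 : (X : ℝ) ^ (-(1 / 3) : ℝ) = 1 / X * ((X : ℝ) ^ (1 / 2 : ℝ) * (X : ℝ) ^ (1 / 6 : ℝ)) := by
    have e0 : (1 : ℝ) / X = (X : ℝ) ^ (-1 : ℝ) := by rw [Real.rpow_neg_one, one_div]
    rw [e0, ← Real.rpow_add hX0, ← Real.rpow_add hX0]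
    norm_num
  rw [e1]
  have hr1 : 0 ≤ (X : ℝ) ^ (1 / 2 : ℝ) := Real.rpow_nonneg hX0.le _
  have hr2 : 0 ≤ (X : ℝ) ^ (1 / 6 : ℝ) := Real.rpow_nonneg hX0.le _
  calc 9 / (X : ℝ) * (2 * √(60 * (X : ℝ)) * Real.log (60 * X))
      ≤ 9 / (X : ℝ) * (2 * (60 * (X : ℝ) ^ (1 / 2 : ℝ)) *
          (60 / 100000 * (X : ℝ) ^ (1 / 6 : ℝ))) := by gcongr
    _ = 1 / X * ((X : ℝ) ^ (1 / 2 : ℝ) * (X : ℝ) ^ (1 / 6 : ℝ)) * (9 * 2 * 60 * 60 / 100000) := by
        ring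
    _ ≤ 1 / X * ((X : ℝ) ^ (1 / 2 : ℝ) * (X : ℝ) ^ (1 / 6 : ℝ)) * 1 := by
        refine mul_le_mul_of_nonneg_left (by norm_num) ?_
        positivity
    _ = _ := by ring

/-- `SP X 1` is real and nonnegative. -/
theorem SP_one (X : ℕ) : ∃ r : ℝ, 0 ≤ r ∧ SP X (fun _ => 1) = (r : ℂ) := by
  refine ⟨∑ P ∈ Icc 1 (60 * X), lp (P : ℤ) * v X P / P, ?_, ?_⟩
  · refine Finset.sum_nonneg fun P _ => ?_
    exact div_nonneg (mul_nonneg (an6_lp_nonneg P) (BPS_v_nonneg X P)) (Nat.cast_nonneg _)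
  · unfold SP
    push_cast
    simp

theorem an6_exp_two : Real.exp 2 < 8 := by
  have h := Real.exp_one_lt_d9
  have h1 : Real.exp 2 = Real.exp 1 * Real.exp 1 := by
    rw [← Real.exp_add]; norm_num
  have h0 := Real.exp_pos 1
  rw [h1]
  nlinarith

theorem an6_v_pos {X P : ℕ} (hX : 1 ≤ X) (hP : 1 ≤ P) (h : v X P ≠ 0) : (X : ℝ) / 8 < P := by
  have hX' : (0 : ℝ) < X := by exact_mod_cast hX
  have hP' : (0 : ℝ) < P := by exact_mod_cast hP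
  have h1 : -2 < Real.log ((P : ℝ) / X) := by
    by_contra hc
    push Not at hc
    exact h (BPS_w_eq_zero hc)
  have h2 : Real.exp (-2) < (P : ℝ) / X := (Real.lt_log_iff_exp_lt (by positivity)).mp h1
  have h3 : (1 : ℝ) / 8 < Real.exp (-2) := by
    rw [Real.exp_neg, one_div]
    exact inv_strictAnti₀ (Real.exp_pos 2) an6_exp_two
  have h4 : (1 : ℝ) / 8 < (P : ℝ) / X := h3.trans h2
  rw [lt_div_iff₀ hX'] at h4
  linarith

/-- Where the weight is not `0` the prime is large: `v(P) ≠ 0` implies `P > X/8`. -/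
theorem large_of_weight (X P : ℕ) (h : lp (P : ℤ) * v X P / P ≠ 0) :
    P.Prime ∧ (X : ℝ) / 8 < P := by
  have h1 : lp (P : ℤ) ≠ 0 := by
    intro h0; apply h; rw [h0]; simp
  have h2 : v X P ≠ 0 := by
    intro h0; apply h; rw [h0]; simp
  have hp : P.Prime := by
    by_contra hc
    apply h1
    unfold Pool.Agent.Lib.H68T.lp
    rw [Int.toNat_natCast, if_neg hc]
  refine ⟨hp, ?_⟩
  rcases Nat.eq_zero_or_pos X with hX | hX
  · subst hX
    have : (0 : ℝ) < P := by exact_mod_cast hp.pos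
    simpa using this
  · exact an6_v_pos hX hp.one_lt.le h2

/-- The size of the weight. -/
theorem weight_le (X P : ℕ) (hX : 1 ≤ X) (hP : P ∈ Icc 1 (60 * X)) :
    0 ≤ lp (P : ℤ) * v X P / P ∧
      lp (P : ℤ) * v X P / P ≤ 8 * Real.log ((60 * X : ℕ) : ℝ) / X := by
  rw [mem_Icc] at hP
  have hX' : (0 : ℝ) < X := by exact_mod_cast hX
  have hP' : (0 : ℝ) < P := by exact_mod_cast hP.1
  have hlog : 0 ≤ Real.log ((60 * X : ℕ) : ℝ) := by
    apply Real.log_nonneg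
    have : 1 ≤ 60 * X := by omega
    exact_mod_cast this
  refine ⟨div_nonneg (mul_nonneg (an6_lp_nonneg P) (BPS_v_nonneg X P)) (Nat.cast_nonneg _), ?_⟩
  by_cases hv : v X P = 0
  · rw [hv, mul_zero, zero_div]
    positivity
  · have h1 := an6_v_pos hX hP.1 hv
    have h2 : lp (P : ℤ) ≤ Real.log ((60 * X : ℕ) : ℝ) := by
      unfold Pool.Agent.Lib.H68T.lp
      split_ifs with h
      · have h3 : ((P : ℤ) : ℝ) = (P : ℝ) := by push_cast; ring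
        rw [h3]
        apply Real.log_le_log hP'
        exact_mod_cast hP.2
      · exact hlog
    have h3 : lp (P : ℤ) * v X P ≤ Real.log ((60 * X : ℕ) : ℝ) * 1 :=
      mul_le_mul h2 (BPS_v_le_one X P) (BPS_v_nonneg X P) hlog
    rw [mul_one] at h3
    rw [div_le_div_iff₀ hP' hX']
    calc lp (P : ℤ) * v X P * X ≤ Real.log ((60 * X : ℕ) : ℝ) * X := by gcongr
      _ ≤ Real.log ((60 * X : ℕ) : ℝ) * (8 * P) := by
          apply mul_le_mul_of_nonneg_left _ hlog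
          linarith
      _ = _ := by ring

end Pool.Agent.Lib.H5C
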