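import Mathlib

/-!
# Chunk HIT2: greedy hitting sets
-/

open Finset

namespace Pool.Agent.Lib.H5C

/-- A divisor of `primorial y` has `≥ (log d - 2 √y)/log y` prime factors `> √y`:
`d` is squarefree, its prime factors `≤ √y` have product `≤ primorial (Nat.sqrt y) ≤ 4^(√y)`
(`primorial_le_four_pow`), the others are `≤ y`. -/
theorem many_large (y d : ℕ) (hd : d ∣ primorial y) :
    Real.log d ≤ Real.log 4 * Nat.sqrt y +
      ((d.primeFactors.filter (fun p => Nat.sqrt y < p)).card : ℝ) * Real.log y := by
  have hsq : Squarefree d := (squarefree_primorial y).squarefree_of_dvd hd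
  have hprod : ∏ p ∈ d.primeFactors, p = d := Nat.prod_primeFactors_of_squarefree hsq
  have hle : ∀ p ∈ d.primeFactors, p ≤ y := by
    intro p hp
    have hpp := Nat.prime_of_mem_primeFactors hp
    exact hpp.dvd_primorial_iff.1 ((Nat.dvd_of_mem_primeFactors hp).trans hd)
  have hpos : ∀ p ∈ d.primeFactors, (p : ℝ) ≠ 0 := fun p hp => by
    exact_mod_cast (Nat.prime_of_mem_primeFactors hp).ne_zero
  have hlog : Real.log d = ∑ p ∈ d.primeFactors, Real.log p := by
    conv_lhs => rw [← hprod]
    rw [Nat.cast_prod, Real.log_prod hpos]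
  rw [hlog, ← Finset.sum_filter_add_sum_filter_not d.primeFactors (fun p => Nat.sqrt y < p),
    add_comm]
  refine add_le_add ?_ ?_
  · have h1 : ∑ p ∈ d.primeFactors.filter (fun p => ¬ Nat.sqrt y < p), Real.log p =
        Real.log ((∏ p ∈ d.primeFactors.filter (fun p => ¬ Nat.sqrt y < p), p : ℕ) : ℝ) := by
      rw [Nat.cast_prod, Real.log_prod fun p hp => hpos p (Finset.mem_filter.1 hp).1]
    rw [h1]
    have h2 : (∏ p ∈ d.primeFactors.filter (fun p => ¬ Nat.sqrt y < p), p) ≤
        primorial (Nat.sqrt y) := by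
      unfold primorial
      refine Finset.prod_le_prod_of_subset_of_one_le' ?_ ?_
      · intro p hp
        rw [Finset.mem_filter] at hp ⊢
        rw [Finset.mem_range]
        exact ⟨by omega, Nat.prime_of_mem_primeFactors hp.1⟩
      · intro p hp _
        exact (Finset.mem_filter.1 hp).2.one_lt.le
    have h3 := h2.trans (primorial_le_four_pow (Nat.sqrt y))
    have h4 : ((∏ p ∈ d.primeFactors.filter (fun p => ¬ Nat.sqrt y < p), p : ℕ) : ℝ) ≤
        (4 : ℝ) ^ Nat.sqrt y := by exact_mod_cast h3
    have h5 : 0 < ∏ p ∈ d.primeFactors.filter (fun p => ¬ Nat.sqrt y < p), p :=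
      Finset.prod_pos fun p hp => (Nat.prime_of_mem_primeFactors (Finset.mem_filter.1 hp).1).pos
    have h6 := Real.log_le_log (by exact_mod_cast h5) h4
    rw [Real.log_pow, mul_comm] at h6
    exact h6
  · rw [← nsmul_eq_mul]
    refine Finset.sum_le_card_nsmul _ _ _ fun p hp => ?_
    have hp' := (Finset.mem_filter.1 hp).1
    exact Real.log_le_log (by exact_mod_cast (Nat.prime_of_mem_primeFactors hp').pos)
      (by exact_mod_cast hle p hp')

end Pool.Agent.Lib.H5C
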