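import Pool.Agent.Lib.H5C.AN3
import Pool.Agent.Lib.H5C.AN4
import Pool.Agent.Lib.H5C.AN6
import Pool.Agent.Lib.H5C.HIT

/-!
# Chunk AN5: the deletion trick
-/

open Finset
open Pool.Agent.Lib.H68T

namespace Pool.Agent.Lib.H5C

/-- Numerical part of `mdata`. -/
theorem mdata_num (K₁ : ℝ) (hK₁ : 1 ≤ K₁) : ∃ L₀ : ℝ, ∀ L : ℝ, L₀ ≤ L →
    ∀ (y k u B : ℕ), (y : ℝ) ≤ L → (u : ℝ) ≤ L → (B : ℝ) ≤ L ^ 40 →
    k ≤ u → L / (K₁ * Real.log L) < Real.log 4 * Nat.sqrt y + k * Real.log y →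
    1 ≤ k ∧ (B : ℝ) < Real.exp ((⌊(Real.log L) ^ 4⌋₊ : ℝ) * k / u) := by
  -- `log L ≤ ε √L` for large `L`
  have hlim : ∀ᶠ L : ℝ in Filter.atTop, ‖Real.log L‖ ≤ (1 / (4 * K₁)) * ‖L ^ (1 / 2 : ℝ)‖ :=
    (isLittleO_log_rpow_atTop (by norm_num : (0 : ℝ) < 1 / 2)).def (by positivity)
  have hlim2 : ∀ᶠ L : ℝ in Filter.atTop, 1000 * K₁ ≤ Real.log L :=
    Real.tendsto_log_atTop.eventually_ge_atTop _
  obtain ⟨L₀, hL₀⟩ := Filter.eventually_atTop.1
    (hlim.and (hlim2.and (Filter.eventually_ge_atTop (1 : ℝ))))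
  refine ⟨L₀, fun L hL y k u B hy hu hB hku h => ?_⟩
  obtain ⟨h1, h2, h3⟩ := hL₀ L hL
  set l := Real.log L with hl
  have hl0 : 1000 ≤ l := by linarith
  have hlpos : 0 < l := by linarith
  have hL0 : 0 < L := by linarith
  have hsq : L ^ (1 / 2 : ℝ) = Real.sqrt L := by rw [Real.sqrt_eq_rpow]
  rw [hsq, Real.norm_of_nonneg hlpos.le, Real.norm_of_nonneg (Real.sqrt_nonneg _)] at h1
  have hsL : Real.sqrt L * Real.sqrt L = L := Real.mul_self_sqrt hL0.le
  have hsy : (Nat.sqrt y : ℝ) ≤ Real.sqrt L := by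
    rw [Real.le_sqrt (by positivity) hL0.le]
    have h4 : (Nat.sqrt y) ^ 2 ≤ y := Nat.sqrt_le' y
    have h5 : ((Nat.sqrt y : ℝ)) ^ 2 ≤ y := by exact_mod_cast h4
    linarith
  have hlog4 : Real.log 4 ≤ 2 := by
    have : Real.log 4 = 2 * Real.log 2 := by
      rw [show (4 : ℝ) = 2 ^ 2 by norm_num, Real.log_pow]
      norm_num
    rw [this]
    linarith [Real.log_two_lt_d9]
  have hhalf : 2 * Real.sqrt L ≤ L / (2 * K₁ * l) := by
    rw [le_div_iff₀ (by positivity)]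
    have h4 : l * (4 * K₁) ≤ Real.sqrt L := by
      rw [one_div, inv_mul_eq_div, le_div_iff₀ (by positivity)] at h1
      exact h1
    calc 2 * Real.sqrt L * (2 * K₁ * l) = Real.sqrt L * (l * (4 * K₁)) := by ring
      _ ≤ Real.sqrt L * Real.sqrt L := mul_le_mul_of_nonneg_left h4 (Real.sqrt_nonneg _)
      _ = L := hsL
  have hsplit : L / (K₁ * l) = L / (2 * K₁ * l) + L / (2 * K₁ * l) := by
    field_simp
    ring
  have hfirst : Real.log 4 * Nat.sqrt y ≤ L / (2 * K₁ * l) := by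
    refine le_trans ?_ hhalf
    apply mul_le_mul hlog4 hsy (by positivity) (by norm_num)
  have hk : L / (2 * K₁ * l) < k * Real.log y := by linarith
  have hpos : 0 < L / (2 * K₁ * l) := by positivity
  have hk1 : 1 ≤ k := by
    rcases Nat.eq_zero_or_pos k with h0 | h0
    · rw [h0] at hk
      simp only [Nat.cast_zero, zero_mul] at hk
      linarith
    · exact h0
  refine ⟨hk1, ?_⟩
  have hk1' : (1 : ℝ) ≤ k := by exact_mod_cast hk1
  have hu1 : (1 : ℝ) ≤ u := by exact_mod_cast hk1.trans hku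
  have hlogy : Real.log y ≤ l := by
    rcases Nat.eq_zero_or_pos y with h0 | h0
    · rw [h0]
      simp only [Nat.cast_zero, Real.log_zero]
      exact hlpos.le
    · exact Real.log_le_log (by exact_mod_cast h0) hy
  have hk2 : L / (2 * K₁ * l) < k * l :=
    lt_of_lt_of_le hk (mul_le_mul_of_nonneg_left hlogy (by positivity))
  -- `k / u > 1 / (2 K₁ l²)`
  have hk3 : 1 / (2 * K₁ * l ^ 2) ≤ (k : ℝ) / u := by
    rw [div_le_div_iff₀ (by positivity) (by linarith)]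
    rw [div_lt_iff₀ (by positivity)] at hk2
    nlinarith
  have hfl : l ^ 4 / 2 ≤ (⌊l ^ 4⌋₊ : ℝ) := by
    have h4 := Nat.lt_floor_add_one (l ^ 4)
    have h5 : (2 : ℝ) ≤ l ^ 4 := by
      have : (1000 : ℝ) ^ 4 ≤ l ^ 4 := pow_le_pow_left₀ (by norm_num) hl0 4
      linarith [show (1000 : ℝ) ^ 4 = 1000000000000 by norm_num]
    linarith
  have hexp : 41 * l ≤ (⌊l ^ 4⌋₊ : ℝ) * k / u := by
    calc 41 * l ≤ l ^ 4 / 2 * (1 / (2 * K₁ * l ^ 2)) := by
          have : l ^ 4 / 2 * (1 / (2 * K₁ * l ^ 2)) = l ^ 2 / (4 * K₁) := by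
            field_simp
            norm_num
          rw [this, le_div_iff₀ (by positivity)]
          nlinarith
      _ ≤ (⌊l ^ 4⌋₊ : ℝ) * ((k : ℝ) / u) :=
          mul_le_mul hfl hk3 (by positivity) (by positivity)
      _ = _ := by ring
  calc (B : ℝ) ≤ L ^ 40 := hB
    _ < L ^ 41 := by
        apply pow_lt_pow_right₀ _ (by norm_num)
        by_contra hcon
        push Not at hcon
        have : l ≤ 0 := Real.log_nonpos hL0.le hcon
        linarith
    _ = Real.exp (41 * l) := by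
        rw [hl, mul_comm, Real.exp_mul, Real.exp_log hL0]
        norm_num
    _ ≤ _ := Real.exp_le_exp.2 hexp

theorem AN5_mem_MS {y : ℕ} {D : Finset ℕ} {p1 q : ℕ} (hq : q.Prime) (h : q ∣ MM y D p1) :
    q ∉ D ∧ q ≠ p1 := by
  classical
  unfold MM at h
  obtain ⟨r, hr, hqr⟩ := (Prime.dvd_finsetProd_iff hq.prime _).1 h
  unfold MS at hr
  rw [Finset.mem_filter] at hr
  have : q = r := (Nat.prime_dvd_prime_iff_eq hq hr.2.1).1 hqr
  rw [this]
  exact hr.2.2

theorem AN5_MM_dvd (y : ℕ) (D : Finset ℕ) (p1 : ℕ) : MM y D p1 ∣ primorial y := by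
  classical
  unfold MM primorial
  apply Finset.prod_dvd_prod_of_subset
  intro p hp
  unfold MS at hp
  rw [Finset.mem_filter, Finset.mem_Icc] at hp
  rw [Finset.mem_filter, Finset.mem_range]
  exact ⟨by omega, hp.2.1⟩

theorem AN5_eq_p0 {p : PCh} (h : p.1 = 1) : p = p0 := by
  obtain ⟨r, χ⟩ := p
  simp only at h
  subst h
  unfold p0
  congr 1
  exact Subsingleton.elim _ _

/-- **The deletion trick.** For `y ≤ log X` there are a set `D` of at most `(loglog X)^4` primes in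
`(√y, y]` and a prime `p1` such that `M = MM y D p1` has the property `MData Q X M`.

Proof. `pe` from `small_cond`, `p1` a prime factor of `pe.1` (`p1 = 2` if `pe.1 = 1`; then
`pe ∉ Bad`, as a primitive character mod `1` is `p0`). `B` = the `p ∈ Bad Q X` with `p ≠ pe` and
`p.1 ∣ primorial y`; `p.1 > exp (L/(K₁ log L))`, so by `many_large` and `mdata_num` the set `S p` of
its prime factors `> √y` is large; `hitting` with `U` = the primes in `(√y, y]`, `n = ⌊(log L)^4⌋`, `m` =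
the least integer allowed. If `p ∈ PC1 Q`, `p.1 ∣ M` then `p ∉ Bad`: `p ≠ pe` as `p1 ∤ M` (`M` is
squarefree and `p1` is not one of its primes), and otherwise some `d ∈ D` divides `p.1 ∣ M`.
Now `good_sum`, `all_sum`, `principal`. -/
theorem mdata : ∃ K : ℝ, 1 ≤ K ∧ ∃ X₀ : ℕ, ∀ X : ℕ, X₀ ≤ X → ∀ Q : ℕ, RegP K Q X →
    ∀ y : ℕ, (y : ℝ) ≤ Real.log X → ∃ (D : Finset ℕ) (p1 : ℕ), p1.Prime ∧
      (∀ p ∈ D, p.Prime ∧ Nat.sqrt y < p ∧ p ≤ y) ∧
      (D.card : ℝ) ≤ (Real.log (Real.log X)) ^ 4 ∧ MData Q X (MM y D p1) := by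
  classical
  obtain ⟨Ka, hKa, ha⟩ := all_sum
  obtain ⟨Kg, hKg, hg⟩ := good_sum
  obtain ⟨Kb, hKb, hb⟩ := bad_card
  obtain ⟨K₁, hK₁, X₁, h1⟩ := small_cond
  obtain ⟨X₂, h2⟩ := principal
  obtain ⟨L₀, hL₀⟩ := mdata_num K₁ hK₁
  obtain ⟨X₃, hX₃⟩ : ∃ X₃ : ℕ, ∀ X : ℕ, X₃ ≤ X → L₀ ≤ Real.log X := by
    have := (Real.tendsto_log_atTop.comp tendsto_natCast_atTop_atTop).eventually_ge_atTop L₀
    exact Filter.eventually_atTop.1 this
  refine ⟨Ka + Kg + Kb, by linarith, max X₁ (max X₂ X₃), fun X hX Q hR y hy => ?_⟩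
  have hK0 : 0 ≤ Ka + Kg + Kb := by linarith
  have hRa : RegP Ka Q X := hR.mono hK0 (by linarith)
  have hRg : RegP Kg Q X := hR.mono hK0 (by linarith)
  have hRb : RegP Kb Q X := hR.mono hK0 (by linarith)
  have hX1 : X₁ ≤ X := (le_max_left _ _).trans hX
  have hX2 : X₂ ≤ X := (le_max_left _ _).trans ((le_max_right _ _).trans hX)
  have hX3 : X₃ ≤ X := (le_max_right _ _).trans ((le_max_right _ _).trans hX)
  obtain ⟨pe, hpe, hcond⟩ := h1 X hX1
  have hL := hX₃ X hX3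
  set L := Real.log X with hLdef
  have hll : 0 ≤ Real.log L := by
    have := hR.loglog
    linarith
  -- the prime `p1`
  obtain ⟨p1, hp1, hp1e⟩ : ∃ p1 : ℕ, p1.Prime ∧ (pe.1 ≠ 1 → p1 ∣ pe.1) := by
    by_cases h : pe.1 = 1
    · exact ⟨2, Nat.prime_two, fun h' => absurd h h'⟩
    · exact ⟨pe.1.minFac, Nat.minFac_prime h, fun _ => Nat.minFac_dvd _⟩
  -- the set `D`
  obtain ⟨D, hD1, hD2, hD3⟩ : ∃ D : Finset ℕ, (∀ p ∈ D, p.Prime ∧ Nat.sqrt y < p ∧ p ≤ y) ∧
      (D.card : ℝ) ≤ (Real.log L) ^ 4 ∧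
      ∀ p ∈ Bad Q X, p ≠ pe → p.1 ∣ primorial y → ∃ d ∈ D, d.Prime ∧ d ∣ p.1 := by
    set B : Finset PCh := (Bad Q X).filter (fun p => p ≠ pe ∧ p.1 ∣ primorial y) with hBdef
    rcases B.eq_empty_or_nonempty with hBe | hBne
    · refine ⟨∅, by simp, by simp only [Finset.card_empty, Nat.cast_zero]; positivity, ?_⟩
      intro p hp hpne hpd
      have : p ∈ B := by
        rw [hBdef, Finset.mem_filter]
        exact ⟨hp, hpne, hpd⟩
      rw [hBe] at this
      exact absurd this (Finset.notMem_empty _)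
    · set U : Finset ℕ := (Icc 1 y).filter (fun p => p.Prime ∧ Nat.sqrt y < p) with hU
      set S : PCh → Finset ℕ := fun p => p.1.primeFactors.filter (fun q => Nat.sqrt y < q) with hS
      have hSU : ∀ b ∈ B, S b ⊆ U := by
        intro b hbB q hq
        rw [hBdef, Finset.mem_filter] at hbB
        rw [hS, Finset.mem_filter, Nat.mem_primeFactors] at hq
        obtain ⟨⟨hq1, hq2, _⟩, hq3⟩ := hq
        rw [hU, Finset.mem_filter, Finset.mem_Icc]
        refine ⟨⟨hq1.one_le, ?_⟩, hq1, hq3⟩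
        have h4 : q ∣ primorial y := hq2.trans hbB.2.2
        exact (hq1.dvd_primorial_iff).1 h4
      obtain ⟨b₀, hb₀, hmin⟩ := Finset.exists_min_image B (fun b => (S b).card) hBne
      have hb₀' := hb₀
      rw [hBdef, Finset.mem_filter] at hb₀'
      have hbig := hcond Q b₀ hb₀'.1 hb₀'.2.1
      have hml := many_large y b₀.1 hb₀'.2.2
      have hlog : L / (K₁ * Real.log L) < Real.log b₀.1 := by
        rw [← Real.log_exp (L / (K₁ * Real.log L))]
        exact Real.log_lt_log (Real.exp_pos _) hbig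
      have hUcard : (U.card : ℝ) ≤ L := by
        have h4 : U.card ≤ y := by
          calc U.card ≤ (Icc 1 y).card := Finset.card_filter_le _ _
            _ = y := by simp
        have h5 : (U.card : ℝ) ≤ y := by exact_mod_cast h4
        linarith
      have hBcard : (B.card : ℝ) ≤ L ^ 40 := by
        have h4 := hb Q X hRb
        have h5 : B.card ≤ (Bad Q X).card := Finset.card_filter_le _ _
        have h6 : (B.card : ℝ) ≤ (Bad Q X).card := by exact_mod_cast h5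
        linarith
      obtain ⟨hm1, hexp⟩ := hL₀ L hL y (S b₀).card U.card B.card hy hUcard hBcard
        (Finset.card_le_card (hSU b₀ hb₀)) (lt_of_lt_of_le hlog hml)
      obtain ⟨D, hDU, hDc, hDh⟩ := hitting U B S hSU (S b₀).card ⌊(Real.log L) ^ 4⌋₊ hm1
        (fun b hb => hmin b hb) hexp
      refine ⟨D, ?_, ?_, ?_⟩
      · intro p hp
        have h4 := hDU hp
        rw [hU, Finset.mem_filter, Finset.mem_Icc] at h4
        exact ⟨h4.2.1, h4.2.2, h4.1.2⟩
      · have h4 : (D.card : ℝ) ≤ (⌊(Real.log L) ^ 4⌋₊ : ℝ) := by exact_mod_cast hDc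
        exact h4.trans (Nat.floor_le (by positivity))
      · intro p hp hpne hpd
        have hpB : p ∈ B := by
          rw [hBdef, Finset.mem_filter]
          exact ⟨hp, hpne, hpd⟩
        obtain ⟨d, hd, hdS⟩ := hDh p hpB
        rw [hS, Finset.mem_filter, Nat.mem_primeFactors] at hdS
        exact ⟨d, hd, hdS.1.1, hdS.1.2.1⟩
  refine ⟨D, p1, hp1, hD1, hD2, ⟨ha Q X hRa, ?_, h2 X hX2⟩⟩
  apply hg Q X hRg _ (Finset.filter_subset _ _)
  intro p hp hbad
  obtain ⟨hp1', hpM⟩ := Finset.mem_filter.1 hp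
  by_cases hpp : p = pe
  · have hne : pe.1 ≠ 1 := by
      intro h
      have h5 : p = p0 := by rw [hpp]; exact AN5_eq_p0 h
      have h6 : p ≠ p0 := by
        unfold PC1 at hp1'
        exact (Finset.mem_filter.1 hp1').2
      exact h6 h5
    have h7 : p1 ∣ MM y D p1 := (hp1e hne).trans (hpp ▸ hpM)
    exact (AN5_mem_MS hp1 h7).2 rfl
  · obtain ⟨d, hd, hdp, hdd⟩ := hD3 p hbad hpp (hpM.trans (AN5_MM_dvd y D p1))
    exact (AN5_mem_MS hdp (hdd.trans hpM)).1 hd

end Pool.Agent.Lib.H5C
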