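import Pool.Agent.Lib.H5C.Defs
import Pool.Agent.Lib.H5C.HDEC
import Pool.Agent.Lib.H5C.LONG
import Pool.Agent.Lib.H5C.MAINI

/-!
# Chunk AN2: one character
-/

open Finset MeasureTheory
open Pool.Agent.Lib.H68T

namespace Pool.Agent.Lib.H5C

/-- the contribution of the long variables at one frequency (copy of `H68T.d2b_long`) -/
theorem an2_long (Q X : ℕ) (α : ℕ → ℕ → ℝ) (B E : ℝ) (hE : 0 ≤ E)
    (hα : ∀ j ∈ range 2, ∑ a ∈ Icc 1 (60 * X), |α j a| / a ≤ B)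
    (p : PCh) (t : ℝ)
    (hL : ∀ j ∈ range 2, ∀ a : ℕ, 1 ≤ a → ‖Long Q X p j a t‖ ≤ E) :
    ‖∑ j ∈ range 2, ∑ a ∈ Icc 1 (60 * X), (α j a : ℂ) * p.2 (a : ZMod p.1) *
          (a : ℂ) ^ (-(1 + t * Complex.I)) * Long Q X p j a t‖ ≤ 2 * (B * E) := by
  have h1 : ∀ j ∈ range 2, ‖∑ a ∈ Icc 1 (60 * X), (α j a : ℂ) * p.2 (a : ZMod p.1) *
      (a : ℂ) ^ (-(1 + t * Complex.I)) * Long Q X p j a t‖ ≤ B * E := by
    intro j hj
    refine (norm_sum_le _ _).trans ?_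
    have h2 : ∀ a ∈ Icc 1 (60 * X), ‖(α j a : ℂ) * p.2 (a : ZMod p.1) *
        (a : ℂ) ^ (-(1 + t * Complex.I)) * Long Q X p j a t‖ ≤ |α j a| / a * E := by
      intro a ha
      have ha1 : 1 ≤ a := (mem_Icc.mp ha).1
      have ha0 : (0 : ℝ) < a := by exact_mod_cast ha1
      rw [norm_mul, norm_mul, norm_mul, Complex.norm_real, Real.norm_eq_abs]
      have e1 : ‖(a : ℂ) ^ (-(1 + t * Complex.I))‖ = (a : ℝ)⁻¹ := by
        rw [Complex.norm_natCast_cpow_of_pos (by omega)]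
        simp [Real.rpow_neg_one]
      rw [e1]
      have e2 : ‖p.2 (a : ZMod p.1)‖ ≤ 1 := DirichletCharacter.norm_le_one _ _
      have e3 := hL j hj a ha1
      have e4 : 0 ≤ |α j a| := abs_nonneg _
      calc |α j a| * ‖p.2 (a : ZMod p.1)‖ * (a : ℝ)⁻¹ * ‖Long Q X p j a t‖
          ≤ |α j a| * 1 * (a : ℝ)⁻¹ * E := by gcongr
        _ = |α j a| / a * E := by ring
    refine (Finset.sum_le_sum h2).trans ?_
    rw [← Finset.sum_mul]
    exact mul_le_mul_of_nonneg_right (hα j hj) hE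
  refine (norm_sum_le _ _).trans ?_
  refine (Finset.sum_le_sum h1).trans ?_
  rw [Finset.sum_const, card_range, nsmul_eq_mul]
  norm_num

/-- `decompositionP` at `t = 0`, `main_integralP` for the main part; the second part is at most
`∑_{j < 2} ∑_a |α_j(a)|/a · Q^(-11) ≤ 2 (log X)^7 Q^(-11) ≤ Q^(-10)` (`long_smallP`, `regp_log_le`). -/
theorem FL_le : ∃ C K : ℝ, 0 < C ∧ 1 ≤ K ∧ ∀ Q X : ℕ, RegP K Q X → ∀ p ∈ PC1 Q,
    ‖FL X p 0‖ ≤ C * (Real.log X) ^ 4 * (∫ τ : ℝ, (1 + τ ^ 2)⁻¹ * ‖Mu X p τ‖ ^ 3) +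
      ((Q : ℝ) ^ 10)⁻¹ := by
  classical
  obtain ⟨Kd, hKd⟩ := decompositionP
  obtain ⟨Kl, hKl⟩ := long_smallP
  obtain ⟨C, Km, hC, hKm⟩ := main_integralP
  obtain ⟨K4, hK41, hK4⟩ := regp_log_le 2 7 1 one_pos
  refine ⟨C, |Kd| + |Kl| + |Km| + K4 + 100, hC, by
    have := abs_nonneg Kd; have := abs_nonneg Kl; have := abs_nonneg Km; linarith, ?_⟩
  intro Q X hR p hp
  have a1 := abs_nonneg Kd
  have a2 := abs_nonneg Kl
  have a3 := abs_nonneg Km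
  have b1 := le_abs_self Kd
  have b2 := le_abs_self Kl
  have b3 := le_abs_self Km
  have hKpos : 0 ≤ |Kd| + |Kl| + |Km| + K4 + 100 := by linarith
  have r1 : RegP Kd Q X := hR.mono hKpos (by linarith)
  have r2 : RegP Kl Q X := hR.mono hKpos (by linarith)
  have r3 : RegP Km Q X := hR.mono hKpos (by linarith)
  have r4 : RegP K4 Q X := hR.mono hKpos (by linarith)
  have r5 : RegP 100 Q X := hR.mono hKpos (by linarith)
  unfold PC1 at hp
  rw [mem_filter] at hp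
  obtain ⟨hpQ, hp0⟩ := hp
  have hp1 : 1 ≤ p.1 := (mem_PC.1 hpQ).1
  have hQ1 : 1 ≤ Q := r5.Q_pos (by norm_num)
  have hQ0 : (0 : ℝ) < Q := by exact_mod_cast hQ1
  have hQ11 : (0 : ℝ) ≤ (Q : ℝ) ^ (-11 : ℝ) := by positivity
  obtain ⟨α, hα, hdec⟩ := hKd Q X r1
  have h1 := an2_long Q X α _ _ hQ11 hα p 0
    (fun j hj a ha => hKl Q X r2 p hpQ hp0 j hj a ha 0 (by
      rw [abs_zero]; positivity))
  have h2 := hKm Q X r3 p hp1 0
  have h3 : 2 * ((Real.log X) ^ (7 : ℝ) * (Q : ℝ) ^ (-11 : ℝ)) ≤ ((Q : ℝ) ^ 10)⁻¹ := by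
    have h4 := hK4 Q X r4
    rw [Real.rpow_one] at h4
    calc 2 * ((Real.log X) ^ (7 : ℝ) * (Q : ℝ) ^ (-11 : ℝ))
        = (2 * (Real.log X) ^ (7 : ℝ)) * (Q : ℝ) ^ (-11 : ℝ) := by ring
      _ ≤ Q * (Q : ℝ) ^ (-11 : ℝ) := mul_le_mul_of_nonneg_right h4 hQ11
      _ = ((Q : ℝ) ^ 10)⁻¹ := by
          rw [Real.rpow_neg hQ0.le]
          have e : (Q : ℝ) ^ (11 : ℝ) = (Q : ℝ) ^ 11 := by rw [← Real.rpow_natCast]; norm_num
          rw [e]
          field_simp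
  have h5 : (Real.log X) ^ (4 : ℝ) = (Real.log X) ^ 4 := by
    rw [← Real.rpow_natCast]; norm_num
  rw [h5] at h2
  simp only [zero_add] at h2
  rw [hdec p hp1 0]
  refine (norm_add_le _ _).trans (add_le_add h2 (h1.trans h3))

/-- Splitting the integral at `|τ| = (log X)^10` and `|τ| = Q^11`: with `L = log X`,
`‖Mu X p τ‖ ≤ 1 + log (60 X) ≤ 2 L` (`Mu_le`), so the part `|τ| > Q^11` is at most `16 L^3 Q^(-11)`,
and the part `L^10 < |τ| ≤ Q^11` at most `2 L · L^(-20) ∫_{|τ| ≤ Q^11} ‖Mu‖²`. -/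
theorem int_split : ∃ K : ℝ, 1 ≤ K ∧ ∀ Q X : ℕ, RegP K Q X → ∀ (p : PCh) (b : ℝ),
    (∀ t : ℝ, |t| ≤ (Real.log X) ^ 10 → ‖Mu X p t‖ ≤ b) → 0 ≤ b →
    (∫ τ : ℝ, (1 + τ ^ 2)⁻¹ * ‖Mu X p τ‖ ^ 3) ≤
      (b + 2 * ((Real.log X) ^ 19)⁻¹) *
        (∫ t in (-(Q : ℝ) ^ 11)..((Q : ℝ) ^ 11), ‖Mu X p t‖ ^ 2) + ((Q : ℝ) ^ 10)⁻¹ := by
  obtain ⟨K2, hK21, hK2⟩ := regp_log_le 64 3 1 one_pos
  refine ⟨K2 + 100, by linarith, fun Q X hR p b hb hb0 => ?_⟩
  have r1 : RegP K2 Q X := hR.mono (by linarith) (by linarith)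
  have r2 : RegP 100 Q X := hR.mono (by linarith) (by linarith)
  have hX1 : 1 ≤ X := r2.X_pos (by norm_num)
  have hX0 : (0 : ℝ) < X := by exact_mod_cast hX1
  have hQ1 : 1 ≤ Q := r2.Q_pos (by norm_num)
  have hQ0 : (0 : ℝ) < Q := by exact_mod_cast hQ1
  set L := Real.log X with hL
  have hL100 : 100 ≤ L := by
    have h1 := r2.logX_ge (by norm_num)
    have := Real.add_one_le_exp (100 : ℝ)
    linarith
  have hL0 : 0 < L := by linarith
  have hQL : 64 * L ^ 3 ≤ Q := by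
    have h1 := hK2 Q X r1
    rw [Real.rpow_one] at h1
    have h3 : L ^ (3 : ℝ) = L ^ 3 := by rw [← Real.rpow_natCast]; norm_num
    rwa [h3] at h1
  have hB : ∀ t : ℝ, ‖Mu X p t‖ ≤ 2 * L := by
    intro t
    have h6 := Mu_le X p t hX1
    have h5 : Real.log 60 ≤ 50 := by
      rw [Real.log_le_iff_le_exp (by norm_num)]
      have h6 : Real.exp 50 = Real.exp 25 * Real.exp 25 := by rw [← Real.exp_add]; norm_num
      have h7 := Real.add_one_le_exp (25 : ℝ)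
      rw [h6]
      have h8 := mul_le_mul h7 h7 (by norm_num) (by positivity)
      linarith
    rw [Real.log_mul (by norm_num) hX0.ne'] at h6
    linarith
  set T : ℝ := (Q : ℝ) ^ 11 with hT
  have hT0 : 0 < T := by positivity
  set D : ℝ := 16 * L ^ 3 / T ^ 2 with hD
  have hcM : Continuous (fun t => ‖Mu X p t‖) := (continuous_Mu X p).norm
  set E : ℝ := b + 2 * (L ^ 19)⁻¹ with hE
  have hE0 : 0 ≤ E := by positivity
  have hck : Integrable (fun τ : ℝ => (1 + (τ / T) ^ 2)⁻¹) :=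
    (integrable_inv_one_add_sq).comp_div hT0.ne'
  have hf : Integrable (fun τ : ℝ => (1 + τ ^ 2)⁻¹ * ‖Mu X p τ‖ ^ 3) := by
    have h1 : Integrable (fun τ : ℝ => (1 + τ ^ 2)⁻¹ * (2 * L) ^ 3) :=
      integrable_inv_one_add_sq.mul_const _
    refine h1.mono' ?_ ?_
    · refine Continuous.aestronglyMeasurable ?_
      refine Continuous.mul ?_ (hcM.pow 3)
      exact Continuous.inv₀ (by fun_prop) fun t => by positivity
    · filter_upwards with τ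
      rw [Real.norm_eq_abs, abs_of_nonneg (by positivity)]
      apply mul_le_mul_of_nonneg_left _ (by positivity)
      exact pow_le_pow_left₀ (norm_nonneg _) (hB τ) 3
  have hg1 : Integrable (Set.indicator (Set.Ioc (-T) T) (fun τ : ℝ => E * ‖Mu X p τ‖ ^ 2)) := by
    rw [integrable_indicator_iff measurableSet_Ioc]
    have : IntervalIntegrable (fun τ : ℝ => E * ‖Mu X p τ‖ ^ 2) volume (-T) T :=
      (continuous_const.mul (hcM.pow 2)).intervalIntegrable _ _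
    rwa [intervalIntegrable_iff_integrableOn_Ioc_of_le (by linarith)] at this
  have hg2 : Integrable (fun τ : ℝ => D * (1 + (τ / T) ^ 2)⁻¹) := hck.const_mul _
  have hpt : ∀ τ : ℝ, (1 + τ ^ 2)⁻¹ * ‖Mu X p τ‖ ^ 3 ≤
      Set.indicator (Set.Ioc (-T) T) (fun τ : ℝ => E * ‖Mu X p τ‖ ^ 2) τ +
        D * (1 + (τ / T) ^ 2)⁻¹ := by
    intro τ
    have hM0 : 0 ≤ ‖Mu X p τ‖ := norm_nonneg _
    have hD0 : 0 ≤ D * (1 + (τ / T) ^ 2)⁻¹ := by positivity
    by_cases hτ : τ ∈ Set.Ioc (-T) T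
    · rw [Set.indicator_of_mem hτ]
      have h1 : (1 + τ ^ 2)⁻¹ * ‖Mu X p τ‖ ≤ E := by
        rcases le_or_gt (|τ|) (L ^ 10) with h2 | h2
        · have h3 : (1 + τ ^ 2)⁻¹ ≤ 1 := inv_le_one_of_one_le₀ (by nlinarith [sq_nonneg τ])
          calc (1 + τ ^ 2)⁻¹ * ‖Mu X p τ‖ ≤ 1 * b :=
                mul_le_mul h3 (hb τ h2) hM0 zero_le_one
            _ = b := one_mul b
            _ ≤ E := by
              rw [hE]
              have : 0 ≤ 2 * (L ^ 19)⁻¹ := by positivity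
              linarith
        · have h3 : (1 + τ ^ 2)⁻¹ ≤ (L ^ 20)⁻¹ := by
            apply inv_anti₀ (by positivity)
            have h4 : (L ^ 10) ^ 2 ≤ |τ| ^ 2 := pow_le_pow_left₀ (by positivity) h2.le 2
            rw [sq_abs] at h4
            have h5 : (L ^ 10) ^ 2 = L ^ 20 := by ring
            linarith
          calc (1 + τ ^ 2)⁻¹ * ‖Mu X p τ‖ ≤ (L ^ 20)⁻¹ * (2 * L) :=
                mul_le_mul h3 (hB τ) hM0 (by positivity)
            _ = 2 * (L ^ 19)⁻¹ := by field_simp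
            _ ≤ E := by rw [hE]; linarith
      calc (1 + τ ^ 2)⁻¹ * ‖Mu X p τ‖ ^ 3 = ((1 + τ ^ 2)⁻¹ * ‖Mu X p τ‖) * ‖Mu X p τ‖ ^ 2 := by
            ring
        _ ≤ E * ‖Mu X p τ‖ ^ 2 := mul_le_mul_of_nonneg_right h1 (by positivity)
        _ ≤ _ := by linarith
    · rw [Set.indicator_of_notMem hτ, zero_add]
      have h2 : T ^ 2 ≤ τ ^ 2 := by
        rw [Set.mem_Ioc, not_and_or, not_lt, not_le] at hτ
        rcases hτ with h | h
        · have : T ≤ -τ := by linarith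
          have h3 := pow_le_pow_left₀ hT0.le this 2
          rwa [neg_sq] at h3
        · exact pow_le_pow_left₀ hT0.le h.le 2
      have h3 : (1 + τ ^ 2)⁻¹ ≤ 2 / T ^ 2 * (1 + (τ / T) ^ 2)⁻¹ := by
        have e : 2 / T ^ 2 * (1 + (τ / T) ^ 2)⁻¹ = ((T ^ 2 + τ ^ 2) / 2)⁻¹ := by
          field_simp
        rw [e]
        apply inv_anti₀ (by positivity)
        linarith
      have h4 : ‖Mu X p τ‖ ^ 3 ≤ (2 * L) ^ 3 := pow_le_pow_left₀ hM0 (hB τ) 3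
      calc (1 + τ ^ 2)⁻¹ * ‖Mu X p τ‖ ^ 3 ≤ 2 / T ^ 2 * (1 + (τ / T) ^ 2)⁻¹ * (2 * L) ^ 3 :=
            mul_le_mul h3 h4 (by positivity) (by positivity)
        _ = D * (1 + (τ / T) ^ 2)⁻¹ := by rw [hD]; ring
  have hmain := integral_mono hf (hg1.add hg2) hpt
  refine hmain.trans ?_
  have e0 : ∫ τ : ℝ, (Set.indicator (Set.Ioc (-T) T) (fun τ : ℝ => E * ‖Mu X p τ‖ ^ 2) τ +
      D * (1 + (τ / T) ^ 2)⁻¹) = (∫ τ : ℝ, Set.indicator (Set.Ioc (-T) T)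
        (fun τ : ℝ => E * ‖Mu X p τ‖ ^ 2) τ) + ∫ τ : ℝ, D * (1 + (τ / T) ^ 2)⁻¹ :=
    integral_add hg1 hg2
  simp only [Pi.add_apply]
  rw [e0]
  refine add_le_add ?_ ?_
  · rw [integral_indicator measurableSet_Ioc, integral_const_mul,
      intervalIntegral.integral_of_le (by linarith)]
  · rw [integral_const_mul]
    have e1 : ∫ τ : ℝ, (1 + (τ / T) ^ 2)⁻¹ = T * Real.pi := by
      have := MeasureTheory.Measure.integral_comp_div (fun x : ℝ => (1 + x ^ 2)⁻¹) T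
      rw [this, integral_univ_inv_one_add_sq, abs_of_pos hT0, smul_eq_mul]
    rw [e1, hD]
    have e2 : 16 * L ^ 3 / T ^ 2 * (T * Real.pi) = (16 * Real.pi * L ^ 3) / T := by
      field_simp
    rw [e2, div_le_iff₀ hT0]
    have e3 : ((Q : ℝ) ^ 10)⁻¹ * T = Q := by
      rw [hT]
      field_simp
    rw [e3]
    have hpi := Real.pi_le_four
    have h5 : 16 * Real.pi * L ^ 3 ≤ 64 * L ^ 3 := by
      apply mul_le_mul_of_nonneg_right _ (by positivity)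
      linarith
    linarith

end Pool.Agent.Lib.H5C
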