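import Pool.Agent.Lib.H5C.AN1
import Pool.Agent.Lib.H5C.AN2

/-!
# Chunk AN3: sums over all characters and over the good characters
-/

open Finset MeasureTheory
open Pool.Agent.Lib.H68T

namespace Pool.Agent.Lib.H5C

/-- The integral of the square over the long interval. -/
noncomputable def AN3_M (Q X : ℕ) (p : PCh) : ℝ :=
  ∫ t in (-(Q : ℝ) ^ 11)..((Q : ℝ) ^ 11), ‖Mu X p t‖ ^ 2

theorem AN3_sub {Q : ℕ} : PC1 Q ⊆ PC Q := by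
  classical
  unfold PC1
  exact Finset.filter_subset _ _

theorem AN3_M_nonneg (Q X : ℕ) (p : PCh) : 0 ≤ AN3_M Q X p := by
  apply intervalIntegral.integral_nonneg
  · have : (0 : ℝ) ≤ (Q : ℝ) ^ 11 := by positivity
    linarith
  · intro t _
    positivity

/-- The common part: a bound `b` for the Möbius polynomials of the characters of `S`. -/
theorem AN3_main : ∃ C K : ℝ, 0 < C ∧ 1 ≤ K ∧ ∀ Q X : ℕ, RegP K Q X → ∀ (S : Finset PCh) (b : ℝ),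
    S ⊆ PC1 Q → 0 ≤ b →
    (∀ p ∈ S, ∀ t : ℝ, |t| ≤ (Real.log X) ^ 10 → ‖Mu X p t‖ ≤ b) →
    ∑ p ∈ S, ‖FL X p 0‖ ≤ C * (Real.log X) ^ 4 *
      ((b + 2 * ((Real.log X) ^ 19)⁻¹) * (100 * (Real.log X) ^ 3) + ((Q : ℝ) ^ 8)⁻¹) +
      ((Q : ℝ) ^ 8)⁻¹ := by
  obtain ⟨C, K1, hC, hK1, h1⟩ := FL_le
  obtain ⟨K2, hK2, h2⟩ := int_split
  obtain ⟨K3, h3⟩ := mean_valueP
  refine ⟨C, K1 + K2 + |K3|, hC, by linarith [abs_nonneg K3], fun Q X hR S b hS hb hM => ?_⟩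
  have hK0 : 0 ≤ K1 + K2 + |K3| := by linarith [abs_nonneg K3]
  have hR1 : RegP K1 Q X := hR.mono hK0 (by linarith [abs_nonneg K3])
  have hR2 : RegP K2 Q X := hR.mono hK0 (by linarith [abs_nonneg K3])
  have hR3 : RegP K3 Q X := hR.mono hK0 (by linarith [le_abs_self K3])
  have hL : 1 ≤ Real.log X := hR1.logX_ge_one (by linarith)
  have hQ : (1 : ℝ) ≤ Q := by
    have := hR1.Q_ge hK1
    linarith
  set L := Real.log X with hLdef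
  have hSc : (S.card : ℝ) ≤ (Q : ℝ) ^ 2 := by
    have h4 : S.card ≤ (PC Q).card := by
      apply Finset.card_le_card
      exact hS.trans AN3_sub
    have h5 := h4.trans (card_PC_le Q)
    exact_mod_cast h5
  have hmv : ∑ p ∈ S, AN3_M Q X p ≤ 100 * L ^ 3 := by
    have h4 := h3 Q X hR3
    have h5 : ∑ p ∈ S, AN3_M Q X p ≤ ∑ p ∈ PC Q, AN3_M Q X p := by
      apply Finset.sum_le_sum_of_subset_of_nonneg
      · exact hS.trans AN3_sub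
      · intro p _ _
        exact AN3_M_nonneg Q X p
    refine h5.trans (h4.trans (le_of_eq ?_))
    rw [← Real.rpow_natCast L 3, ← hLdef]
    norm_num
  have hQ10 : (Q : ℝ) ^ 2 * ((Q : ℝ) ^ 10)⁻¹ = ((Q : ℝ) ^ 8)⁻¹ := by
    field_simp
  have hpt : ∀ p ∈ S, ‖FL X p 0‖ ≤ C * L ^ 4 *
      ((b + 2 * (L ^ 19)⁻¹) * AN3_M Q X p + ((Q : ℝ) ^ 10)⁻¹) + ((Q : ℝ) ^ 10)⁻¹ := by
    intro p hp
    have h4 := h1 Q X hR1 p (hS hp)
    have h5 := h2 Q X hR2 p b (hM p hp) hb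
    have h6 : C * L ^ 4 * (∫ τ : ℝ, (1 + τ ^ 2)⁻¹ * ‖Mu X p τ‖ ^ 3) ≤ C * L ^ 4 *
        ((b + 2 * (L ^ 19)⁻¹) * AN3_M Q X p + ((Q : ℝ) ^ 10)⁻¹) :=
      mul_le_mul_of_nonneg_left h5 (by positivity)
    linarith
  have hB : 0 ≤ b + 2 * (L ^ 19)⁻¹ := by positivity
  have hA : 0 ≤ C * L ^ 4 := by positivity
  calc ∑ p ∈ S, ‖FL X p 0‖
      ≤ ∑ p ∈ S, (C * L ^ 4 * ((b + 2 * (L ^ 19)⁻¹) * AN3_M Q X p + ((Q : ℝ) ^ 10)⁻¹) +
        ((Q : ℝ) ^ 10)⁻¹) := Finset.sum_le_sum hpt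
    _ = C * L ^ 4 * ((b + 2 * (L ^ 19)⁻¹) * ∑ p ∈ S, AN3_M Q X p +
        S.card * ((Q : ℝ) ^ 10)⁻¹) + S.card * ((Q : ℝ) ^ 10)⁻¹ := by
        rw [Finset.sum_add_distrib, ← Finset.mul_sum, Finset.sum_add_distrib, ← Finset.mul_sum,
          Finset.sum_const, nsmul_eq_mul]
    _ ≤ C * L ^ 4 * ((b + 2 * (L ^ 19)⁻¹) * (100 * L ^ 3) +
        (Q : ℝ) ^ 2 * ((Q : ℝ) ^ 10)⁻¹) + (Q : ℝ) ^ 2 * ((Q : ℝ) ^ 10)⁻¹ := by
        have h7 : (S.card : ℝ) * ((Q : ℝ) ^ 10)⁻¹ ≤ (Q : ℝ) ^ 2 * ((Q : ℝ) ^ 10)⁻¹ :=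
          mul_le_mul_of_nonneg_right hSc (by positivity)
        have h8 : (b + 2 * (L ^ 19)⁻¹) * ∑ p ∈ S, AN3_M Q X p ≤
            (b + 2 * (L ^ 19)⁻¹) * (100 * L ^ 3) := mul_le_mul_of_nonneg_left hmv hB
        have h9 := mul_le_mul_of_nonneg_left (add_le_add h8 h7) hA
        linarith
    _ = _ := by rw [hQ10]

/-- `FL_le` and `int_split` with `b = 2 log X` (`Mu_le`), then `mean_valueP`:
`∑ ≤ C L^4 (3 L · 100 L^3 + Q^2 Q^(-10)) + Q^2 Q^(-10) ≤ L^9` (`card_PC_le`). -/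
theorem all_sum : ∃ K : ℝ, 1 ≤ K ∧ ∀ Q X : ℕ, RegP K Q X →
    ∑ p ∈ PC1 Q, ‖FL X p 0‖ ≤ (Real.log X) ^ 9 := by
  obtain ⟨C, K1, hC, hK1, h1⟩ := AN3_main
  refine ⟨K1 + 1000 * C + 1000, by linarith, fun Q X hR => ?_⟩
  have hK0 : 0 ≤ K1 + 1000 * C + 1000 := by linarith
  have hR1 : RegP K1 Q X := hR.mono hK0 (by linarith)
  have hL1 : 1000 * C + 1000 ≤ Real.log X := by
    have h2 := hR.logX_ge (by linarith)
    have h3 := Real.add_one_le_exp (K1 + 1000 * C + 1000)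
    linarith
  have hXp : 0 < X := hR.X_pos (by linarith)
  have hXr : (1000 : ℝ) ≤ X := by
    have h2 := hR.X_ge (by linarith)
    linarith
  have hQ : (1 : ℝ) ≤ Q := by
    have := hR1.Q_ge hK1
    linarith
  have hMu : ∀ p ∈ PC1 Q, ∀ t : ℝ, |t| ≤ (Real.log X) ^ 10 → ‖Mu X p t‖ ≤ 2 * Real.log X := by
    intro p _ t _
    have h4 := Mu_le X p t hXp
    have h5 : Real.log (60 * (X : ℝ)) = Real.log 60 + Real.log X := by
      rw [Real.log_mul (by norm_num) (by positivity)]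
    have h6 : Real.log 60 ≤ 60 := by
      have := Real.log_le_sub_one_of_pos (show (0 : ℝ) < 60 by norm_num)
      linarith
    rw [h5] at h4
    linarith
  have h := h1 Q X hR1 (PC1 Q) (2 * Real.log X) subset_rfl (by linarith) hMu
  set L := Real.log X with hLdef
  have hL : 1 ≤ L := by linarith
  refine h.trans ?_
  have hinv : (L ^ 19)⁻¹ ≤ 1 := inv_le_one_of_one_le₀ (one_le_pow₀ hL)
  have hQ8 : ((Q : ℝ) ^ 8)⁻¹ ≤ 1 := inv_le_one_of_one_le₀ (one_le_pow₀ hQ)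
  have hA : 0 ≤ C * L ^ 4 := by positivity
  have h5 : (2 * L + 2 * (L ^ 19)⁻¹) * (100 * L ^ 3) ≤ (4 * L) * (100 * L ^ 3) :=
    mul_le_mul_of_nonneg_right (by linarith) (by positivity)
  have hL4 : 1 ≤ L ^ 4 := one_le_pow₀ hL
  have h6 : (2 * L + 2 * (L ^ 19)⁻¹) * (100 * L ^ 3) + ((Q : ℝ) ^ 8)⁻¹ ≤ 401 * L ^ 4 := by
    nlinarith
  have h7 := mul_le_mul_of_nonneg_left h6 hA
  have hL8 : 1 ≤ L ^ 8 := one_le_pow₀ hL
  have h8 : C * L ^ 4 * (401 * L ^ 4) + 1 ≤ (401 * C + 1) * L ^ 8 := by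
    nlinarith
  calc C * L ^ 4 * ((2 * L + 2 * (L ^ 19)⁻¹) * (100 * L ^ 3) + ((Q : ℝ) ^ 8)⁻¹) +
        ((Q : ℝ) ^ 8)⁻¹ ≤ C * L ^ 4 * (401 * L ^ 4) + 1 := by linarith
    _ ≤ (401 * C + 1) * L ^ 8 := h8
    _ ≤ L * L ^ 8 := mul_le_mul_of_nonneg_right (by linarith) (by positivity)
    _ = L ^ 9 := by ring

/-- As `all_sum` with `b = (log X)^(-10)` for `p ∉ Bad Q X`:
`∑ ≤ C L^4 (3 L^(-10) · 100 L^3 + Q^(-8)) + Q^(-8) ≤ L^(-2)`. -/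
theorem good_sum : ∃ K : ℝ, 1 ≤ K ∧ ∀ Q X : ℕ, RegP K Q X → ∀ S : Finset PCh,
    S ⊆ PC1 Q → (∀ p ∈ S, p ∉ Bad Q X) → ∑ p ∈ S, ‖FL X p 0‖ ≤ 1 / Real.log X := by
  obtain ⟨C, K1, hC, hK1, h1⟩ := AN3_main
  obtain ⟨K2, hK2, h2⟩ := regp_log_le 1 1 1 (by norm_num)
  refine ⟨K1 + K2 + 1000 * C + 1000, by linarith, fun Q X hR S hS hbad => ?_⟩
  have hK0 : 0 ≤ K1 + K2 + 1000 * C + 1000 := by linarith
  have hR1 : RegP K1 Q X := hR.mono hK0 (by linarith)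
  have hR2 : RegP K2 Q X := hR.mono hK0 (by linarith)
  have hL1 : 1000 * C + 1000 ≤ Real.log X := by
    have h2 := hR.logX_ge (by linarith)
    have h3 := Real.add_one_le_exp (K1 + K2 + 1000 * C + 1000)
    linarith
  have hQL : Real.log X ≤ Q := by
    have h3 := h2 Q X hR2
    simpa using h3
  have hMu : ∀ p ∈ S, ∀ t : ℝ, |t| ≤ (Real.log X) ^ 10 → ‖Mu X p t‖ ≤ ((Real.log X) ^ 10)⁻¹ := by
    intro p hp t ht
    by_contra hcon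
    push Not at hcon
    apply hbad p hp
    classical
    unfold Bad
    exact Finset.mem_filter.2 ⟨hS hp, t, ht, hcon⟩
  have hL : 1 ≤ Real.log X := by linarith
  have h := h1 Q X hR1 S ((Real.log X) ^ 10)⁻¹ hS (by positivity) hMu
  set L := Real.log X with hLdef
  refine h.trans ?_
  have hL0 : 0 < L := by linarith
  have hQ8 : ((Q : ℝ) ^ 8)⁻¹ ≤ (L ^ 8)⁻¹ := by
    apply inv_anti₀ (by positivity)
    exact pow_le_pow_left₀ hL0.le hQL 8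
  have h19 : (L ^ 19)⁻¹ ≤ (L ^ 10)⁻¹ := by
    apply inv_anti₀ (by positivity)
    exact pow_le_pow_right₀ hL (by norm_num)
  have h5 : ((L ^ 10)⁻¹ + 2 * (L ^ 19)⁻¹) * (100 * L ^ 3) ≤ (3 * (L ^ 10)⁻¹) * (100 * L ^ 3) :=
    mul_le_mul_of_nonneg_right (by linarith) (by positivity)
  have e1 : (3 * (L ^ 10)⁻¹) * (100 * L ^ 3) = 300 * (L ^ 7)⁻¹ := by
    field_simp
    norm_num
  have h87 : (L ^ 8)⁻¹ ≤ (L ^ 7)⁻¹ := by
    apply inv_anti₀ (by positivity)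
    exact pow_le_pow_right₀ hL (by norm_num)
  have h82 : (L ^ 8)⁻¹ ≤ (L ^ 3)⁻¹ := by
    apply inv_anti₀ (by positivity)
    exact pow_le_pow_right₀ hL (by norm_num)
  have h6 : ((L ^ 10)⁻¹ + 2 * (L ^ 19)⁻¹) * (100 * L ^ 3) + ((Q : ℝ) ^ 8)⁻¹ ≤
      301 * (L ^ 7)⁻¹ := by
    linarith
  have hA : 0 ≤ C * L ^ 4 := by positivity
  have h7 := mul_le_mul_of_nonneg_left h6 hA
  have e2 : C * L ^ 4 * (301 * (L ^ 7)⁻¹) = 301 * C * (L ^ 3)⁻¹ := by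
    field_simp
  calc C * L ^ 4 * (((L ^ 10)⁻¹ + 2 * (L ^ 19)⁻¹) * (100 * L ^ 3) + ((Q : ℝ) ^ 8)⁻¹) +
        ((Q : ℝ) ^ 8)⁻¹ ≤ (301 * C + 1) * (L ^ 3)⁻¹ := by linarith
    _ ≤ L * (L ^ 3)⁻¹ := mul_le_mul_of_nonneg_right (by linarith) (by positivity)
    _ = (L ^ 2)⁻¹ := by field_simp
    _ ≤ 1 / L := by
        rw [one_div]
        apply inv_anti₀ hL0
        nlinarith

end Pool.Agent.Lib.H5C
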