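import Pool.Agent.Lib.H5C.Defs
import Pool.Agent.Lib.H68T.PNTE
import Pool.Agent.Lib.H68T.BPS

/-!
# Chunk AN6a: the principal character; primes instead of prime powers
-/

open Finset
open Pool.Agent.Lib.H68T

namespace Pool.Agent.Lib.H5C

theorem an6_F0_re (X : ℕ) (hX : 1 ≤ X) : 19 / 20 ≤ (F0 X 0).re := by
  have hX' : (0 : ℝ) < X := by exact_mod_cast hX
  have h1 : (F0 X 0).re = ∑ m ∈ Icc 1 (60 * X), v X m / m := by
    unfold F0 FF
    rw [Complex.re_sum]
    refine Finset.sum_congr rfl fun m hm => ?_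
    rw [mem_Icc] at hm
    have h1 : (m : ℂ) ^ (-(1 + ((0 : ℝ) : ℂ) * Complex.I)) = (m : ℂ)⁻¹ := by
      rw [Complex.ofReal_zero, zero_mul, add_zero, Complex.cpow_neg_one]
    rw [h1, one_mul]
    have h2 : (v X m : ℂ) * (m : ℂ)⁻¹ = ((v X m / m : ℝ) : ℂ) := by push_cast; ring
    rw [h2, Complex.ofReal_re]
  rw [h1]
  have h3 : Icc X (20 * X) ⊆ Icc 1 (60 * X) := by
    intro m hm
    rw [mem_Icc] at hm ⊢
    omega
  have h4 : ∑ m ∈ Icc X (20 * X), v X m / m ≤ ∑ m ∈ Icc 1 (60 * X), v X m / m :=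
    Finset.sum_le_sum_of_subset_of_nonneg h3 fun m _ _ =>
      div_nonneg (BPS_v_nonneg X m) (Nat.cast_nonneg m)
  refine le_trans ?_ h4
  have h5 : ∀ m ∈ Icc X (20 * X), 1 / (20 * (X : ℝ)) ≤ v X m / m := by
    intro m hm
    rw [mem_Icc] at hm
    have hm0 : (0 : ℝ) < m := by exact_mod_cast (lt_of_lt_of_le hX hm.1)
    have hm1 : (X : ℝ) ≤ m := by exact_mod_cast hm.1
    have hm2 : (m : ℝ) ≤ 20 * X := by exact_mod_cast hm.2
    have hv : v X m = 1 := by
      apply BPS_w_eq_one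
      · have : 0 ≤ Real.log ((m : ℝ) / X) := Real.log_nonneg (by rwa [one_le_div hX'])
        linarith
      · have h6 : (m : ℝ) / X ≤ Real.exp 3 := by
          rw [div_le_iff₀ hX']
          have h7 : (20 : ℝ) ≤ Real.exp 3 := by
            have h8 := Real.exp_one_gt_d9
            have h9 : Real.exp 3 = Real.exp 1 ^ 3 := by
              rw [← Real.exp_nat_mul]; norm_num
            rw [h9]
            calc (20 : ℝ) ≤ 2.7182818283 ^ 3 := by norm_num
              _ ≤ Real.exp 1 ^ 3 := by gcongr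
          nlinarith
        calc Real.log ((m : ℝ) / X) ≤ Real.log (Real.exp 3) := Real.log_le_log (by positivity) h6
          _ = 3 := Real.log_exp 3
    rw [hv]
    exact one_div_le_one_div_of_le hm0 hm2
  refine le_trans ?_ (Finset.card_nsmul_le_sum _ _ _ h5)
  rw [Nat.card_Icc, nsmul_eq_mul]
  have h6 : ((20 * X + 1 - X : ℕ) : ℝ) = 19 * X + 1 := by
    rw [Nat.cast_sub (by omega)]
    push_cast
    ring
  rw [h6, mul_one_div, div_le_div_iff₀ (by norm_num) (by positivity)]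
  nlinarith

theorem an6_reg (K : ℝ) : ∃ L₀ : ℝ, ∀ X : ℕ, L₀ ≤ Real.log X →
    Reg K ⌊Real.exp (√(Real.log X))⌋₊ X := by
  have h1 : ∀ᶠ L : ℝ in Filter.atTop, |K| ≤ Real.log L :=
    Real.tendsto_log_atTop.eventually_ge_atTop _
  have h2 : ∀ᶠ L : ℝ in Filter.atTop,
      ‖Real.log L‖ ≤ (1 / (2 * (|K| + 1))) * ‖L ^ (1 / 2 : ℝ)‖ :=
    (isLittleO_log_rpow_atTop (by norm_num : (0 : ℝ) < 1 / 2)).bound (by positivity)
  have h3 : ∀ᶠ L : ℝ in Filter.atTop, 16 ≤ L := Filter.eventually_ge_atTop _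
  obtain ⟨B, hB⟩ := Filter.eventually_atTop.mp (h1.and (h2.and h3))
  refine ⟨B, fun X hX => ?_⟩
  obtain ⟨a1, a2, a3⟩ := hB _ hX
  set L := Real.log X with hL
  have hL0 : 0 < L := by linarith
  have hK0 : 0 ≤ |K| := abs_nonneg K
  have hlog0 : 0 ≤ Real.log L := hK0.trans a1
  rw [← Real.sqrt_eq_rpow, Real.norm_of_nonneg (Real.sqrt_nonneg L), Real.norm_of_nonneg hlog0] at a2
  have hs4 : 4 ≤ √L := by
    have : (4 : ℝ) = √16 := by
      rw [show (16 : ℝ) = 4 ^ 2 by norm_num, Real.sqrt_sq (by norm_num)]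
    rw [this]
    exact Real.sqrt_le_sqrt a3
  have hKL : |K| * Real.log L ≤ √L / 2 := by
    calc |K| * Real.log L ≤ |K| * (1 / (2 * (|K| + 1)) * √L) := by gcongr
      _ = (|K| / (|K| + 1)) * (√L / 2) := by field_simp
      _ ≤ 1 * (√L / 2) := by
          refine mul_le_mul_of_nonneg_right ?_ (by positivity)
          rw [div_le_one (by positivity)]
          linarith
      _ = √L / 2 := one_mul _
  have hKle : K ≤ |K| := le_abs_self K
  set q := ⌊Real.exp (√L)⌋₊ with hq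
  have he1 : (1 : ℝ) ≤ Real.exp (√L) := Real.one_le_exp (Real.sqrt_nonneg L)
  have hq1 : (q : ℝ) ≤ Real.exp (√L) := Nat.floor_le (Real.exp_pos _).le
  have hq1' : 1 ≤ q := Nat.one_le_floor_iff _ |>.mpr he1
  have hq1r : (1 : ℝ) ≤ q := by exact_mod_cast hq1'
  have hq2 : Real.exp (√L) / 2 ≤ q := by
    have := Nat.lt_floor_add_one (Real.exp (√L))
    rw [← hq] at this
    linarith
  have hlq1 : Real.log q ≤ √L := by
    calc Real.log q ≤ Real.log (Real.exp (√L)) := Real.log_le_log (by linarith) hq1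
      _ = √L := Real.log_exp _
  have hlq2 : √L / 2 ≤ Real.log q := by
    have h4 : Real.log (Real.exp (√L) / 2) ≤ Real.log q := Real.log_le_log (by positivity) hq2
    rw [Real.log_div (Real.exp_pos _).ne' (by norm_num), Real.log_exp] at h4
    have := Real.log_two_lt_d9
    linarith
  refine ⟨hKle.trans a1, ?_, ?_⟩
  · calc K * Real.log L ≤ |K| * Real.log L := by gcongr
      _ ≤ √L / 2 := hKL
      _ ≤ Real.log q := hlq2
  · have hlq0 : 0 ≤ Real.log q := Real.log_nonneg hq1r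
    calc K * (Real.log q * Real.log L) ≤ |K| * (Real.log q * Real.log L) := by gcongr
      _ ≤ |K| * (√L * Real.log L) := by gcongr
      _ = √L * (|K| * Real.log L) := by ring
      _ ≤ √L * (√L / 2) := by gcongr
      _ = L / 2 := by rw [← mul_div_assoc, Real.mul_self_sqrt hL0.le]
      _ ≤ L := by linarith

/-- `FL_sub_F0_le` with `A = 1`, `t = 0` and a suitable `Q` (e.g. `⌊exp (√(log X))⌋`):
`‖FL X p0 0 - F0 X 0‖ ≤ 1/log X`; `F0 X 0 = ∑ v(m)/m ≥ ∑_{X ≤ m ≤ 20 X} 1/m ≥ 1`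
(`v = 1` on `[X/e, e^3 X]`). -/
theorem principal : ∃ X₀ : ℕ, ∀ X : ℕ, X₀ ≤ X → 1 / 2 ≤ (FL X p0 0).re := by
  obtain ⟨K, hK⟩ := FL_sub_F0_le 1
  obtain ⟨L₀, hL₀⟩ := an6_reg K
  have h1 : Filter.Tendsto (fun X : ℕ => Real.log X) Filter.atTop Filter.atTop :=
    Real.tendsto_log_atTop.comp tendsto_natCast_atTop_atTop
  have h2 : ∀ᶠ X : ℕ in Filter.atTop, max L₀ 4 ≤ Real.log X := h1.eventually_ge_atTop _
  obtain ⟨X₀, hX₀⟩ := Filter.eventually_atTop.mp h2
  refine ⟨X₀ + 1, fun X hX => ?_⟩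
  have h3 := hX₀ X (by omega)
  have hL1 : L₀ ≤ Real.log X := (le_max_left _ _).trans h3
  have hL4 : 4 ≤ Real.log X := (le_max_right _ _).trans h3
  have h4 := hK _ X (hL₀ X hL1) 0
  rw [abs_zero, add_zero, one_mul, Real.rpow_neg_one] at h4
  have h5 : (Real.log X)⁻¹ ≤ 1 / 4 := by
    rw [one_div]
    exact inv_anti₀ (by norm_num) hL4
  have h6 := an6_F0_re X (by omega)
  have h7 : |(FL X p0 0 - F0 X 0).re| ≤ ‖FL X p0 0 - F0 X 0‖ := Complex.abs_re_le_norm _
  have h8 := abs_le.mp (h7.trans (h4.trans h5))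
  rw [Complex.sub_re] at h8
  linarith [h8.1]

end Pool.Agent.Lib.H5C
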