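import Pool.Agent.Lib.H5C.CH1
import Pool.Agent.Lib.H5C.AN6

/-!
# Chunk CH2: sums over pairs `(ξ, χ)` are bounded by sums over primitive characters
-/

open Finset
open Pool.Agent.Lib.H56G
open Pool.Agent.Lib.H68T (PC p0 FL Mu v lp)

namespace Pool.Agent.Lib.H5C

variable {ι J : Type} [Fintype ι] [DecidableEq ι] [Fintype J] [DecidableEq J]

/-- For primes `P` of nonzero weight (`P > X/8`) the two values agree (`pch_apply`). -/
theorem SP_pch (s : Sys ι J) [NeZero s.M] (X : ℕ) (hM : ∀ p, p.Prime → p ∣ s.M → (p : ℝ) ≤ X / 8)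
    (hpr : ∀ i, (s.pr i : ℝ) ≤ X / 8) (ξ : DirichletCharacter ℂ s.M) (χ : Fam s) :
    SP X (fun P => ξ (P : ZMod s.M) * fval s χ P) =
      SP X (fun P => (pch s ξ χ).2 (P : ZMod (pch s ξ χ).1)) := by
  unfold SP
  refine Finset.sum_congr rfl fun P _ => ?_
  by_cases hw : Pool.Agent.Lib.H68T.lp (P : ℤ) * v X P / P = 0
  · rw [hw]; simp
  · obtain ⟨hP, hPX⟩ := large_of_weight X P hw
    have hcop : Nat.Coprime P (Nn s) := by
      refine Nat.Coprime.mul_right ?_ (Nat.Coprime.prod_right fun i _ => ?_)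
      · rw [Nat.Prime.coprime_iff_not_dvd hP]
        intro h
        have := hM P hP h
        linarith
      · rw [Nat.coprime_primes hP (s.prime i)]
        intro h
        have := hpr i
        rw [← h] at this
        linarith
    simp only
    rw [pch_apply s ξ χ P hcop]

open Classical in
theorem ch2_main : ∃ X₀ : ℕ, ∀ X : ℕ, X₀ ≤ X → ∀ Q : ℕ, (Q : ℝ) ≤ (X : ℝ) ^ (1 / 12 : ℝ) →
    ∀ {ι J : Type} [Fintype ι] [DecidableEq ι] [Fintype J] [DecidableEq J] (s : Sys ι J)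
      [NeZero s.M], (∀ p, p.Prime → p ∣ s.M → (p : ℝ) ≤ X / 8) → (∀ i, (s.pr i : ℝ) ≤ X / 8) →
    ∀ (T : Finset (DirichletCharacter ℂ s.M × Fam s)) (S : Finset PCh), S ⊆ PC1 Q →
      (∀ x ∈ T, pch s x.1 x.2 ∈ S) →
      ∑ x ∈ T, ‖SP X (fun P => x.1 (P : ZMod s.M) * fval s x.2 P)‖ ≤
        ∑ p ∈ S, ‖FL X p 0‖ + (X : ℝ) ^ (-(1 / 6) : ℝ) := by
  obtain ⟨X₀, hX₀⟩ := SP_sub_FL
  refine ⟨X₀ + 1, fun X hX Q hQ => ?_⟩
  intro ι J _ _ _ _ s _ hM hpr T S hS hT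
  have hX1 : 1 ≤ X := by omega
  have hX0 : (0 : ℝ) < X := by exact_mod_cast hX1
  have h1 := hX₀ X (by omega)
  have hle : ∀ x ∈ T, ‖SP X (fun P => x.1 (P : ZMod s.M) * fval s x.2 P)‖ ≤
      ‖FL X (pch s x.1 x.2) 0‖ + (X : ℝ) ^ (-(1 / 3) : ℝ) := by
    intro x _
    rw [SP_pch s X hM hpr]
    have h2 := h1 (pch s x.1 x.2) (pch_prim s x.1 x.2).1
    have h3 := norm_sub_norm_le (SP X (fun P => (pch s x.1 x.2).2 (P : ZMod (pch s x.1 x.2).1)))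
      (FL X (pch s x.1 x.2) 0)
    linarith
  have hinj : Set.InjOn (fun x : DirichletCharacter ℂ s.M × Fam s => pch s x.1 x.2)
      (T : Set (DirichletCharacter ℂ s.M × Fam s)) := by
    intro x _ y _ hxy
    have := pch_inj s x.1 y.1 x.2 y.2 hxy
    exact Prod.ext this.1 this.2
  have hr0 : 0 ≤ (X : ℝ) ^ (-(1 / 3) : ℝ) := Real.rpow_nonneg hX0.le _
  calc ∑ x ∈ T, ‖SP X (fun P => x.1 (P : ZMod s.M) * fval s x.2 P)‖
      ≤ ∑ x ∈ T, (‖FL X (pch s x.1 x.2) 0‖ + (X : ℝ) ^ (-(1 / 3) : ℝ)) := Finset.sum_le_sum hle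
    _ = ∑ p ∈ T.image (fun x => pch s x.1 x.2), (‖FL X p 0‖ + (X : ℝ) ^ (-(1 / 3) : ℝ)) := by
        rw [Finset.sum_image hinj]
    _ ≤ ∑ p ∈ S, (‖FL X p 0‖ + (X : ℝ) ^ (-(1 / 3) : ℝ)) := by
        refine Finset.sum_le_sum_of_subset_of_nonneg ?_ fun p _ _ => ?_
        · intro p hp
          rw [Finset.mem_image] at hp
          obtain ⟨x, hx, rfl⟩ := hp
          exact hT x hx
        · exact add_nonneg (norm_nonneg _) hr0
    _ = ∑ p ∈ S, ‖FL X p 0‖ + S.card * (X : ℝ) ^ (-(1 / 3) : ℝ) := by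
        rw [Finset.sum_add_distrib, Finset.sum_const, nsmul_eq_mul]
    _ ≤ ∑ p ∈ S, ‖FL X p 0‖ + (X : ℝ) ^ (1 / 6 : ℝ) * (X : ℝ) ^ (-(1 / 3) : ℝ) := by
        have hc : (S.card : ℝ) ≤ (X : ℝ) ^ (1 / 6 : ℝ) := by
          have h4 : S.card ≤ Q ^ 2 :=
            (Finset.card_le_card hS).trans ((Finset.card_filter_le _ _).trans
              (Pool.Agent.Lib.H68T.card_PC_le Q))
          have h5 : (S.card : ℝ) ≤ (Q : ℝ) ^ 2 := by exact_mod_cast h4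
          refine h5.trans ?_
          have h6 : (X : ℝ) ^ (1 / 6 : ℝ) = ((X : ℝ) ^ (1 / 12 : ℝ)) ^ 2 := by
            rw [← Real.rpow_natCast, ← Real.rpow_mul hX0.le]
            norm_num
          rw [h6]
          gcongr
        gcongr
    _ = ∑ p ∈ S, ‖FL X p 0‖ + (X : ℝ) ^ (-(1 / 6) : ℝ) := by
        rw [← Real.rpow_add hX0]
        norm_num

open Classical in
/-- `pch` maps injectively into `PC1 Q` (`pch_dvd`, `M ρ(csupp) ≤ Q`), `SP_pch`, `SP_sub_FL`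
(`card_PC_le`: the errors sum up to `Q² X^(-1/3) ≤ X^(-1/6)` for `Q ≤ X^(1/12)`). -/
theorem sum_pairs_le : ∃ X₀ : ℕ, ∀ X : ℕ, X₀ ≤ X → ∀ Q : ℕ, (Q : ℝ) ≤ (X : ℝ) ^ (1 / 12 : ℝ) →
    ∀ {ι J : Type} [Fintype ι] [DecidableEq ι] [Fintype J] [DecidableEq J] (s : Sys ι J)
      [NeZero s.M], (∀ p, p.Prime → p ∣ s.M → (p : ℝ) ≤ X / 8) → (∀ i, (s.pr i : ℝ) ≤ X / 8) →
    ∀ T : Finset (DirichletCharacter ℂ s.M × Fam s),
      (∀ x ∈ T, (s.M : ℝ) * s.rho (csupp s x.2) ≤ Q) → (1, fun _ => 1) ∉ T →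
      ∑ x ∈ T, ‖SP X (fun P => x.1 (P : ZMod s.M) * fval s x.2 P)‖ ≤
        ∑ p ∈ PC1 Q, ‖FL X p 0‖ + (X : ℝ) ^ (-(1 / 6) : ℝ) := by
  obtain ⟨X₀, hX₀⟩ := ch2_main
  refine ⟨X₀, fun X hX Q hQ => ?_⟩
  intro ι J _ _ _ _ s _ hM hpr T hT h1
  refine hX₀ X hX Q hQ s hM hpr T (PC1 Q) (Finset.Subset.refl _) ?_
  intro x hx
  have hp := pch_prim s x.1 x.2
  unfold PC1
  rw [mem_filter, Pool.Agent.Lib.H68T.mem_PC]
  refine ⟨⟨hp.1, ?_, hp.2⟩, ?_⟩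
  · have hd := pch_dvd s x.1 x.2
    have hne : s.M * ∏ i ∈ csupp s x.2, s.pr i ≠ 0 :=
      mul_ne_zero (NeZero.ne _) (Finset.prod_ne_zero_iff.mpr fun i _ => (s.prime i).ne_zero)
    have hle := Nat.le_of_dvd (Nat.pos_of_ne_zero hne) hd
    have h2 := hT x hx
    have h3 : ((s.M * ∏ i ∈ csupp s x.2, s.pr i : ℕ) : ℝ) = (s.M : ℝ) * s.rho (csupp s x.2) := by
      unfold Sys.rho
      push_cast
      ring
    rw [← h3] at h2
    exact hle.trans (by exact_mod_cast h2)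
  · intro h
    rw [← pch_one s] at h
    have h4 := pch_inj s _ _ _ _ h
    apply h1
    have h5 : x = (1, fun _ => 1) := Prod.ext h4.1 h4.2
    rwa [← h5]

open Classical in
/-- The same for `χ = 1`: the conductors divide `M`. -/
theorem sum_low_le : ∃ X₀ : ℕ, ∀ X : ℕ, X₀ ≤ X → ∀ Q : ℕ, (Q : ℝ) ≤ (X : ℝ) ^ (1 / 12 : ℝ) →
    ∀ {ι J : Type} [Fintype ι] [DecidableEq ι] [Fintype J] [DecidableEq J] (s : Sys ι J)
      [NeZero s.M], (∀ p, p.Prime → p ∣ s.M → (p : ℝ) ≤ X / 8) → (∀ i, (s.pr i : ℝ) ≤ X / 8) →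
      s.M ≤ Q →
      ∑ ξ ∈ univ.filter (fun ξ : DirichletCharacter ℂ s.M => ξ ≠ 1),
        ‖SP X (fun P => ξ (P : ZMod s.M) * fval s (fun _ => 1) P)‖ ≤
        ∑ p ∈ (PC1 Q).filter (fun p => p.1 ∣ s.M), ‖FL X p 0‖ + (X : ℝ) ^ (-(1 / 6) : ℝ) := by
  obtain ⟨X₀, hX₀⟩ := ch2_main
  refine ⟨X₀, fun X hX Q hQ => ?_⟩
  intro ι J _ _ _ _ s _ hM hpr hMQ
  set T : Finset (DirichletCharacter ℂ s.M × Fam s) :=
    (univ.filter (fun ξ : DirichletCharacter ℂ s.M => ξ ≠ 1)).image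
      (fun ξ => (ξ, fun _ => 1)) with hTdef
  have hinj : Set.InjOn (fun ξ : DirichletCharacter ℂ s.M =>
      ((ξ, fun _ => 1) : DirichletCharacter ℂ s.M × Fam s))
      ((univ.filter (fun ξ : DirichletCharacter ℂ s.M => ξ ≠ 1) :
        Finset (DirichletCharacter ℂ s.M)) : Set _) := by
    intro a _ b _ hab
    exact congrArg Prod.fst hab
  have h := hX₀ X hX Q hQ s hM hpr T ((PC1 Q).filter (fun p => p.1 ∣ s.M))
    (Finset.filter_subset _ _) ?_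
  · rw [hTdef, Finset.sum_image hinj] at h
    exact h
  · intro x hx
    rw [hTdef, Finset.mem_image] at hx
    obtain ⟨ξ, hξ, rfl⟩ := hx
    rw [mem_filter] at hξ
    have hp := pch_prim s ξ (fun _ => 1)
    have hd := pch_dvd s ξ (fun _ => 1)
    have hc : csupp s (fun _ => 1) = ∅ := by
      unfold csupp
      simp
    rw [hc, Finset.prod_empty, mul_one] at hd
    have hMpos : 0 < s.M := Nat.pos_of_ne_zero (NeZero.ne _)
    rw [mem_filter]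
    unfold PC1
    rw [mem_filter, Pool.Agent.Lib.H68T.mem_PC]
    refine ⟨⟨⟨hp.1, (Nat.le_of_dvd hMpos hd).trans hMQ, hp.2⟩, ?_⟩, hd⟩
    intro h
    simp only at h
    rw [← pch_one s] at h
    exact hξ.2 (pch_inj s _ _ _ _ h).1

end Pool.Agent.Lib.H5C
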