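import Pool.Agent.Lib.H5C.PM2
import Pool.Agent.Lib.H5C.AN6
import Pool.Agent.Lib.H56G.Maj1

/-!
# Chunk PM6b: primes in the progression `b j0 mod M`, weighted with `L'^2`
-/

open Finset
open Pool.Agent.Lib.H56G
open Pool.Agent.Lib.H68T (PC p0 FL Mu v lp)

namespace Pool.Agent.Lib.H5C

variable {ι J : Type} [Fintype ι] [DecidableEq ι] [Fintype J] [DecidableEq J]

/-- `L(t) = L'(b j0 + M t)` if no `pr i` divides `b j0 + M t` (`sum_eq_of_not_dvd`, `U_eq_ut`).
The `t = (P - b j0)/M` with `P ≡ b j0`, `P` prime, `v(P) ≠ 0` are in `Icc 1 T`, and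
`lp(P) v(P)/P ≤ 8 log (60X)/X` (`weight_le`). -/
theorem count_ge (s : Sys ι J) [NeZero s.M] (X T : ℕ) (hX : 1 ≤ X)
    (hpr : ∀ i, (s.pr i : ℝ) ≤ X / 8) (j0 : J)
    (hbX : ((s.b j0 + s.M : ℕ) : ℝ) ≤ X / 8) (hT : 60 * X ≤ s.M * T)
    (c : (ι → Option J) → ℝ) :
    (X : ℝ) / (8 * Real.log ((60 * X : ℕ) : ℝ)) *
      ∑ P ∈ (Icc 1 (60 * X)).filter (fun P => P ≡ s.b j0 [MOD s.M]),
        lp (P : ℤ) * v X P / P * (Lx s j0 (cp j0 c) P) ^ 2 ≤
      ∑ t ∈ (Icc 1 T).filter (fun t => (s.b j0 + s.M * t).Prime), (∑ κ, c κ * s.U κ t) ^ 2 := by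
  classical
  have hM : 0 < s.M := Nat.pos_of_ne_zero (NeZero.ne s.M)
  have hX0 : (0 : ℝ) < X := by exact_mod_cast hX
  have hlog : 0 < Real.log ((60 * X : ℕ) : ℝ) := by
    apply Real.log_pos
    have : 1 < 60 * X := by omega
    exact_mod_cast this
  set C : ℝ := (X : ℝ) / (8 * Real.log ((60 * X : ℕ) : ℝ)) with hC
  have hC0 : 0 < C := by positivity
  set A : Finset ℕ := ((Icc 1 (60 * X)).filter (fun P : ℕ => P ≡ s.b j0 [MOD s.M])).filter
    (fun P : ℕ => lp (P : ℤ) * v X P / P ≠ 0) with hA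
  -- the properties of the elements of A
  have hAP : ∀ P ∈ A, P.Prime ∧ s.b j0 + s.M * ((P - s.b j0) / s.M) = P ∧
      (P - s.b j0) / s.M ∈ Icc 1 T ∧ ∀ i, ¬ s.pr i ∣ P := by
    intro P hP
    rw [hA, Finset.mem_filter, Finset.mem_filter, Finset.mem_Icc] at hP
    obtain ⟨⟨⟨hP1, hP2⟩, hmod⟩, hw⟩ := hP
    obtain ⟨hprime, hlarge⟩ := large_of_weight X P hw
    have hlt : s.b j0 + s.M < P := by
      have : ((s.b j0 + s.M : ℕ) : ℝ) < P := by linarith
      exact_mod_cast this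
    have hdvd : s.M ∣ P - s.b j0 := (Nat.modEq_iff_dvd' (by omega)).1 hmod.symm
    have heq : s.M * ((P - s.b j0) / s.M) = P - s.b j0 := Nat.mul_div_cancel' hdvd
    refine ⟨hprime, by omega, ?_, ?_⟩
    · rw [Finset.mem_Icc]
      constructor
      · rw [Nat.one_le_div_iff hM]
        omega
      · apply Nat.div_le_of_le_mul
        omega
    · intro i h3
      have h4 : s.pr i = P := (Nat.prime_dvd_prime_iff_eq (s.prime i) hprime).1 h3
      have h6 := hpr i
      rw [h4] at h6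
      linarith
  have hsum : ∀ P ∈ A, (Lx s j0 (cp j0 c) P) ^ 2 =
      (∑ κ, c κ * s.U κ ((P - s.b j0) / s.M)) ^ 2 := by
    intro P hP
    obtain ⟨-, heq, -, hnd⟩ := hAP P hP
    rw [sum_eq_of_not_dvd s c j0 _ (by rw [heq]; exact hnd)]
    congr 1
    unfold Lx
    refine Finset.sum_congr rfl fun κ _ => ?_
    rw [U_eq_ut s j0, heq]
  calc C * ∑ P ∈ (Icc 1 (60 * X)).filter (fun P => P ≡ s.b j0 [MOD s.M]),
        lp (P : ℤ) * v X P / P * (Lx s j0 (cp j0 c) P) ^ 2
      = ∑ P ∈ A, C * (lp (P : ℤ) * v X P / P) * (Lx s j0 (cp j0 c) P) ^ 2 := by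
        have h1 : ∑ P ∈ A, C * (lp (P : ℤ) * v X P / P) * (Lx s j0 (cp j0 c) P) ^ 2 =
            ∑ P ∈ (Icc 1 (60 * X)).filter (fun P => P ≡ s.b j0 [MOD s.M]),
              C * (lp (P : ℤ) * v X P / P) * (Lx s j0 (cp j0 c) P) ^ 2 := by
          rw [hA]
          refine Finset.sum_filter_of_ne fun P _ hne h0 => hne ?_
          rw [h0]
          ring
        rw [h1, Finset.mul_sum]
        refine Finset.sum_congr rfl fun P _ => ?_
        ring
    _ ≤ ∑ P ∈ A, (∑ κ, c κ * s.U κ ((P - s.b j0) / s.M)) ^ 2 := by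
        refine Finset.sum_le_sum fun P hP => ?_
        rw [← hsum P hP]
        have h1 : C * (lp (P : ℤ) * v X P / P) ≤ 1 := by
          have hPm : P ∈ Icc 1 (60 * X) := by
            rw [hA, Finset.mem_filter, Finset.mem_filter] at hP
            exact hP.1.1
          have h2 := (weight_le X P hX hPm).2
          calc C * (lp (P : ℤ) * v X P / P)
              ≤ C * (8 * Real.log ((60 * X : ℕ) : ℝ) / X) := mul_le_mul_of_nonneg_left h2 hC0.le
            _ = 1 := by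
                rw [hC]
                field_simp
        exact mul_le_of_le_one_left (sq_nonneg _) h1
    _ = ∑ t ∈ A.image (fun P => (P - s.b j0) / s.M), (∑ κ, c κ * s.U κ t) ^ 2 := by
        rw [Finset.sum_image]
        intro P hP P' hP' h
        have h1 := (hAP P hP).2.1
        have h2 := (hAP P' hP').2.1
        simp only at h
        rw [h] at h1
        exact h1.symm.trans h2
    _ ≤ _ := by
        refine Finset.sum_le_sum_of_subset_of_nonneg ?_ fun t _ _ => sq_nonneg _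
        intro t ht
        obtain ⟨P, hP, rfl⟩ := Finset.mem_image.1 ht
        obtain ⟨h1, h2, h3, -⟩ := hAP P hP
        rw [Finset.mem_filter]
        exact ⟨h3, by rw [h2]; exact h1⟩

end Pool.Agent.Lib.H5C
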