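import Pool.Agent.Lib.H5C.TH1

/-!
# Chunk TH2: sums of the squares of the coefficients; one form
-/

open Finset
open Pool.Agent.Lib.H56G

namespace Pool.Agent.Lib.H5C

variable {ι J : Type} [Fintype ι] [DecidableEq ι] [Fintype J] [DecidableEq J]

theorem th2_ph_nonneg (s : Sys ι J) (κ : ι → Option J) : 0 ≤ s.ph κ :=
  zero_le_one.trans (one_le_phi s (supp κ))

theorem th2_cp_eq (s : Sys ι J) (bb : Finset ι → ℝ) (D : ℝ) (j0 : J) (κ : ι → Option J)
    (hκ : κ ∈ noJ j0) : cp j0 (cc s bb D) κ = cc s bb D κ * br s bb D κ :=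
  cp_cc s bb D j0 κ hκ

/-- `cp_cc`, `br_le` for `r κ z ≤ D` and `br ≤ 1` otherwise (as `sum_cp_sq_le`), `tail_le`
(`r κ z > D` implies `r κ z² > D`). -/
theorem sum_cp_sq_theta (s : Sys ι J) (z θ D τ ε : ℝ) (hθ : 0 ≤ θ) (hθ1 : θ ≤ 1) (hz : 1 < z)
    (hS : 0 < SS s z) (hτ0 : 0 ≤ τ)
    (hτ : ∀ κ : ι → Option J, s.r κ ≤ D →
      ∑ i ∈ supp κ, ∑ A ∈ univ.filter (fun A : Finset ι => i ∈ A), tb s z θ A ≤ τ)
    (hε : ∑ κ ∈ univ.filter (fun κ : ι → Option J => D < s.r κ * z ^ 2), wt s (tb s z θ) κ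
      ≤ ε * ZZ s (tb s z θ)) (j0 : J) :
    ∑ κ ∈ noJ j0, (cp j0 (cc s (tb s z θ) D) κ) ^ 2 * s.ph κ
      ≤ (((1 - θ) + τ) ^ 2 + ε) * ZZ s (tb s z θ) := by
  have hterm : ∀ κ ∈ noJ j0, (cp j0 (cc s (tb s z θ) D) κ) ^ 2 * s.ph κ ≤
      ((1 - θ) + τ) ^ 2 * wt s (tb s z θ) κ +
        if D < s.r κ * z ^ 2 then wt s (tb s z θ) κ else 0 := by
    intro κ hκ
    have hw := wt_nonneg s (tb s z θ) κ
    have h4 : 0 ≤ ((1 - θ) + τ) ^ 2 * wt s (tb s z θ) κ := by positivity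
    have h1 := (cp_bounds s z θ hθ hθ1 hS D j0 κ hκ).2
    have hr1 : 1 ≤ s.r κ := one_le_rho s (supp κ)
    rcases lt_or_ge D (s.r κ) with hr | hr
    · have h2 : cc s (tb s z θ) D κ = 0 := by
        unfold cc
        rw [if_neg (not_le.2 hr)]
      rw [h2, abs_zero] at h1
      have h3 : cp j0 (cc s (tb s z θ) D) κ = 0 := abs_eq_zero.1 (le_antisymm h1 (abs_nonneg _))
      rw [h3]
      have h5 : 0 ≤ (if D < s.r κ * z ^ 2 then wt s (tb s z θ) κ else 0) := by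
        split_ifs
        · exact hw
        · exact le_rfl
      simp only [ne_eq, OfNat.ofNat_ne_zero, not_false_eq_true, zero_pow, zero_mul]
      linarith
    · have h5 := cc_sq_mul_ph s (tb s z θ) D κ hr
      rcases lt_or_ge D (s.r κ * z ^ 2) with hz2 | hz2
      · rw [if_pos hz2]
        have h6 : (cp j0 (cc s (tb s z θ) D) κ) ^ 2 ≤ (cc s (tb s z θ) D κ) ^ 2 := sq_le_sq.2 h1
        have h7 := mul_le_mul_of_nonneg_right h6 (th2_ph_nonneg s κ)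
        rw [h5] at h7
        linarith
      · rw [if_neg (not_lt.2 hz2), add_zero]
        have hrz : s.r κ * z ≤ D := by
          refine le_trans ?_ hz2
          have : z ≤ z ^ 2 := by nlinarith
          exact mul_le_mul_of_nonneg_left this (by linarith)
        have hb1 := (br_bounds s z θ hθ hS D κ).1
        have hb2 : br s (tb s z θ) D κ ≤ (1 - θ) + τ := by
          have := br_le s z θ hθ hS D κ hrz
          have := hτ κ hr
          linarith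
        have hb3 : 0 ≤ br s (tb s z θ) D κ := by linarith
        rw [th2_cp_eq s (tb s z θ) D j0 κ hκ, mul_pow]
        calc (cc s (tb s z θ) D κ) ^ 2 * (br s (tb s z θ) D κ) ^ 2 * s.ph κ
            = (br s (tb s z θ) D κ) ^ 2 * ((cc s (tb s z θ) D κ) ^ 2 * s.ph κ) := by ring
          _ = (br s (tb s z θ) D κ) ^ 2 * wt s (tb s z θ) κ := by rw [h5]
          _ ≤ ((1 - θ) + τ) ^ 2 * wt s (tb s z θ) κ :=
              mul_le_mul_of_nonneg_right (pow_le_pow_left₀ hb3 hb2 2) hw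
  have hnn : ∀ κ : ι → Option J, 0 ≤ ((1 - θ) + τ) ^ 2 * wt s (tb s z θ) κ +
        if D < s.r κ * z ^ 2 then wt s (tb s z θ) κ else 0 := by
    intro κ
    have hw := wt_nonneg s (tb s z θ) κ
    have h4 : 0 ≤ ((1 - θ) + τ) ^ 2 * wt s (tb s z θ) κ := by positivity
    split_ifs
    · linarith
    · linarith
  calc ∑ κ ∈ noJ j0, (cp j0 (cc s (tb s z θ) D) κ) ^ 2 * s.ph κ
      ≤ ∑ κ ∈ noJ j0, (((1 - θ) + τ) ^ 2 * wt s (tb s z θ) κ +
        if D < s.r κ * z ^ 2 then wt s (tb s z θ) κ else 0) := Finset.sum_le_sum hterm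
    _ ≤ ∑ κ, (((1 - θ) + τ) ^ 2 * wt s (tb s z θ) κ +
        if D < s.r κ * z ^ 2 then wt s (tb s z θ) κ else 0) :=
        Finset.sum_le_sum_of_subset_of_nonneg (Finset.subset_univ _) fun κ _ _ => hnn κ
    _ = ((1 - θ) + τ) ^ 2 * ZZ s (tb s z θ) +
        ∑ κ ∈ univ.filter (fun κ : ι → Option J => D < s.r κ * z ^ 2), wt s (tb s z θ) κ := by
        rw [Finset.sum_add_distrib, ← Finset.mul_sum, Finset.sum_filter]
        rfl
    _ ≤ _ := by
        rw [add_mul]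
        linarith

theorem th2_wt_ins (s : Sys ι J) (bb : Finset ι → ℝ) (j0 : J) (κ : ι → Option J)
    (hκ : κ ∈ noJ j0) (A : Finset ι) (hA : A ⊆ free κ) :
    wt s bb (ins κ j0 A) = vv s bb A * wt s bb κ := by
  unfold wt
  rw [← mul_prod_erase univ _ (mem_univ j0), ← mul_prod_erase univ (fun j => vv s bb (part κ j))
    (mem_univ j0), part_ins_same κ j0 hκ A hA, part_noJ κ j0 hκ, cher2_vv_empty, one_mul]
  congr 1
  refine prod_congr rfl fun j hj => ?_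
  rw [part_ins_other κ j0 j (ne_of_mem_erase hj) A hA]

/-- `∑_{κ ∈ noJ j0} wt κ ≥ ZZ/(1 + ∑_{A ≠ ∅} vv A)` (`sum_off`, `wt (ins κ j0 A) = wt κ vv A`). -/
theorem sum_noJ_wt (s : Sys ι J) (bb : Finset ι → ℝ) (j0 : J) :
    ZZ s bb ≤ (1 + ∑ A ∈ univ.filter (fun A : Finset ι => A ≠ ∅), vv s bb A) *
      ∑ κ ∈ noJ j0, wt s bb κ := by
  unfold ZZ
  rw [sum_off j0, mul_sum]
  refine sum_le_sum fun κ hκ => ?_
  have h1 : ∑ A ∈ (free κ).powerset, wt s bb (ins κ j0 A) =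
      (∑ A ∈ (free κ).powerset, vv s bb A) * wt s bb κ := by
    rw [sum_mul]
    exact sum_congr rfl fun A hA => th2_wt_ins s bb j0 κ hκ A (mem_powerset.mp hA)
  rw [h1]
  refine mul_le_mul_of_nonneg_right ?_ (wt_nonneg s bb κ)
  have h2 : ∑ A ∈ (free κ).powerset, vv s bb A ≤ ∑ A : Finset ι, vv s bb A :=
    sum_le_sum_of_subset_of_nonneg (subset_univ _) fun A _ _ => cher2_vv_nonneg s bb A
  have h3 : ∑ A : Finset ι, vv s bb A =
      1 + ∑ A ∈ univ.filter (fun A : Finset ι => A ≠ ∅), vv s bb A := by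
    have h4 := Finset.sum_filter_add_sum_filter_not (univ : Finset (Finset ι))
      (fun A : Finset ι => A = ∅) (fun A => vv s bb A)
    rw [← h4, Finset.filter_eq' univ (∅ : Finset ι), if_pos (mem_univ _), sum_singleton,
      cher2_vv_empty]
  linarith

/-- `|cp| ≥ (1 - θ) |cc|` (`cp_bounds`), `cc² ph = wt` for `r κ ≤ D`, `sum_noJ_wt`, `vv_sum_le`. -/
theorem le_sum_cp_sq_theta (s : Sys ι J) (W : ℕ) (hW : 2 ≤ W) (hpr : ∀ i, W < s.pr i)
    (z θ D ε : ℝ) (hθ : 0 ≤ θ) (hθ1 : θ ≤ 1) (hz : 1 < z) (hS : 0 < SS s z)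
    (hSW : 1 / (SS s z * Real.log W) ≤ 1 / 4) (hε1 : ε ≤ 1 / 4)
    (hε : ∑ κ ∈ univ.filter (fun κ : ι → Option J => D < s.r κ * z ^ 2), wt s (tb s z θ) κ
      ≤ ε * ZZ s (tb s z θ)) (j0 : J) :
    (1 - θ) ^ 2 / 2 * ZZ s (tb s z θ) ≤
      ∑ κ ∈ noJ j0, (cp j0 (cc s (tb s z θ) D) κ) ^ 2 * s.ph κ := by
  have hZ1 : 1 ≤ ZZ s (tb s z θ) := one_le_ZZ s (tb s z θ)
  have hvv := vv_sum_le s W hW hpr z θ hθ hθ1 hS
  have hno := sum_noJ_wt s (tb s z θ) j0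
  have hN0 : 0 ≤ ∑ κ ∈ noJ j0, wt s (tb s z θ) κ :=
    sum_nonneg fun κ _ => wt_nonneg s (tb s z θ) κ
  have hterm : ∀ κ ∈ noJ j0, (1 - θ) ^ 2 * (wt s (tb s z θ) κ -
      if D < s.r κ * z ^ 2 then wt s (tb s z θ) κ else 0) ≤
      (cp j0 (cc s (tb s z θ) D) κ) ^ 2 * s.ph κ := by
    intro κ hκ
    have hw := wt_nonneg s (tb s z θ) κ
    split_ifs with h
    · rw [sub_self, mul_zero]
      exact mul_nonneg (sq_nonneg _) (th2_ph_nonneg s κ)
    · rw [sub_zero]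
      have hr1 : 1 ≤ s.r κ := one_le_rho s (supp κ)
      have hr : s.r κ ≤ D := by
        refine le_trans ?_ (not_lt.mp h)
        have : 1 ≤ z ^ 2 := by nlinarith
        exact le_mul_of_one_le_right (by linarith) this
      rw [← cc_sq_mul_ph s (tb s z θ) D κ hr, ← mul_assoc]
      refine mul_le_mul_of_nonneg_right ?_ (th2_ph_nonneg s κ)
      have h1 := (cp_bounds s z θ hθ hθ1 hS D j0 κ hκ).1
      have h2 : 0 ≤ 1 - θ := by linarith
      have h3 : |(1 - θ) * cc s (tb s z θ) D κ| ≤ |cp j0 (cc s (tb s z θ) D) κ| := by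
        rw [abs_mul, abs_of_nonneg h2]
        exact h1
      have h4 := sq_le_sq.2 h3
      rwa [mul_pow] at h4
  have hsum := Finset.sum_le_sum hterm
  rw [← Finset.mul_sum, Finset.sum_sub_distrib] at hsum
  have htail : ∑ κ ∈ noJ j0, (if D < s.r κ * z ^ 2 then wt s (tb s z θ) κ else 0) ≤
      ε * ZZ s (tb s z θ) := by
    refine le_trans ?_ hε
    rw [Finset.sum_filter]
    refine Finset.sum_le_sum_of_subset_of_nonneg (Finset.subset_univ _) fun κ _ _ => ?_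
    split_ifs
    · exact wt_nonneg s (tb s z θ) κ
    · exact le_rfl
  have hno2 : ZZ s (tb s z θ) ≤ (5 / 4) * ∑ κ ∈ noJ j0, wt s (tb s z θ) κ := by
    refine hno.trans (mul_le_mul_of_nonneg_right ?_ hN0)
    linarith
  refine le_trans ?_ hsum
  have h5 : ZZ s (tb s z θ) / 2 ≤ ∑ κ ∈ noJ j0, wt s (tb s z θ) κ -
      ∑ κ ∈ noJ j0, (if D < s.r κ * z ^ 2 then wt s (tb s z θ) κ else 0) := by
    have h6 : ε * ZZ s (tb s z θ) ≤ 1 / 4 * ZZ s (tb s z θ) :=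
      mul_le_mul_of_nonneg_right hε1 (by linarith)
    linarith
  calc (1 - θ) ^ 2 / 2 * ZZ s (tb s z θ) = (1 - θ) ^ 2 * (ZZ s (tb s z θ) / 2) := by ring
    _ ≤ _ := mul_le_mul_of_nonneg_left h5 (sq_nonneg _)

end Pool.Agent.Lib.H5C
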