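import Pool.Agent.Lib.H5C.Defs
import Pool.Agent.Lib.H5C.MV

/-!
# Chunk AN1: there are few bad characters
-/

open Finset MeasureTheory
open Pool.Agent.Lib.H68T

namespace Pool.Agent.Lib.H5C

theorem an1_term (a : ℕ) (ha : 1 ≤ a) (t s : ℝ) :
    ‖(a : ℂ) ^ (-(1 + t * Complex.I)) - (a : ℂ) ^ (-(1 + s * Complex.I))‖ ≤
      Real.log a * (a : ℝ)⁻¹ * |t - s| := by
  have ha0 : (a : ℂ) ≠ 0 := by
    have : a ≠ 0 := by omega
    exact_mod_cast this
  have har : (1 : ℝ) ≤ a := by exact_mod_cast ha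
  have hlog : 0 ≤ Real.log a := Real.log_nonneg har
  have e1 : (a : ℂ) ^ (-(1 + t * Complex.I)) = (a : ℂ) ^ (-(1 + s * Complex.I)) *
      Complex.exp (Complex.I * ((-((t - s) * Real.log a) : ℝ) : ℂ)) := by
    rw [Complex.cpow_def_of_ne_zero ha0, Complex.cpow_def_of_ne_zero ha0, ← Complex.exp_add]
    congr 1
    have h2 : Complex.log (a : ℂ) = ((Real.log a : ℝ) : ℂ) := by
      rw [Complex.natCast_log]
    rw [h2]
    push_cast
    ring
  have e2 : (a : ℂ) ^ (-(1 + t * Complex.I)) - (a : ℂ) ^ (-(1 + s * Complex.I)) =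
      (a : ℂ) ^ (-(1 + s * Complex.I)) *
        (Complex.exp (Complex.I * ((-((t - s) * Real.log a) : ℝ) : ℂ)) - 1) := by
    rw [e1]
    ring
  rw [e2, norm_mul, MAINI_norm_cpow ha]
  have h3 : ‖Complex.exp (Complex.I * ((-((t - s) * Real.log a) : ℝ) : ℂ)) - 1‖ ≤
      |t - s| * Real.log a := by
    refine (Real.norm_exp_I_mul_ofReal_sub_one_le (x := -((t - s) * Real.log a))).trans ?_
    rw [norm_neg, norm_mul, Real.norm_eq_abs, Real.norm_eq_abs, abs_of_nonneg hlog]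
  calc (a : ℝ)⁻¹ * ‖Complex.exp (Complex.I * ((-((t - s) * Real.log a) : ℝ) : ℂ)) - 1‖
      ≤ (a : ℝ)⁻¹ * (|t - s| * Real.log a) := mul_le_mul_of_nonneg_left h3 (by positivity)
    _ = _ := by ring

theorem an1_lip (X : ℕ) (p : PCh) (t s : ℝ) (hX : 1 ≤ X) :
    ‖Mu X p t - Mu X p s‖ ≤ Real.log (VV X) * (1 + Real.log (VV X)) * |t - s| := by
  have hX' : (1 : ℝ) ≤ X := by exact_mod_cast hX
  have hAA : 1 ≤ AA X := by
    unfold AA
    rw [Nat.one_le_ceil_iff]
    positivity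
  unfold Mu
  rw [← Finset.sum_sub_distrib]
  calc ‖∑ a ∈ Icc (AA X) (VV X), ((ArithmeticFunction.moebius a : ℂ) * p.2 (a : ZMod p.1) *
        (a : ℂ) ^ (-(1 + t * Complex.I)) - (ArithmeticFunction.moebius a : ℂ) *
        p.2 (a : ZMod p.1) * (a : ℂ) ^ (-(1 + s * Complex.I)))‖
      ≤ ∑ a ∈ Icc (AA X) (VV X), Real.log (VV X) * (a : ℝ)⁻¹ * |t - s| := by
        refine (norm_sum_le _ _).trans (Finset.sum_le_sum fun a ha => ?_)
        have ha1 : 1 ≤ a := hAA.trans (mem_Icc.mp ha).1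
        have har : (1 : ℝ) ≤ a := by exact_mod_cast ha1
        rw [← mul_sub, norm_mul, norm_mul]
        have h1 : ‖(ArithmeticFunction.moebius a : ℂ)‖ ≤ 1 := by
          have h3 := ArithmeticFunction.abs_moebius_le_one (n := a)
          have h4 : ‖(ArithmeticFunction.moebius a : ℂ)‖ =
              ((|ArithmeticFunction.moebius a| : ℤ) : ℝ) := by
            rw [Complex.norm_intCast, Int.cast_abs]
          rw [h4]
          exact_mod_cast h3
        have h2 : ‖p.2 (a : ZMod p.1)‖ ≤ 1 := p.2.norm_le_one _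
        have h4 : ‖(ArithmeticFunction.moebius a : ℂ)‖ * ‖p.2 (a : ZMod p.1)‖ ≤ 1 * 1 :=
          mul_le_mul h1 h2 (norm_nonneg _) zero_le_one
        rw [mul_one] at h4
        have h5 : Real.log a ≤ Real.log (VV X) :=
          Real.log_le_log (by linarith) (by exact_mod_cast (mem_Icc.mp ha).2)
        calc _ ≤ 1 * (Real.log a * (a : ℝ)⁻¹ * |t - s|) :=
              mul_le_mul h4 (an1_term a ha1 t s) (norm_nonneg _) zero_le_one
          _ = Real.log a * ((a : ℝ)⁻¹ * |t - s|) := by ring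
          _ ≤ Real.log (VV X) * ((a : ℝ)⁻¹ * |t - s|) :=
              mul_le_mul_of_nonneg_right h5 (by positivity)
          _ = _ := by ring
    _ = Real.log (VV X) * |t - s| * ∑ a ∈ Icc (AA X) (VV X), (a : ℝ)⁻¹ := by
        rw [Finset.mul_sum]
        refine Finset.sum_congr rfl fun a _ => by ring
    _ ≤ Real.log (VV X) * |t - s| * (1 + Real.log (VV X)) := by
        refine mul_le_mul_of_nonneg_left ?_ (by
          have : 0 ≤ Real.log (VV X : ℝ) := Real.log_natCast_nonneg _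
          positivity)
        refine le_trans ?_ (MAINI_harm (VV X))
        refine Finset.sum_le_sum_of_subset_of_nonneg (Finset.Icc_subset_Icc_left hAA) ?_
        intro a _ _
        positivity
    _ = _ := by ring

/-- Lower bound of the integral around a large value. -/
theorem an1_int (f : ℝ → ℂ) (hf : Continuous f) (L T t0 : ℝ) (hL : 1 ≤ L)
    (hlip : ∀ t s, ‖f t - f s‖ ≤ L ^ 2 * |t - s|) (ht0 : |t0| ≤ L ^ 10) (hT : L ^ 10 + 1 ≤ T)
    (h0 : (L ^ 10)⁻¹ < ‖f t0‖) :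
    (L ^ 32)⁻¹ / 4 ≤ ∫ t in (-T)..T, ‖f t‖ ^ 2 := by
  have hL0 : 0 < L := by linarith
  set h : ℝ := (L ^ 12)⁻¹ / 2 with hh
  have hh0 : 0 < h := by positivity
  have hh1 : h ≤ 1 := by
    have : (L ^ 12)⁻¹ ≤ 1 := inv_le_one_of_one_le₀ (one_le_pow₀ hL)
    rw [hh]; linarith
  obtain ⟨h1, h2⟩ := abs_le.mp ht0
  have hc : Continuous (fun t => ‖f t‖ ^ 2) := (hf.norm).pow 2
  have hmono : ∫ t in (t0 - h)..(t0 + h), ‖f t‖ ^ 2 ≤ ∫ t in (-T)..T, ‖f t‖ ^ 2 := by
    refine intervalIntegral.integral_mono_interval (by linarith) (by linarith) (by linarith) ?_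
      (hc.intervalIntegrable _ _)
    filter_upwards with t
    simp only [Pi.zero_apply]
    positivity
  refine le_trans ?_ hmono
  have hlow : ∀ t ∈ Set.Icc (t0 - h) (t0 + h), ((L ^ 10)⁻¹ / 2) ^ 2 ≤ ‖f t‖ ^ 2 := by
    intro t ht
    have h3 : |t0 - t| ≤ h := by
      rw [abs_le]
      constructor <;> linarith [ht.1, ht.2]
    have h4 := hlip t0 t
    have h5 : L ^ 2 * |t0 - t| ≤ (L ^ 10)⁻¹ / 2 := by
      calc L ^ 2 * |t0 - t| ≤ L ^ 2 * h := mul_le_mul_of_nonneg_left h3 (by positivity)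
        _ = (L ^ 10)⁻¹ / 2 := by
          rw [hh]
          field_simp
    have h6 : ‖f t0‖ ≤ ‖f t0 - f t‖ + ‖f t‖ := by
      have := norm_add_le (f t0 - f t) (f t)
      rwa [sub_add_cancel] at this
    exact pow_le_pow_left₀ (by positivity) (by linarith) 2
  calc (L ^ 32)⁻¹ / 4 = ∫ _t in (t0 - h)..(t0 + h), ((L ^ 10)⁻¹ / 2) ^ 2 := by
        rw [intervalIntegral.integral_const, smul_eq_mul, hh]
        field_simp
        ring
    _ ≤ _ := by
        refine intervalIntegral.integral_mono_on (by linarith)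
          (continuous_const.intervalIntegrable _ _) (hc.intervalIntegrable _ _) hlow

/-- `card (Bad Q X) ≤ (log X)^40`. Proof, `L = log X`. `Mu X p` is Lipschitz with constant
`∑_{a ≤ VV X} (log a)/a ≤ L^2` (`VV X ≤ (60 X)^(1/3)`). If `‖Mu X p t0‖ > L^(-10)`, `|t0| ≤ L^10`, then
`‖Mu X p t‖ ≥ L^(-10)/2` for `|t - t0| ≤ L^(-12)/2`, an interval inside `[-Q^11, Q^11]`, so
`∫_{-Q^11}^{Q^11} ‖Mu X p t‖² dt ≥ L^(-32)/4`. By `mean_valueP` the number of such `p` is
`≤ 400 L^35 ≤ L^40`. -/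
theorem bad_card : ∃ K : ℝ, 1 ≤ K ∧ ∀ Q X : ℕ, RegP K Q X →
    ((Bad Q X).card : ℝ) ≤ (Real.log X) ^ 40 := by
  classical
  obtain ⟨K1, hK1⟩ := mean_valueP
  obtain ⟨K2, hK21, hK2⟩ := regp_log_le 2 10 11 (by norm_num)
  refine ⟨|K1| + K2 + 100, by have := abs_nonneg K1; linarith, fun Q X hR => ?_⟩
  have hab := abs_nonneg K1
  have hab' := le_abs_self K1
  have hR1 : RegP K1 Q X := hR.mono (by linarith) (by linarith)
  have hR2 : RegP K2 Q X := hR.mono (by linarith) (by linarith)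
  have hR3 : RegP 100 Q X := hR.mono (by linarith) (by linarith)
  have hmv := hK1 Q X hR1
  have hX1 : 1 ≤ X := hR3.X_pos (by norm_num)
  have hX0 : (0 : ℝ) < X := by exact_mod_cast hX1
  have hXr : (100 : ℝ) ≤ X := hR3.X_ge (by norm_num)
  set L := Real.log X with hL
  have hL100 : 100 ≤ L := by
    have h1 := hR3.logX_ge (by norm_num)
    have := Real.add_one_le_exp (100 : ℝ)
    linarith
  have hL1 : 1 ≤ L := by linarith
  have hL0 : 0 < L := by linarith
  have hlogV : Real.log (VV X) ≤ L / 2 := by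
    rcases Nat.eq_zero_or_pos (VV X) with h0 | h0
    · rw [h0]
      simp
      linarith
    have hV1 : (1 : ℝ) ≤ (VV X : ℝ) := by exact_mod_cast h0
    have h2 : (VV X : ℝ) ≤ ((60 * X : ℕ) : ℝ) ^ ((1 : ℝ) / 3) := Nat.floor_le (by positivity)
    have h3 : Real.log (VV X) ≤ (1 / 3) * Real.log ((60 * X : ℕ) : ℝ) := by
      rw [← Real.log_rpow (by positivity)]
      exact Real.log_le_log (by linarith) h2
    have h4 : Real.log ((60 * X : ℕ) : ℝ) = Real.log 60 + L := by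
      push_cast
      rw [Real.log_mul (by norm_num) (by positivity)]
    have h5 : Real.log 60 ≤ 50 := by
      rw [Real.log_le_iff_le_exp (by norm_num)]
      have := Real.add_one_le_exp (50 : ℝ)
      have h6 : Real.exp 50 = Real.exp 25 * Real.exp 25 := by rw [← Real.exp_add]; norm_num
      have h7 := Real.add_one_le_exp (25 : ℝ)
      rw [h6]
      have h8 := mul_le_mul h7 h7 (by norm_num) (by positivity)
      linarith
    rw [h4] at h3
    linarith
  have hlogV0 : 0 ≤ Real.log (VV X : ℝ) := Real.log_natCast_nonneg _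
  have hlipc : Real.log (VV X) * (1 + Real.log (VV X)) ≤ L ^ 2 := by
    calc Real.log (VV X) * (1 + Real.log (VV X)) ≤ L * L :=
          mul_le_mul (by linarith) (by linarith) (by linarith) (by linarith)
      _ = L ^ 2 := by ring
  have hQT : L ^ 10 + 1 ≤ (Q : ℝ) ^ 11 := by
    have h1 := hK2 Q X hR2
    have h2 : (Q : ℝ) ^ (11 : ℝ) = (Q : ℝ) ^ 11 := by rw [← Real.rpow_natCast]; norm_num
    have h3 : L ^ (10 : ℝ) = L ^ 10 := by rw [← Real.rpow_natCast]; norm_num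
    rw [h2, h3] at h1
    have h4 : 1 ≤ L ^ 10 := one_le_pow₀ hL1
    linarith
  have hsub : Bad Q X ⊆ PC Q := by
    intro p hp
    unfold Bad PC1 at hp
    rw [mem_filter, mem_filter] at hp
    exact hp.1.1
  have hbad : ∀ p ∈ Bad Q X, (L ^ 32)⁻¹ / 4 ≤
      ∫ t in (-(Q : ℝ) ^ 11)..((Q : ℝ) ^ 11), ‖Mu X p t‖ ^ 2 := by
    intro p hp
    unfold Bad at hp
    rw [mem_filter] at hp
    obtain ⟨-, t0, ht0, h0⟩ := hp
    refine an1_int (Mu X p) (continuous_Mu X p) L _ t0 hL1 ?_ ht0 hQT h0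
    intro t s
    exact (an1_lip X p t s hX1).trans (mul_le_mul_of_nonneg_right hlipc (abs_nonneg _))
  have hnn : ∀ p ∈ PC Q, 0 ≤ ∫ t in (-(Q : ℝ) ^ 11)..((Q : ℝ) ^ 11), ‖Mu X p t‖ ^ 2 := by
    intro p _
    refine intervalIntegral.integral_nonneg ?_ (fun t _ => by positivity)
    have : (0 : ℝ) ≤ (Q : ℝ) ^ 11 := by positivity
    linarith
  have hsum : ((Bad Q X).card : ℝ) * ((L ^ 32)⁻¹ / 4) ≤ 100 * L ^ (3 : ℝ) := by
    calc ((Bad Q X).card : ℝ) * ((L ^ 32)⁻¹ / 4) = ∑ _p ∈ Bad Q X, (L ^ 32)⁻¹ / 4 := by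
          rw [Finset.sum_const, nsmul_eq_mul]
      _ ≤ ∑ p ∈ Bad Q X, ∫ t in (-(Q : ℝ) ^ 11)..((Q : ℝ) ^ 11), ‖Mu X p t‖ ^ 2 :=
          Finset.sum_le_sum hbad
      _ ≤ ∑ p ∈ PC Q, ∫ t in (-(Q : ℝ) ^ 11)..((Q : ℝ) ^ 11), ‖Mu X p t‖ ^ 2 :=
          Finset.sum_le_sum_of_subset_of_nonneg hsub fun p hp _ => hnn p hp
      _ ≤ _ := hmv
  have h3 : L ^ (3 : ℝ) = L ^ 3 := by rw [← Real.rpow_natCast]; norm_num
  rw [h3] at hsum
  have e1 : ((Bad Q X).card : ℝ) = ((Bad Q X).card : ℝ) * ((L ^ 32)⁻¹ / 4) * (4 * L ^ 32) := by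
    field_simp
  rw [e1]
  calc ((Bad Q X).card : ℝ) * ((L ^ 32)⁻¹ / 4) * (4 * L ^ 32) ≤ 100 * L ^ 3 * (4 * L ^ 32) :=
        mul_le_mul_of_nonneg_right hsum (by positivity)
    _ = 400 * L ^ 35 := by ring
    _ ≤ L ^ 5 * L ^ 35 := by
        apply mul_le_mul_of_nonneg_right _ (by positivity)
        calc (400 : ℝ) ≤ 100 ^ 5 := by norm_num
          _ ≤ L ^ 5 := pow_le_pow_left₀ (by norm_num) hL100 5
    _ = L ^ 40 := by ring

end Pool.Agent.Lib.H5C
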