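import Pool.Agent.Lib.H56G.Main0
import Pool.Agent.Lib.Sieve.Fundamental
import Pool.Agent.Lib.Sieve.Averages
import Pool.Agent.Lib.Sieve.Gap

/-!
# Chunk BT: primes in short intervals (Brun-Titchmarsh with some constant)
-/

open Finset Real
open Pool.Agent.Lib.H56G

namespace Pool.Agent.Lib.H5C

section

open Pool.Agent.Lib.Sieve

/-- the product over the primes in `(4, z]` -/
theorem bt_prod (z : ℕ) (hz : 2 ≤ z) :
    ∏ p ∈ sprimes 4 z, (1 - 1 / (p : ℝ)) ≤ 3 / log z := by
  have h1 := prod_one_sub_inv_le z hz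
  have h2 := Finset.prod_filter_mul_prod_filter_not (primesUpTo z) (fun p => 4 < p)
    (fun p : ℕ => (1 - 1 / (p : ℝ)))
  have h3 : (primesUpTo z).filter (fun p => 4 < p) = sprimes 4 z := rfl
  rw [h3] at h2
  have h4 : (1 : ℝ) / 3 ≤ ∏ p ∈ (primesUpTo z).filter (fun p => ¬ 4 < p), (1 - 1 / (p : ℝ)) := by
    by_cases hz3 : 3 ≤ z
    · have h5 : (primesUpTo z).filter (fun p => ¬ 4 < p) = {2, 3} := by
        ext p
        simp only [Finset.mem_filter, mem_primesUpTo, Finset.mem_insert, Finset.mem_singleton]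
        constructor
        · rintro ⟨⟨hp, -⟩, hp4⟩
          have hp4' : p ≤ 4 := not_lt.1 hp4
          have := hp.two_le
          interval_cases p
          · exact Or.inl rfl
          · exact Or.inr rfl
          · exact absurd hp (by norm_num)
        · rintro (rfl | rfl)
          · exact ⟨⟨Nat.prime_two, hz⟩, by norm_num⟩
          · exact ⟨⟨Nat.prime_three, hz3⟩, by norm_num⟩
      rw [h5, Finset.prod_pair (by norm_num)]
      norm_num
    · have h5 : (primesUpTo z).filter (fun p => ¬ 4 < p) = {2} := by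
        ext p
        simp only [Finset.mem_filter, mem_primesUpTo, Finset.mem_singleton]
        constructor
        · rintro ⟨⟨hp, hpz⟩, -⟩
          have := hp.two_le
          omega
        · rintro rfl
          exact ⟨⟨Nat.prime_two, hz⟩, by norm_num⟩
      rw [h5, Finset.prod_singleton]
      norm_num
  have h5 : 0 ≤ ∏ p ∈ sprimes 4 z, (1 - 1 / (p : ℝ)) := by
    refine Finset.prod_nonneg fun p hp => ?_
    have h6 : (1 : ℝ) ≤ p := by exact_mod_cast (mem_sprimes.1 hp).1.one_le
    rw [sub_nonneg, div_le_one (by linarith)]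
    exact h6
  have h6 : (∏ p ∈ sprimes 4 z, (1 - 1 / (p : ℝ))) * (1 / 3) ≤ 1 / log z :=
    (mul_le_mul_of_nonneg_left h4 h5).trans (h2.le.trans h1)
  have h7 : (3 : ℝ) / log z = 3 * (1 / log z) := by ring
  rw [h7]
  linarith

/-- the sieve bound -/
theorem bt_sieve (u h z : ℕ) (hz : 2 ≤ z) (hzh : z ^ 224 ≤ h) :
    (((Ioc u (u + h)).filter Nat.Prime).card : ℝ) ≤ z + 9 * (h / log z) := by
  classical
  set Ω : (p : ℕ) → Finset (ZMod p) := fun _ => {0} with hΩ
  have h1 := (fundamental_sum (k := 1) (z := z) (Ω := Ω) hz (fun p _ _ _ => by simp [hΩ])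
    ((u : ℤ) + 1) h (by simpa using hzh)).2
  have h2 : ∏ p ∈ sprimes (2 * 1 + 2) z, (1 - dens Ω p) =
      ∏ p ∈ sprimes 4 z, (1 - 1 / (p : ℝ)) := by
    refine Finset.prod_congr rfl fun p _ => ?_
    simp [Sieve.dens, hΩ]
  rw [h2] at h1
  simp_rw [prod_one_sub_chi] at h1
  rw [← Finset.sum_filter] at h1
  simp only [Finset.sum_const, nsmul_eq_mul, mul_one] at h1
  set A := (Finset.Ico ((u : ℤ) + 1) ((u : ℤ) + 1 + h)).filter
    (fun v => ∀ p ∈ sprimes 4 z, (v : ZMod p) ∉ Ω p) with hA
  have h3 : ((Ioc u (u + h)).filter Nat.Prime).card ≤ z + A.card := by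
    have h4 : (Ioc u (u + h)).filter Nat.Prime ⊆
        Finset.Icc 1 z ∪ ((Ioc u (u + h)).filter Nat.Prime).filter (fun n => z < n) := by
      intro n hn
      rw [Finset.mem_union, Finset.mem_Icc, Finset.mem_filter]
      by_cases hnz : z < n
      · exact Or.inr ⟨hn, hnz⟩
      · exact Or.inl ⟨(Finset.mem_filter.1 hn).2.one_le, not_lt.1 hnz⟩
    refine (Finset.card_le_card h4).trans ((Finset.card_union_le _ _).trans ?_)
    rw [Nat.card_Icc]
    have h5 : (((Ioc u (u + h)).filter Nat.Prime).filter (fun n => z < n)).card ≤ A.card := by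
      refine Finset.card_le_card_of_injOn (fun n : ℕ => (n : ℤ)) ?_ ?_
      · intro n hn
        simp only [Finset.coe_filter, Finset.mem_filter, Finset.mem_Ioc, Set.mem_ofPred_eq] at hn
        obtain ⟨⟨⟨hn1, hn2⟩, hn3⟩, hn4⟩ := hn
        simp only [hA, Finset.coe_filter, Finset.mem_Ico, Set.mem_ofPred_eq]
        refine ⟨⟨by omega, by omega⟩, fun p hp => ?_⟩
        have hp' := mem_sprimes.1 hp
        simp only [hΩ, Finset.mem_singleton]
        rw [Int.cast_natCast, ZMod.natCast_eq_zero_iff]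
        intro hd
        rcases (Nat.dvd_prime hn3).1 hd with h6 | h6
        · exact hp'.1.one_lt.ne' h6
        · omega
      · intro a _ b _ hab
        have hab' : (a : ℤ) = b := hab
        exact_mod_cast hab'
    omega
  have h4 : (((Ioc u (u + h)).filter Nat.Prime).card : ℝ) ≤ z + A.card := by exact_mod_cast h3
  have h5 := bt_prod z hz
  have h6 : (A.card : ℝ) ≤ 3 * h * (3 / log z) :=
    h1.trans (mul_le_mul_of_nonneg_left h5 (by positivity))
  have h7 : 3 * (h : ℝ) * (3 / log z) = 9 * (h / log z) := by ring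
  linarith

end

/-- Any proof. For example with the upper bound sieve of `Lib/Sieve`, or by `maj` of `H56G` for one
form: `J = Unit`, `c = 1` at the configuration `none`, for the forms `u + r + M' t`, `(r, M') = 1`,
`M' = primorial W`, `W = ⌊√(log h)⌋`, sieve primes in `(W, h^(1/100)]`, `V0 ≥ log N/(1000 log W)`
(`vlow`); sum over the `φ(M')` classes `r`, `φ(M')/M' ≤ 1/log W` (`Sieve.prod_one_sub_inv_le`). -/
theorem brun_titchmarsh : ∃ C : ℝ, 0 < C ∧ ∀ u h : ℕ, 2 ≤ h →
    (((Ioc u (u + h)).filter Nat.Prime).card : ℝ) ≤ C * (h / log h) := by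
  refine ⟨4480, by norm_num, fun u h hh => ?_⟩
  have hh' : (2 : ℝ) ≤ h := by exact_mod_cast hh
  have hlog : 0 < log h := Real.log_pos (by linarith)
  have hcard : (((Ioc u (u + h)).filter Nat.Prime).card : ℝ) ≤ h := by
    have h1 := Finset.card_filter_le (Ioc u (u + h)) Nat.Prime
    rw [Nat.card_Ioc] at h1
    have h2 : ((Ioc u (u + h)).filter Nat.Prime).card ≤ h := by omega
    exact_mod_cast h2
  have hq : 0 ≤ (h : ℝ) / log h := by positivity
  by_cases hs : h < 2 ^ 224
  · have h1 : log h ≤ 224 := by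
      have h2 : log h ≤ log ((2 : ℝ) ^ 224) :=
        Real.log_le_log (by linarith) (by exact_mod_cast hs.le)
      rw [Real.log_pow] at h2
      have h3 := Real.log_two_lt_d9
      push_cast at h2
      linarith
    have h2 : (h : ℝ) = log h * (h / log h) := by field_simp
    calc (((Ioc u (u + h)).filter Nat.Prime).card : ℝ) ≤ h := hcard
      _ = log h * (h / log h) := h2
      _ ≤ 4480 * (h / log h) := mul_le_mul_of_nonneg_right (by linarith) hq
  · obtain ⟨z, hz1, hz2⟩ : ∃ z : ℕ, z ^ 224 ≤ h ∧ h < (z + 1) ^ 224 := by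
      have hex : ∃ m : ℕ, h < (m + 1) ^ 224 :=
        ⟨h, (Nat.lt_succ_self h).trans_le (Nat.le_self_pow (by norm_num) _)⟩
      classical
      refine ⟨Nat.find hex, ?_, Nat.find_spec hex⟩
      rcases Nat.eq_zero_or_pos (Nat.find hex) with h0 | h0
      · rw [h0]
        simp
      · have h1 := Nat.find_min hex (m := Nat.find hex - 1) (by omega)
        rw [Nat.sub_add_cancel h0] at h1
        exact not_lt.1 h1
    have hz : 2 ≤ z := by
      by_contra hc
      have h1 : (z + 1) ^ 224 ≤ 2 ^ 224 := Nat.pow_le_pow_left (by omega) _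
      omega
    have hz' : (2 : ℝ) ≤ z := by exact_mod_cast hz
    have hlz : 0 < log z := Real.log_pos (by linarith)
    have h1 : log h ≤ 448 * log z := by
      have h2 : (h : ℝ) ≤ ((z : ℝ) ^ 2) ^ 224 := by
        have hb : z + 1 ≤ z ^ 2 := by
          rw [pow_two]
          calc z + 1 ≤ 2 * z := by omega
            _ ≤ z * z := Nat.mul_le_mul_right z hz
        have h3 : (z + 1) ^ 224 ≤ (z ^ 2) ^ 224 := Nat.pow_le_pow_left hb 224
        have h5 : (h : ℝ) ≤ (((z + 1) ^ 224 : ℕ) : ℝ) := Nat.cast_le.2 (le_of_lt hz2)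
        have h6 : (((z + 1) ^ 224 : ℕ) : ℝ) ≤ (((z ^ 2) ^ 224 : ℕ) : ℝ) := Nat.cast_le.2 h3
        have h7 := le_trans h5 h6
        rwa [Nat.cast_pow, Nat.cast_pow] at h7
      have h3 := Real.log_le_log (by linarith) h2
      rw [Real.log_pow, Real.log_pow] at h3
      push_cast at h3
      linarith
    have h2 := bt_sieve u h z hz hz1
    have h3 : (h : ℝ) / log z ≤ 448 * (h / log h) := by
      rw [div_le_iff₀ hlz]
      have h4 : 448 * ((h : ℝ) / log h) * log z = h / log h * (448 * log z) := by ring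
      rw [h4]
      calc (h : ℝ) = h / log h * log h := by field_simp
        _ ≤ h / log h * (448 * log z) := mul_le_mul_of_nonneg_left h1 hq
    have h4 : (z : ℝ) ≤ 448 * (h / log h) := by
      have h5 : (z : ℝ) * log h ≤ 448 * h := by
        have h6 : log z ≤ z := (Real.log_le_sub_one_of_pos (by linarith)).trans (by linarith)
        have h7 : (z : ℝ) ^ 2 ≤ h := by
          have h8 : z ^ 2 ≤ z ^ 224 := Nat.pow_le_pow_right (by omega) (by norm_num)
          have h9 : ((z ^ 2 : ℕ) : ℝ) ≤ h := Nat.cast_le.2 (h8.trans hz1)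
          rwa [Nat.cast_pow] at h9
        have h8 : (z : ℝ) * log h ≤ z * (448 * z) :=
          mul_le_mul_of_nonneg_left (h1.trans (by linarith)) (by linarith)
        have h9 : (z : ℝ) * (448 * z) = 448 * (z : ℝ) ^ 2 := by ring
        linarith
      have h6 : 448 * ((h : ℝ) / log h) = 448 * h / log h := by ring
      rw [h6, le_div_iff₀ hlog]
      exact h5
    linarith

end Pool.Agent.Lib.H5C
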