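import Pool.Agent.Lib.H5C.Defs

/-!
# Chunk CH1a: the character modulo `M ∏ pr i` of a pair `(ξ, χ)`
-/

open Finset
open Pool.Agent.Lib.H56G
open Pool.Agent.Lib.H68T (PC p0 FL Mu v lp)

namespace Pool.Agent.Lib.H5C

variable {ι J : Type} [Fintype ι] [DecidableEq ι] [Fintype J] [DecidableEq J]

/-- The full modulus. -/
def Nn (s : Sys ι J) : ℕ := s.M * ∏ i, s.pr i

theorem Nn_dvd (s : Sys ι J) (i : ι) : s.pr i ∣ Nn s :=
  (Finset.dvd_prod_of_mem _ (mem_univ i)).mul_left _

/-- The product character. -/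
noncomputable def Psi (s : Sys ι J) (ξ : DirichletCharacter ℂ s.M) (χ : Fam s) :
    DirichletCharacter ℂ (Nn s) :=
  DirichletCharacter.changeLevel (Dvd.intro _ rfl : s.M ∣ Nn s) ξ *
    ∏ i, DirichletCharacter.changeLevel (Nn_dvd s i) (χ i)

/-- The primitive character which induces it. -/
noncomputable def pch (s : Sys ι J) (ξ : DirichletCharacter ℂ s.M) (χ : Fam s) : PCh :=
  ⟨(Psi s ξ χ).conductor, (Psi s ξ χ).primitiveCharacter⟩

omit [DecidableEq ι] [Fintype J] [DecidableEq J] in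
theorem ch1_ne_zero (s : Sys ι J) [NeZero s.M] : NeZero (Nn s) :=
  ⟨mul_ne_zero (NeZero.ne _) (Finset.prod_ne_zero_iff.mpr fun i _ => (s.prime i).ne_zero)⟩

theorem pch_prim (s : Sys ι J) [NeZero s.M] (ξ : DirichletCharacter ℂ s.M) (χ : Fam s) :
    1 ≤ (pch s ξ χ).1 ∧ (pch s ξ χ).2.IsPrimitive := by
  have := ch1_ne_zero s
  exact ⟨Nat.one_le_iff_ne_zero.mpr (DirichletCharacter.conductor_ne_zero _),
    DirichletCharacter.primitiveCharacter_isPrimitive _⟩

theorem ch1_prod_apply {n : ℕ} (t : Finset ι) (f : ι → DirichletCharacter ℂ n) (a : ZMod n)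
    (ha : IsUnit a) : (∏ i ∈ t, f i) a = ∏ i ∈ t, f i a := by
  induction t using Finset.induction_on with
  | empty =>
    rw [Finset.prod_empty, Finset.prod_empty]
    exact MulChar.one_apply ha
  | insert i t hi ih =>
    rw [Finset.prod_insert hi, Finset.prod_insert hi, MulChar.mul_apply, ih]

/-- `primitiveCharacter_apply_of_isCoprime`, `changeLevel_eq_cast_of_dvd'`. -/
theorem pch_apply (s : Sys ι J) [NeZero s.M] (ξ : DirichletCharacter ℂ s.M) (χ : Fam s) (x : ℕ)
    (hx : Nat.Coprime x (Nn s)) :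
    (pch s ξ χ).2 (x : ZMod (pch s ξ χ).1) = ξ (x : ZMod s.M) * fval s χ x := by
  have hc : IsCoprime (x : ℤ) (Nn s : ℤ) := Nat.isCoprime_iff_coprime.mpr hx
  have h1 : (Psi s ξ χ).primitiveCharacter (x : ZMod (Psi s ξ χ).conductor) =
      (Psi s ξ χ) (x : ZMod (Nn s)) := by
    have := DirichletCharacter.primitiveCharacter_apply_of_isCoprime (Psi s ξ χ) hc
    simpa using this
  change (Psi s ξ χ).primitiveCharacter (x : ZMod (Psi s ξ χ).conductor) = _
  rw [h1]
  have hu : IsUnit ((x : ℕ) : ZMod (Nn s)) := (ZMod.isUnit_iff_coprime x (Nn s)).mpr hx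
  unfold Psi
  rw [MulChar.mul_apply, ch1_prod_apply _ _ _ hu]
  congr 1
  · have := DirichletCharacter.changeLevel_eq_cast_of_dvd' ξ (Dvd.intro _ rfl : s.M ∣ Nn s) hc
    simpa using this
  · unfold fval
    refine Finset.prod_congr rfl fun i _ => ?_
    have := DirichletCharacter.changeLevel_eq_cast_of_dvd' (χ i) (Nn_dvd s i) hc
    simpa using this

end Pool.Agent.Lib.H5C
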