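import Pool.Agent.Lib.H5C.Defs
import Pool.Agent.Lib.H5C.CH1a

/-!
# Chunk CH1b: the character modulo `M ∏ pr i` of a pair `(ξ, χ)`
-/

open Finset
open Pool.Agent.Lib.H56G
open Pool.Agent.Lib.H68T (PC p0 FL Mu v lp)

namespace Pool.Agent.Lib.H5C

variable {ι J : Type} [Fintype ι] [DecidableEq ι] [Fintype J] [DecidableEq J]

/-- `Psi` factors through the level `M ∏_{csupp χ} pr i` (`conductor_dvd_of_mem_conductorSet`; the
characters `χ i = 1` do not matter). -/
theorem pch_dvd (s : Sys ι J) [NeZero s.M] (ξ : DirichletCharacter ℂ s.M) (χ : Fam s) :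
    (pch s ξ χ).1 ∣ s.M * ∏ i ∈ csupp s χ, s.pr i := by
  classical
  have := ch1_ne_zero s
  change (Psi s ξ χ).conductor ∣ _
  apply DirichletCharacter.conductor_dvd_of_mem_conductorSet
  set D := s.M * ∏ i ∈ csupp s χ, s.pr i with hD
  have hDN : D ∣ Nn s := mul_dvd_mul_left _ (Finset.prod_dvd_prod_of_subset _ _ _ (subset_univ _))
  have hMD : s.M ∣ D := Dvd.intro _ rfl
  have hpD : ∀ i : {i // i ∈ csupp s χ}, s.pr i.1 ∣ D := fun i =>
    (Finset.dvd_prod_of_mem _ i.2).mul_left _
  refine ⟨hDN, DirichletCharacter.changeLevel hMD ξ *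
    ∏ i ∈ (csupp s χ).attach, DirichletCharacter.changeLevel (hpD i) (χ i.1), ?_⟩
  rw [map_mul, map_prod, ← DirichletCharacter.changeLevel_trans]
  unfold Psi
  congr 1
  have h1 : ∀ i ∈ (csupp s χ).attach,
      DirichletCharacter.changeLevel hDN (DirichletCharacter.changeLevel (hpD i) (χ i.1)) =
        DirichletCharacter.changeLevel (Nn_dvd s i.1) (χ i.1) := by
    intro i _
    rw [← DirichletCharacter.changeLevel_trans]
  rw [Finset.prod_congr rfl h1,
    Finset.prod_attach (csupp s χ) (fun i => DirichletCharacter.changeLevel (Nn_dvd s i) (χ i))]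
  symm
  apply Finset.prod_subset (subset_univ _)
  intro i _ hi
  have h2 : χ i = 1 := by
    by_contra h
    exact hi (by unfold csupp; rw [mem_filter]; exact ⟨mem_univ _, h⟩)
  rw [h2, map_one]

end Pool.Agent.Lib.H5C
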