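import Pool.Agent.Lib.H5C.Defs
import Pool.Agent.Lib.H5C.CH1a

/-!
# Chunk CH1c: the character modulo `M ∏ pr i` of a pair `(ξ, χ)`
-/

open Finset
open Pool.Agent.Lib.H56G
open Pool.Agent.Lib.H68T (PC p0 FL Mu v lp)

namespace Pool.Agent.Lib.H5C

variable {ι J : Type} [Fintype ι] [DecidableEq ι] [Fintype J] [DecidableEq J]

omit [DecidableEq ι] [Fintype J] [DecidableEq J] in
theorem ch1c_crt (s : Sys ι J) [NeZero s.M] (a : Option ι → ℕ) :
    ∃ x : ℕ, x ≡ a none [MOD s.M] ∧ ∀ i, x ≡ a (some i) [MOD s.pr i] := by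
  classical
  let m : Option ι → ℕ := fun o => o.elim s.M s.pr
  have hm : ∀ o ∈ (univ : Finset (Option ι)), m o ≠ 0 := by
    intro o _
    cases o with
    | none => exact NeZero.ne s.M
    | some i => exact (s.prime i).ne_zero
  have hpp : Set.Pairwise (univ : Finset (Option ι)) (Function.onFun Nat.Coprime m) := by
    intro o _ o' _ hoo
    change Nat.Coprime (m o) (m o')
    cases o with
    | none =>
      cases o' with
      | none => exact absurd rfl hoo
      | some i' =>
        exact ((Nat.Prime.coprime_iff_not_dvd (s.prime i')).mpr (s.copM i')).symm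
    | some i =>
      cases o' with
      | none => exact (Nat.Prime.coprime_iff_not_dvd (s.prime i)).mpr (s.copM i)
      | some i' =>
        refine (Nat.coprime_primes (s.prime i) (s.prime i')).mpr ?_
        intro h
        exact hoo (by rw [s.inj h])
  obtain ⟨x, hx⟩ := Nat.chineseRemainderOfFinset a m univ hm hpp
  exact ⟨x, hx none (mem_univ _), fun i => hx (some i) (mem_univ _)⟩

omit [DecidableEq ι] [Fintype J] [DecidableEq J] in
theorem ch1c_coprime (s : Sys ι J) {x : ℕ} (h1 : Nat.Coprime x s.M)
    (h2 : ∀ i, Nat.Coprime x (s.pr i)) : Nat.Coprime x (Nn s) :=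
  Nat.Coprime.mul_right h1 (Nat.Coprime.prod_right fun i _ => h2 i)

theorem ch1c_eq (s : Sys ι J) [NeZero s.M] (ξ ξ' : DirichletCharacter ℂ s.M) (χ χ' : Fam s)
    (h : pch s ξ χ = pch s ξ' χ') (x : ℕ) (hx : Nat.Coprime x (Nn s)) :
    ξ (x : ZMod s.M) * fval s χ x = ξ' (x : ZMod s.M) * fval s χ' x := by
  rw [← pch_apply s ξ χ x hx, ← pch_apply s ξ' χ' x hx, h]

/-- `pch` is injective: if `(ξ, χ) ≠ (ξ', χ')`, choose by the Chinese remainder theorem
(`s.copM`, `s.inj`) an integer coprime to `Nn s`, `≡ 1` modulo all but one of the moduli `M`,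
`pr i`, and at which the characters of the remaining modulus differ; use `pch_apply`. -/
theorem pch_inj (s : Sys ι J) [NeZero s.M] (ξ ξ' : DirichletCharacter ℂ s.M) (χ χ' : Fam s)
    (h : pch s ξ χ = pch s ξ' χ') : ξ = ξ' ∧ χ = χ' := by
  have key := ch1c_eq s ξ ξ' χ χ' h
  constructor
  · apply MulChar.ext
    intro a
    obtain ⟨x, hx0, hx⟩ := ch1c_crt s (fun o => o.elim (a : ZMod s.M).val (fun _ => 1))
    simp only [Option.elim_none, Option.elim_some] at hx0 hx
    have hxa : (x : ZMod s.M) = (a : ZMod s.M) := by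
      rw [(ZMod.natCast_eq_natCast_iff _ _ _).mpr hx0, ZMod.natCast_zmod_val]
    have hx1 : ∀ i, (x : ZMod (s.pr i)) = 1 := by
      intro i
      rw [(ZMod.natCast_eq_natCast_iff _ _ _).mpr (hx i), Nat.cast_one]
    have hcM : Nat.Coprime x s.M := by
      rw [← ZMod.isUnit_iff_coprime, hxa]
      exact a.isUnit
    have hci : ∀ i, Nat.Coprime x (s.pr i) := by
      intro i
      rw [← ZMod.isUnit_iff_coprime, hx1]
      exact isUnit_one
    have h1 := key x (ch1c_coprime s hcM hci)
    have h2 : ∀ χ : Fam s, fval s χ x = 1 := by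
      intro χ
      unfold fval
      refine Finset.prod_eq_one fun i _ => ?_
      rw [hx1, map_one]
    rw [h2, h2, mul_one, mul_one, hxa] at h1
    exact h1
  · funext i
    apply MulChar.ext
    intro a
    obtain ⟨x, hx0, hx⟩ := ch1c_crt s
      (fun o => o.elim 1 (fun j => if j = i then (a : ZMod (s.pr i)).val else 1))
    simp only [Option.elim_none, Option.elim_some] at hx0 hx
    have hxa : (x : ZMod (s.pr i)) = (a : ZMod (s.pr i)) := by
      have := hx i
      rw [if_pos rfl] at this
      rw [(ZMod.natCast_eq_natCast_iff _ _ _).mpr this, ZMod.natCast_zmod_val]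
    have hxM : (x : ZMod s.M) = 1 := by
      rw [(ZMod.natCast_eq_natCast_iff _ _ _).mpr hx0, Nat.cast_one]
    have hx1 : ∀ j, j ≠ i → (x : ZMod (s.pr j)) = 1 := by
      intro j hj
      have := hx j
      rw [if_neg hj] at this
      rw [(ZMod.natCast_eq_natCast_iff _ _ _).mpr this, Nat.cast_one]
    have hcM : Nat.Coprime x s.M := by
      rw [← ZMod.isUnit_iff_coprime, hxM]
      exact isUnit_one
    have hci : ∀ j, Nat.Coprime x (s.pr j) := by
      intro j
      by_cases hj : j = i
      · subst hj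
        rw [← ZMod.isUnit_iff_coprime, hxa]
        exact a.isUnit
      · rw [← ZMod.isUnit_iff_coprime, hx1 j hj]
        exact isUnit_one
    have h1 := key x (ch1c_coprime s hcM hci)
    have h2 : ∀ χ : Fam s, fval s χ x = χ i (a : ZMod (s.pr i)) := by
      intro χ
      unfold fval
      rw [Finset.prod_eq_single i, hxa]
      · intro j _ hj
        rw [hx1 j hj, map_one]
      · intro hi
        exact absurd (mem_univ i) hi
    rw [h2, h2, hxM, map_one, map_one, one_mul, one_mul] at h1
    exact h1

theorem pch_one (s : Sys ι J) [NeZero s.M] : pch s 1 (fun _ => 1) = p0 := by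
  have := ch1_ne_zero s
  have h1 : Psi s 1 (fun _ => 1) = 1 := by
    unfold Psi
    rw [map_one, one_mul]
    refine Finset.prod_eq_one fun i _ => ?_
    rw [map_one]
  unfold pch p0
  rw [h1, DirichletCharacter.primitiveCharacter_one]
  have h2 : (1 : DirichletCharacter ℂ (Nn s)).conductor = 1 := DirichletCharacter.conductor_one
  generalize (1 : DirichletCharacter ℂ (Nn s)).conductor = n at h2
  subst h2
  rfl

end Pool.Agent.Lib.H5C
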