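import Pool.Agent.Lib.H5C.RegP
import Pool.Agent.Lib.H56G.Defs

/-!
# Project H5C (MP_f9960f_nt, chains of large gaps): definitions

See `PROOF.md` in this folder. Analytic objects (`PC`, `p0`, `FL`, `Mu`, `v`, `lp`) are those of
`Lib/H68T/Defs.lean`, sieve objects (`Sys`, `noJ`, `cp`, `cc`, `bw`, `ZZ`, ..) those of
`Lib/H56G/Defs.lean`.
-/

open Finset Filter
open Pool.Agent.Lib.H68T (PC p0 FL Mu v lp)
open Pool.Agent.Lib.H56G

namespace Pool.Agent.Lib.H5C

noncomputable section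

/-- Primitive characters with their conductors. -/
abbrev PCh : Type := Σ r : ℕ, DirichletCharacter ℂ r

/-! ## Analytic side -/

open Classical in
/-- The primitive characters `≠ 1` of conductor `≤ Q`. -/
def PC1 (Q : ℕ) : Finset PCh := (PC Q).filter (fun p => p ≠ p0)

open Classical in
/-- The bad characters: the Möbius polynomial is large at some `|t| ≤ (log X)^10`. -/
def Bad (Q X : ℕ) : Finset PCh :=
  (PC1 Q).filter (fun p => ∃ t : ℝ, |t| ≤ (Real.log X) ^ 10 ∧ ((Real.log X) ^ 10)⁻¹ < ‖Mu X p t‖)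

/-- Sum over the primes with the weight of `FL`. -/
def SP (X : ℕ) (f : ℕ → ℂ) : ℂ :=
  ∑ P ∈ Icc 1 (60 * X), ((lp (P : ℤ) * v X P / P : ℝ) : ℂ) * f P

/-- The primes `≤ y` outside `D` and different from `p1`. -/
def MS (y : ℕ) (D : Finset ℕ) (p1 : ℕ) : Finset ℕ :=
  (Icc 1 y).filter (fun p => p.Prime ∧ p ∉ D ∧ p ≠ p1)

/-- The product of the primes `≤ y` outside `D` and different from `p1`. -/
def MM (y : ℕ) (D : Finset ℕ) (p1 : ℕ) : ℕ := ∏ p ∈ MS y D p1, p

/-- What is used about the primes `≤ 60 X` in progressions modulo `M` (times small moduli). -/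
structure MData (Q X M : ℕ) : Prop where
  all : ∑ p ∈ PC1 Q, ‖FL X p 0‖ ≤ (Real.log X) ^ 9
  low : open Classical in ∑ p ∈ (PC1 Q).filter (fun p => p.1 ∣ M), ‖FL X p 0‖ ≤ 1 / Real.log X
  one : 1 / 2 ≤ (FL X p0 0).re

/-! ## Characters of the sieve primes -/

variable {ι J : Type} [Fintype ι] [DecidableEq ι] [Fintype J] [DecidableEq J]

/-- The value of `u_i^a` (`a : Option J`, `u_i^none = 1`) at a `t` with `b j0 + M t = x`. -/
def ut (s : Sys ι J) (j0 : J) (i : ι) (a : Option J) (x : ℕ) : ℝ :=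
  a.elim 1 (fun j => if x + s.b j ≡ s.b j0 [MOD s.pr i] then 1 - (s.pr i : ℝ) else 1)

/-- The Fourier coefficient of `u_i^a u_i^a'` on the units modulo `pr i`. -/
def gh (s : Sys ι J) (j0 : J) (i : ι) (a a' : Option J)
    (χ : DirichletCharacter ℂ (s.pr i)) : ℂ :=
  (1 / ((s.pr i : ℂ) - 1)) * ∑ x ∈ (range (s.pr i)).filter (fun x => Nat.Coprime x (s.pr i)),
    ((ut s j0 i a x * ut s j0 i a' x : ℝ) : ℂ) * (starRingEnd ℂ) (χ (x : ZMod (s.pr i)))

/-- Families of characters modulo the sieve primes. -/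
abbrev Fam (s : Sys ι J) : Type := (i : ι) → DirichletCharacter ℂ (s.pr i)

instance (s : Sys ι J) (i : ι) : NeZero (s.pr i) := ⟨(s.prime i).ne_zero⟩

open Classical in
/-- The primes at which the family is non-trivial. -/
def csupp (s : Sys ι J) (χ : Fam s) : Finset ι := univ.filter (fun i => χ i ≠ 1)

/-- The value of a family at an integer. -/
def fval (s : Sys ι J) (χ : Fam s) (x : ℕ) : ℂ := ∏ i, χ i (x : ZMod (s.pr i))

/-- The coefficient of the family `χ` in the expansion of `L'^2`. -/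
def wch (s : Sys ι J) (j0 : J) (c' : (ι → Option J) → ℝ) (χ : Fam s) : ℂ :=
  ∑ κ ∈ noJ j0, ∑ κ' ∈ noJ j0, ((c' κ * c' κ' : ℝ) : ℂ) * ∏ i, gh s j0 i (κ i) (κ' i) (χ i)

/-- The function `L'` in terms of the value `x = b j0 + M t` of the form `j0`. -/
def Lx (s : Sys ι J) (j0 : J) (c' : (ι → Option J) → ℝ) (x : ℕ) : ℝ :=
  ∑ κ ∈ noJ j0, c' κ * ∏ i, ut s j0 i (κ i) x

/-! ## Weights -/

/-- The weights `θ bw`. -/
def tb (s : Sys ι J) (z θ : ℝ) (A : Finset ι) : ℝ := θ * bw s z A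

end

end Pool.Agent.Lib.H5C
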