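import Pool.Agent.Lib.H5C.ERD
import Pool.Agent.Lib.H56G.Crt

/-!
# Chunk ER1: counting residues modulo a product of primes
-/

open Finset Real
open Pool.Agent.Lib.H56G

namespace Pool.Agent.Lib.H5C

/-- chunk ER1: product formula over a set of primes -/
theorem er1_prod (P : Finset ℕ) (hP : ∀ p ∈ P, p.Prime) (Q : ℕ → ℕ → Prop)
    [∀ p a, Decidable (Q p a)] (hQ : ∀ p, Function.Periodic (Q p) p) :
    (((range (∏ p ∈ P, p)).filter (fun a => ∀ p ∈ P, Q p a)).card : ℝ) =
      ∏ p ∈ P, (((range p).filter (fun a => Q p a)).card : ℝ) := by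
  classical
  have h1 := sum_range_prod (ι := {p // p ∈ P}) (fun i => i.1) (fun i => hP i.1 i.2)
    (fun i j h => Subtype.ext h) univ (fun i t => if Q i.1 t then (1 : ℝ) else 0)
    (fun i t => by
      have := hQ i.1 t
      simp only [this])
  have h2 : ∏ i : {p // p ∈ P}, (i.1 : ℕ) = ∏ p ∈ P, p := prod_coe_sort P (fun p => p)
  rw [h2] at h1
  have h3 : ∑ t ∈ range (∏ p ∈ P, p), ∏ i : {p // p ∈ P}, (if Q i.1 t then (1 : ℝ) else 0) =
      (((range (∏ p ∈ P, p)).filter (fun a => ∀ p ∈ P, Q p a)).card : ℝ) := by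
    rw [card_filter]
    push_cast
    refine sum_congr rfl fun t _ => ?_
    rw [prod_ite_zero]
    simp only [prod_const_one]
    by_cases h : ∀ p ∈ P, Q p t
    · rw [if_pos h, if_pos]
      intro i _
      exact h i.1 i.2
    · rw [if_neg h, if_neg]
      intro h4
      exact h fun p hp => h4 ⟨p, hp⟩ (mem_univ _)
  rw [← h3, h1]
  rw [prod_coe_sort P (fun p => ∑ t ∈ range p, (if Q p t then (1 : ℝ) else 0))]
  refine prod_congr rfl fun p _ => ?_
  rw [card_filter]
  push_cast
  rfl

/-- chunk ER1: one class is forbidden -/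
theorem er1_card_one (p : ℕ) (hp : p.Prime) (h : ℕ) :
    ((range p).filter (fun a => ¬ p ∣ a + h)).card = p - 1 := by
  have h1 : ((range p).filter (fun a => p ∣ a + h)).card = 1 := by
    rw [card_eq_one]
    refine ⟨(p - h % p) % p, ?_⟩
    have hp0 : 0 < p := hp.pos
    have hlt : h % p < p := Nat.mod_lt _ hp0
    ext a
    rw [mem_filter, mem_range, mem_singleton]
    constructor
    · rintro ⟨ha, hd⟩
      have h2 : (a + h % p) % p = 0 := by
        rw [Nat.add_mod_mod]
        exact Nat.mod_eq_zero_of_dvd hd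
      have h3 : a + h % p = 0 ∨ a + h % p = p := by
        have h4 : a + h % p < 2 * p := by omega
        obtain ⟨c, hc⟩ := Nat.dvd_of_mod_eq_zero h2
        have h5 : c < 2 := by
          by_contra h6
          have : p * 2 ≤ p * c := Nat.mul_le_mul_left p (by omega)
          omega
        interval_cases c
        · left; omega
        · right; omega
      rcases h3 with h3 | h3
      · have h4 : h % p = 0 := by omega
        rw [h4, Nat.sub_zero, Nat.mod_self]
        omega
      · have h4 : p - h % p = a := by omega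
        rw [h4, Nat.mod_eq_of_lt ha]
    · intro ha
      subst ha
      refine ⟨Nat.mod_lt _ hp0, ?_⟩
      apply Nat.dvd_of_mod_eq_zero
      rw [Nat.mod_add_mod]
      apply Nat.mod_eq_zero_of_dvd
      refine ⟨1 + h / p, ?_⟩
      have h5 := Nat.div_add_mod h p
      rw [Nat.mul_add, Nat.mul_one]
      omega
  have h2 := card_filter_add_card_filter_not (s := range p) (fun a => p ∣ a + h)
  rw [h1, card_range] at h2
  omega

/-- `sum_range_prod` with `F p a = 1` if `p ∤ a + h`, else `0`; one class is forbidden for each `p`. -/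
theorem count_single (P : Finset ℕ) (hP : ∀ p ∈ P, p.Prime) (h : ℕ) :
    (((range (∏ p ∈ P, p)).filter (fun a => ∀ p ∈ P, ¬ p ∣ a + h)).card : ℝ) =
      (∏ p ∈ P, (p : ℝ)) * ∏ p ∈ P, (1 - 1 / (p : ℝ)) := by
  rw [er1_prod P hP (fun p a => ¬ p ∣ a + h) (fun p a => by
    show (¬ p ∣ a + p + h) = (¬ p ∣ a + h)
    rw [show a + p + h = a + h + p by ring, Nat.dvd_add_self_right]), ← prod_mul_distrib]
  refine prod_congr rfl fun p hp => ?_
  rw [er1_card_one p (hP p hp) h, Nat.cast_sub (hP p hp).one_le]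
  have : (p : ℝ) ≠ 0 := by exact_mod_cast (hP p hp).ne_zero
  field_simp
  push_cast
  ring

/-- For each `p` there are `p - 1` allowed classes if `p ∣ h - h'` and `p - 2` otherwise, and
`p - 2 ≤ p (1 - 1/p)²`. -/
theorem count_pair (P : Finset ℕ) (hP : ∀ p ∈ P, p.Prime) (h h' : ℕ) (hh : h ≤ h') :
    (((range (∏ p ∈ P, p)).filter (fun a => ∀ p ∈ P, ¬ p ∣ a + h ∧ ¬ p ∣ a + h')).card : ℝ) ≤
      (∏ p ∈ P, (p : ℝ)) * (∏ p ∈ P, (1 - 1 / (p : ℝ))) ^ 2 *
        ∏ p ∈ P.filter (fun p => p ∣ h' - h), (1 - 1 / (p : ℝ))⁻¹ := by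
  rw [er1_prod P hP (fun p a => ¬ p ∣ a + h ∧ ¬ p ∣ a + h') (fun p a => by
    show (¬ p ∣ a + p + h ∧ ¬ p ∣ a + p + h') = (¬ p ∣ a + h ∧ ¬ p ∣ a + h')
    rw [show a + p + h = a + h + p by ring, show a + p + h' = a + h' + p by ring,
      Nat.dvd_add_self_right, Nat.dvd_add_self_right]), ← prod_pow, ← prod_mul_distrib,
      prod_filter, ← prod_mul_distrib]
  refine prod_le_prod (fun p _ => Nat.cast_nonneg _) fun p hp => ?_
  have hpp := hP p hp
  have hp2 : (2 : ℝ) ≤ p := by exact_mod_cast hpp.two_le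
  have hp0 : (0 : ℝ) < p := by linarith
  have hpne : (p : ℝ) ≠ 0 := hp0.ne'
  have hx : 0 < 1 - 1 / (p : ℝ) := by
    have : 1 / (p : ℝ) ≤ 1 / 2 := one_div_le_one_div_of_le (by norm_num) hp2
    linarith
  by_cases hd : p ∣ h' - h
  · rw [if_pos hd]
    have h1 : ((range p).filter (fun a => ¬ p ∣ a + h ∧ ¬ p ∣ a + h')).card ≤ p - 1 := by
      rw [← er1_card_one p hpp h]
      apply card_le_card
      intro a ha
      rw [mem_filter] at ha ⊢
      exact ⟨ha.1, ha.2.1⟩
    have h2 : (((range p).filter (fun a => ¬ p ∣ a + h ∧ ¬ p ∣ a + h')).card : ℝ) ≤ (p : ℝ) - 1 := by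
      have h3 : (((range p).filter (fun a => ¬ p ∣ a + h ∧ ¬ p ∣ a + h')).card : ℝ) ≤
        ((p - 1 : ℕ) : ℝ) := by exact_mod_cast h1
      rw [Nat.cast_sub hpp.one_le] at h3
      simpa using h3
    refine h2.trans (le_of_eq ?_)
    have hx' := hx.ne'
    have h4 : (p : ℝ) * (1 - 1 / (p : ℝ)) ^ 2 * (1 - 1 / (p : ℝ))⁻¹ = p * (1 - 1 / (p : ℝ)) := by
      rw [sq, mul_assoc, mul_assoc, mul_inv_cancel₀ hx', mul_one]
    rw [h4]
    field_simp
  · rw [if_neg hd, mul_one]
    have h1 : ((range p).filter (fun a => ¬ p ∣ a + h ∧ ¬ p ∣ a + h')).card ≤ p - 2 := by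
      have h2 : ((range p).filter (fun a => p ∣ a + h ∨ p ∣ a + h')).card = 2 := by
        rw [filter_or, card_union_of_disjoint]
        · have e1 := er1_card_one p hpp h
          have e2 := er1_card_one p hpp h'
          have e3 := card_filter_add_card_filter_not (s := range p) (fun a => p ∣ a + h)
          have e4 := card_filter_add_card_filter_not (s := range p) (fun a => p ∣ a + h')
          rw [card_range] at e3 e4
          have e5 := hpp.two_le
          omega
        · rw [disjoint_left]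
          intro a ha ha'
          rw [mem_filter] at ha ha'
          apply hd
          have h3 : h' - h = (a + h') - (a + h) := by omega
          rw [h3]
          exact Nat.dvd_sub ha'.2 ha.2
      have h3 := card_filter_add_card_filter_not (s := range p) (fun a => p ∣ a + h ∨ p ∣ a + h')
      rw [h2, card_range] at h3
      have h4 : (range p).filter (fun a => ¬ (p ∣ a + h ∨ p ∣ a + h')) =
          (range p).filter (fun a => ¬ p ∣ a + h ∧ ¬ p ∣ a + h') := by
        apply filter_congr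
        intro a _
        rw [not_or]
      rw [h4] at h3
      omega
    have h2 : (((range p).filter (fun a => ¬ p ∣ a + h ∧ ¬ p ∣ a + h')).card : ℝ) ≤ (p : ℝ) - 2 := by
      have h3 : (((range p).filter (fun a => ¬ p ∣ a + h ∧ ¬ p ∣ a + h')).card : ℝ) ≤
        ((p - 2 : ℕ) : ℝ) := by exact_mod_cast h1
      rw [Nat.cast_sub hpp.two_le] at h3
      simpa using h3
    refine h2.trans ?_
    have h5 : (p : ℝ) * (1 - 1 / (p : ℝ)) ^ 2 = p - 2 + 1 / p := by
      field_simp
      ring
    rw [h5]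
    have : 0 < 1 / (p : ℝ) := by positivity
    linarith

/-- Each factor is at most `exp (2/p) ≤ exp (2/w)`, and `d` has at most `log d/log 2 ≤ 2 log d` prime
factors. -/
theorem local_le (P : Finset ℕ) (w d : ℕ) (hw : 2 ≤ w) (hP : ∀ p ∈ P, p.Prime ∧ w < p)
    (hd : 1 ≤ d) :
    ∏ p ∈ P.filter (fun p => p ∣ d), (1 - 1 / (p : ℝ))⁻¹ ≤ exp (4 * log d / w) := by
  have hw0 : (0 : ℝ) < w := by
    have : 0 < w := by omega
    exact_mod_cast this
  set S := P.filter (fun p => p ∣ d) with hS
  have h1 : ∀ p ∈ S, (1 - 1 / (p : ℝ))⁻¹ ≤ exp (2 / w) := by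
    intro p hp
    obtain ⟨hp1, hp2⟩ := hP p (mem_filter.1 hp).1
    have hp3 : (2 : ℝ) ≤ p := by exact_mod_cast hp1.two_le
    have hp4 : (w : ℝ) ≤ p := by exact_mod_cast hp2.le
    have hx : (1 : ℝ) / p ≤ 1 / 2 := one_div_le_one_div_of_le (by norm_num) hp3
    have hx0 : (0 : ℝ) < 1 / p := by positivity
    have h2 : (1 - 1 / (p : ℝ))⁻¹ ≤ 1 + 2 * (1 / p) := by
      rw [inv_le_comm₀ (by linarith) (by linarith), inv_le_comm₀ (by linarith) (by linarith)]
      rw [inv_eq_one_div, div_le_iff₀ (by linarith)]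
      nlinarith
    calc (1 - 1 / (p : ℝ))⁻¹ ≤ 1 + 2 * (1 / p) := h2
      _ ≤ exp (2 * (1 / p)) := by
          have := add_one_le_exp (2 * (1 / (p : ℝ)))
          linarith
      _ ≤ exp (2 / w) := by
          apply exp_le_exp.2
          rw [mul_one_div]
          exact div_le_div_of_nonneg_left (by norm_num) hw0 hp4
  have h2 : ∏ p ∈ S, (1 - 1 / (p : ℝ))⁻¹ ≤ ∏ p ∈ S, exp (2 / w) := by
    refine prod_le_prod (fun p hp => ?_) h1
    obtain ⟨hp1, hp2⟩ := hP p (mem_filter.1 hp).1
    have hp3 : (2 : ℝ) ≤ p := by exact_mod_cast hp1.two_le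
    have hx : (1 : ℝ) / p ≤ 1 / 2 := one_div_le_one_div_of_le (by norm_num) hp3
    rw [inv_nonneg]
    linarith
  rw [prod_const, ← exp_nat_mul] at h2
  refine h2.trans (exp_le_exp.2 ?_)
  -- number of prime factors
  have h3 : 2 ^ S.card ≤ d := by
    calc 2 ^ S.card = ∏ p ∈ S, 2 := by rw [prod_const]
      _ ≤ ∏ p ∈ S, p := by
          refine prod_le_prod' fun p hp => ?_
          exact (hP p (mem_filter.1 hp).1).1.two_le
      _ ≤ d := by
          apply Nat.le_of_dvd hd
          apply Finset.prod_primes_dvd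
          · intro p hp
            exact (hP p (mem_filter.1 hp).1).1.prime
          · intro p hp
            exact (mem_filter.1 hp).2
  have h4 : (S.card : ℝ) * log 2 ≤ log d := by
    rw [← log_pow]
    apply log_le_log (by positivity)
    exact_mod_cast h3
  have h5 : (1 : ℝ) / 2 ≤ log 2 := by
    have := Real.log_two_gt_d9
    linarith
  have h6 : (S.card : ℝ) ≤ 2 * log d := by
    have h7 : (0 : ℝ) ≤ S.card := Nat.cast_nonneg _
    nlinarith
  rw [← mul_div_assoc]
  apply div_le_div_of_nonneg_right _ hw0.le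
  linarith

end Pool.Agent.Lib.H5C
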