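import Pool.Agent.Lib.H5C.ER1

/-!
# Chunk ER2: second moment for the random residue classes
-/

open Finset Real

namespace Pool.Agent.Lib.H5C

open Classical in
/-- The indicator that `a + h` is coprime to the primes of `P`. -/
noncomputable def er2_I (P : Finset ℕ) (a h : ℕ) : ℝ :=
  if ∀ p ∈ P, ¬ p ∣ a + h then 1 else 0

theorem er2_card (P R : Finset ℕ) (a : ℕ) :
    ((R.filter (fun h => ∀ p ∈ P, ¬ p ∣ a + h)).card : ℝ) = ∑ h ∈ R, er2_I P a h := by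
  rw [Finset.card_filter, Nat.cast_sum]
  refine Finset.sum_congr rfl fun h _ => ?_
  unfold er2_I
  by_cases hh : ∀ p ∈ P, ¬ p ∣ a + h
  · rw [if_pos hh, if_pos hh, Nat.cast_one]
  · rw [if_neg hh, if_neg hh, Nat.cast_zero]

theorem er2_card2 (P : Finset ℕ) (C : Finset (ℕ × ℕ)) (a : ℕ) :
    ((C.filter (fun x => ∀ p ∈ P, ¬ p ∣ a + x.1 ∧ ¬ p ∣ a + x.2)).card : ℝ) =
      ∑ x ∈ C, er2_I P a x.1 * er2_I P a x.2 := by
  rw [Finset.card_filter, Nat.cast_sum]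
  refine Finset.sum_congr rfl fun x _ => ?_
  unfold er2_I
  by_cases h1 : ∀ p ∈ P, ¬ p ∣ a + x.1
  · by_cases h2 : ∀ p ∈ P, ¬ p ∣ a + x.2
    · rw [if_pos h1, if_pos h2, if_pos (fun p hp => ⟨h1 p hp, h2 p hp⟩)]
      norm_num
    · rw [if_pos h1, if_neg h2, if_neg (fun h => h2 fun p hp => (h p hp).2)]
      norm_num
  · rw [if_neg h1, if_neg (fun h => h1 fun p hp => (h p hp).1)]
    norm_num

theorem er2_single (P : Finset ℕ) (hP : ∀ p ∈ P, p.Prime) (h : ℕ) :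
    ∑ a ∈ range (∏ p ∈ P, p), er2_I P a h =
      (∏ p ∈ P, (p : ℝ)) * ∏ p ∈ P, (1 - 1 / (p : ℝ)) := by
  rw [← count_single P hP h, Finset.card_filter, Nat.cast_sum]
  refine Finset.sum_congr rfl fun a _ => ?_
  unfold er2_I
  by_cases hh : ∀ p ∈ P, ¬ p ∣ a + h
  · rw [if_pos hh, if_pos hh, Nat.cast_one]
  · rw [if_neg hh, if_neg hh, Nat.cast_zero]

theorem er2_pairsum (P : Finset ℕ) (h h' : ℕ) :
    ∑ a ∈ range (∏ p ∈ P, p), er2_I P a h * er2_I P a h' =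
      (((range (∏ p ∈ P, p)).filter
        (fun a => ∀ p ∈ P, ¬ p ∣ a + h ∧ ¬ p ∣ a + h')).card : ℝ) := by
  rw [Finset.card_filter, Nat.cast_sum]
  refine Finset.sum_congr rfl fun a _ => ?_
  unfold er2_I
  by_cases h1 : ∀ p ∈ P, ¬ p ∣ a + h
  · by_cases h2 : ∀ p ∈ P, ¬ p ∣ a + h'
    · rw [if_pos h1, if_pos h2, if_pos (fun p hp => ⟨h1 p hp, h2 p hp⟩)]
      norm_num
    · rw [if_pos h1, if_neg h2, if_neg (fun h => h2 fun p hp => (h p hp).2)]
      norm_num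
  · rw [if_neg h1, zero_mul, if_neg (fun hq => h1 fun p hp => (hq p hp).1), Nat.cast_zero]

theorem er2_pair_lt (P : Finset ℕ) (w H : ℕ) (hw : 2 ≤ w) (hP : ∀ p ∈ P, p.Prime ∧ w < p)
    (hH : exp (4 * log H / w) ≤ 1 + 1 / 64) (h h' : ℕ) (h1 : 1 ≤ h) (hlt : h < h')
    (h2 : h' ≤ H) :
    ∑ a ∈ range (∏ p ∈ P, p), er2_I P a h * er2_I P a h' ≤
      (∏ p ∈ P, (p : ℝ)) * (∏ p ∈ P, (1 - 1 / (p : ℝ))) ^ 2 * (1 + 1 / 64) := by
  rw [er2_pairsum]
  refine (count_pair P (fun p hp => (hP p hp).1) h h' hlt.le).trans ?_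
  have hloc := local_le P w (h' - h) hw hP (by omega)
  have hle : exp (4 * log ((h' - h : ℕ) : ℝ) / w) ≤ exp (4 * log H / w) := by
    apply Real.exp_le_exp.2
    have hw0 : (0 : ℝ) < w := by exact_mod_cast (by omega : 0 < w)
    apply div_le_div_of_nonneg_right _ hw0.le
    have : log ((h' - h : ℕ) : ℝ) ≤ log H := by
      apply Real.log_le_log
      · exact_mod_cast (by omega : 0 < h' - h)
      · exact_mod_cast (by omega : h' - h ≤ H)
    linarith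
  apply mul_le_mul_of_nonneg_left (hloc.trans (hle.trans hH))
  apply mul_nonneg
  · exact Finset.prod_nonneg fun p _ => Nat.cast_nonneg p
  · positivity

theorem er2_pair (P : Finset ℕ) (w H : ℕ) (hw : 2 ≤ w) (hP : ∀ p ∈ P, p.Prime ∧ w < p)
    (hH : exp (4 * log H / w) ≤ 1 + 1 / 64) (h h' : ℕ) (h1 : 1 ≤ h ∧ h ≤ H)
    (h2 : 1 ≤ h' ∧ h' ≤ H) :
    ∑ a ∈ range (∏ p ∈ P, p), er2_I P a h * er2_I P a h' ≤
      (∏ p ∈ P, (p : ℝ)) * (∏ p ∈ P, (1 - 1 / (p : ℝ))) ^ 2 * (1 + 1 / 64) +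
        if h = h' then (∏ p ∈ P, (p : ℝ)) * ∏ p ∈ P, (1 - 1 / (p : ℝ)) else 0 := by
  have hnn : 0 ≤ (∏ p ∈ P, (p : ℝ)) * (∏ p ∈ P, (1 - 1 / (p : ℝ))) ^ 2 * (1 + 1 / 64) := by
    have : 0 ≤ (∏ p ∈ P, (p : ℝ)) := Finset.prod_nonneg fun p _ => Nat.cast_nonneg p
    positivity
  rcases lt_trichotomy h h' with hlt | heq | hgt
  · rw [if_neg hlt.ne, add_zero]
    exact er2_pair_lt P w H hw hP hH h h' h1.1 hlt h2.2
  · subst heq
    rw [if_pos rfl]
    have : ∑ a ∈ range (∏ p ∈ P, p), er2_I P a h * er2_I P a h =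
        ∑ a ∈ range (∏ p ∈ P, p), er2_I P a h := by
      refine Finset.sum_congr rfl fun a _ => ?_
      unfold er2_I
      split_ifs <;> norm_num
    rw [this, er2_single P (fun p hp => (hP p hp).1)]
    linarith
  · rw [if_neg hgt.ne', add_zero]
    have : ∑ a ∈ range (∏ p ∈ P, p), er2_I P a h * er2_I P a h' =
        ∑ a ∈ range (∏ p ∈ P, p), er2_I P a h' * er2_I P a h :=
      Finset.sum_congr rfl fun a _ => mul_comm _ _
    rw [this]
    exact er2_pair_lt P w H hw hP hH h' h h2.1 hgt h1.2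

/-- `a` uniform in `range (∏ P)`, `N(a)` the number of `h ∈ R` with `(a + h, ∏ P) = 1`, `μ = V |R|`.
`E N = μ`, `E N² ≤ (1 + 1/64) μ² + μ` (`count_single`, `count_pair`, `local_le` for `|h - h'| ≤ H`), so
`P(|N - μ| > μ/2) ≤ 4 (1/64 + 1/μ) ≤ 1/8`; the expected number of surviving pairs of `C` is at most
`(1 + 1/64) V² |C|`, so it exceeds `8 V² |C|` with probability at most `1/6`. -/
theorem average (P : Finset ℕ) (w H : ℕ) (hw : 2 ≤ w) (hP : ∀ p ∈ P, p.Prime ∧ w < p)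
    (R : Finset ℕ) (hR : ∀ h ∈ R, 1 ≤ h ∧ h ≤ H) (C : Finset (ℕ × ℕ))
    (hC : ∀ x ∈ C, x.1 ∈ R ∧ x.2 ∈ R ∧ x.1 < x.2)
    (hH : exp (4 * log H / w) ≤ 1 + 1 / 64)
    (hμ : 64 ≤ (∏ p ∈ P, (1 - 1 / (p : ℝ))) * R.card) :
    ∃ a < ∏ p ∈ P, p,
      (∏ p ∈ P, (1 - 1 / (p : ℝ))) * R.card / 2 ≤
        ((R.filter (fun h => ∀ p ∈ P, ¬ p ∣ a + h)).card : ℝ) ∧
      ((R.filter (fun h => ∀ p ∈ P, ¬ p ∣ a + h)).card : ℝ) ≤
        2 * ((∏ p ∈ P, (1 - 1 / (p : ℝ))) * R.card) ∧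
      ((C.filter (fun x => ∀ p ∈ P, ¬ p ∣ a + x.1 ∧ ¬ p ∣ a + x.2)).card : ℝ) ≤
        8 * (∏ p ∈ P, (1 - 1 / (p : ℝ))) ^ 2 * C.card := by
  simp only [er2_card, er2_card2]
  set V : ℝ := ∏ p ∈ P, (1 - 1 / (p : ℝ)) with hV
  set M : ℝ := ∏ p ∈ P, (p : ℝ) with hM
  have hM0 : 0 < M := Finset.prod_pos fun p hp => by exact_mod_cast (hP p hp).1.pos
  have hV0 : 0 < V := by
    apply Finset.prod_pos
    intro p hp
    have : (1 : ℝ) < p := by exact_mod_cast (hP p hp).1.one_lt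
    have h2 : 1 / (p : ℝ) < 1 := by
      rw [div_lt_one (by linarith)]
      exact this
    linarith
  have hcardM : (((range (∏ p ∈ P, p)).card : ℕ) : ℝ) = M := by
    rw [Finset.card_range]
    push_cast
    rfl
  set μ : ℝ := V * R.card with hμd
  have hμ0 : 0 < μ := by linarith
  -- first moment
  have hS1 : ∑ a ∈ range (∏ p ∈ P, p), ∑ h ∈ R, er2_I P a h = M * μ := by
    rw [Finset.sum_comm]
    rw [Finset.sum_congr rfl fun h _ => er2_single P (fun p hp => (hP p hp).1) h]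
    rw [Finset.sum_const, nsmul_eq_mul, hμd]
    ring
  -- second moment
  have hS2 : ∑ a ∈ range (∏ p ∈ P, p), (∑ h ∈ R, er2_I P a h) ^ 2 ≤
      M * μ ^ 2 * (1 + 1 / 64) + M * μ := by
    have e1 : ∀ a ∈ range (∏ p ∈ P, p), (∑ h ∈ R, er2_I P a h) ^ 2 =
        ∑ h ∈ R, ∑ h' ∈ R, er2_I P a h * er2_I P a h' := by
      intro a _
      rw [sq, Finset.sum_mul_sum]
    rw [Finset.sum_congr rfl e1, Finset.sum_comm]
    have e2 : ∀ h ∈ R, ∑ a ∈ range (∏ p ∈ P, p), ∑ h' ∈ R, er2_I P a h * er2_I P a h' ≤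
        (R.card : ℝ) * (M * V ^ 2 * (1 + 1 / 64)) + M * V := by
      intro h hh
      rw [Finset.sum_comm]
      calc ∑ h' ∈ R, ∑ a ∈ range (∏ p ∈ P, p), er2_I P a h * er2_I P a h'
          ≤ ∑ h' ∈ R, (M * V ^ 2 * (1 + 1 / 64) + if h = h' then M * V else 0) :=
            Finset.sum_le_sum fun h' hh' =>
              er2_pair P w H hw hP hH h h' (hR h hh) (hR h' hh')
        _ = (R.card : ℝ) * (M * V ^ 2 * (1 + 1 / 64)) + M * V := by
            rw [Finset.sum_add_distrib, Finset.sum_const, nsmul_eq_mul, Finset.sum_ite_eq,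
              if_pos hh]
    calc ∑ h ∈ R, ∑ a ∈ range (∏ p ∈ P, p), ∑ h' ∈ R, er2_I P a h * er2_I P a h'
        ≤ ∑ h ∈ R, ((R.card : ℝ) * (M * V ^ 2 * (1 + 1 / 64)) + M * V) :=
          Finset.sum_le_sum e2
      _ = M * μ ^ 2 * (1 + 1 / 64) + M * μ := by
          rw [Finset.sum_const, nsmul_eq_mul, hμd]
          ring
  have hvar : ∑ a ∈ range (∏ p ∈ P, p), ((∑ h ∈ R, er2_I P a h) - μ) ^ 2 ≤
      M * μ ^ 2 / 64 + M * μ := by
    have e : ∀ a ∈ range (∏ p ∈ P, p), ((∑ h ∈ R, er2_I P a h) - μ) ^ 2 =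
        (∑ h ∈ R, er2_I P a h) ^ 2 - 2 * μ * (∑ h ∈ R, er2_I P a h) + μ ^ 2 := by
      intro a _
      ring
    rw [Finset.sum_congr rfl e, Finset.sum_add_distrib, Finset.sum_sub_distrib,
      ← Finset.mul_sum, hS1, Finset.sum_const, nsmul_eq_mul, hcardM]
    nlinarith [hS2]
  have hS3 : ∑ a ∈ range (∏ p ∈ P, p), ∑ x ∈ C, er2_I P a x.1 * er2_I P a x.2 ≤
      (C.card : ℝ) * (M * V ^ 2 * (1 + 1 / 64)) := by
    rw [Finset.sum_comm]
    calc ∑ x ∈ C, ∑ a ∈ range (∏ p ∈ P, p), er2_I P a x.1 * er2_I P a x.2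
        ≤ ∑ x ∈ C, (M * V ^ 2 * (1 + 1 / 64)) :=
          Finset.sum_le_sum fun x hx => er2_pair_lt P w H hw hP hH x.1 x.2
            (hR _ (hC x hx).1).1 (hC x hx).2.2 (hR _ (hC x hx).2.1).2
      _ = (C.card : ℝ) * (M * V ^ 2 * (1 + 1 / 64)) := by
          rw [Finset.sum_const, nsmul_eq_mul]
  have hnn3 : ∀ a, 0 ≤ ∑ x ∈ C, er2_I P a x.1 * er2_I P a x.2 := by
    intro a
    apply Finset.sum_nonneg
    intro x _
    unfold er2_I
    split_ifs <;> norm_num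
  by_contra hcon
  push Not at hcon
  have hbad : ∀ a ∈ range (∏ p ∈ P, p),
      (1 : ℝ) ≤ 4 / μ ^ 2 * ((∑ h ∈ R, er2_I P a h) - μ) ^ 2 +
        1 / (8 * V ^ 2 * C.card) * ∑ x ∈ C, er2_I P a x.1 * er2_I P a x.2 := by
    intro a ha
    have hthird : 0 ≤ 1 / (8 * V ^ 2 * (C.card : ℝ)) *
        ∑ x ∈ C, er2_I P a x.1 * er2_I P a x.2 := by
      apply mul_nonneg _ (hnn3 a)
      positivity
    have hfirst : 0 ≤ 4 / μ ^ 2 * ((∑ h ∈ R, er2_I P a h) - μ) ^ 2 := by positivity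
    by_cases h1 : μ / 2 ≤ ∑ h ∈ R, er2_I P a h
    · by_cases h2 : ∑ h ∈ R, er2_I P a h ≤ 2 * μ
      · have h3 := hcon a (Finset.mem_range.1 ha) h1 h2
        by_cases hC0 : C.card = 0
        · exfalso
          rw [Finset.card_eq_zero] at hC0
          subst hC0
          simp at h3
        · have hCpos : (0 : ℝ) < C.card := by exact_mod_cast Nat.pos_of_ne_zero hC0
          have : 1 ≤ 1 / (8 * V ^ 2 * (C.card : ℝ)) *
              ∑ x ∈ C, er2_I P a x.1 * er2_I P a x.2 := by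
            rw [one_div, inv_mul_eq_div, one_le_div (by positivity)]
            exact h3.le
          linarith
      · push Not at h2
        have : 1 ≤ 4 / μ ^ 2 * ((∑ h ∈ R, er2_I P a h) - μ) ^ 2 := by
          rw [div_mul_eq_mul_div, one_le_div (by positivity)]
          nlinarith
        linarith
    · push Not at h1
      have : 1 ≤ 4 / μ ^ 2 * ((∑ h ∈ R, er2_I P a h) - μ) ^ 2 := by
        rw [div_mul_eq_mul_div, one_le_div (by positivity)]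
        nlinarith
      linarith
  have hsum := Finset.sum_le_sum hbad
  rw [Finset.sum_const, nsmul_eq_mul, mul_one, hcardM, Finset.sum_add_distrib,
    ← Finset.mul_sum, ← Finset.mul_sum] at hsum
  have b1 : 4 / μ ^ 2 * ∑ a ∈ range (∏ p ∈ P, p), ((∑ h ∈ R, er2_I P a h) - μ) ^ 2 ≤
      M / 8 := by
    calc 4 / μ ^ 2 * ∑ a ∈ range (∏ p ∈ P, p), ((∑ h ∈ R, er2_I P a h) - μ) ^ 2
        ≤ 4 / μ ^ 2 * (M * μ ^ 2 / 64 + M * μ) :=
          mul_le_mul_of_nonneg_left hvar (by positivity)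
      _ = M / 16 + 4 * M / μ := by
          field_simp
          ring
      _ ≤ M / 16 + M / 16 := by
          have h16 : 4 * M / μ ≤ M / 16 := by
            rw [div_le_div_iff₀ hμ0 (by norm_num)]
            nlinarith
          linarith
      _ = M / 8 := by ring
  have b2 : 1 / (8 * V ^ 2 * (C.card : ℝ)) *
      ∑ a ∈ range (∏ p ∈ P, p), ∑ x ∈ C, er2_I P a x.1 * er2_I P a x.2 ≤ M / 4 := by
    by_cases hC0 : C.card = 0
    · rw [hC0]
      simp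
      positivity
    · have hCpos : (0 : ℝ) < C.card := by exact_mod_cast Nat.pos_of_ne_zero hC0
      calc 1 / (8 * V ^ 2 * (C.card : ℝ)) *
            ∑ a ∈ range (∏ p ∈ P, p), ∑ x ∈ C, er2_I P a x.1 * er2_I P a x.2
          ≤ 1 / (8 * V ^ 2 * (C.card : ℝ)) * ((C.card : ℝ) * (M * V ^ 2 * (1 + 1 / 64))) :=
            mul_le_mul_of_nonneg_left hS3 (by positivity)
        _ = M * (1 + 1 / 64) / 8 := by
            field_simp
        _ ≤ M / 4 := by linarith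
  linarith

end Pool.Agent.Lib.H5C
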