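import Pool.Agent.Lib.H5C.ERD
import Pool.Agent.Lib.H5C.BT

/-!
# Chunk ER3a: structure of the candidates
-/

open Finset Real

namespace Pool.Agent.Lib.H5C

theorem er3a_exp : exp (1 / 125 : ℝ) ≤ 1 + 1 / 64 := by
  have h9 : exp (-(1 / 125) : ℝ) ≥ 1 - 1 / 125 := by
    have := Real.add_one_le_exp (-(1 / 125) : ℝ)
    linarith
  have h10 : exp (1 / 125 : ℝ) * exp (-(1 / 125) : ℝ) = 1 := by
    rw [← Real.exp_add]; norm_num
  have h11 : 0 < exp (1 / 125 : ℝ) := Real.exp_pos _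
  have h12 := mul_le_mul_of_nonneg_left h9 h11.le
  linarith

/-- The numerical facts used in `er_sizes`. -/
theorem er3a_core (κ : ℝ) (hκ : 0 < κ) (hκ1 : κ ≤ 1) (y : ℕ) (X X2 X3 : ℝ)
    (hX : log (y : ℝ) = X) (hX2 : log X = X2) (hX3 : log X2 = X3)
    (h1 : 1000 ≤ X) (h2 : 100 ≤ X2) (h3 : 4 ≤ X3) (h32 : X3 ≤ X2)
    (e1 : 48 * X2 ^ 2 ≤ X) (e2 : 2 * X2 ^ 2 ≤ κ * X) :
    100 ≤ X ∧ 100 ≤ X2 ∧ 4 ≤ X3 ∧
    2 ≤ wE y ∧ wE y < zE y ∧ zE y < Nat.sqrt y ∧ (wE y : ℝ) ≤ 2 * X ^ 2 ∧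
    y * 2 ≤ hE κ y ∧ hE κ y < y * wE y ∧ (hE κ y : ℝ) ≤ y * X ^ 2 ∧
    κ * (y * X ^ 2 * X3 / X2 ^ 2) ≤ 2 * hE κ y ∧
    (hE κ y : ℝ) ≤ κ * (y * X ^ 2 * X3 / X2 ^ 2) ∧
    (y : ℝ) * X ≤ hE κ y ∧
    X * X3 / (32 * X2) ≤ log (zE y) ∧
    log (zE y) ≤ X * X3 / (16 * X2) ∧
    X2 ≤ log (wE y) ∧ log (wE y) ≤ 3 * X2 ∧
    exp (4 * log (hE κ y) / wE y) ≤ 1 + 1 / 64 := by
  have hy0 : (0 : ℝ) < y := by
    by_contra hcon
    have : (y : ℝ) = 0 := le_antisymm (not_lt.mp hcon) (Nat.cast_nonneg y)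
    rw [this, Real.log_zero] at hX
    linarith
  have hy1 : (1 : ℝ) ≤ y := by
    have : 0 < y := by exact_mod_cast hy0
    exact_mod_cast this
  have hyexp : exp X = y := by rw [← hX, Real.exp_log hy0]
  have hl1 : exp X2 = X := by rw [← hX2, Real.exp_log (by linarith)]
  have hw : wE y = ⌈X ^ 2⌉₊ := by rw [wE, hX]
  have hz : zE y = ⌊exp (X * X3 / (16 * X2))⌋₊ := by rw [zE, hX, hX2, hX3]
  have hH : hE κ y = ⌊κ * (y * X ^ 2 * X3 / X2 ^ 2)⌋₊ := by rw [hE, hX, hX2, hX3]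
  have hX0 : 0 < X := by linarith
  have hX20 : 0 < X2 := by linarith
  have hX30 : 0 < X3 := by linarith
  have hwge : X ^ 2 ≤ (wE y : ℝ) := by rw [hw]; exact Nat.le_ceil _
  have hwle : (wE y : ℝ) ≤ X ^ 2 + 1 := by
    rw [hw]; exact (Nat.ceil_lt_add_one (by positivity)).le
  have hX2sq : (10 : ℝ) ^ 6 ≤ X ^ 2 := by
    calc (10 : ℝ) ^ 6 = 1000 ^ 2 := by norm_num
      _ ≤ X ^ 2 := pow_le_pow_left₀ (by norm_num) h1 2
  have hwle2 : (wE y : ℝ) ≤ 2 * X ^ 2 := by linarith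
  have hw2 : 2 ≤ wE y := by
    have : (2 : ℝ) ≤ wE y := by linarith
    exact_mod_cast this
  have hw0 : (0 : ℝ) < wE y := by linarith
  -- the number Q
  obtain ⟨Q, hQ⟩ : ∃ Q, Q = X * X3 / (16 * X2) := ⟨_, rfl⟩
  rw [← hQ] at hz
  have hQ3 : 3 * X2 ≤ Q := by
    rw [hQ, le_div_iff₀ (by positivity)]
    have h5 := mul_le_mul_of_nonneg_left (show (1 : ℝ) ≤ X3 by linarith) hX0.le
    linarith
  have hQ16 : Q ≤ X / 16 := by
    rw [hQ, div_le_div_iff₀ (by positivity) (by norm_num)]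
    have h5 := mul_le_mul_of_nonneg_left h32 hX0.le
    linarith
  have hexpQ : X ^ 3 ≤ exp Q := by
    calc X ^ 3 = exp (3 * X2) := by
          rw [show (3 : ℝ) * X2 = ((3 : ℕ) : ℝ) * X2 by norm_num, Real.exp_nat_mul, hl1]
      _ ≤ exp Q := Real.exp_le_exp.mpr hQ3
  have hzge : exp Q - 1 ≤ (zE y : ℝ) := by
    rw [hz]
    have := Nat.lt_floor_add_one (exp Q)
    linarith
  have hzle : (zE y : ℝ) ≤ exp Q := by
    rw [hz]
    exact Nat.floor_le (Real.exp_pos _).le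
  have hX3big : 1000 * X ^ 2 ≤ X ^ 3 := by
    have h5 := mul_le_mul_of_nonneg_right h1 (sq_nonneg X)
    linarith
  have hwz : wE y < zE y := by
    have : (wE y : ℝ) < zE y := by linarith
    exact_mod_cast this
  have hzsqrt : zE y < Nat.sqrt y := by
    have h4 : (zE y + 1) * (zE y + 1) ≤ y := by
      have h5 : ((zE y : ℝ) + 1) * (zE y + 1) ≤ y := by
        have h6 : (zE y : ℝ) + 1 ≤ 2 * exp (X / 16) := by
          have h7 : exp Q ≤ exp (X / 16) := Real.exp_le_exp.mpr hQ16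
          have h8 : 1 ≤ exp (X / 16) := Real.one_le_exp (by positivity)
          linarith
        have h9 : (0 : ℝ) ≤ (zE y : ℝ) + 1 := by positivity
        have h10 : (2 * exp (X / 16)) * (2 * exp (X / 16)) ≤ y := by
          have h11 : exp (X / 16) * exp (X / 16) = exp (X / 8) := by
            rw [← Real.exp_add]; ring_nf
          have h12 : exp (X / 8) * exp (X / 2) ≤ exp X := by
            rw [← Real.exp_add]
            apply Real.exp_le_exp.mpr
            linarith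
          have h13 : (4 : ℝ) ≤ exp (X / 2) := by
            have := Real.add_one_le_exp (X / 2)
            linarith
          have h14 : (0 : ℝ) < exp (X / 8) := Real.exp_pos _
          have h15 := mul_le_mul_of_nonneg_left h13 h14.le
          have h16 : (2 * exp (X / 16)) * (2 * exp (X / 16)) = exp (X / 8) * 4 := by
            rw [← h11]; ring
          rw [h16, ← hyexp]
          exact h15.trans h12
        exact (mul_le_mul h6 h6 h9 (by positivity)).trans h10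
      exact_mod_cast h5
    have := Nat.le_sqrt.mpr h4
    omega
  -- H
  obtain ⟨F, hF⟩ : ∃ F, F = κ * (y * X ^ 2 * X3 / X2 ^ 2) := ⟨_, rfl⟩
  have hHF : hE κ y = ⌊F⌋₊ := by rw [hH, hF]
  have hF1 : y * (2 * X) ≤ F := by
    rw [hF]
    have h5 : κ * (y * X ^ 2 * X3 / X2 ^ 2) = y * (κ * X * (X * X3) / X2 ^ 2) := by ring
    rw [h5]
    apply mul_le_mul_of_nonneg_left _ hy0.le
    rw [le_div_iff₀ (by positivity)]
    have h6 : X ≤ X * X3 := by
      have h5 := mul_le_mul_of_nonneg_left (show (1 : ℝ) ≤ X3 by linarith) hX0.le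
      linarith
    calc 2 * X * X2 ^ 2 = (2 * X2 ^ 2) * X := by ring
      _ ≤ (κ * X) * (X * X3) := mul_le_mul e2 h6 hX0.le (by positivity)
      _ = κ * X * (X * X3) := by ring
  have hF0 : 0 ≤ F := by
    have : 0 ≤ y * (2 * X) := by positivity
    linarith
  have hFup : F < y * X ^ 2 := by
    rw [hF]
    have h5 : κ * (y * X ^ 2 * X3 / X2 ^ 2) = (y * X ^ 2) * (κ * (X3 / X2 ^ 2)) := by ring
    rw [h5]
    have h6 : κ * (X3 / X2 ^ 2) < 1 := by
      have h7 : X3 / X2 ^ 2 < 1 := by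
        rw [div_lt_one (by positivity)]
        have h5 := mul_le_mul_of_nonneg_left h2 hX20.le
        linarith
      have h8 : 0 ≤ X3 / X2 ^ 2 := by positivity
      have h9 := mul_le_mul_of_nonneg_right hκ1 h8
      linarith
    have h9 : 0 < y * X ^ 2 := by positivity
    have h10 := mul_lt_mul_of_pos_left h6 h9
    linarith
  have hHle : (hE κ y : ℝ) ≤ F := by rw [hHF]; exact Nat.floor_le hF0
  have hHge : F - 1 ≤ (hE κ y : ℝ) := by
    rw [hHF]
    have := Nat.lt_floor_add_one F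
    linarith
  have hyX : 1000 * (y : ℝ) ≤ y * X := by
    have h5 := mul_le_mul_of_nonneg_left h1 hy0.le
    linarith
  have hHy2 : y * 2 ≤ hE κ y := by
    have : (y : ℝ) * 2 ≤ hE κ y := by linarith
    exact_mod_cast this
  have hHw : hE κ y < y * wE y := by
    have : (hE κ y : ℝ) < y * wE y := by
      have h5 : (y : ℝ) * X ^ 2 ≤ y * wE y := mul_le_mul_of_nonneg_left hwge hy0.le
      linarith
    exact_mod_cast this
  have hHpos : (0 : ℝ) < hE κ y := by linarith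
  have hlogw1 : X2 ≤ log (wE y) := by
    have h5 : log (X ^ 2) ≤ log (wE y) := Real.log_le_log (by positivity) hwge
    rw [Real.log_pow] at h5
    have h6 : log X = X2 := by
      rw [← hl1, Real.log_exp]
    rw [h6] at h5
    push_cast at h5
    linarith
  have hlogX : log X = X2 := by rw [← hl1, Real.log_exp]
  have hlogw2 : log (wE y) ≤ 3 * X2 := by
    have h5 : (wE y : ℝ) ≤ X ^ 3 := by linarith
    have h6 : log (wE y) ≤ log (X ^ 3) := Real.log_le_log hw0 h5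
    rw [Real.log_pow, hlogX] at h6
    push_cast at h6
    exact h6
  have hQ2 : 2 ≤ Q := by linarith
  have hlogz1 : Q / 2 ≤ log (zE y) := by
    have h5 : exp (Q / 2) ≤ (zE y : ℝ) := by
      have h6 : exp Q = exp (Q / 2) * exp (Q / 2) := by rw [← Real.exp_add]; ring_nf
      have h7 : 2 ≤ exp (Q / 2) := by
        have := Real.add_one_le_exp (Q / 2)
        linarith
      have h8 := mul_le_mul_of_nonneg_left h7 (Real.exp_pos (Q / 2)).le
      linarith
    have h8 := Real.log_le_log (Real.exp_pos _) h5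
    rwa [Real.log_exp] at h8
  have hlogz2 : log (zE y) ≤ Q := by
    have h5 : (0 : ℝ) < zE y := by
      have : 0 < zE y := by omega
      exact_mod_cast this
    have h8 := Real.log_le_log h5 hzle
    rwa [Real.log_exp] at h8
  refine ⟨by linarith, h2, h3, hw2, hwz, hzsqrt, hwle2, hHy2, hHw, ?_, ?_, ?_, ?_, ?_, ?_, hlogw1,
    hlogw2, ?_⟩
  · linarith
  · rw [← hF]; linarith
  · rw [← hF]; exact hHle
  · linarith
  · have h5 : X * X3 / (32 * X2) = Q / 2 := by rw [hQ]; field_simp; norm_num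
    rw [h5]; exact hlogz1
  · rw [← hQ]; exact hlogz2
  · have h5 : log (hE κ y) ≤ 2 * X := by
      have h6 : (hE κ y : ℝ) ≤ y * X ^ 2 := by linarith
      have h7 := Real.log_le_log hHpos h6
      rw [Real.log_mul hy0.ne' (by positivity), Real.log_pow, hlogX] at h7
      have h8 : log (y : ℝ) = X := by
        rw [← hyexp, Real.log_exp]
      rw [h8] at h7
      push_cast at h7
      have h9 : X2 ≤ X2 ^ 2 := by
        have h10 := mul_le_mul_of_nonneg_left (show (1 : ℝ) ≤ X2 by linarith) hX20.le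
        linarith
      linarith
    have h6 : 4 * log (hE κ y) / wE y ≤ 1 / 125 := by
      rw [div_le_div_iff₀ hw0 (by norm_num)]
      have h7 := mul_le_mul_of_nonneg_left h1 hX0.le
      linarith
    exact (Real.exp_le_exp.mpr h6).trans er3a_exp

/-- Sizes for large `y` (`l1 = log y`, `l2 = loglog y`, `l3 = logloglog y`). -/
theorem er_sizes (κ : ℝ) (hκ : 0 < κ) (hκ1 : κ ≤ 1) : ∃ y₀ : ℕ, ∀ y : ℕ, y₀ ≤ y →
    100 ≤ log y ∧ 100 ≤ log (log y) ∧ 4 ≤ log (log (log y)) ∧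
    2 ≤ wE y ∧ wE y < zE y ∧ zE y < Nat.sqrt y ∧ (wE y : ℝ) ≤ 2 * (log y) ^ 2 ∧
    y * 2 ≤ hE κ y ∧ hE κ y < y * wE y ∧ (hE κ y : ℝ) ≤ y * (log y) ^ 2 ∧
    κ * (y * (log y) ^ 2 * log (log (log y)) / (log (log y)) ^ 2) ≤ 2 * hE κ y ∧
    (hE κ y : ℝ) ≤ κ * (y * (log y) ^ 2 * log (log (log y)) / (log (log y)) ^ 2) ∧
    (y : ℝ) * (log y) ≤ hE κ y ∧
    log y * log (log (log y)) / (32 * log (log y)) ≤ log (zE y) ∧
    log (zE y) ≤ log y * log (log (log y)) / (16 * log (log y)) ∧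
    log (log y) ≤ log (wE y) ∧ log (wE y) ≤ 3 * log (log y) ∧
    exp (4 * log (hE κ y) / wE y) ≤ 1 + 1 / 64 := by
  have t1 : Filter.Tendsto (fun y : ℕ => log (y : ℝ)) Filter.atTop Filter.atTop :=
    Real.tendsto_log_atTop.comp tendsto_natCast_atTop_atTop
  have t2 := Real.tendsto_log_atTop.comp t1
  have t3 := Real.tendsto_log_atTop.comp t2
  have e1 : ∀ᶠ v : ℝ in Filter.atTop, log v ≤ v := by
    filter_upwards [Filter.eventually_ge_atTop 1] with v hv
    have := Real.log_le_sub_one_of_pos (show 0 < v by linarith)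
    linarith
  have e2 : ∀ c : ℝ, 0 < c → ∀ᶠ v : ℝ in Filter.atTop, log v ^ 2 ≤ c * v := by
    intro c hc
    have h3 := (isLittleO_log_rpow_atTop (show (0 : ℝ) < 1 / 2 by norm_num)).def
      (show (0 : ℝ) < √c by positivity)
    filter_upwards [h3, Filter.eventually_ge_atTop 1] with v hv hv1
    have hlog : 0 ≤ log v := Real.log_nonneg hv1
    rw [Real.norm_of_nonneg hlog, Real.norm_of_nonneg (by positivity), ← Real.sqrt_eq_rpow] at hv
    calc log v ^ 2 ≤ (√c * √v) ^ 2 := pow_le_pow_left₀ hlog hv 2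
      _ = c * v := by rw [mul_pow, Real.sq_sqrt hc.le, Real.sq_sqrt (by linarith)]
  have main : ∀ᶠ y : ℕ in Filter.atTop, 1000 ≤ log (y : ℝ) ∧ 100 ≤ log (log (y : ℝ)) ∧
      4 ≤ log (log (log (y : ℝ))) ∧ log (log (log (y : ℝ))) ≤ log (log (y : ℝ)) ∧
      log (log (y : ℝ)) ^ 2 ≤ 1 / 48 * log (y : ℝ) ∧
      log (log (y : ℝ)) ^ 2 ≤ κ / 2 * log (y : ℝ) := by
    filter_upwards [t1.eventually_ge_atTop 1000, t2.eventually_ge_atTop 100,
      t3.eventually_ge_atTop 4, t2.eventually e1, t1.eventually (e2 (1 / 48) (by norm_num)),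
      t1.eventually (e2 (κ / 2) (by positivity))] with y a1 a2 a3 a4 a5 a6
    exact ⟨a1, a2, a3, a4, a5, a6⟩
  obtain ⟨y₀, hy₀⟩ := Filter.eventually_atTop.mp main
  refine ⟨y₀, fun y hy => ?_⟩
  obtain ⟨a1, a2, a3, a4, a5, a6⟩ := hy₀ y hy
  exact er3a_core κ hκ hκ1 y _ _ _ rfl rfl rfl a1 a2 a3 a4 (by linarith) (by linarith)

end Pool.Agent.Lib.H5C
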