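import Pool.Agent.Lib.H5C.ERD
import Pool.Agent.Lib.H5C.BT
import Pool.Agent.Lib.H5C.ER3a
import Pool.Agent.Lib.H10.LPF.Count

/-!
# Chunk ER3b: structure of the candidates
-/

open Finset Real

namespace Pool.Agent.Lib.H5C

/-- A candidate is `p1^b q` with a prime `q > y`, or a multiple of an element of `D`, or all its prime
factors are `≤ z` or `= p1`. (If a prime `q > y` divides `h` then `h/q ≤ H/y < w` has no other prime
factor than `p1`: primes `≤ w` different from `p1` are in `PO`, as `D` is above `√y > w`.) -/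
theorem re_cases (κ : ℝ) (hκ : 0 < κ) (hκ1 : κ ≤ 1) : ∃ y₀ : ℕ, ∀ y : ℕ, y₀ ≤ y →
    ∀ (D : Finset ℕ) (p1 : ℕ), OKD y D p1 → ∀ h ∈ RE κ y D p1,
      (∃ b q : ℕ, q.Prime ∧ y < q ∧ h = p1 ^ b * q) ∨ (∃ d ∈ D, d ∣ h) ∨
        (∀ p ∈ h.primeFactors, p ≤ zE y ∨ p = p1) := by
  obtain ⟨y₀, hy₀⟩ := er_sizes κ hκ hκ1
  refine ⟨y₀, fun y hy D p1 hD h hh => ?_⟩
  obtain ⟨-, -, -, hw2, hwz, hzs, -, -, hHw, -⟩ := hy₀ y hy
  have hsy : Nat.sqrt y ≤ y := Nat.sqrt_le_self y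
  rw [RE, Finset.mem_filter, Finset.mem_Icc] at hh
  obtain ⟨⟨hh1, hhH⟩, hPO⟩ := hh
  by_cases h2 : ∃ d ∈ D, d ∣ h
  · exact Or.inr (Or.inl h2)
  by_cases h3 : ∀ p ∈ h.primeFactors, p ≤ zE y ∨ p = p1
  · exact Or.inr (Or.inr h3)
  left
  push Not at h3
  obtain ⟨q, hq, hqz, hqp⟩ := h3
  have hqm := Nat.mem_primeFactors.mp hq
  have hmem : ∀ r : ℕ, r.Prime → r ≤ y → r ∉ D → r ≠ p1 → r ∉ PZ y p1 → r ∈ PO y D p1 := by
    intro r hr hry hrD hrp hrZ
    rw [PO, Finset.mem_sdiff, MS, Finset.mem_filter, Finset.mem_Icc]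
    exact ⟨⟨⟨hr.one_le, hry⟩, hr, hrD, hrp⟩, hrZ⟩
  have hqy : y < q := by
    by_contra hcon
    push Not at hcon
    have hqD : q ∉ D := fun hqD => h2 ⟨q, hqD, hqm.2.1⟩
    have hqZ : q ∉ PZ y p1 := by
      rw [PZ, Finset.mem_filter, Finset.mem_Ioc]
      rintro ⟨⟨-, h5⟩, -⟩
      omega
    exact hPO q (hmem q hqm.1 hcon hqD hqp hqZ) hqm.2.1
  obtain ⟨m, hm⟩ := hqm.2.1
  have hm0 : m ≠ 0 := by
    rintro rfl
    rw [mul_zero] at hm
    omega
  have hmw : m < wE y := by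
    by_contra hcon
    push Not at hcon
    have h5 : y * wE y ≤ q * m := Nat.mul_le_mul hqy.le hcon
    omega
  have hmp := Nat.eq_prime_pow_of_unique_prime_dvd (n := m) (p := p1) hm0 (by
    intro r hr hrm
    by_contra hne
    have hrm' : r ≤ m := Nat.le_of_dvd (Nat.pos_of_ne_zero hm0) hrm
    have hrD : r ∉ D := fun hrD => by
      have := (hD.2.1 r hrD).2.1
      omega
    have hrZ : r ∉ PZ y p1 := by
      rw [PZ, Finset.mem_filter, Finset.mem_Ioc]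
      rintro ⟨⟨h5, -⟩, -⟩
      omega
    exact hPO r (hmem r hr (by omega) hrD hne hrZ) (hm ▸ Dvd.dvd.mul_left hrm q))
  refine ⟨m.primeFactorsList.length, q, hqm.1, hqy, ?_⟩
  rw [← hmp, mul_comm]
  exact hm

/-- Primes in `(y, H]` are candidates; `π(H) - y ≥ c H/log H` (`Chebyshev.theta_ge`), `log H ≤ 2 log y`. -/
theorem re_lower : ∃ c : ℝ, 0 < c ∧ ∀ κ : ℝ, 0 < κ → κ ≤ 1 → ∃ y₀ : ℕ, ∀ y : ℕ, y₀ ≤ y →
    ∀ (D : Finset ℕ) (p1 : ℕ), OKD y D p1 →
      c * (hE κ y / log y) ≤ (RE κ y D p1).card := by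
  obtain ⟨N, hN2, hN⟩ := Pool.Agent.Lib.H10.LPF.exists_pi_sub_ge
  refine ⟨1 / 8, by norm_num, fun κ hκ hκ1 => ?_⟩
  obtain ⟨y₀, hy₀⟩ := er_sizes κ hκ hκ1
  refine ⟨max y₀ N, fun y hy D p1 hD => ?_⟩
  obtain ⟨hl1, -, -, hw2, hwz, hzs, -, hH2, hHw, -⟩ := hy₀ y ((le_max_left _ _).trans hy)
  have hyN : N ≤ y := (le_max_right _ _).trans hy
  have hy2 : 2 ≤ y := hN2.trans hyN
  have hyH : y ≤ hE κ y := by omega
  have h1 := hN (hE κ y) (hyN.trans hyH)
  have hsub : ((Pool.Agent.Lib.Sieve.primesUpTo (hE κ y)).filter (fun p => hE κ y / 2 < p))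
      ⊆ RE κ y D p1 := by
    intro q hq
    rw [Finset.mem_filter, Pool.Agent.Lib.Sieve.mem_primesUpTo] at hq
    obtain ⟨⟨hqp, hqH⟩, hq2⟩ := hq
    rw [RE, Finset.mem_filter, Finset.mem_Icc]
    refine ⟨⟨hqp.one_le, hqH⟩, fun p hp hpq => ?_⟩
    rw [PO, Finset.mem_sdiff, MS, Finset.mem_filter, Finset.mem_Icc] at hp
    have hp1 := hp.1.2.1
    have := (Nat.prime_dvd_prime_iff_eq hp1 hqp).mp hpq
    have := hp.1.1.2
    omega
  have h2 : (((Pool.Agent.Lib.Sieve.primesUpTo (hE κ y)).filter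
      (fun p => hE κ y / 2 < p)).card : ℝ) ≤ (RE κ y D p1).card := by
    exact_mod_cast Finset.card_le_card hsub
  refine le_trans ?_ (h1.trans h2)
  have hy0 : (0 : ℝ) < y := by
    have : 0 < y := by omega
    exact_mod_cast this
  have hH0 : (0 : ℝ) < hE κ y := by
    have : 0 < hE κ y := by omega
    exact_mod_cast this
  have hlogH0 : 0 < log (hE κ y) := by
    apply Real.log_pos
    have : 1 < hE κ y := by omega
    exact_mod_cast this
  have hlogH : log (hE κ y) ≤ 2 * log y := by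
    have h5 : hE κ y ≤ y * y := by
      have h6 : wE y ≤ y := by
        have := Nat.sqrt_le_self y
        omega
      exact hHw.le.trans (Nat.mul_le_mul_left y h6)
    have h7 : (hE κ y : ℝ) ≤ y * y := by exact_mod_cast h5
    have h8 := Real.log_le_log hH0 h7
    rw [Real.log_mul hy0.ne' hy0.ne'] at h8
    linarith
  rw [div_mul_div_comm, one_mul]
  apply div_le_div_of_nonneg_left hH0.le (by positivity)
  linarith

end Pool.Agent.Lib.H5C
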