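import Pool.Agent.Lib.H5C.ER3
import Pool.Agent.Lib.H56G.ErSmooth

/-!
# Chunk ER4: smooth candidates and multiples of elements of `D`
-/

open Finset Real
open Pool.Agent.Lib.H56G

namespace Pool.Agent.Lib.H5C

theorem er4_comb (z H p1 : ℕ) (hp1 : p1.Prime) :
    (((Icc 1 H).filter (fun h => ∀ p ∈ h.primeFactors, p ≤ z ∨ p = p1)).card) ≤
      (Nat.log 2 H + 1) * ((Icc 1 H).filter (fun h => ∀ p ∈ h.primeFactors, p ≤ z)).card := by
  classical
  have hsub : ((Icc 1 H).filter (fun h => ∀ p ∈ h.primeFactors, p ≤ z ∨ p = p1)) ⊆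
      ((range (Nat.log 2 H + 1)) ×ˢ ((Icc 1 H).filter (fun h => ∀ p ∈ h.primeFactors, p ≤ z))).image
        (fun x => p1 ^ x.1 * x.2) := by
    intro h hh
    rw [Finset.mem_filter, Finset.mem_Icc] at hh
    obtain ⟨⟨h1, hH⟩, hp⟩ := hh
    have h0 : h ≠ 0 := by omega
    obtain ⟨e, m, hm, he⟩ := Nat.exists_eq_pow_mul_and_not_dvd h0 p1 hp1.one_lt.ne'
    have hpe : 0 < p1 ^ e := pow_pos hp1.pos e
    have hm0 : m ≠ 0 := by
      rintro rfl
      exact h0 (by rw [he, mul_zero])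
    have hm1 : 1 ≤ m := Nat.pos_of_ne_zero hm0
    have hmh : m ≤ h := by
      rw [he]
      exact Nat.le_mul_of_pos_left m hpe
    rw [Finset.mem_image]
    refine ⟨(e, m), ?_, he.symm⟩
    rw [Finset.mem_product, Finset.mem_range, Finset.mem_filter, Finset.mem_Icc]
    refine ⟨?_, ⟨hm1, hmh.trans hH⟩, ?_⟩
    · have h2 : 2 ^ e ≤ H := by
        calc 2 ^ e ≤ p1 ^ e := Nat.pow_le_pow_left hp1.two_le e
          _ ≤ p1 ^ e * m := Nat.le_mul_of_pos_right _ hm1
          _ = h := he.symm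
          _ ≤ H := hH
      have := Nat.le_log_of_pow_le (b := 2) (by norm_num) h2
      show e < Nat.log 2 H + 1
      omega
    · intro p hpm
      have hpm' := Nat.mem_primeFactors.mp hpm
      have h3 : p ∈ h.primeFactors := by
        rw [Nat.mem_primeFactors]
        exact ⟨hpm'.1, he ▸ Dvd.dvd.mul_left hpm'.2.1 _, h0⟩
      rcases hp p h3 with h4 | h4
      · exact h4
      · exfalso
        rw [h4] at hpm'
        exact hm hpm'.2.1
  refine (Finset.card_le_card hsub).trans (Finset.card_image_le.trans ?_)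
  rw [Finset.card_product, Finset.card_range]

/-- The numerical part. -/
theorem er4_core (K l1 l2 l3 H z Ψ B : ℝ)
    (hl2 : exp l2 = l1) (hl3 : exp l3 = l2)
    (h1 : 100 ≤ l1) (h2 : 100 ≤ l2) (hl1K : 20 * exp K ≤ l1)
    (h12 : 80 * l2 ≤ l1)
    (hH : exp l1 ≤ H) (hz0 : 0 ≤ log z)
    (hz : log z ≤ l1 * l3 / (16 * l2)) (hzl : log z ≤ l1)
    (hΨ : Ψ ≤ H ^ (1 - 8 * l2 / l1) * (exp (K + 3 * exp (8 * l2 / l1 * log z)) * log z))
    (hB : B ≤ 4 * l1) (hΨ0 : 0 ≤ Ψ) :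
    B * Ψ ≤ H / l1 ^ 4 := by
  have hl10 : 0 < l1 := by linarith
  have hl20 : 0 < l2 := by linarith
  have hH0 : 0 < H := (Real.exp_pos _).trans_le hH
  have a1 : 8 * l2 / l1 * log z ≤ l3 / 2 := by
    calc 8 * l2 / l1 * log z ≤ 8 * l2 / l1 * (l1 * l3 / (16 * l2)) :=
          mul_le_mul_of_nonneg_left hz (by positivity)
      _ = l3 / 2 := by
          field_simp
          ring
  have a2 : exp (8 * l2 / l1 * log z) ≤ l2 / 3 := by
    have b1 : exp (8 * l2 / l1 * log z) ≤ exp (l3 / 2) := Real.exp_le_exp.mpr a1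
    have b2 : exp (l3 / 2) * exp (l3 / 2) = l2 := by
      rw [← Real.exp_add, ← hl3]; ring_nf
    have b3 : 0 < exp (l3 / 2) := Real.exp_pos _
    have b4 : 10 ≤ exp (l3 / 2) := by
      by_contra hcon
      push Not at hcon
      have : exp (l3 / 2) * exp (l3 / 2) < 10 * 10 := by
        apply mul_lt_mul'' hcon hcon b3.le b3.le
      linarith
    have b5 : 10 * exp (l3 / 2) ≤ l2 := by
      calc 10 * exp (l3 / 2) ≤ exp (l3 / 2) * exp (l3 / 2) :=
            mul_le_mul_of_nonneg_right b4 b3.le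
        _ = l2 := b2
    linarith
  have a3 : exp (K + 3 * exp (8 * l2 / l1 * log z)) ≤ exp K * l1 := by
    rw [Real.exp_add]
    apply mul_le_mul_of_nonneg_left _ (Real.exp_pos _).le
    calc exp (3 * exp (8 * l2 / l1 * log z)) ≤ exp l2 := by
          apply Real.exp_le_exp.mpr
          linarith
      _ = l1 := hl2
  have a4 : H ^ (1 - 8 * l2 / l1) ≤ H / l1 ^ 8 := by
    rw [Real.rpow_sub hH0, Real.rpow_one]
    apply div_le_div_of_nonneg_left hH0.le (by positivity)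
    calc l1 ^ 8 = exp (8 * l2) := by
          rw [← hl2, ← Real.exp_nat_mul]
          norm_num
      _ = exp (l1 * (8 * l2 / l1)) := by
          congr 1
          field_simp
      _ = (exp l1) ^ (8 * l2 / l1) := by rw [Real.exp_mul]
      _ ≤ H ^ (8 * l2 / l1) := Real.rpow_le_rpow (Real.exp_pos _).le hH (by positivity)
  have a5 : Ψ ≤ H / l1 ^ 8 * ((exp K * l1) * l1) := by
    refine hΨ.trans ?_
    apply mul_le_mul a4 _ (by positivity) (by positivity)
    exact mul_le_mul a3 hzl hz0 (by positivity)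
  have a6 : B * Ψ ≤ (4 * l1) * (H / l1 ^ 8 * ((exp K * l1) * l1)) :=
    mul_le_mul hB a5 hΨ0 (by positivity)
  refine a6.trans ?_
  have a7 : (4 * l1) * (H / l1 ^ 8 * ((exp K * l1) * l1)) = (H / l1 ^ 4) * (4 * exp K / l1) := by
    field_simp
  rw [a7]
  have a8 : 4 * exp K / l1 ≤ 1 := by
    rw [div_le_one hl10]
    have : 0 < exp K := Real.exp_pos _
    linarith
  calc (H / l1 ^ 4) * (4 * exp K / l1) ≤ (H / l1 ^ 4) * 1 :=
        mul_le_mul_of_nonneg_left a8 (by positivity)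
    _ = H / l1 ^ 4 := mul_one _

/-- `er_smooth` with `B = l3/2`, `η = B/log z` (cf. `er_main` in `H56G/ErMain.lean`):
`#{h ≤ H : all prime factors ≤ z} ≤ H^(1-η) exp (C B e^B) log z`, `H^(-η) ≤ (log y)^(-8)`,
`exp (C B e^B) ≤ log y`. With the additional prime `p1 > z`: `h = p1^b m`, apply the bound to
`H/p1^b`: geometric series `∑_b p1^(-b(1-η)) ≤ 4`. -/
theorem smooth_count (κ : ℝ) (hκ : 0 < κ) (hκ1 : κ ≤ 1) : ∃ y₀ : ℕ, ∀ y : ℕ, y₀ ≤ y →
    ∀ p1 : ℕ, p1.Prime →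
      (((Icc 1 (hE κ y)).filter (fun h => ∀ p ∈ h.primeFactors, p ≤ zE y ∨ p = p1)).card : ℝ) ≤
        hE κ y / (log y) ^ 4 := by
  obtain ⟨y₀, hy₀⟩ := er_sizes κ hκ hκ1
  set K : ℝ := 4 + 3 * H20R.K0 with hK
  have hK0 : 0 ≤ H20R.K0 := tsum_nonneg fun n => by positivity
  have t1 : Filter.Tendsto (fun y : ℕ => log (y : ℝ)) Filter.atTop Filter.atTop :=
    Real.tendsto_log_atTop.comp tendsto_natCast_atTop_atTop
  have e1 : ∀ᶠ v : ℝ in Filter.atTop, 80 * log v ≤ v := by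
    have h3 := Real.isLittleO_log_id_atTop.def (show (0 : ℝ) < 1 / 80 by norm_num)
    filter_upwards [h3, Filter.eventually_ge_atTop 1] with v hv hv1
    have hlog : 0 ≤ log v := Real.log_nonneg hv1
    rw [Real.norm_of_nonneg hlog, id, Real.norm_of_nonneg (by linarith)] at hv
    linarith
  obtain ⟨y₁, hy₁⟩ := Filter.eventually_atTop.mp
    ((t1.eventually_ge_atTop (20 * exp K)).and (t1.eventually e1))
  refine ⟨max y₀ y₁, fun y hy p1 hp1 => ?_⟩
  obtain ⟨h1, h2, h3, hw2, hwz, hzs, -, hH2, hHw, -, -, -, hHy, -, hz2, -, -, -⟩ :=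
    hy₀ y ((le_max_left _ _).trans hy)
  obtain ⟨a1, a2⟩ := hy₁ y ((le_max_right _ _).trans hy)
  have hsy : Nat.sqrt y ≤ y := Nat.sqrt_le_self y
  have hy0' : 0 < y := by omega
  have hy0 : (0 : ℝ) < y := by exact_mod_cast hy0'
  have hz0 : 2 ≤ zE y := by omega
  have hzpos : (0 : ℝ) < zE y := by
    have : 0 < zE y := by omega
    exact_mod_cast this
  have hHpos : (0 : ℝ) < hE κ y := by
    have : 0 < hE κ y := by omega
    exact_mod_cast this
  have hyH : (y : ℝ) ≤ hE κ y := by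
    have : y ≤ hE κ y := by omega
    exact_mod_cast this
  have hlogzy : log (zE y) ≤ log y := by
    apply Real.log_le_log hzpos
    have : zE y ≤ y := by omega
    exact_mod_cast this
  have hη : 8 * log (log y) / log y ≤ 1 / 10 := by
    rw [div_le_div_iff₀ (by linarith) (by norm_num)]
    linarith
  have hS := H20R.smooth_le (zE y) (hE κ y) hz0 (8 * log (log y) / log y)
    (by have : 0 < log (y : ℝ) := by linarith
        have : 0 < log (log (y : ℝ)) := by linarith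
        positivity) hη
  have hcomb := er4_comb (zE y) (hE κ y) p1 hp1
  have hcomb' : (((Icc 1 (hE κ y)).filter
      (fun h => ∀ p ∈ h.primeFactors, p ≤ zE y ∨ p = p1)).card : ℝ) ≤
      ((Nat.log 2 (hE κ y) : ℝ) + 1) *
        ((Icc 1 (hE κ y)).filter (fun h => ∀ p ∈ h.primeFactors, p ≤ zE y)).card := by
    exact_mod_cast hcomb
  have hB : (Nat.log 2 (hE κ y) : ℝ) + 1 ≤ 4 * log y := by
    have b1 : (2 : ℝ) ^ Nat.log 2 (hE κ y) ≤ hE κ y := by
      have := Nat.pow_log_le_self 2 (show hE κ y ≠ 0 by omega)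
      exact_mod_cast this
    have b2 := Real.log_le_log (by positivity) b1
    rw [Real.log_pow] at b2
    have b3 : (hE κ y : ℝ) ≤ y * y := by
      have h6 : wE y ≤ y := by omega
      have h7 : hE κ y ≤ y * y := hHw.le.trans (Nat.mul_le_mul_left y h6)
      exact_mod_cast h7
    have b4 := Real.log_le_log hHpos b3
    rw [Real.log_mul hy0.ne' hy0.ne'] at b4
    have b5 := Real.log_two_gt_d9
    have b6 : (0 : ℝ) ≤ Nat.log 2 (hE κ y) := Nat.cast_nonneg _
    have b7 : (2 / 3 : ℝ) * Nat.log 2 (hE κ y) ≤ Nat.log 2 (hE κ y) * log 2 := by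
      rw [mul_comm]
      apply mul_le_mul_of_nonneg_left _ b6
      linarith
    linarith
  refine hcomb'.trans ?_
  exact er4_core K (log y) (log (log y)) (log (log (log y))) (hE κ y) (zE y) _ _
    (Real.exp_log (by linarith)) (Real.exp_log (by linarith)) h1 h2 a1 a2
    (by rw [Real.exp_log hy0]; exact hyH)
    (Real.log_nonneg (by exact_mod_cast (show 1 ≤ zE y by omega))) hz2 hlogzy hS hB
    (Nat.cast_nonneg _)

/-- `∑_{d ∈ D} H/d ≤ (log y)^5 H/√y`. -/
theorem mult_count (κ : ℝ) (hκ : 0 < κ) (hκ1 : κ ≤ 1) : ∃ y₀ : ℕ, ∀ y : ℕ, y₀ ≤ y →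
    ∀ (D : Finset ℕ) (p1 : ℕ), OKD y D p1 →
      (((Icc 1 (hE κ y)).filter (fun h => ∃ d ∈ D, d ∣ h)).card : ℝ) ≤
        hE κ y / (log y) ^ 4 := by
  have t1 : Filter.Tendsto (fun y : ℕ => log (y : ℝ)) Filter.atTop Filter.atTop :=
    Real.tendsto_log_atTop.comp tendsto_natCast_atTop_atTop
  have e1 : ∀ᶠ v : ℝ in Filter.atTop, v ^ 9 ≤ exp (v / 2) := by
    have h3 := (isLittleO_pow_exp_pos_mul_atTop 9 (show (0 : ℝ) < 1 / 2 by norm_num)).def
      (show (0 : ℝ) < 1 by norm_num)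
    filter_upwards [h3, Filter.eventually_ge_atTop 0] with v hv hv1
    rw [Real.norm_of_nonneg (by positivity), Real.norm_of_nonneg (by positivity), one_mul] at hv
    calc v ^ 9 ≤ exp (1 / 2 * v) := hv
      _ = exp (v / 2) := by ring_nf
  obtain ⟨y₁, hy₁⟩ := Filter.eventually_atTop.mp
    ((t1.eventually_ge_atTop 1).and (t1.eventually e1))
  refine ⟨max 1 y₁, fun y hy D p1 hD => ?_⟩
  obtain ⟨a1, a2⟩ := hy₁ y ((le_max_right _ _).trans hy)
  have hy1 : 1 ≤ y := (le_max_left _ _).trans hy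
  have hy0 : (0 : ℝ) < y := by
    have : 0 < y := by omega
    exact_mod_cast this
  have hl0 : 0 < log (y : ℝ) := by linarith
  have hsub : (Icc 1 (hE κ y)).filter (fun h => ∃ d ∈ D, d ∣ h) ⊆
      D.biUnion (fun d => (Icc 1 (hE κ y)).filter (fun h => d ∣ h)) := by
    intro h hh
    rw [Finset.mem_filter] at hh
    obtain ⟨h1, d, hd, hdh⟩ := hh
    rw [Finset.mem_biUnion]
    exact ⟨d, hd, Finset.mem_filter.mpr ⟨h1, hdh⟩⟩
  have hcard : ∀ d : ℕ, ((Icc 1 (hE κ y)).filter (fun h => d ∣ h)).card = hE κ y / d := by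
    intro d
    have : Icc 1 (hE κ y) = Ioc 0 (hE κ y) := by
      ext a
      rw [Finset.mem_Icc, Finset.mem_Ioc]
      omega
    rw [this]
    exact Nat.Ioc_filter_dvd_card_eq_div _ _
  have hsq : √(y : ℝ) = exp (log y / 2) := by
    rw [Real.sqrt_eq_rpow, Real.rpow_def_of_pos hy0]
    congr 1
    ring
  have hsqpos : 0 < √(y : ℝ) := Real.sqrt_pos.mpr hy0
  have h1 : (((Icc 1 (hE κ y)).filter (fun h => ∃ d ∈ D, d ∣ h)).card : ℝ) ≤
      ∑ d ∈ D, ((hE κ y / d : ℕ) : ℝ) := by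
    have := (Finset.card_le_card hsub).trans Finset.card_biUnion_le
    rw [Finset.sum_congr rfl (fun d _ => hcard d)] at this
    exact_mod_cast this
  have h2 : ∑ d ∈ D, ((hE κ y / d : ℕ) : ℝ) ≤ ∑ _d ∈ D, (hE κ y / √(y : ℝ)) := by
    apply Finset.sum_le_sum
    intro d hd
    have h3 := (hD.2.1 d hd).2.1
    have h4 : √(y : ℝ) ≤ d := by
      have h5 : y < (Nat.sqrt y + 1) * (Nat.sqrt y + 1) := Nat.lt_succ_sqrt y
      have h6 : (Nat.sqrt y + 1) * (Nat.sqrt y + 1) ≤ d * d := Nat.mul_le_mul h3 h3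
      have h7 : (y : ℝ) ≤ (d : ℝ) ^ 2 := by
        rw [sq]
        exact_mod_cast (h5.le.trans h6)
      exact Real.sqrt_le_iff.mpr ⟨Nat.cast_nonneg _, h7⟩
    calc ((hE κ y / d : ℕ) : ℝ) ≤ (hE κ y : ℝ) / d := Nat.cast_div_le
      _ ≤ hE κ y / √(y : ℝ) := div_le_div_of_nonneg_left (Nat.cast_nonneg _) hsqpos h4
  refine h1.trans (h2.trans ?_)
  rw [Finset.sum_const, nsmul_eq_mul]
  calc (D.card : ℝ) * (hE κ y / √(y : ℝ)) ≤ (log y) ^ 5 * (hE κ y / √(y : ℝ)) :=
        mul_le_mul_of_nonneg_right hD.2.2 (by positivity)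
    _ = hE κ y * ((log y) ^ 5 / √(y : ℝ)) := by ring
    _ ≤ hE κ y * (1 / (log y) ^ 4) := by
        apply mul_le_mul_of_nonneg_left _ (Nat.cast_nonneg _)
        rw [div_le_div_iff₀ hsqpos (by positivity), one_mul, hsq, ← pow_add]
        exact a2
    _ = hE κ y / (log y) ^ 4 := by ring

end Pool.Agent.Lib.H5C
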