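import Pool.Agent.Lib.H5C.ER4

/-!
# Chunk ER5: candidates in intervals
-/

open Finset Real

namespace Pool.Agent.Lib.H5C

/-- The primes `q` such that `P q` is in an interval of length `d`. -/
theorem er5_count (C0 : ℝ) (hC0 : 0 < C0)
    (hBT : ∀ u h : ℕ, 2 ≤ h → (((Ioc u (u + h)).filter Nat.Prime).card : ℝ) ≤ C0 * (h / log h))
    (y : ℕ) (hy : 100 ≤ log (y : ℝ)) (P u d : ℕ) (hP : 0 < P)
    (hd : exp (log (y : ℝ) / 2) ≤ (d : ℝ) / P) :
    (((Ioc (u / P) (u / P + (d / P + 1))).filter Nat.Prime).card : ℝ) ≤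
      4 * C0 * (d / log (y : ℝ)) * (1 / P) := by
  have hP0 : (0 : ℝ) < P := by exact_mod_cast hP
  have h1 : (d : ℝ) / P ≤ ((d / P + 1 : ℕ) : ℝ) := by
    rw [div_le_iff₀ hP0]
    have h2 : d ≤ (d / P + 1) * P := by
      have := Nat.lt_mul_div_succ d hP
      rw [mul_comm]
      exact this.le
    exact_mod_cast h2
  have h2 : ((d / P + 1 : ℕ) : ℝ) ≤ 2 * ((d : ℝ) / P) := by
    push_cast
    have h3 : ((d / P : ℕ) : ℝ) ≤ (d : ℝ) / P := Nat.cast_div_le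
    have h4 : (1 : ℝ) ≤ exp (log (y : ℝ) / 2) := Real.one_le_exp (by linarith)
    linarith
  have h3 : (2 : ℝ) ≤ ((d / P + 1 : ℕ) : ℝ) := by
    have := Real.add_one_le_exp (log (y : ℝ) / 2)
    linarith
  have h4 : 2 ≤ d / P + 1 := by exact_mod_cast h3
  have h5 : log (y : ℝ) / 2 ≤ log ((d / P + 1 : ℕ) : ℝ) := by
    have := Real.log_le_log (Real.exp_pos _) (hd.trans h1)
    rwa [Real.log_exp] at this
  have h6 : 0 < log (y : ℝ) / 2 := by linarith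
  calc (((Ioc (u / P) (u / P + (d / P + 1))).filter Nat.Prime).card : ℝ)
      ≤ C0 * (((d / P + 1 : ℕ) : ℝ) / log ((d / P + 1 : ℕ) : ℝ)) := hBT _ _ h4
    _ ≤ C0 * ((2 * ((d : ℝ) / P)) / (log (y : ℝ) / 2)) := by
        apply mul_le_mul_of_nonneg_left _ hC0.le
        exact div_le_div₀ (by positivity) h2 h6 h5
    _ = 4 * C0 * (d / log (y : ℝ)) * (1 / P) := by
        field_simp
        ring

/-- The candidates of the form `p1^b q`. -/
theorem er5_pq (C0 : ℝ) (hC0 : 0 < C0)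
    (hBT : ∀ u h : ℕ, 2 ≤ h → (((Ioc u (u + h)).filter Nat.Prime).card : ℝ) ≤ C0 * (h / log h))
    (y : ℕ) (hy : 100 ≤ log (y : ℝ)) (p1 : ℕ) (hp1 : p1.Prime) (H u d : ℕ)
    (hd : ∀ b : ℕ, p1 ^ b * y ≤ H → exp (log (y : ℝ) / 2) ≤ (d : ℝ) / ((p1 ^ b : ℕ) : ℝ))
    (S : Finset ℕ) (hS : ∀ h ∈ S, 1 ≤ h ∧ h ≤ H ∧ u < h ∧ h ≤ u + d ∧
      ∃ b q : ℕ, q.Prime ∧ y < q ∧ h = p1 ^ b * q) :
    (S.card : ℝ) ≤ 8 * C0 * (d / log (y : ℝ)) := by
  classical
  set Bs := (range (Nat.log 2 H + 1)).filter (fun b => p1 ^ b * y ≤ H) with hBs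
  have hsub : S ⊆ Bs.biUnion (fun b =>
      ((Ioc (u / p1 ^ b) (u / p1 ^ b + (d / p1 ^ b + 1))).filter Nat.Prime).image
        (fun q => p1 ^ b * q)) := by
    intro h hh
    obtain ⟨h1, hH, hu, hud, b, q, hq, hyq, hbq⟩ := hS h hh
    have hpb : 0 < p1 ^ b := pow_pos hp1.pos b
    rw [Finset.mem_biUnion]
    refine ⟨b, ?_, ?_⟩
    · rw [hBs, Finset.mem_filter, Finset.mem_range]
      constructor
      · have h2 : 2 ^ b ≤ H := by
          calc 2 ^ b ≤ p1 ^ b := Nat.pow_le_pow_left hp1.two_le b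
            _ ≤ p1 ^ b * q := Nat.le_mul_of_pos_right _ hq.pos
            _ = h := hbq.symm
            _ ≤ H := hH
        have := Nat.le_log_of_pow_le (b := 2) (by norm_num) h2
        omega
      · calc p1 ^ b * y ≤ p1 ^ b * q := Nat.mul_le_mul_left _ hyq.le
          _ = h := hbq.symm
          _ ≤ H := hH
    · rw [Finset.mem_image]
      refine ⟨q, ?_, hbq.symm⟩
      rw [Finset.mem_filter, Finset.mem_Ioc]
      refine ⟨⟨?_, ?_⟩, hq⟩
      · rw [Nat.div_lt_iff_lt_mul hpb, mul_comm, ← hbq]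
        exact hu
      · by_contra hcon
        push Not at hcon
        have h3 : (u / p1 ^ b + (d / p1 ^ b + 1) + 1) * p1 ^ b ≤ q * p1 ^ b :=
          Nat.mul_le_mul_right _ hcon
        have h4 : u < (u / p1 ^ b + 1) * p1 ^ b := by
          have := Nat.lt_mul_div_succ u hpb
          rwa [mul_comm] at this
        have h5 : d < (d / p1 ^ b + 1) * p1 ^ b := by
          have := Nat.lt_mul_div_succ d hpb
          rwa [mul_comm] at this
        have h6 : (u / p1 ^ b + (d / p1 ^ b + 1) + 1) * p1 ^ b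
            = (u / p1 ^ b + 1) * p1 ^ b + (d / p1 ^ b + 1) * p1 ^ b := by ring
        have h7 : q * p1 ^ b = h := by rw [hbq, mul_comm]
        omega
  have h1 : (S.card : ℝ) ≤ ∑ b ∈ Bs,
      (((Ioc (u / p1 ^ b) (u / p1 ^ b + (d / p1 ^ b + 1))).filter Nat.Prime).card : ℝ) := by
    have h2 := (Finset.card_le_card hsub).trans Finset.card_biUnion_le
    have h3 := h2.trans (Finset.sum_le_sum (fun b _ => Finset.card_image_le))
    exact_mod_cast h3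
  have hl0 : 0 < log (y : ℝ) := by linarith
  have h2 : ∀ b ∈ Bs,
      (((Ioc (u / p1 ^ b) (u / p1 ^ b + (d / p1 ^ b + 1))).filter Nat.Prime).card : ℝ) ≤
        4 * C0 * (d / log (y : ℝ)) * (1 / 2) ^ b := by
    intro b hb
    rw [hBs, Finset.mem_filter] at hb
    have h3 := er5_count C0 hC0 hBT y hy (p1 ^ b) u d (pow_pos hp1.pos b) (hd b hb.2)
    refine h3.trans ?_
    apply mul_le_mul_of_nonneg_left _ (by positivity)
    rw [one_div_pow]
    apply one_div_le_one_div_of_le (by positivity)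
    push_cast
    apply pow_le_pow_left₀ (by norm_num)
    exact_mod_cast hp1.two_le
  refine h1.trans ((Finset.sum_le_sum h2).trans ?_)
  rw [← Finset.mul_sum]
  have h3 : ∑ b ∈ Bs, (1 / 2 : ℝ) ^ b ≤ 2 := by
    calc ∑ b ∈ Bs, (1 / 2 : ℝ) ^ b ≤ ∑ b ∈ range (Nat.log 2 H + 1), (1 / 2 : ℝ) ^ b :=
          Finset.sum_le_sum_of_subset_of_nonneg (Finset.filter_subset _ _)
            (fun _ _ _ => by positivity)
      _ ≤ 2 := sum_geometric_two_le _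
  calc 4 * C0 * (d / log (y : ℝ)) * ∑ b ∈ Bs, (1 / 2 : ℝ) ^ b
      ≤ 4 * C0 * (d / log (y : ℝ)) * 2 := mul_le_mul_of_nonneg_left h3 (by positivity)
    _ = 8 * C0 * (d / log (y : ℝ)) := by ring

theorem er5_pow : ∃ y₁ : ℕ, ∀ y : ℕ, y₁ ≤ y → 1 ≤ log (y : ℝ) ∧
    (log (y : ℝ)) ^ 3 * exp (log (y : ℝ) / 2) ≤ y := by
  have t1 : Filter.Tendsto (fun y : ℕ => log (y : ℝ)) Filter.atTop Filter.atTop :=
    Real.tendsto_log_atTop.comp tendsto_natCast_atTop_atTop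
  have e1 : ∀ᶠ v : ℝ in Filter.atTop, v ^ 3 ≤ exp (v / 2) := by
    have h3 := (isLittleO_pow_exp_pos_mul_atTop 3 (show (0 : ℝ) < 1 / 2 by norm_num)).def
      (show (0 : ℝ) < 1 by norm_num)
    filter_upwards [h3, Filter.eventually_ge_atTop 0] with v hv hv1
    rw [Real.norm_of_nonneg (by positivity), Real.norm_of_nonneg (by positivity), one_mul] at hv
    calc v ^ 3 ≤ exp (1 / 2 * v) := hv
      _ = exp (v / 2) := by ring_nf
  obtain ⟨y₁, hy₁⟩ := Filter.eventually_atTop.mp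
    ((t1.eventually_ge_atTop 1).and (t1.eventually e1))
  refine ⟨max 1 y₁, fun y hy => ?_⟩
  obtain ⟨a1, a2⟩ := hy₁ y ((le_max_right _ _).trans hy)
  have hy0 : (0 : ℝ) < y := by
    have : 1 ≤ y := (le_max_left _ _).trans hy
    exact_mod_cast this
  refine ⟨a1, ?_⟩
  calc (log (y : ℝ)) ^ 3 * exp (log (y : ℝ) / 2)
      ≤ exp (log (y : ℝ) / 2) * exp (log (y : ℝ) / 2) :=
        mul_le_mul_of_nonneg_right a2 (Real.exp_pos _).le
    _ = y := by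
        rw [← Real.exp_add, add_halves, Real.exp_log hy0]

/-- The candidates in `(u, u + d]`, `η H ≤ d ≤ H`, `η ≥ (log y)^(-3)`. By `re_cases` they are exceptional
(`smooth_count`, `mult_count`: at most `2 H/(log y)^4 ≤ 2 d/log y` in total) or of the form `p1^b q`,
`p1^b ≤ H/y`: for each `b`, `q` is in an interval of length `≤ d/p1^b + 1`, `d/p1^b ≥ η y ≥ y/(log y)^3`, so
`brun_titchmarsh` gives at most `C' (d/p1^b)/log y`; sum over `b`. -/
theorem re_interval : ∃ C : ℝ, 0 < C ∧ ∀ κ : ℝ, 0 < κ → κ ≤ 1 → ∃ y₀ : ℕ, ∀ y : ℕ, y₀ ≤ y →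
    ∀ (D : Finset ℕ) (p1 : ℕ), OKD y D p1 → ∀ (η : ℝ) (u d : ℕ), 1 / (log y) ^ 3 ≤ η → η ≤ 1 →
      η * hE κ y ≤ d → d ≤ hE κ y →
      (((RE κ y D p1).filter (fun h => u < h ∧ h ≤ u + d)).card : ℝ) ≤ C * (d / log y) := by
  classical
  obtain ⟨C0, hC0, hBT⟩ := brun_titchmarsh
  refine ⟨8 * C0 + 2, by positivity, fun κ hκ hκ1 => ?_⟩
  obtain ⟨y1, hy1⟩ := er_sizes κ hκ hκ1
  obtain ⟨y2, hy2⟩ := re_cases κ hκ hκ1
  obtain ⟨y3, hy3⟩ := smooth_count κ hκ hκ1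
  obtain ⟨y4, hy4⟩ := mult_count κ hκ hκ1
  obtain ⟨y5, hy5⟩ := er5_pow
  refine ⟨y1 + y2 + y3 + y4 + y5, fun y hy D p1 hD η u d hη0 hη1 hd1 hd2 => ?_⟩
  obtain ⟨hl1, -, -, -, -, -, -, hH2, -⟩ := hy1 y (by omega)
  have hcases := hy2 y (by omega) D p1 hD
  have hsm := hy3 y (by omega) p1 hD.1
  have hmu := hy4 y (by omega) D p1 hD
  obtain ⟨-, hpow⟩ := hy5 y (by omega)
  have hl0 : 0 < log (y : ℝ) := by linarith
  have hH0 : (0 : ℝ) ≤ hE κ y := Nat.cast_nonneg _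
  have hHd : (hE κ y : ℝ) ≤ d * (log (y : ℝ)) ^ 3 := by
    have h1 : 1 / (log (y : ℝ)) ^ 3 * hE κ y ≤ d :=
      (mul_le_mul_of_nonneg_right hη0 hH0).trans hd1
    rw [one_div_mul_eq_div, div_le_iff₀ (by positivity)] at h1
    exact h1
  have hex : (hE κ y : ℝ) / (log (y : ℝ)) ^ 4 ≤ d / log (y : ℝ) := by
    rw [div_le_div_iff₀ (by positivity) hl0]
    calc (hE κ y : ℝ) * log (y : ℝ) ≤ (d * (log (y : ℝ)) ^ 3) * log (y : ℝ) :=
          mul_le_mul_of_nonneg_right hHd hl0.le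
      _ = d * (log (y : ℝ)) ^ 4 := by ring
  set S0 := (RE κ y D p1).filter (fun h => u < h ∧ h ≤ u + d) with hS0
  set S := S0.filter (fun h => ∃ b q : ℕ, q.Prime ∧ y < q ∧ h = p1 ^ b * q) with hS
  have hsub : S0 ⊆ S ∪ ((Icc 1 (hE κ y)).filter (fun h => ∃ d ∈ D, d ∣ h) ∪
      (Icc 1 (hE κ y)).filter (fun h => ∀ p ∈ h.primeFactors, p ≤ zE y ∨ p = p1)) := by
    intro h hh
    have hh' := Finset.mem_filter.mp hh
    have hIcc : h ∈ Icc 1 (hE κ y) := by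
      have := hh'.1
      rw [RE, Finset.mem_filter] at this
      exact this.1
    rw [Finset.mem_union, Finset.mem_union]
    rcases hcases h hh'.1 with h1 | h1 | h1
    · exact Or.inl (Finset.mem_filter.mpr ⟨hh, h1⟩)
    · exact Or.inr (Or.inl (Finset.mem_filter.mpr ⟨hIcc, h1⟩))
    · exact Or.inr (Or.inr (Finset.mem_filter.mpr ⟨hIcc, h1⟩))
  have hScard : (S.card : ℝ) ≤ 8 * C0 * (d / log (y : ℝ)) := by
    refine er5_pq C0 hC0 hBT y hl1 p1 hD.1 (hE κ y) u d ?_ S ?_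
    · intro b hb
      have hpb : (0 : ℝ) < ((p1 ^ b : ℕ) : ℝ) := by
        have : 0 < p1 ^ b := pow_pos hD.1.pos b
        exact_mod_cast this
      rw [le_div_iff₀ hpb]
      have hb' : ((p1 ^ b : ℕ) : ℝ) * y ≤ hE κ y := by exact_mod_cast hb
      have h1 : ((p1 ^ b : ℕ) : ℝ) * ((log (y : ℝ)) ^ 3 * exp (log (y : ℝ) / 2)) ≤
          d * (log (y : ℝ)) ^ 3 :=
        ((mul_le_mul_of_nonneg_left hpow hpb.le).trans hb').trans hHd
      have h2 : 0 < (log (y : ℝ)) ^ 3 := by positivity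
      have h3 : exp (log (y : ℝ) / 2) * ((p1 ^ b : ℕ) : ℝ) * (log (y : ℝ)) ^ 3 ≤
          d * (log (y : ℝ)) ^ 3 := by
        calc exp (log (y : ℝ) / 2) * ((p1 ^ b : ℕ) : ℝ) * (log (y : ℝ)) ^ 3
            = ((p1 ^ b : ℕ) : ℝ) * ((log (y : ℝ)) ^ 3 * exp (log (y : ℝ) / 2)) := by ring
          _ ≤ d * (log (y : ℝ)) ^ 3 := h1
      exact le_of_mul_le_mul_right h3 h2
    · intro h hh
      have h1 := Finset.mem_filter.mp hh
      have h2 := Finset.mem_filter.mp h1.1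
      have h3 := h2.1
      rw [RE, Finset.mem_filter, Finset.mem_Icc] at h3
      exact ⟨h3.1.1, h3.1.2, h2.2.1, h2.2.2, h1.2⟩
  have hcard : (S0.card : ℝ) ≤ S.card +
      (((Icc 1 (hE κ y)).filter (fun h => ∃ d ∈ D, d ∣ h)).card +
      ((Icc 1 (hE κ y)).filter (fun h => ∀ p ∈ h.primeFactors, p ≤ zE y ∨ p = p1)).card) := by
    have h1 := Finset.card_le_card hsub
    have h2 := Finset.card_union_le S ((Icc 1 (hE κ y)).filter (fun h => ∃ d ∈ D, d ∣ h) ∪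
      (Icc 1 (hE κ y)).filter (fun h => ∀ p ∈ h.primeFactors, p ≤ zE y ∨ p = p1))
    have h3 := Finset.card_union_le ((Icc 1 (hE κ y)).filter (fun h => ∃ d ∈ D, d ∣ h))
      ((Icc 1 (hE κ y)).filter (fun h => ∀ p ∈ h.primeFactors, p ≤ zE y ∨ p = p1))
    have h4 : S0.card ≤ S.card + (((Icc 1 (hE κ y)).filter (fun h => ∃ d ∈ D, d ∣ h)).card +
      ((Icc 1 (hE κ y)).filter (fun h => ∀ p ∈ h.primeFactors, p ≤ zE y ∨ p = p1)).card) := by
      omega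
    exact_mod_cast h4
  have h5 : (8 * C0 + 2) * (d / log (y : ℝ)) =
      8 * C0 * (d / log (y : ℝ)) + (d / log (y : ℝ) + d / log (y : ℝ)) := by ring
  rw [h5]
  linarith

/-- `u = 0`, `d = H`, `η = 1`. -/
theorem re_upper : ∃ C : ℝ, 0 < C ∧ ∀ κ : ℝ, 0 < κ → κ ≤ 1 → ∃ y₀ : ℕ, ∀ y : ℕ, y₀ ≤ y →
    ∀ (D : Finset ℕ) (p1 : ℕ), OKD y D p1 →
      ((RE κ y D p1).card : ℝ) ≤ C * (hE κ y / log y) := by
  obtain ⟨C, hC, h⟩ := re_interval
  refine ⟨C, hC, fun κ hκ hκ1 => ?_⟩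
  obtain ⟨y1, hy1⟩ := h κ hκ hκ1
  obtain ⟨y2, hy2⟩ := er5_pow
  refine ⟨y1 + y2, fun y hy D p1 hD => ?_⟩
  obtain ⟨hl, -⟩ := hy2 y (by omega)
  have h1 := hy1 y (by omega) D p1 hD 1 0 (hE κ y)
    (by
      rw [div_le_one (by positivity)]
      exact one_le_pow₀ hl) le_rfl (by rw [one_mul]) le_rfl
  have h2 : (RE κ y D p1).filter (fun h => 0 < h ∧ h ≤ 0 + hE κ y) = RE κ y D p1 := by
    apply Finset.filter_true_of_mem
    intro x hx
    rw [RE, Finset.mem_filter, Finset.mem_Icc] at hx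
    omega
  rwa [h2] at h1

/-- For each `h ∈ RE` the candidates `h' ∈ (h, h + ⌈η H⌉]`. -/
theorem re_close : ∃ C : ℝ, 0 < C ∧ ∀ κ : ℝ, 0 < κ → κ ≤ 1 → ∃ y₀ : ℕ, ∀ y : ℕ, y₀ ≤ y →
    ∀ (D : Finset ℕ) (p1 : ℕ), OKD y D p1 → ∀ η : ℝ, 1 / (log y) ^ 3 ≤ η → η ≤ 1 →
      ((CP (RE κ y D p1) (η * hE κ y)).card : ℝ) ≤ C * η * (hE κ y / log y) ^ 2 := by
  classical
  obtain ⟨C, hC, h⟩ := re_interval
  obtain ⟨C', hC', h'⟩ := re_upper
  refine ⟨C' * (2 * C), by positivity, fun κ hκ hκ1 => ?_⟩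
  obtain ⟨y1, hy1⟩ := h κ hκ hκ1
  obtain ⟨y2, hy2⟩ := h' κ hκ hκ1
  obtain ⟨y3, hy3⟩ := er5_pow
  obtain ⟨y4, hy4⟩ := er_sizes κ hκ hκ1
  refine ⟨y1 + y2 + y3 + y4, fun y hy D p1 hD η hη0 hη1 => ?_⟩
  obtain ⟨hl, hpow⟩ := hy3 y (by omega)
  obtain ⟨hl1, -, -, -, -, -, -, hH2, -⟩ := hy4 y (by omega)
  have hl0 : 0 < log (y : ℝ) := by linarith
  have hη : 0 < η := lt_of_lt_of_le (by positivity) hη0
  set H := hE κ y with hHdef
  set d := ⌈η * (H : ℝ)⌉₊ with hddef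
  have hd1 : η * (H : ℝ) ≤ d := Nat.le_ceil _
  have hH0 : (0 : ℝ) ≤ H := Nat.cast_nonneg _
  have hd2 : d ≤ H := by
    rw [hddef, Nat.ceil_le]
    calc η * (H : ℝ) ≤ 1 * H := mul_le_mul_of_nonneg_right hη1 hH0
      _ = H := one_mul _
  have hyH : (y : ℝ) ≤ H := by
    have : y ≤ H := by omega
    exact_mod_cast this
  have hηH : 1 ≤ η * (H : ℝ) := by
    calc (1 : ℝ) ≤ exp (log (y : ℝ) / 2) := Real.one_le_exp (by linarith)
      _ = 1 / (log (y : ℝ)) ^ 3 * ((log (y : ℝ)) ^ 3 * exp (log (y : ℝ) / 2)) := by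
          field_simp
      _ ≤ 1 / (log (y : ℝ)) ^ 3 * y := mul_le_mul_of_nonneg_left hpow (by positivity)
      _ ≤ η * y := mul_le_mul_of_nonneg_right hη0 (Nat.cast_nonneg _)
      _ ≤ η * H := mul_le_mul_of_nonneg_left hyH hη.le
  have hd3 : (d : ℝ) ≤ 2 * (η * H) := by
    have := (Nat.ceil_lt_add_one (show 0 ≤ η * (H : ℝ) by positivity)).le
    rw [← hddef] at this
    linarith
  have hsub : CP (RE κ y D p1) (η * H) ⊆ (RE κ y D p1).biUnion (fun h =>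
      ((RE κ y D p1).filter (fun h' => h < h' ∧ h' ≤ h + d)).image (fun h' => (h, h'))) := by
    intro x hx
    rw [CP, Finset.mem_filter, Finset.mem_product] at hx
    rw [Finset.mem_biUnion]
    refine ⟨x.1, hx.1.1, ?_⟩
    rw [Finset.mem_image]
    refine ⟨x.2, ?_, rfl⟩
    rw [Finset.mem_filter]
    refine ⟨hx.1.2, hx.2.1, ?_⟩
    have h5 : (x.2 : ℝ) ≤ ((x.1 + d : ℕ) : ℝ) := by
      push_cast
      linarith [hx.2.2]
    exact_mod_cast h5
  have h1 : ((CP (RE κ y D p1) (η * H)).card : ℝ) ≤ ∑ h ∈ RE κ y D p1,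
      (((RE κ y D p1).filter (fun h' => h < h' ∧ h' ≤ h + d)).card : ℝ) := by
    have h2 := (Finset.card_le_card hsub).trans Finset.card_biUnion_le
    have h3 := h2.trans (Finset.sum_le_sum (fun b _ => Finset.card_image_le))
    exact_mod_cast h3
  refine h1.trans ?_
  have h2 : ∀ h ∈ RE κ y D p1,
      (((RE κ y D p1).filter (fun h' => h < h' ∧ h' ≤ h + d)).card : ℝ) ≤
        C * (2 * (η * H) / log (y : ℝ)) := by
    intro h _
    refine (hy1 y (by omega) D p1 hD η h d hη0 hη1 hd1 hd2).trans ?_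
    apply mul_le_mul_of_nonneg_left _ hC.le
    exact div_le_div_of_nonneg_right hd3 hl0.le
  refine (Finset.sum_le_sum h2).trans ?_
  rw [Finset.sum_const, nsmul_eq_mul]
  have h3 := hy2 y (by omega) D p1 hD
  calc ((RE κ y D p1).card : ℝ) * (C * (2 * (η * H) / log (y : ℝ)))
      ≤ (C' * (H / log (y : ℝ))) * (C * (2 * (η * H) / log (y : ℝ))) :=
        mul_le_mul_of_nonneg_right h3 (by positivity)
    _ = C' * (2 * C) * η * (H / log (y : ℝ)) ^ 2 := by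
        field_simp

end Pool.Agent.Lib.H5C
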