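import Pool.Agent.Lib.H5C.ER3
import Pool.Agent.Lib.H15P.NT1

/-!
# Chunk ER6b: Mertens products
-/

open Finset Real

namespace Pool.Agent.Lib.H5C

theorem ER6b_mem {y : ℕ} {D : Finset ℕ} {p1 p : ℕ} :
    p ∈ MS y D p1 ↔ p ≤ y ∧ p.Prime ∧ p ∉ D ∧ p ≠ p1 := by
  unfold MS
  rw [mem_filter, mem_Icc]
  constructor
  · rintro ⟨⟨_, h1⟩, h2⟩
    exact ⟨h1, h2⟩
  · rintro ⟨h1, h2⟩
    exact ⟨⟨h2.1.one_lt.le, h1⟩, h2⟩

theorem ER6b_pos (y : ℕ) (D : Finset ℕ) (p1 : ℕ) : 0 < MM y D p1 :=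
  prod_pos fun p hp => (ER6b_mem.mp hp).2.1.pos

theorem ER6b_totient (P : Finset ℕ) (hP : ∀ p ∈ P, p.Prime) :
    ((∏ p ∈ P, p).totient : ℝ) = (∏ p ∈ P, (p : ℝ)) * ∏ p ∈ P, (1 - 1 / (p : ℝ)) := by
  have h1 := Nat.totient_eq_mul_prod_factors (∏ p ∈ P, p)
  rw [Nat.primeFactors_prod hP] at h1
  have h2 : (((∏ p ∈ P, p).totient : ℚ) : ℝ) =
      ((((∏ p ∈ P, p : ℕ) : ℚ) * ∏ p ∈ P, (1 - (p : ℚ)⁻¹) : ℚ) : ℝ) := by rw [h1]
  push_cast at h2
  rw [h2]
  congr 1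
  refine prod_congr rfl fun p _ => ?_
  rw [one_div]

theorem ER6b_ev : ∀ᶠ x : ℝ in Filter.atTop, 0 < x ∧ 1 ≤ log (log x) ∧ 2 * (log x) ^ 5 ≤ √x ∧
    16 * log x ≤ √x ∧ 0.6 * √x ≤ Chebyshev.theta (√x) := by
  have hs : Filter.Tendsto (fun x : ℝ => √x) Filter.atTop Filter.atTop := tendsto_sqrt_atTop
  have h0 : ∀ᶠ x : ℝ in Filter.atTop, 0.6 * x ≤ Chebyshev.theta x := by
    have h1 := (isLittleO_log_rpow_atTop (show (0 : ℝ) < 1 / 2 by norm_num)).bound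
      (show (0 : ℝ) < 0.01 by norm_num)
    filter_upwards [h1, Filter.eventually_ge_atTop (100 : ℝ)] with x h2 hx
    have hx0 : 0 < x := by linarith
    have h3 := Chebyshev.theta_ge' (x := x) (by linarith)
    have hlog : 0 ≤ Real.log x := Real.log_nonneg (by linarith)
    rw [Real.norm_of_nonneg hlog, Real.norm_of_nonneg (by positivity), ← Real.sqrt_eq_rpow] at h2
    have hsq : Real.sqrt x * Real.sqrt x = x := Real.mul_self_sqrt hx0.le
    have hs0 : 0 ≤ Real.sqrt x := Real.sqrt_nonneg x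
    have hs1 : Real.sqrt x ≤ x := by
      rw [Real.sqrt_le_left hx0.le]
      nlinarith
    have h4 : 2 * Real.sqrt x * Real.log x ≤ 0.02 * x := by nlinarith
    have h5 : Real.log (x + 2) ≤ 2 * Real.log x := by
      have h6 : Real.log (x + 2) ≤ Real.log (x ^ 2) := by
        apply Real.log_le_log (by linarith)
        nlinarith
      rwa [Real.log_pow, Nat.cast_ofNat] at h6
    have h6 := Real.log_two_gt_d9
    have h7 := Real.log_two_lt_d9
    nlinarith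
  have h1 : ∀ᶠ x : ℝ in Filter.atTop, 2 * (log x) ^ 5 ≤ √x := by
    have h2 := (isLittleO_pow_log_id_atTop (n := 5)).bound (show (0 : ℝ) < 1 / 64 by norm_num)
    have h3 := hs.eventually h2
    filter_upwards [h3, Filter.eventually_ge_atTop (1 : ℝ)] with x hx hx1
    have h4 : log (√x) = log x / 2 := Real.log_sqrt (by linarith)
    have h5 : 0 ≤ log x := Real.log_nonneg hx1
    simp only [id, norm_eq_abs] at hx
    rw [h4, abs_of_nonneg (by positivity), abs_of_nonneg (Real.sqrt_nonneg x)] at hx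
    have h6 : (log x / 2) ^ 5 = (log x) ^ 5 / 32 := by ring
    rw [h6] at hx
    linarith
  have h2 : ∀ᶠ x : ℝ in Filter.atTop, 16 * log x ≤ √x := by
    have h2 := (isLittleO_pow_log_id_atTop (n := 1)).bound (show (0 : ℝ) < 1 / 32 by norm_num)
    have h3 := hs.eventually h2
    filter_upwards [h3, Filter.eventually_ge_atTop (1 : ℝ)] with x hx hx1
    have h4 : log (√x) = log x / 2 := Real.log_sqrt (by linarith)
    have h5 : 0 ≤ log x := Real.log_nonneg hx1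
    simp only [id, norm_eq_abs, pow_one] at hx
    rw [h4, abs_of_nonneg (by positivity), abs_of_nonneg (Real.sqrt_nonneg x)] at hx
    linarith
  have h3 : ∀ᶠ x : ℝ in Filter.atTop, 1 ≤ log (log x) :=
    (Real.tendsto_log_atTop.comp Real.tendsto_log_atTop).eventually_ge_atTop 1
  filter_upwards [Filter.eventually_gt_atTop (0 : ℝ), h3, h1, h2, hs.eventually h0]
    with x a1 a2 a3 a4 a5
  exact ⟨a1, a2, a3, a4, a5⟩

theorem ER6b_ev' : ∃ y₀ : ℕ, ∀ y : ℕ, y₀ ≤ y → 2 ≤ y ∧ (0 : ℝ) < y ∧ 1 ≤ log (log (y : ℝ)) ∧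
    2 * (log (y : ℝ)) ^ 5 ≤ √(y : ℝ) ∧ 16 * log (y : ℝ) ≤ √(y : ℝ) ∧
    0.6 * √(y : ℝ) ≤ Chebyshev.theta (√(y : ℝ)) := by
  have h1 := (tendsto_natCast_atTop_atTop (R := ℝ)).eventually ER6b_ev
  obtain ⟨y₀, hy⟩ := Filter.eventually_atTop.mp (h1.and (Filter.eventually_ge_atTop 2))
  exact ⟨y₀, fun y h => ⟨(hy y h).2, (hy y h).1⟩⟩

/-- `φ(M)/M ≤ 4/log y` for `M = MM y D p1`: `∏_{p ≤ y} (1 - 1/p) ≤ 1/log y`, the primes of `D` are
`> √y` and at most `(log y)^5`, so they change the product at most by `2`, and so does `p1`. -/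
theorem mm_totient : ∃ y₀ : ℕ, ∀ y : ℕ, y₀ ≤ y → ∀ (D : Finset ℕ) (p1 : ℕ), OKD y D p1 →
    0 < MM y D p1 ∧ ((MM y D p1).totient : ℝ) ≤ 4 * MM y D p1 / log y := by
  obtain ⟨y₀, hy₀⟩ := ER6b_ev'
  refine ⟨y₀, fun y hy D p1 hD => ⟨ER6b_pos y D p1, ?_⟩⟩
  obtain ⟨hy2, hy0, h2, h3, h4, -⟩ := hy₀ y hy
  obtain ⟨hp1, hDp, hDc⟩ := hD
  have hlog : 0 < log (y : ℝ) := Real.log_pos (by exact_mod_cast hy2)
  have hsq : 0 < √(y : ℝ) := Real.sqrt_pos.mpr hy0
  have e1 := ER6b_totient (MS y D p1) (fun p hp => (ER6b_mem.mp hp).2.1)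
  have e2 : ((MM y D p1 : ℕ) : ℝ) = ∏ p ∈ MS y D p1, (p : ℝ) := by
    unfold MM
    push_cast
    rfl
  have e3 : ((MM y D p1).totient : ℝ) =
      (MM y D p1 : ℝ) * ∏ p ∈ MS y D p1, (1 - 1 / (p : ℝ)) := by
    rw [e2, ← e1]
    rfl
  rw [e3]
  have hM : (0 : ℝ) ≤ MM y D p1 := Nat.cast_nonneg _
  suffices hs : ∏ p ∈ MS y D p1, (1 - 1 / (p : ℝ)) ≤ 4 / log y by
    calc _ ≤ (MM y D p1 : ℝ) * (4 / log y) := mul_le_mul_of_nonneg_left hs hM
      _ = _ := by ring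
  -- the complement
  have hsub : MS y D p1 ⊆ Sieve.primesUpTo y := by
    intro p hp
    have := ER6b_mem.mp hp
    exact Sieve.mem_primesUpTo.mpr ⟨this.2.1, this.1⟩
  have hprod := Sieve.prod_one_sub_inv_le y hy2
  rw [← prod_sdiff hsub] at hprod
  have hpos : ∀ p ∈ Sieve.primesUpTo y, 0 < 1 - 1 / (p : ℝ) := fun p hp =>
    H15P.NT1_pos p (Sieve.mem_primesUpTo.mp hp).1
  have hle1 : ∀ p : ℕ, 1 - 1 / (p : ℝ) ≤ 1 := fun p => by
    have : 0 ≤ 1 / (p : ℝ) := by positivity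
    linarith
  have hcomp : (1 : ℝ) / 4 ≤ ∏ p ∈ Sieve.primesUpTo y \ MS y D p1, (1 - 1 / (p : ℝ)) := by
    have hsub2 : Sieve.primesUpTo y \ MS y D p1 ⊆ insert p1 D := by
      intro p hp
      rw [mem_sdiff, Sieve.mem_primesUpTo, ER6b_mem] at hp
      rw [mem_insert]
      by_contra hcon
      rw [not_or] at hcon
      exact hp.2 ⟨hp.1.2, hp.1.1, hcon.2, hcon.1⟩
    have hposD : ∀ p ∈ insert p1 D, 0 < 1 - 1 / (p : ℝ) := by
      intro p hp
      rcases mem_insert.mp hp with rfl | hp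
      · exact H15P.NT1_pos p hp1
      · exact H15P.NT1_pos p (hDp p hp).1
    have h5 : ∏ p ∈ insert p1 D, (1 - 1 / (p : ℝ)) ≤
        ∏ p ∈ Sieve.primesUpTo y \ MS y D p1, (1 - 1 / (p : ℝ)) :=
      H15P.NT1_mono _ _ hsub2 _ _ (fun p hp => (hposD p hp).le) (fun p _ => le_rfl)
        (fun p _ => hle1 p)
    refine le_trans ?_ h5
    have h6 : (1 : ℝ) / 2 ≤ ∏ p ∈ D, (1 - 1 / (p : ℝ)) := by
      have h61 : 1 / √(y : ℝ) ≤ 1 := by
        rw [div_le_one hsq, Real.one_le_sqrt]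
        exact_mod_cast (by omega : 1 ≤ y)
      have h7 : (1 - 1 / √(y : ℝ)) ^ D.card ≤ ∏ p ∈ D, (1 - 1 / (p : ℝ)) := by
        rw [← prod_const]
        refine prod_le_prod (fun p hp => by linarith) (fun p hp => ?_)
        have h9 : √(y : ℝ) ≤ p := by
          have h10 : √(y : ℝ) ≤ (Nat.sqrt y : ℝ) + 1 := Real.real_sqrt_le_nat_sqrt_succ
          have h11 : ((Nat.sqrt y : ℕ) : ℝ) + 1 ≤ p := by exact_mod_cast (hDp p hp).2.1
          linarith
        have h10 : 1 / (p : ℝ) ≤ 1 / √(y : ℝ) := one_div_le_one_div_of_le hsq h9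
        linarith
      have h8 := one_add_mul_le_pow (a := -(1 / √(y : ℝ))) (by linarith) D.card
      have h9 : (D.card : ℝ) * (1 / √(y : ℝ)) ≤ 1 / 2 := by
        rw [mul_one_div, div_le_iff₀ hsq]
        linarith
      have h10 : (1 + -(1 / √(y : ℝ))) ^ D.card = (1 - 1 / √(y : ℝ)) ^ D.card := by
        rw [← sub_eq_add_neg]
      rw [h10] at h8
      linarith
    by_cases hmem : p1 ∈ D
    · rw [insert_eq_of_mem hmem]
      linarith
    · rw [prod_insert hmem]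
      have h11 : (1 : ℝ) / 2 ≤ 1 - 1 / (p1 : ℝ) := by
        have h12 : (2 : ℝ) ≤ p1 := by exact_mod_cast hp1.two_le
        have : 1 / (p1 : ℝ) ≤ 1 / 2 := one_div_le_one_div_of_le (by norm_num) h12
        linarith
      nlinarith
  have hm0 : 0 ≤ ∏ p ∈ MS y D p1, (1 - 1 / (p : ℝ)) :=
    prod_nonneg fun p hp => (hpos p (hsub hp)).le
  have hfin : 1 / 4 * ∏ p ∈ MS y D p1, (1 - 1 / (p : ℝ)) ≤ 1 / log y :=
    (mul_le_mul_of_nonneg_right hcomp hm0).trans hprod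
  have h13 : 4 / log (y : ℝ) = 4 * (1 / log (y : ℝ)) := by ring
  rw [h13]
  linarith

/-- `M ≤ primorial y ≤ 4^y`. -/
theorem mm_le (y : ℕ) (D : Finset ℕ) (p1 : ℕ) : MM y D p1 ≤ 4 ^ y := by
  refine le_trans ?_ (primorial_le_four_pow y)
  unfold MM primorial
  refine prod_le_prod_of_subset_of_one_le' ?_ ?_
  · intro p hp
    have := ER6b_mem.mp hp
    rw [mem_filter, mem_range]
    exact ⟨by omega, this.2.1⟩
  · intro p hp _
    exact (mem_filter.mp hp).2.one_lt.le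

/-- `M ≥ ∏_{p ≤ √y} p / √y`-type bound: the primes of `D` are `> √y`, so `log M ≥ θ(√y) - log y`
(`Chebyshev.theta_ge`), and this is `≥ log (y (log y)^2)` for large `y`. -/
theorem mm_ge : ∃ y₀ : ℕ, ∀ y : ℕ, y₀ ≤ y → ∀ (D : Finset ℕ) (p1 : ℕ), OKD y D p1 →
    ∀ κ : ℝ, 0 < κ → κ ≤ 1 → hE κ y < MM y D p1 := by
  obtain ⟨y₀, hy₀⟩ := ER6b_ev'
  refine ⟨y₀, fun y hy D p1 hD κ hκ hκ1 => ?_⟩
  obtain ⟨hy2, hy0, h2, h3, h4, h5⟩ := hy₀ y hy
  obtain ⟨hp1, hDp, hDc⟩ := hD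
  have hlog : 0 < log (y : ℝ) := Real.log_pos (by exact_mod_cast hy2)
  have hll : log (log (y : ℝ)) ≤ log (y : ℝ) := by
    have := Real.add_one_le_exp (log (log (y : ℝ)))
    rw [Real.exp_log hlog] at this
    linarith
  -- lower bound for `log M`
  have hθ : Chebyshev.theta (√(y : ℝ)) =
      ∑ p ∈ (Ioc 0 (Nat.sqrt y)).filter Nat.Prime, log (p : ℝ) := by
    unfold Chebyshev.theta
    rw [Real.nat_floor_real_sqrt_eq_nat_sqrt]
  have hlogM : log (MM y D p1 : ℝ) = ∑ p ∈ MS y D p1, log (p : ℝ) := by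
    unfold MM
    push_cast
    rw [Real.log_prod]
    intro p hp
    exact_mod_cast (ER6b_mem.mp hp).2.1.ne_zero
  have hsub : ((Ioc 0 (Nat.sqrt y)).filter Nat.Prime).erase p1 ⊆ MS y D p1 := by
    intro p hp
    rw [mem_erase, mem_filter, mem_Ioc] at hp
    rw [ER6b_mem]
    refine ⟨hp.2.1.2.trans (Nat.sqrt_le_self y), hp.2.2, fun hpD => ?_, hp.1⟩
    exact absurd (hDp p hpD).2.1 (by omega)
  have h6 : ∑ p ∈ ((Ioc 0 (Nat.sqrt y)).filter Nat.Prime).erase p1, log (p : ℝ) ≤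
      log (MM y D p1 : ℝ) := by
    rw [hlogM]
    refine sum_le_sum_of_subset_of_nonneg hsub (fun p hp _ => ?_)
    exact Real.log_natCast_nonneg p
  have h7 : Chebyshev.theta (√(y : ℝ)) - log y ≤
      ∑ p ∈ ((Ioc 0 (Nat.sqrt y)).filter Nat.Prime).erase p1, log (p : ℝ) := by
    rw [hθ]
    by_cases hmem : p1 ∈ (Ioc 0 (Nat.sqrt y)).filter Nat.Prime
    · rw [← add_sum_erase _ _ hmem]
      have h8 : log (p1 : ℝ) ≤ log y := by
        rw [mem_filter, mem_Ioc] at hmem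
        apply Real.log_le_log (by exact_mod_cast hmem.2.pos)
        exact_mod_cast hmem.1.2.trans (Nat.sqrt_le_self y)
      linarith
    · rw [erase_eq_of_notMem hmem]
      linarith
  -- upper bound for `log H`
  by_contra hcon
  rw [not_lt] at hcon
  have hMpos : (0 : ℝ) < MM y D p1 := by exact_mod_cast ER6b_pos y D p1
  have h8 : log (MM y D p1 : ℝ) ≤ log (hE κ y : ℝ) :=
    Real.log_le_log hMpos (by exact_mod_cast hcon)
  have hHpos : (0 : ℝ) < hE κ y := lt_of_lt_of_le hMpos (by exact_mod_cast hcon)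
  have hl3 : log (log (log (y : ℝ))) ≤ log (log (y : ℝ)) ^ 2 := by
    have := Real.add_one_le_exp (log (log (log (y : ℝ))))
    rw [Real.exp_log (by linarith : 0 < log (log (y : ℝ)))] at this
    nlinarith
  have hl30 : 0 ≤ log (log (log (y : ℝ))) := Real.log_nonneg h2
  have h9 : (hE κ y : ℝ) ≤ y * (log y) ^ 2 := by
    have h10 : (hE κ y : ℝ) ≤
        κ * (y * (log (y : ℝ)) ^ 2 * log (log (log (y : ℝ))) / (log (log (y : ℝ))) ^ 2) := by
      unfold hE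
      exact Nat.floor_le (by positivity)
    have h11 : y * (log (y : ℝ)) ^ 2 * log (log (log (y : ℝ))) / (log (log (y : ℝ))) ^ 2 ≤
        y * (log y) ^ 2 := by
      rw [div_le_iff₀ (by positivity)]
      exact mul_le_mul_of_nonneg_left hl3 (by positivity)
    have h12 : 0 ≤ y * (log (y : ℝ)) ^ 2 * log (log (log (y : ℝ))) / (log (log (y : ℝ))) ^ 2 := by
      positivity
    nlinarith
  have h10 : log (hE κ y : ℝ) ≤ log y + 2 * log (log y) := by
    refine (Real.log_le_log hHpos h9).trans ?_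
    rw [Real.log_mul (by positivity) (by positivity), Real.log_pow]
    push_cast
    exact le_rfl
  linarith

/-- The prime factors of `M` are at most `y`. -/
theorem mm_prime (y : ℕ) (D : Finset ℕ) (p1 p : ℕ) (hp : p.Prime) (h : p ∣ MM y D p1) :
    p ≤ y := by
  unfold MM at h
  obtain ⟨q, hq, hpq⟩ := (Prime.dvd_finsetProd_iff hp.prime _).mp h
  have h1 := ER6b_mem.mp hq
  have h2 : p = q := (Nat.prime_dvd_prime_iff_eq hp h1.2.1).mp hpq
  rw [h2]
  exact h1.1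

end Pool.Agent.Lib.H5C
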