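import Pool.Agent.Lib.H5C.ER3
import Pool.Agent.Lib.H15P.NT1

/-!
# Chunk ER6a: Mertens products
-/

open Finset Real

namespace Pool.Agent.Lib.H5C

/-- `mertens_prod_le` (`H15P/NT1.lean`); for the lower bound `∏_{p ≤ z} ≥ 1/(500 log z)`
(`Helper57.prod_one_sub_inv_inv_le`) and `∏_{p ≤ w} ≤ 1/log w` (`Sieve.prod_one_sub_inv_le`); the
prime `p1` changes the product at most by the factor `2`. -/
theorem pz_bounds (y p1 : ℕ) (hw : 2 ≤ wE y) (hwz : wE y < zE y) :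
    log (wE y) / (500 * log (zE y)) ≤ ∏ p ∈ PZ y p1, (1 - 1 / (p : ℝ)) ∧
    ∏ p ∈ PZ y p1, (1 - 1 / (p : ℝ)) ≤ 1000 * (log (wE y) / log (zE y)) := by
  set w := wE y
  set z := zE y
  have hlogw : 0 < log w := Real.log_pos (by exact_mod_cast (by omega : 1 < w))
  have hlogz : 0 < log z := Real.log_pos (by exact_mod_cast (by omega : 1 < z))
  set F := (Ioc w z).filter Nat.Prime with hF
  have hsub : PZ y p1 ⊆ F := by
    intro p hp
    rw [PZ, mem_filter] at hp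
    rw [hF, mem_filter]
    exact ⟨hp.1, hp.2.1⟩
  have hFpos : 0 < ∏ p ∈ F, (1 - 1 / (p : ℝ)) :=
    prod_pos fun p hp => H15P.NT1_pos p (mem_filter.1 hp).2
  have hPpos : 0 < ∏ p ∈ PZ y p1, (1 - 1 / (p : ℝ)) :=
    prod_pos fun p hp => H15P.NT1_pos p (mem_filter.1 (hsub hp)).2
  have hsd : (∏ p ∈ F \ PZ y p1, (1 - 1 / (p : ℝ))) * ∏ p ∈ PZ y p1, (1 - 1 / (p : ℝ)) =
      ∏ p ∈ F, (1 - 1 / (p : ℝ)) := prod_sdiff hsub
  have hle1 : ∏ p ∈ F \ PZ y p1, (1 - 1 / (p : ℝ)) ≤ 1 := by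
    apply prod_le_one
    · intro p hp
      exact (H15P.NT1_pos p (mem_filter.1 (mem_sdiff.1 hp).1).2).le
    · intro p _
      have : (0 : ℝ) ≤ 1 / p := by positivity
      linarith
  have hge : (1 : ℝ) / 2 ≤ ∏ p ∈ F \ PZ y p1, (1 - 1 / (p : ℝ)) := by
    have hsub2 : F \ PZ y p1 ⊆ {p1} := by
      intro p hp
      rw [mem_sdiff, hF, mem_filter, PZ, mem_filter] at hp
      rw [mem_singleton]
      by_contra h
      exact hp.2 ⟨hp.1.1, hp.1.2, h⟩
    rcases Finset.subset_singleton_iff.1 hsub2 with h | h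
    · rw [h, prod_empty]
      norm_num
    · have hp1 : p1.Prime := by
        have h1 : p1 ∈ F \ PZ y p1 := by
          rw [h]
          exact mem_singleton_self _
        exact (mem_filter.1 (mem_sdiff.1 h1).1).2
      rw [h, prod_singleton]
      have h2 : (2 : ℝ) ≤ p1 := by exact_mod_cast hp1.two_le
      have : 1 / (p1 : ℝ) ≤ 1 / 2 := one_div_le_one_div_of_le (by norm_num) h2
      linarith
  constructor
  · have h1 := Sieve.prod_one_sub_inv_le w hw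
    have h2 := Helper57.prod_one_sub_inv_inv_le z (by omega)
    rw [prod_inv_distrib, H15P.NT1_split _ w z hwz.le] at h2
    have hposw : 0 < ∏ p ∈ Sieve.primesUpTo w, (1 - 1 / (p : ℝ)) :=
      prod_pos fun p hp => H15P.NT1_pos p (Sieve.mem_primesUpTo.mp hp).1
    have h3 : ∏ p ∈ F, (1 - 1 / (p : ℝ)) ≤ ∏ p ∈ PZ y p1, (1 - 1 / (p : ℝ)) := by
      rw [← hsd]
      exact mul_le_of_le_one_left hPpos.le hle1
    refine le_trans ?_ h3
    have h4 : 1 ≤ (500 * log z) * ((∏ p ∈ Sieve.primesUpTo w, (1 - 1 / (p : ℝ))) *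
        ∏ p ∈ F, (1 - 1 / (p : ℝ))) := by
      have h5 : 0 < (∏ p ∈ Sieve.primesUpTo w, (1 - 1 / (p : ℝ))) *
        ∏ p ∈ F, (1 - 1 / (p : ℝ)) := mul_pos hposw hFpos
      rwa [inv_le_iff_one_le_mul₀ h5] at h2
    have h6 : (∏ p ∈ Sieve.primesUpTo w, (1 - 1 / (p : ℝ))) * log w ≤ 1 := by
      rwa [le_div_iff₀ hlogw] at h1
    rw [div_le_iff₀ (by positivity)]
    calc log w = log w * 1 := by ring
      _ ≤ log w * ((500 * log z) * ((∏ p ∈ Sieve.primesUpTo w, (1 - 1 / (p : ℝ))) *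
        ∏ p ∈ F, (1 - 1 / (p : ℝ)))) := mul_le_mul_of_nonneg_left h4 hlogw.le
      _ = ((∏ p ∈ Sieve.primesUpTo w, (1 - 1 / (p : ℝ))) * log w) *
        ((∏ p ∈ F, (1 - 1 / (p : ℝ))) * (500 * log z)) := by ring
      _ ≤ 1 * ((∏ p ∈ F, (1 - 1 / (p : ℝ))) * (500 * log z)) :=
        mul_le_mul_of_nonneg_right h6 (by positivity)
      _ = (∏ p ∈ F, (1 - 1 / (p : ℝ))) * (500 * log z) := one_mul _
  · have h1 := H15P.mertens_prod_le w z hw hwz.le
    have h2 : (1 / 2) * ∏ p ∈ PZ y p1, (1 - 1 / (p : ℝ)) ≤ ∏ p ∈ F, (1 - 1 / (p : ℝ)) := by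
      rw [← hsd]
      exact mul_le_mul_of_nonneg_right hge hPpos.le
    linarith

end Pool.Agent.Lib.H5C
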