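import Pool.Agent.Lib.H5C.ER2
import Pool.Agent.Lib.H5C.ER5
import Pool.Agent.Lib.H5C.ER6

/-!
# Chunk ER7a: the choice of the residue class modulo `M`
-/

open Finset Real

namespace Pool.Agent.Lib.H5C

/-- Chinese remainder theorem: for `y` large `MM y D p1 = ∏ PO · ∏ PZ` (`PZ ⊆ MS` as `z < √y`); for every
`a1` there is `a` with `a ≡ 0` mod `∏ PO`, `a ≡ a1` mod `∏ PZ`, and then `(a + h, M) = 1` iff no
`p ∈ PO` divides `h` and no `p ∈ PZ` divides `a1 + h`. -/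
theorem er_crt (κ : ℝ) (hκ : 0 < κ) (hκ1 : κ ≤ 1) : ∃ y₀ : ℕ, ∀ y : ℕ, y₀ ≤ y →
    ∀ (D : Finset ℕ) (p1 : ℕ), OKD y D p1 → ∀ a1 : ℕ, ∃ a : ℕ,
      SE κ y (MM y D p1) a = (RE κ y D p1).filter (fun h => ∀ p ∈ PZ y p1, ¬ p ∣ a1 + h) := by
  obtain ⟨y₀, hy₀⟩ := er_sizes κ hκ hκ1
  refine ⟨y₀, fun y hy D p1 hD a1 => ?_⟩
  obtain ⟨-, -, -, -, -, hz, -⟩ := hy₀ y hy
  obtain ⟨hp1, hDp, -⟩ := hD
  have hsub : PZ y p1 ⊆ MS y D p1 := by
    intro p hp
    unfold PZ at hp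
    unfold MS
    rw [Finset.mem_filter, Finset.mem_Ioc] at hp
    rw [Finset.mem_filter, Finset.mem_Icc]
    obtain ⟨⟨h1, h2⟩, h3, h4⟩ := hp
    have hs : Nat.sqrt y ≤ y := Nat.sqrt_le_self y
    refine ⟨⟨h3.one_lt.le, by omega⟩, h3, ?_, h4⟩
    intro h5
    have := (hDp p h5).2.1
    omega
  have hprime : ∀ p ∈ MS y D p1, p.Prime := by
    intro p hp
    unfold MS at hp
    exact (Finset.mem_filter.mp hp).2.1
  have hcop : Nat.Coprime (∏ p ∈ PO y D p1, p) (∏ p ∈ PZ y p1, p) := by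
    rw [Nat.coprime_prod_left_iff]
    intro p hp
    rw [Nat.coprime_prod_right_iff]
    intro q hq
    unfold PO at hp
    rw [Finset.mem_sdiff] at hp
    rw [Nat.coprime_primes (hprime p hp.1) (hprime q (hsub hq))]
    intro h
    exact hp.2 (h ▸ hq)
  obtain ⟨a, ha1, ha2⟩ := Nat.chineseRemainder hcop 0 a1
  refine ⟨a, ?_⟩
  have hPO : ∀ p ∈ PO y D p1, ∀ h : ℕ, (p ∣ a + h ↔ p ∣ h) := by
    intro p hp h
    have h1 : p ∣ a := by
      have h2 : p ∣ ∏ p ∈ PO y D p1, p := Finset.dvd_prod_of_mem _ hp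
      exact h2.trans ((Nat.modEq_zero_iff_dvd).mp ha1)
    exact (Nat.dvd_add_iff_right h1).symm
  have hPZ : ∀ p ∈ PZ y p1, ∀ h : ℕ, (p ∣ a + h ↔ p ∣ a1 + h) := by
    intro p hp h
    have h2 : p ∣ ∏ p ∈ PZ y p1, p := Finset.dvd_prod_of_mem _ hp
    have h3 : a ≡ a1 [MOD p] := ha2.of_dvd h2
    have h4 : a + h ≡ a1 + h [MOD p] := h3.add_right h
    exact h4.dvd_iff (dvd_refl p)
  ext h
  unfold SE RE MM
  rw [Finset.mem_filter, Finset.mem_filter, Finset.mem_filter, and_assoc]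
  apply and_congr_right
  intro _
  rw [Nat.coprime_prod_right_iff]
  constructor
  · intro hc
    constructor
    · intro p hp
      have hpM : p ∈ MS y D p1 := (Finset.mem_sdiff.mp hp).1
      have h5 := hc p hpM
      rw [Nat.coprime_comm, (hprime p hpM).coprime_iff_not_dvd] at h5
      rwa [hPO p hp h] at h5
    · intro p hp
      have h5 := hc p (hsub hp)
      rw [Nat.coprime_comm, (hprime p (hsub hp)).coprime_iff_not_dvd] at h5
      rwa [hPZ p hp h] at h5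
  · rintro ⟨h5, h6⟩ p hp
    rw [Nat.coprime_comm, (hprime p hp).coprime_iff_not_dvd]
    by_cases hz : p ∈ PZ y p1
    · rw [hPZ p hz h]
      exact h6 p hz
    · have hO : p ∈ PO y D p1 := Finset.mem_sdiff.mpr ⟨hp, hz⟩
      rw [hPO p hO h]
      exact h5 p hO

end Pool.Agent.Lib.H5C
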