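import Pool.Agent.Lib.H5C.ER2
import Pool.Agent.Lib.H5C.ER5
import Pool.Agent.Lib.H5C.ER6
import Pool.Agent.Lib.H5C.ER7a

/-!
# Chunk ER7b: the choice of the residue class modulo `M`
-/

open Finset Real

namespace Pool.Agent.Lib.H5C

/-- Arithmetic of the bounds: `A = (loglog y)^2/(log y logloglog y)`. -/
theorem ER7b_arith (κ y l1 l2 l3 H lw lz V : ℝ) (hκ : 0 < κ) (hy : 0 < y) (h1 : 0 < l1)
    (h2 : 0 < l2) (h3 : 0 < l3) (hlz : 0 < lz)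
    (a1 : κ * (y * l1 ^ 2 * l3 / l2 ^ 2) ≤ 2 * H) (a2 : H ≤ κ * (y * l1 ^ 2 * l3 / l2 ^ 2))
    (a3 : l1 * l3 / (32 * l2) ≤ lz) (a4 : lz ≤ l1 * l3 / (16 * l2))
    (a5 : l2 ≤ lw) (a6 : lw ≤ 3 * l2)
    (b1 : lw / (500 * lz) ≤ V) (b2 : V ≤ 1000 * (lw / lz)) :
    ∃ A : ℝ, 0 < A ∧ 16 / 500 * A ≤ V ∧ V ≤ 96000 * A ∧ κ * y / (2 * A) ≤ H / l1 ∧
      H / l1 ≤ κ * y / A := by
  refine ⟨l2 ^ 2 / (l1 * l3), by positivity, ?_, ?_, ?_, ?_⟩
  · refine le_trans ?_ b1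
    rw [le_div_iff₀ (by positivity)]
    calc 16 / 500 * (l2 ^ 2 / (l1 * l3)) * (500 * lz)
        ≤ 16 / 500 * (l2 ^ 2 / (l1 * l3)) * (500 * (l1 * l3 / (16 * l2))) := by gcongr
      _ = l2 := by field_simp
      _ ≤ lw := a5
  · refine b2.trans ?_
    rw [← mul_div_assoc, div_le_iff₀ hlz]
    calc 1000 * lw ≤ 1000 * (3 * l2) := by gcongr
      _ = 96000 * (l2 ^ 2 / (l1 * l3)) * (l1 * l3 / (32 * l2)) := by field_simp; ring
      _ ≤ 96000 * (l2 ^ 2 / (l1 * l3)) * lz := by gcongr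
  · have e : κ * y / (2 * (l2 ^ 2 / (l1 * l3))) =
        (κ * (y * l1 ^ 2 * l3 / l2 ^ 2)) / 2 / l1 := by field_simp
    rw [e]
    gcongr
    linarith
  · have e : κ * y / (l2 ^ 2 / (l1 * l3)) = (κ * (y * l1 ^ 2 * l3 / l2 ^ 2)) / l1 := by field_simp
    rw [e]
    gcongr

/-- `er_crt`, `average` with `C = CP (RE ..) (η H)`, `pz_bounds`, `re_lower`, `re_upper`, `re_close`,
`er_sizes`: `V H/log y` is between constants times `κ y`
(`V ≍ loglog y/log z ≍ (loglog y)²/(log y logloglog y)`, `H/log y ≍ κ y log y logloglog y/(loglog y)²`). -/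
theorem er : ∃ c1 C1 : ℝ, 0 < c1 ∧ 0 < C1 ∧ ∀ κ : ℝ, 0 < κ → κ ≤ 1 → ∃ y₀ : ℕ, ∀ y : ℕ, y₀ ≤ y →
    ∀ (D : Finset ℕ) (p1 : ℕ), OKD y D p1 → ∀ η : ℝ, 1 / (log y) ^ 3 ≤ η → η ≤ 1 → ∃ a : ℕ,
      c1 * (κ * y) ≤ (SE κ y (MM y D p1) a).card ∧
      ((SE κ y (MM y D p1) a).card : ℝ) ≤ C1 * (κ * y) ∧
      ((CP (SE κ y (MM y D p1) a) (η * hE κ y)).card : ℝ) ≤ C1 * η * (κ * y) ^ 2 := by
  obtain ⟨c, hc, hlow⟩ := re_lower
  obtain ⟨C, hC, hup⟩ := re_upper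
  obtain ⟨C', hC', hclose⟩ := re_close
  refine ⟨8 / 1000 * c, 192000 * C + 8 * 96000 ^ 2 * C', by positivity, by positivity,
    fun κ hκ hκ1 => ?_⟩
  obtain ⟨y1, hy1⟩ := er_sizes κ hκ hκ1
  obtain ⟨y2, hy2⟩ := hlow κ hκ hκ1
  obtain ⟨y3, hy3⟩ := hup κ hκ hκ1
  obtain ⟨y4, hy4⟩ := hclose κ hκ hκ1
  obtain ⟨y5, hy5⟩ := er_crt κ hκ hκ1
  obtain ⟨y6, hy6⟩ := exists_nat_ge (64 / (16 / 1000 * c * κ))
  refine ⟨max (max (max y1 y2) (max y3 y4)) (max y5 (y6 + 1)), fun y hy D p1 hD η hη hη1 => ?_⟩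
  simp only [max_le_iff] at hy
  obtain ⟨⟨⟨hya, hyb⟩, hyc, hyd⟩, hye, hyf⟩ := hy
  obtain ⟨s1, s2, s3, s4, s5, s6, s7, s8, s9, s10, s11, s12, s13, s14, s15, s16, s17, s18⟩ :=
    hy1 y hya
  have hR1 := hy2 y hyb D p1 hD
  have hR2 := hy3 y hyc D p1 hD
  have hR3 := hy4 y hyd D p1 hD η hη hη1
  have hcrt := hy5 y hye D p1 hD
  have hy0 : (0 : ℝ) < y := by
    have : 0 < y := by omega
    exact_mod_cast this
  have hη0 : 0 < η := lt_of_lt_of_le (by positivity) hη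
  obtain ⟨v1, v2⟩ := pz_bounds y p1 s4 s5
  have hlz : 0 < log (zE y : ℝ) := lt_of_lt_of_le (by positivity) s14
  obtain ⟨A, hA, c1, c2, c3, c4⟩ := ER7b_arith κ y (log y) (log (log y)) (log (log (log y)))
    (hE κ y) (log (wE y)) (log (zE y)) (∏ p ∈ PZ y p1, (1 - 1 / (p : ℝ))) hκ hy0 (by linarith)
    (by linarith) (by linarith) hlz s11 s12 s14 s15 s16 s17 v1 v2
  set V : ℝ := ∏ p ∈ PZ y p1, (1 - 1 / (p : ℝ)) with hV
  set R := RE κ y D p1 with hR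
  have hV0 : 0 < V := lt_of_lt_of_le (by positivity) c1
  have hVR1 : 16 / 1000 * c * (κ * y) ≤ V * R.card := by
    calc 16 / 1000 * c * (κ * y) = (16 / 500 * A) * (c * (κ * y / (2 * A))) := by
          field_simp
          ring
      _ ≤ V * (c * (hE κ y / log y)) := by gcongr
      _ ≤ V * R.card := by gcongr
  have hVR2 : V * R.card ≤ 96000 * C * (κ * y) := by
    calc V * R.card ≤ V * (C * (hE κ y / log y)) := by gcongr
      _ ≤ (96000 * A) * (C * (κ * y / A)) := by gcongr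
      _ = _ := by field_simp
  have hVC : V ^ 2 * ((CP R (η * hE κ y)).card : ℝ) ≤ 96000 ^ 2 * C' * η * (κ * y) ^ 2 := by
    have hn : (0 : ℝ) ≤ hE κ y / log y := le_trans (by positivity) c3
    calc V ^ 2 * ((CP R (η * hE κ y)).card : ℝ) ≤ V ^ 2 * (C' * η * (hE κ y / log y) ^ 2) := by
          gcongr
      _ ≤ (96000 * A) ^ 2 * (C' * η * (κ * y / A) ^ 2) := by gcongr
      _ = _ := by field_simp
  have hμ : 64 ≤ V * R.card := by
    refine le_trans ?_ hVR1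
    have h1 : 64 / (16 / 1000 * c * κ) ≤ (y : ℝ) := by
      refine hy6.trans ?_
      exact_mod_cast (by omega : y6 ≤ y)
    rw [div_le_iff₀ (by positivity)] at h1
    linarith
  obtain ⟨a1, -, d1, d2, d3⟩ := average (PZ y p1) (wE y) (hE κ y) s4
    (fun p hp => by
      unfold PZ at hp
      rw [mem_filter, mem_Ioc] at hp
      exact ⟨hp.2.1, hp.1.1⟩) R
    (fun h hh => by
      rw [hR] at hh
      unfold RE at hh
      rw [mem_filter, mem_Icc] at hh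
      exact hh.1) (CP R (η * hE κ y))
    (fun x hx => by
      unfold CP at hx
      rw [mem_filter, mem_product] at hx
      exact ⟨hx.1.1, hx.1.2, hx.2.1⟩) s18 hμ
  obtain ⟨a, ha⟩ := hcrt a1
  refine ⟨a, ?_, ?_, ?_⟩
  · rw [ha]
    refine le_trans ?_ d1
    linarith
  · rw [ha]
    refine d2.trans ?_
    have : 0 ≤ 8 * 96000 ^ 2 * C' * (κ * y) := by positivity
    linarith
  · have hsub : CP (SE κ y (MM y D p1) a) (η * hE κ y) ⊆
        (CP R (η * hE κ y)).filter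
          (fun x => ∀ p ∈ PZ y p1, ¬ p ∣ a1 + x.1 ∧ ¬ p ∣ a1 + x.2) := by
      intro x hx
      unfold CP at hx ⊢
      rw [ha] at hx
      rw [mem_filter, mem_product, mem_filter, mem_filter] at hx
      rw [mem_filter, mem_filter, mem_product]
      exact ⟨⟨⟨hx.1.1.1, hx.1.2.1⟩, hx.2⟩, fun p hp => ⟨hx.1.1.2 p hp, hx.1.2.2 p hp⟩⟩
    have h1 : ((CP (SE κ y (MM y D p1) a) (η * hE κ y)).card : ℝ) ≤
        (((CP R (η * hE κ y)).filter
          (fun x => ∀ p ∈ PZ y p1, ¬ p ∣ a1 + x.1 ∧ ¬ p ∣ a1 + x.2)).card : ℝ) := by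
      exact_mod_cast card_le_card hsub
    refine h1.trans (d3.trans ?_)
    have : 0 ≤ 192000 * C * η * (κ * y) ^ 2 := by positivity
    have h2 : 8 * V ^ 2 * ((CP R (η * hE κ y)).card : ℝ) =
      8 * (V ^ 2 * ((CP R (η * hE κ y)).card : ℝ)) := by ring
    rw [h2]
    linarith

end Pool.Agent.Lib.H5C
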