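import Pool.Agent.Lib.H5C.Defs

/-!
# Erdős-Rankin part: definitions
-/

open Finset Real

namespace Pool.Agent.Lib.H5C

noncomputable section

/-- `w = ⌈(log y)^2⌉` -/
def wE (y : ℕ) : ℕ := ⌈(log y) ^ 2⌉₊

/-- `log z = log y logloglog y/(16 loglog y)` -/
def zE (y : ℕ) : ℕ := ⌊exp (log y * log (log (log y)) / (16 * log (log y)))⌋₊

/-- `H = κ y (log y)^2 logloglog y/(loglog y)^2` -/
def hE (κ : ℝ) (y : ℕ) : ℕ :=
  ⌊κ * (y * (log y) ^ 2 * log (log (log y)) / (log (log y)) ^ 2)⌋₊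

/-- The primes for which the residue class is chosen at random. -/
def PZ (y p1 : ℕ) : Finset ℕ := (Ioc (wE y) (zE y)).filter (fun p => p.Prime ∧ p ≠ p1)

/-- The primes for which the residue class `0` is sieved out. -/
def PO (y : ℕ) (D : Finset ℕ) (p1 : ℕ) : Finset ℕ := MS y D p1 \ PZ y p1

/-- The candidates. -/
def RE (κ : ℝ) (y : ℕ) (D : Finset ℕ) (p1 : ℕ) : Finset ℕ :=
  (Icc 1 (hE κ y)).filter (fun h => ∀ p ∈ PO y D p1, ¬ p ∣ h)

/-- The survivors for the residue class `a` modulo `M`. -/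
def SE (κ : ℝ) (y M a : ℕ) : Finset ℕ :=
  (Icc 1 (hE κ y)).filter (fun h => Nat.Coprime (a + h) M)

/-- Pairs of elements of `R` at distance at most `d`. -/
def CP (R : Finset ℕ) (d : ℝ) : Finset (ℕ × ℕ) :=
  (R ×ˢ R).filter (fun x => x.1 < x.2 ∧ (x.2 : ℝ) ≤ x.1 + d)

/-- The set `D` is allowed. -/
def OKD (y : ℕ) (D : Finset ℕ) (p1 : ℕ) : Prop :=
  p1.Prime ∧ (∀ p ∈ D, p.Prime ∧ Nat.sqrt y < p ∧ p ≤ y) ∧ (D.card : ℝ) ≤ (log y) ^ 5

end

end Pool.Agent.Lib.H5C
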