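import Mathlib

/-!
# Chunk FA: abstract second moment argument
-/

open Finset

namespace Pool.Agent.Lib.H5C

/-- `∑_{N ≥ k+1} g N ≥ (k + 2) G`, so by Cauchy-Schwarz `∑_{N ≥ k+1} g ≥ G/B`; the `t` with `Cl t ≥ 1`
contribute at most `∑ g Cl ≤ G/(2B)`. -/
theorem second_moment (T : Finset ℕ) (g : ℕ → ℝ) (N Cl : ℕ → ℕ) (k : ℕ) (B : ℝ)
    (hg : ∀ t ∈ T, 0 ≤ g t) (hB : 0 < B)
    (h1 : (2 * (k : ℝ) + 2) * ∑ t ∈ T, g t ≤ ∑ t ∈ T, g t * N t)
    (h2 : ∑ t ∈ T, g t * (N t : ℝ) ^ 2 ≤ B * ((k : ℝ) + 1) ^ 2 * ∑ t ∈ T, g t)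
    (h3 : 2 * B * ∑ t ∈ T, g t * Cl t ≤ ∑ t ∈ T, g t) :
    (∑ t ∈ T, g t) / (2 * B) ≤ ∑ t ∈ T.filter (fun t => k + 1 ≤ N t ∧ Cl t = 0), g t := by
  classical
  set G : ℝ := ∑ t ∈ T, g t with hG
  have hG0 : 0 ≤ G := sum_nonneg hg
  set A := T.filter (fun t => k + 1 ≤ N t) with hA
  set G1 : ℝ := ∑ t ∈ A, g t with hG1
  have hk : (0 : ℝ) ≤ k := Nat.cast_nonneg k
  have hgA : ∀ t ∈ A, 0 ≤ g t := fun t ht => hg t (mem_filter.1 ht).1
  have hG10 : 0 ≤ G1 := sum_nonneg hgA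
  -- the part with small `N`
  have hsmall : ∑ t ∈ T.filter (fun t => ¬ k + 1 ≤ N t), g t * N t ≤ k * G := by
    calc ∑ t ∈ T.filter (fun t => ¬ k + 1 ≤ N t), g t * N t
        ≤ ∑ t ∈ T.filter (fun t => ¬ k + 1 ≤ N t), g t * k := by
          refine sum_le_sum fun t ht => ?_
          obtain ⟨h4, h5⟩ := mem_filter.1 ht
          have h6 : (N t : ℝ) ≤ k := by
            have : N t ≤ k := by omega
            exact_mod_cast this
          exact mul_le_mul_of_nonneg_left h6 (hg t h4)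
      _ ≤ ∑ t ∈ T, g t * k := by
          refine sum_le_sum_of_subset_of_nonneg (filter_subset _ _) fun t ht _ => ?_
          exact mul_nonneg (hg t ht) hk
      _ = k * G := by rw [← sum_mul, mul_comm]
  have hsplit : ∑ t ∈ A, g t * N t + ∑ t ∈ T.filter (fun t => ¬ k + 1 ≤ N t), g t * N t =
      ∑ t ∈ T, g t * N t := sum_filter_add_sum_filter_not _ _ _
  have hbig : (k + 2) * G ≤ ∑ t ∈ A, g t * N t := by nlinarith
  -- Cauchy-Schwarz
  have hcs : (∑ t ∈ A, g t * N t) ^ 2 ≤ G1 * ∑ t ∈ A, g t * (N t : ℝ) ^ 2 := by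
    have h4 := sum_mul_sq_le_sq_mul_sq A (fun t => Real.sqrt (g t)) (fun t => Real.sqrt (g t) * N t)
    have h5 : ∑ t ∈ A, Real.sqrt (g t) * (Real.sqrt (g t) * N t) = ∑ t ∈ A, g t * N t := by
      refine sum_congr rfl fun t ht => ?_
      rw [← mul_assoc, Real.mul_self_sqrt (hgA t ht)]
    have h6 : ∑ t ∈ A, Real.sqrt (g t) ^ 2 = G1 := by
      refine sum_congr rfl fun t ht => ?_
      rw [Real.sq_sqrt (hgA t ht)]
    have h7 : ∑ t ∈ A, (Real.sqrt (g t) * N t) ^ 2 = ∑ t ∈ A, g t * (N t : ℝ) ^ 2 := by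
      refine sum_congr rfl fun t ht => ?_
      rw [mul_pow, Real.sq_sqrt (hgA t ht)]
    rw [h5, h6, h7] at h4
    exact h4
  have hA2 : ∑ t ∈ A, g t * (N t : ℝ) ^ 2 ≤ B * ((k : ℝ) + 1) ^ 2 * G := by
    refine le_trans (sum_le_sum_of_subset_of_nonneg (filter_subset _ _) fun t ht _ => ?_) h2
    exact mul_nonneg (hg t ht) (sq_nonneg _)
  have hmain : G / B ≤ G1 := by
    rcases hG0.eq_or_lt with h0 | h0
    · rw [← h0, zero_div]; exact hG10
    · rw [div_le_iff₀ hB]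
      have h4 : ((k + 2) * G) ^ 2 ≤ G1 * (B * ((k : ℝ) + 1) ^ 2 * G) := by
        calc ((k + 2) * G) ^ 2 ≤ (∑ t ∈ A, g t * N t) ^ 2 :=
              pow_le_pow_left₀ (by positivity) hbig 2
          _ ≤ G1 * ∑ t ∈ A, g t * (N t : ℝ) ^ 2 := hcs
          _ ≤ _ := mul_le_mul_of_nonneg_left hA2 hG10
      have h5 : ((k : ℝ) + 1) ^ 2 * G * G ≤ ((k : ℝ) + 1) ^ 2 * G * (G1 * B) := by
        calc ((k : ℝ) + 1) ^ 2 * G * G ≤ ((k + 2) * G) ^ 2 := by
              have : ((k : ℝ) + 1) ^ 2 ≤ (k + 2) ^ 2 := by nlinarith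
              nlinarith [mul_nonneg hG0 hG0]
          _ ≤ G1 * (B * ((k : ℝ) + 1) ^ 2 * G) := h4
          _ = _ := by ring
      exact le_of_mul_le_mul_left h5 (by positivity)
  -- the part with `Cl ≥ 1`
  have hsub : ∑ t ∈ A.filter (fun t => ¬ Cl t = 0), g t ≤ ∑ t ∈ T, g t * Cl t := by
    calc ∑ t ∈ A.filter (fun t => ¬ Cl t = 0), g t
        ≤ ∑ t ∈ A.filter (fun t => ¬ Cl t = 0), g t * Cl t := by
          refine sum_le_sum fun t ht => ?_
          obtain ⟨h4, h5⟩ := mem_filter.1 ht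
          have h6 : (1 : ℝ) ≤ Cl t := by
            have : 1 ≤ Cl t := by omega
            exact_mod_cast this
          calc g t = g t * 1 := (mul_one _).symm
            _ ≤ g t * Cl t := mul_le_mul_of_nonneg_left h6 (hgA t h4)
      _ ≤ ∑ t ∈ T, g t * Cl t := by
          refine sum_le_sum_of_subset_of_nonneg
            ((filter_subset _ _).trans (filter_subset _ _)) fun t ht _ => ?_
          exact mul_nonneg (hg t ht) (Nat.cast_nonneg _)
  have hcl : ∑ t ∈ T, g t * Cl t ≤ G / (2 * B) := by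
    rw [le_div_iff₀ (by positivity)]
    linarith
  have hsplit2 : ∑ t ∈ A.filter (fun t => Cl t = 0), g t +
      ∑ t ∈ A.filter (fun t => ¬ Cl t = 0), g t = G1 := sum_filter_add_sum_filter_not _ _ _
  have hfin : T.filter (fun t => k + 1 ≤ N t ∧ Cl t = 0) = A.filter (fun t => Cl t = 0) := by
    rw [hA, filter_filter]
  rw [hfin]
  have h8 : G / B = G / (2 * B) + G / (2 * B) := by
    field_simp
    ring
  linarith

end Pool.Agent.Lib.H5C
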