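import Pool.Agent.Lib.H5C.ERD
import Pool.Agent.Lib.H56G.ErMain

/-!
# Chunk FB2: the size of the gaps in terms of `x`; from windows to the sequence of primes
-/

open Finset Filter

namespace Pool.Agent.Lib.H5C

/-- If a window `(m, m + H]` contains at least `k + 1` primes and any two different primes of it are more
than `d` apart, then with `p_n` the least of them (`n` = number of primes `≤ m`)
`p_(n+i+1) - p_(n+i) > d` for `i < k` and `p_(n+k) ≤ m + H`. -/
theorem chain_of_window (m H k : ℕ) (d : ℝ)
    (hk : k + 1 ≤ ((Ioc m (m + H)).filter Nat.Prime).card)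
    (hd : ∀ p q : ℕ, p.Prime → q.Prime → m < p → p < q → q ≤ m + H → d < (q : ℝ) - p) :
    ∃ n : ℕ, m < Nat.nth Nat.Prime n ∧ Nat.nth Nat.Prime (n + k) ≤ m + H ∧
      ∀ i < k, d < (Nat.nth Nat.Prime (n + i + 1) : ℝ) - Nat.nth Nat.Prime (n + i) := by
  have hinf : (Set.ofPred Nat.Prime).Infinite := Nat.infinite_setOfPred_prime
  have h1 : m < Nat.nth Nat.Prime (Nat.count Nat.Prime (m + 1)) :=
    Nat.lt_of_succ_le (Nat.le_nth_count hinf (m + 1))
  have h2 : Nat.nth Nat.Prime (Nat.count Nat.Prime (m + 1) + k) ≤ m + H := by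
    refine Nat.le_of_lt_succ (Nat.nth_lt_of_lt_count ?_)
    have e : ∀ n, Nat.count Nat.Prime n = ((range n).filter Nat.Prime).card := fun n =>
      (Nat.count_eq_card_filter_range Nat.Prime n)
    rw [e, e]
    have hdis : Disjoint ((range (m + 1)).filter Nat.Prime) ((Ioc m (m + H)).filter Nat.Prime) := by
      rw [Finset.disjoint_left]
      intro a ha hb
      rw [Finset.mem_filter, Finset.mem_range] at ha
      rw [Finset.mem_filter, Finset.mem_Ioc] at hb
      omega
    have hsub : (range (m + 1)).filter Nat.Prime ∪ (Ioc m (m + H)).filter Nat.Prime ⊆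
        (range (m + H).succ).filter Nat.Prime := by
      intro a ha
      rw [Finset.mem_union, Finset.mem_filter, Finset.mem_filter, Finset.mem_range,
        Finset.mem_Ioc] at ha
      rw [Finset.mem_filter, Finset.mem_range]
      rcases ha with ha | ha
      · exact ⟨by omega, ha.2⟩
      · exact ⟨by omega, ha.2⟩
    have := Finset.card_le_card hsub
    rw [Finset.card_union_of_disjoint hdis] at this
    omega
  refine ⟨_, h1, h2, fun i hi => ?_⟩
  refine hd _ _ (Nat.nth_mem_of_infinite hinf _) (Nat.nth_mem_of_infinite hinf _) ?_ ?_ ?_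
  · exact h1.trans_le (Nat.nth_monotone hinf (by omega))
  · exact Nat.nth_strictMono hinf (by omega)
  · exact (Nat.nth_monotone hinf (by omega)).trans h2

end Pool.Agent.Lib.H5C
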