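import Pool.Agent.Lib.H5C.ERD
import Pool.Agent.Lib.H56G.ErMain

/-!
# Chunk FB1: the size of the gaps in terms of `x`; from windows to the sequence of primes
-/

open Finset Filter

namespace Pool.Agent.Lib.H5C

theorem fb1_ff_up (X x L1 L2 L3 L4 : ℝ) (hX : 1 ≤ X) (hx : X ≤ x) (hx2 : x ≤ 100 * X + 100)
    (h1 : L1 = Real.log X) (h2 : L2 = Real.log L1) (h3 : L3 = Real.log L2)
    (h4 : L4 = Real.log L3) (b1 : 6 ≤ L1) (b2 : 1 ≤ L2) (b3 : 1 ≤ L3) (b4 : 1 ≤ L4) :
    Pool.Agent.Lib.H56G.ff x ≤ 16 * (L1 * L2 ^ 2 * L4 / L3 ^ 2) := by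
  unfold Pool.Agent.Lib.H56G.ff
  have hl2 : Real.log 2 ≤ 1 := by
    have := Real.log_two_lt_d9
    linarith
  have hl200 : Real.log 200 ≤ 6 := by
    have : (200 : ℝ) ≤ 2 ^ 8 := by norm_num
    have h := Real.log_le_log (by norm_num) this
    rw [Real.log_pow] at h
    have := Real.log_two_lt_d9
    push_cast at h
    linarith
  have u1 : Real.log x ≤ 2 * L1 := by
    have : x ≤ 200 * X := by linarith
    have h := Real.log_le_log (by linarith) this
    rw [Real.log_mul (by norm_num) (by linarith)] at h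
    linarith
  have l1 : L1 ≤ Real.log x := by
    rw [h1]
    exact Real.log_le_log (by linarith) hx
  have u2 : Real.log (Real.log x) ≤ 2 * L2 := by
    have h := Real.log_le_log (by linarith) u1
    rw [Real.log_mul (by norm_num) (by linarith)] at h
    linarith
  have l2 : L2 ≤ Real.log (Real.log x) := by
    rw [h2]
    exact Real.log_le_log (by linarith) l1
  have u3 : Real.log (Real.log (Real.log x)) ≤ 2 * L3 := by
    have h := Real.log_le_log (by linarith) u2
    rw [Real.log_mul (by norm_num) (by linarith)] at h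
    linarith
  have l3 : L3 ≤ Real.log (Real.log (Real.log x)) := by
    rw [h3]
    exact Real.log_le_log (by linarith) l2
  have u4 : Real.log (Real.log (Real.log (Real.log x))) ≤ 2 * L4 := by
    have h := Real.log_le_log (by linarith) u3
    rw [Real.log_mul (by norm_num) (by linarith)] at h
    linarith
  have l4 : L4 ≤ Real.log (Real.log (Real.log (Real.log x))) := by
    rw [h4]
    exact Real.log_le_log (by linarith) l3
  calc Real.log x * (Real.log (Real.log x)) ^ 2 *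
        Real.log (Real.log (Real.log (Real.log x))) / (Real.log (Real.log (Real.log x))) ^ 2
      ≤ (2 * L1) * (2 * L2) ^ 2 * (2 * L4) / L3 ^ 2 := by
        apply div_le_div₀ (by positivity) _ (by positivity)
        · exact pow_le_pow_left₀ (by linarith) l3 2
        · apply mul_le_mul _ u4 (by linarith) (by positivity)
          apply mul_le_mul u1 _ (by positivity) (by linarith)
          exact pow_le_pow_left₀ (by linarith) u2 2
    _ = 16 * (L1 * L2 ^ 2 * L4 / L3 ^ 2) := by ring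

theorem fb1_hE_low (κ δ L1 L2 L3 L4 : ℝ) (hκ : 0 < κ) (hδ : 0 < δ) (hδ1 : δ ≤ 1)
    (h2 : L2 = Real.log L1) (h3 : L3 = Real.log L2)
    (h4 : L4 = Real.log L3) (b1 : 2 ≤ δ * L1) (b1' : 1 ≤ L1) (b2 : 2 * Real.log (2 / δ) ≤ L2)
    (b2' : 4 ≤ L2)
    (b3 : 4 ≤ L3) (b4 : 2 ≤ L4) :
    κ * δ / 16 * (L1 * L2 ^ 2 * L4 / L3 ^ 2) - 1 ≤ hE κ ⌊δ * L1⌋₊ := by
  have hl2 : Real.log 2 ≤ 1 := by
    have := Real.log_two_lt_d9
    linarith
  unfold hE
  set y : ℝ := ((⌊δ * L1⌋₊ : ℕ) : ℝ) with hy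
  have y1 : δ * L1 / 2 ≤ y := by
    have := Nat.lt_floor_add_one (δ * L1)
    rw [← hy] at this
    linarith
  have y2 : y ≤ L1 := by
    have h := Nat.floor_le (by positivity : 0 ≤ δ * L1)
    rw [← hy] at h
    nlinarith
  have y0 : 0 < y := by linarith
  have l1 : L2 / 2 ≤ Real.log y := by
    have h := Real.log_le_log (by linarith) y1
    have e : δ * L1 / 2 = L1 / (2 / δ) := by
      field_simp
    rw [e, Real.log_div (by linarith) (by positivity), ← h2] at h
    linarith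
  have u1 : Real.log y ≤ L2 := by
    rw [h2]
    exact Real.log_le_log y0 y2
  have l2 : L3 / 2 ≤ Real.log (Real.log y) := by
    have h := Real.log_le_log (by linarith) l1
    rw [Real.log_div (by linarith) (by norm_num), ← h3] at h
    linarith
  have u2 : Real.log (Real.log y) ≤ L3 := by
    rw [h3]
    exact Real.log_le_log (by linarith) u1
  have l3 : L4 / 2 ≤ Real.log (Real.log (Real.log y)) := by
    have h := Real.log_le_log (by linarith) l2
    rw [Real.log_div (by linarith) (by norm_num), ← h4] at h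
    linarith
  have key : κ * δ / 16 * (L1 * L2 ^ 2 * L4 / L3 ^ 2) ≤
      κ * (y * (Real.log y) ^ 2 * Real.log (Real.log (Real.log y)) /
        (Real.log (Real.log y)) ^ 2) := by
    calc κ * δ / 16 * (L1 * L2 ^ 2 * L4 / L3 ^ 2)
        = κ * ((δ * L1 / 2) * (L2 / 2) ^ 2 * (L4 / 2) / L3 ^ 2) := by ring
      _ ≤ _ := by
        apply mul_le_mul_of_nonneg_left _ hκ.le
        apply div_le_div₀
        · apply mul_nonneg
          · positivity
          · linarith
        · apply mul_le_mul _ l3 (by linarith) (by positivity)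
          apply mul_le_mul y1 _ (by positivity) y0.le
          exact pow_le_pow_left₀ (by linarith) l1 2
        · have : 0 < Real.log (Real.log y) := by linarith
          positivity
        · exact pow_le_pow_left₀ (by linarith) u2 2
  have hfl := Nat.lt_floor_add_one (κ * (y * (Real.log y) ^ 2 *
    Real.log (Real.log (Real.log y)) / (Real.log (Real.log y)) ^ 2))
  linarith

/-- `ff x` (`H56G/ErMain.lean`) and `hE κ ⌊δ log X⌋` have the same order of magnitude when
`x` is at most `x ≤ 100 X + 100`. -/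
theorem ff_le_hE (κ δ : ℝ) (hκ : 0 < κ) (hδ : 0 < δ) (hδ1 : δ ≤ 1) : ∃ c : ℝ, 0 < c ∧ ∃ X₀ : ℕ,
    ∀ X : ℕ, X₀ ≤ X → ∀ x : ℝ, (X : ℝ) ≤ x → x ≤ 100 * X + 100 →
      c * Pool.Agent.Lib.H56G.ff x ≤ hE κ ⌊δ * Real.log X⌋₊ := by
  refine ⟨κ * δ / 512, by positivity, ?_⟩
  have t0 : Tendsto (fun X : ℕ => (X : ℝ)) atTop atTop := tendsto_natCast_atTop_atTop
  have t1 := Real.tendsto_log_atTop.comp t0
  have t2 := Real.tendsto_log_atTop.comp t1
  have t3 := Real.tendsto_log_atTop.comp t2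
  have t4 := Real.tendsto_log_atTop.comp t3
  have ev : ∀ᶠ X : ℕ in atTop, 1 ≤ (X : ℝ) ∧ (6 ≤ Real.log X ∧ 2 / δ ≤ Real.log X ∧
      32 / (κ * δ) ≤ Real.log X) ∧ (4 ≤ Real.log (Real.log X) ∧
      2 * Real.log (2 / δ) ≤ Real.log (Real.log X)) ∧
      4 ≤ Real.log (Real.log (Real.log X)) ∧ 2 ≤ Real.log (Real.log (Real.log (Real.log X))) := by
    filter_upwards [t0.eventually_ge_atTop 1, t1.eventually_ge_atTop 6,
      t1.eventually_ge_atTop (2 / δ), t1.eventually_ge_atTop (32 / (κ * δ)),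
      t2.eventually_ge_atTop 4, t2.eventually_ge_atTop (2 * Real.log (2 / δ)),
      t3.eventually_ge_atTop 4, t4.eventually_ge_atTop 2] with X a b c d e f g h
    exact ⟨a, ⟨b, c, d⟩, ⟨e, f⟩, g, h⟩
  obtain ⟨X₀, hX₀⟩ := eventually_atTop.1 ev
  refine ⟨X₀, fun X hX x hx hx2 => ?_⟩
  obtain ⟨a, ⟨b, c, d⟩, ⟨e, f⟩, g, h⟩ := hX₀ X hX
  set L1 := Real.log X with hL1
  set L2 := Real.log L1 with hL2
  set L3 := Real.log L2 with hL3
  set L4 := Real.log L3 with hL4
  have hup := fb1_ff_up X x L1 L2 L3 L4 a hx hx2 hL1 hL2 hL3 hL4 b (by linarith) (by linarith)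
    (by linarith)
  have c' : 2 ≤ δ * L1 := by
    rw [div_le_iff₀ hδ] at c
    linarith
  have hlow := fb1_hE_low κ δ L1 L2 L3 L4 hκ hδ hδ1 hL2 hL3 hL4 c' (by linarith) f e g h
  have hG : 32 ≤ κ * δ * (L1 * L2 ^ 2 * L4 / L3 ^ 2) := by
    have h32 : L3 ≤ L2 := by
      rw [hL3]
      have := Real.log_le_sub_one_of_pos (by linarith : 0 < L2)
      linarith
    have hr : 1 ≤ L2 ^ 2 / L3 ^ 2 := by
      rw [one_le_div (by positivity)]
      exact pow_le_pow_left₀ (by linarith) h32 2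
    have hG1 : L1 ≤ L1 * L2 ^ 2 * L4 / L3 ^ 2 := by
      have e1 : L1 * L2 ^ 2 * L4 / L3 ^ 2 = L1 * (L2 ^ 2 / L3 ^ 2) * L4 := by ring
      rw [e1]
      have hp : 0 < L1 := by linarith
      calc L1 = L1 * 1 * 1 := by ring
        _ ≤ L1 * (L2 ^ 2 / L3 ^ 2) * L4 := by
          apply mul_le_mul _ (by linarith) (by norm_num) (by positivity)
          exact mul_le_mul_of_nonneg_left hr hp.le
    rw [div_le_iff₀ (by positivity)] at d
    calc (32 : ℝ) ≤ L1 * (κ * δ) := d
      _ = κ * δ * L1 := by ring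
      _ ≤ _ := mul_le_mul_of_nonneg_left hG1 (by positivity)
  calc κ * δ / 512 * Pool.Agent.Lib.H56G.ff x
      ≤ κ * δ / 512 * (16 * (L1 * L2 ^ 2 * L4 / L3 ^ 2)) :=
        mul_le_mul_of_nonneg_left hup (by positivity)
    _ = κ * δ / 16 * (L1 * L2 ^ 2 * L4 / L3 ^ 2) -
        κ * δ * (L1 * L2 ^ 2 * L4 / L3 ^ 2) / 32 := by ring
    _ ≤ κ * δ / 16 * (L1 * L2 ^ 2 * L4 / L3 ^ 2) - 1 := by linarith
    _ ≤ _ := hlow

end Pool.Agent.Lib.H5C
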