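import Pool.Agent.Lib.H5C.TH5
import Pool.Agent.Lib.H5C.PM7
import Pool.Agent.Lib.H5C.ER6
import Pool.Agent.Lib.H5C.AN5

/-!
# Chunk FC1: the parameters `Q`, `y`, `M`; lower bound for the primes of one form
-/

open Finset Real
open Pool.Agent.Lib.H56G

namespace Pool.Agent.Lib.H5C

/-- The conclusion for one `X`, from a few inequalities. -/
theorem fc1_core (K δ : ℝ) (hK : 1 ≤ K) (hδ : 0 < δ) (hδ1 : δ ≤ 1 / 100) (hδK : 4 * δ * K ≤ 1)
    (X : ℕ) (h1 : 100 ≤ log X) (h2 : 2 ≤ δ * log X) (h3 : K ≤ log (log X))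
    (h4 : 32 ≤ log (log X)) (h5 : -2 * log (δ / 2) ≤ log (log X))
    (h6 : (K + 1) * log (log X) ≤ 4 * δ * log X) :
      RegP K ⌊(X : ℝ) ^ (4 * δ)⌋₊ X ∧
      (⌊(X : ℝ) ^ (4 * δ)⌋₊ : ℝ) ≤ (X : ℝ) ^ (1 / 12 : ℝ) ∧
      ((4 : ℝ) ^ ⌊δ * log X⌋₊) * ((NX δ X : ℝ) * NX δ X) ≤ ⌊(X : ℝ) ^ (4 * δ)⌋₊ ∧
      (⌊δ * log X⌋₊ : ℝ) ≤ log X ∧ (⌊δ * log X⌋₊ : ℝ) ≤ X / 8 ∧ (NX δ X : ℝ) ≤ X / 8 ∧
      ((4 : ℝ) ^ ⌊δ * log X⌋₊) * 4 ≤ (X : ℝ) ^ (1 / 4 : ℝ) ∧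
      δ / 2 * log X ≤ (⌊δ * log X⌋₊ : ℝ) ∧
      log (log X) / 2 ≤ log (⌊δ * log X⌋₊ : ℝ) ∧ log (⌊δ * log X⌋₊ : ℝ) ≤ log (log X) ∧
      (log (log X)) ^ 4 ≤ (log (⌊δ * log X⌋₊ : ℝ)) ^ 5 ∧ 1 ≤ NX δ X ∧
      (log X) ^ 16 ≤ WX X ∧ (hE 1 ⌊δ * log X⌋₊ : ℝ) ≤ WX X ∧
      log ((60 * X : ℕ) : ℝ) ≤ 2 * log X ∧
      ((log X) ^ 4)⁻¹ ≤ 1 / (20 * log (log X)) := by
  have hXpos : (0 : ℝ) < X := by
    rcases Nat.eq_zero_or_pos X with h | h
    · rw [h] at h1; norm_num at h1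
    · exact_mod_cast h
  set L := log (X : ℝ) with hL
  set LL := log L with hLL
  have hL0 : 0 < L := by linarith
  have hX : (X : ℝ) = exp L := (exp_log hXpos).symm
  have hpow : ∀ a : ℝ, (X : ℝ) ^ a = exp (a * L) := by
    intro a
    rw [Real.rpow_def_of_pos hXpos, mul_comm]
  have hX1 : (1 : ℝ) ≤ X := by
    rw [hX]; exact Real.one_le_exp hL0.le
  have hLX : L ≤ X := by
    have := Real.log_le_sub_one_of_pos hXpos
    linarith
  set y := ⌊δ * L⌋₊ with hy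
  have hδL : 0 < δ * L := by positivity
  have hy1 : (y : ℝ) ≤ δ * L := Nat.floor_le hδL.le
  have hy2 : δ * L - 1 < y := Nat.sub_one_lt_floor _
  have hy3 : δ / 2 * L ≤ y := by nlinarith
  have hyL : (y : ℝ) ≤ L := by nlinarith
  have hy0 : (0 : ℝ) < y := by
    have : 0 < δ / 2 * L := by positivity
    linarith
  -- the powers of 4
  have hlog4 : log 4 ≤ 1.4 := by
    have h : log (4 : ℝ) = 2 * log 2 := by
      rw [show (4 : ℝ) = 2 ^ 2 by norm_num, Real.log_pow]; norm_num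
    rw [h]
    have := Real.log_two_lt_d9
    linarith
  have h4y : (4 : ℝ) ^ y ≤ exp (1.4 * δ * L) := by
    rw [← Real.rpow_natCast, Real.rpow_def_of_pos (by norm_num : (0 : ℝ) < 4)]
    refine Real.exp_le_exp.2 ?_
    have h40 : 0 ≤ log (4 : ℝ) := Real.log_nonneg (by norm_num)
    calc log 4 * (y : ℝ) ≤ log 4 * (δ * L) := mul_le_mul_of_nonneg_left hy1 h40
      _ ≤ 1.4 * (δ * L) := mul_le_mul_of_nonneg_right hlog4 hδL.le
      _ = 1.4 * δ * L := by ring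
  have hN1 : (NX δ X : ℝ) ≤ exp (δ / 8 * L) := by
    rw [← hpow]
    exact Nat.floor_le (by positivity)
  -- Q
  have hQ1 : (⌊(X : ℝ) ^ (4 * δ)⌋₊ : ℝ) ≤ exp (4 * δ * L) := by
    rw [← hpow]
    exact Nat.floor_le (by positivity)
  have hQ2 : exp (4 * δ * L) - 1 < (⌊(X : ℝ) ^ (4 * δ)⌋₊ : ℝ) := by
    rw [← hpow]
    exact Nat.sub_one_lt_floor _
  have hE2 : 2 ≤ exp (4 * δ * L) := by
    have := Real.add_one_le_exp (4 * δ * L)
    nlinarith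
  have hQpos : (0 : ℝ) < (⌊(X : ℝ) ^ (4 * δ)⌋₊ : ℝ) := by linarith
  have hlogQ1 : log (⌊(X : ℝ) ^ (4 * δ)⌋₊ : ℝ) ≤ 4 * δ * L := by
    have := Real.log_le_log hQpos hQ1
    rwa [Real.log_exp] at this
  have hlogQ2 : 4 * δ * L - log 2 ≤ log (⌊(X : ℝ) ^ (4 * δ)⌋₊ : ℝ) := by
    have h : exp (4 * δ * L) / 2 ≤ (⌊(X : ℝ) ^ (4 * δ)⌋₊ : ℝ) := by linarith
    have := Real.log_le_log (by positivity) h
    rwa [Real.log_div (exp_pos _).ne' (by norm_num), Real.log_exp] at this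
  have hlog2 : log (2 : ℝ) ≤ 1 := by
    have := Real.log_two_lt_d9
    linarith
  have hlogy1 : LL / 2 ≤ log (y : ℝ) := by
    have h := Real.log_le_log (by positivity) hy3
    rw [Real.log_mul (by positivity) hL0.ne'] at h
    linarith
  have hlogy2 : log (y : ℝ) ≤ LL := Real.log_le_log hy0 hyL
  have hW : L ^ 16 ≤ (WX X : ℝ) := Nat.le_ceil _
  refine ⟨⟨h3, ?_, ?_⟩, ?_, ?_, hyL, ?_, ?_, ?_, hy3, hlogy1, hlogy2, ?_, ?_, hW, ?_, ?_, ?_⟩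
  · refine le_trans ?_ hlogQ2
    nlinarith
  · calc K * log (⌊(X : ℝ) ^ (4 * δ)⌋₊ : ℝ) ≤ K * (4 * δ * L) :=
          mul_le_mul_of_nonneg_left hlogQ1 (by linarith)
      _ = (4 * δ * K) * L := by ring
      _ ≤ 1 * L := mul_le_mul_of_nonneg_right hδK hL0.le
      _ = L := one_mul L
  · refine hQ1.trans ?_
    rw [hpow]
    refine Real.exp_le_exp.2 ?_
    nlinarith
  · have h7 : (4 : ℝ) ^ y * ((NX δ X : ℝ) * NX δ X) ≤
        exp (1.4 * δ * L) * (exp (δ / 8 * L) * exp (δ / 8 * L)) := by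
      gcongr
    refine h7.trans ?_
    have h8 : exp (1.4 * δ * L) * (exp (δ / 8 * L) * exp (δ / 8 * L)) = exp (1.65 * (δ * L)) := by
      rw [← Real.exp_add, ← Real.exp_add]
      congr 1
      ring
    rw [h8]
    have h9 : exp (4 * δ * L) = exp (1.65 * (δ * L)) * exp (2.35 * (δ * L)) := by
      rw [← Real.exp_add]
      congr 1
      ring
    have h10 := Real.add_one_le_exp (2.35 * (δ * L))
    have h11 : 1 ≤ exp (1.65 * (δ * L)) := Real.one_le_exp (by positivity)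
    nlinarith
  · have : δ * L ≤ 1 / 100 * L := mul_le_mul_of_nonneg_right hδ1 hL0.le
    linarith
  · refine hN1.trans ?_
    rw [hX, le_div_iff₀ (by norm_num)]
    have h8 : (8 : ℝ) ≤ exp (7) := by
      have := Real.add_one_le_exp (7 : ℝ)
      linarith
    calc exp (δ / 8 * L) * 8 ≤ exp (δ / 8 * L) * exp 7 :=
          mul_le_mul_of_nonneg_left h8 (exp_pos _).le
      _ = exp (δ / 8 * L + 7) := (Real.exp_add _ _).symm
      _ ≤ exp L := Real.exp_le_exp.2 (by nlinarith)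
  · rw [hpow]
    have h8 : (4 : ℝ) ≤ exp 3 := by
      have := Real.add_one_le_exp (3 : ℝ)
      linarith
    calc (4 : ℝ) ^ y * 4 ≤ exp (1.4 * δ * L) * exp 3 :=
          mul_le_mul h4y h8 (by norm_num) (exp_pos _).le
      _ = exp (1.4 * δ * L + 3) := (Real.exp_add _ _).symm
      _ ≤ exp (1 / 4 * L) := Real.exp_le_exp.2 (by nlinarith)
  · have h7 : LL ^ 4 ≤ (LL / 2) ^ 5 := by
      have : (LL / 2) ^ 5 = LL ^ 4 * (LL / 32) := by ring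
      rw [this]
      have h8 : 0 ≤ LL ^ 4 := by positivity
      nlinarith
    exact h7.trans (pow_le_pow_left₀ (by linarith) hlogy1 5)
  · refine Nat.le_floor ?_
    rw [hpow]
    push_cast
    exact Real.one_le_exp (by positivity)
  · have hly : 16 ≤ log (y : ℝ) := by linarith
    have hlly : 1 ≤ log (log (y : ℝ)) := by
      rw [Real.le_log_iff_exp_le (by linarith)]
      have := Real.exp_one_lt_d9
      linarith
    set t := log (log (y : ℝ)) with ht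
    have ht2 : log t ≤ t ^ 2 := by
      have := Real.log_le_sub_one_of_pos (by linarith : 0 < t)
      nlinarith
    have hlt : 0 ≤ log t := Real.log_nonneg hlly
    have hq : 1 * ((y : ℝ) * (log y) ^ 2 * log t / t ^ 2) ≤ L ^ 3 := by
      rw [one_mul, div_le_iff₀ (by positivity)]
      have h8 : log (y : ℝ) ≤ L := by
        have := Real.log_le_sub_one_of_pos hy0
        linarith
      have h9 : (y : ℝ) * (log y) ^ 2 ≤ L * L ^ 2 := by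
        gcongr
      calc (y : ℝ) * (log y) ^ 2 * log t ≤ (L * L ^ 2) * t ^ 2 :=
            mul_le_mul h9 ht2 hlt (by positivity)
        _ = L ^ 3 * t ^ 2 := by ring
    have hnn : 0 ≤ 1 * ((y : ℝ) * (log y) ^ 2 * log t / t ^ 2) := by positivity
    have hf : (hE 1 y : ℝ) ≤ 1 * ((y : ℝ) * (log y) ^ 2 * log t / t ^ 2) := Nat.floor_le hnn
    refine (hf.trans hq).trans (le_trans ?_ hW)
    exact pow_le_pow_right₀ (by linarith) (by norm_num)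
  · push_cast
    rw [Real.log_mul (by norm_num) hXpos.ne']
    have : log (60 : ℝ) ≤ 60 - 1 := Real.log_le_sub_one_of_pos (by norm_num)
    linarith
  · have h7 : LL ≤ L := by
      have := Real.log_le_sub_one_of_pos hL0
      linarith
    rw [inv_eq_one_div]
    refine one_div_le_one_div_of_le (by linarith) ?_
    have h8 : 20 * L ≤ L ^ 4 := by
      have : L ^ 4 = L ^ 3 * L := by ring
      rw [this]
      refine mul_le_mul_of_nonneg_right ?_ hL0.le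
      calc (20 : ℝ) ≤ 100 ^ 3 := by norm_num
        _ ≤ L ^ 3 := pow_le_pow_left₀ (by norm_num) h1 3
    linarith

/-- Pure asymptotics: `Q = ⌊X^(4δ)⌋`, `y = ⌊δ log X⌋`, `M ≤ 4^y ≤ X^(1.4 δ)`, `N = ⌊X^(δ/8)⌋`. -/
theorem fc_num (K δ : ℝ) (hK : 1 ≤ K) (hδ : 0 < δ) (hδ1 : δ ≤ 1 / 100) (hδK : 4 * δ * K ≤ 1) :
    ∃ X₀ : ℕ, ∀ X : ℕ, X₀ ≤ X →
      RegP K ⌊(X : ℝ) ^ (4 * δ)⌋₊ X ∧
      (⌊(X : ℝ) ^ (4 * δ)⌋₊ : ℝ) ≤ (X : ℝ) ^ (1 / 12 : ℝ) ∧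
      ((4 : ℝ) ^ ⌊δ * log X⌋₊) * ((NX δ X : ℝ) * NX δ X) ≤ ⌊(X : ℝ) ^ (4 * δ)⌋₊ ∧
      (⌊δ * log X⌋₊ : ℝ) ≤ log X ∧ (⌊δ * log X⌋₊ : ℝ) ≤ X / 8 ∧ (NX δ X : ℝ) ≤ X / 8 ∧
      ((4 : ℝ) ^ ⌊δ * log X⌋₊) * 4 ≤ (X : ℝ) ^ (1 / 4 : ℝ) ∧
      δ / 2 * log X ≤ (⌊δ * log X⌋₊ : ℝ) ∧
      log (log X) / 2 ≤ log (⌊δ * log X⌋₊ : ℝ) ∧ log (⌊δ * log X⌋₊ : ℝ) ≤ log (log X) ∧
      (log (log X)) ^ 4 ≤ (log (⌊δ * log X⌋₊ : ℝ)) ^ 5 ∧ 1 ≤ NX δ X ∧
      (log X) ^ 16 ≤ WX X ∧ (hE 1 ⌊δ * log X⌋₊ : ℝ) ≤ WX X ∧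
      log ((60 * X : ℕ) : ℝ) ≤ 2 * log X ∧
      ((log X) ^ 4)⁻¹ ≤ 1 / (20 * log (log X)) := by
  have hN : Filter.Tendsto (fun X : ℕ => (X : ℝ)) Filter.atTop Filter.atTop :=
    tendsto_natCast_atTop_atTop
  have hL : Filter.Tendsto (fun X : ℕ => log (X : ℝ)) Filter.atTop Filter.atTop :=
    Real.tendsto_log_atTop.comp hN
  have hLL : Filter.Tendsto (fun X : ℕ => log (log (X : ℝ))) Filter.atTop Filter.atTop :=
    Real.tendsto_log_atTop.comp hL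
  have hc : (0 : ℝ) < 4 * δ / (K + 1) := by positivity
  have ho : ∀ᶠ X : ℕ in Filter.atTop, (K + 1) * log (log (X : ℝ)) ≤ 4 * δ * log X := by
    have h1 := (Real.isLittleO_log_id_atTop.comp_tendsto hL).bound hc
    filter_upwards [h1, hL.eventually_ge_atTop 1] with X hX h1
    simp only [Function.comp, id] at hX
    rw [Real.norm_eq_abs, Real.norm_eq_abs, abs_of_nonneg (Real.log_nonneg h1),
      abs_of_nonneg (by linarith : (0 : ℝ) ≤ log X)] at hX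
    calc (K + 1) * log (log (X : ℝ)) ≤ (K + 1) * (4 * δ / (K + 1) * log X) :=
          mul_le_mul_of_nonneg_left hX (by linarith)
      _ = 4 * δ * log X := by
          have : K + 1 ≠ 0 := by linarith
          field_simp
  have hall : ∀ᶠ X : ℕ in Filter.atTop, 100 ≤ log (X : ℝ) ∧ 2 / δ ≤ log (X : ℝ) ∧
      K ≤ log (log (X : ℝ)) ∧ 32 ≤ log (log (X : ℝ)) ∧
      -2 * log (δ / 2) ≤ log (log (X : ℝ)) ∧ (K + 1) * log (log (X : ℝ)) ≤ 4 * δ * log X := by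
    filter_upwards [hL.eventually_ge_atTop 100, hL.eventually_ge_atTop (2 / δ),
      hLL.eventually_ge_atTop K, hLL.eventually_ge_atTop 32,
      hLL.eventually_ge_atTop (-2 * log (δ / 2)), ho] with X a b c d e f
    exact ⟨a, b, c, d, e, f⟩
  obtain ⟨X₀, hX₀⟩ := Filter.eventually_atTop.1 hall
  refine ⟨X₀, fun X hX => ?_⟩
  obtain ⟨a, b, c, d, e, f⟩ := hX₀ X hX
  refine fc1_core K δ hK hδ hδ1 hδK X a ?_ c d e f
  rw [div_le_iff₀ hδ] at b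
  linarith

end Pool.Agent.Lib.H5C
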