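import Pool.Agent.Lib.H5C.TH5
import Pool.Agent.Lib.H5C.PM7
import Pool.Agent.Lib.H5C.ER6
import Pool.Agent.Lib.H5C.AN5
import Pool.Agent.Lib.H5C.FC1

/-!
# Chunk FC2: the parameters `Q`, `y`, `M`; lower bound for the primes of one form
-/

open Finset Real
open Pool.Agent.Lib.H56G

namespace Pool.Agent.Lib.H5C

/-- The final computation. -/
theorem fc2_num (X T M φ y : ℕ) (θ Z A S : ℝ) (hL : 1 < log X) (hLL : 0 < log (log X))
    (hM : 0 < M) (hφ : 0 < φ) (hφM : (φ : ℝ) ≤ 4 * M / log y) (hly : log (log X) / 2 ≤ log y)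
    (hT : M * T ≤ 61 * X) (hZ : 0 ≤ Z)
    (hθ : 1 / log (log X) ≤ (1 - θ) ^ 2) (h16 : ((log X) ^ 4)⁻¹ ≤ 1 / (20 * log (log X)))
    (h60 : log ((60 * X : ℕ) : ℝ) ≤ 2 * log X) (h60' : 0 < log ((60 * X : ℕ) : ℝ))
    (hA : (1 - θ) ^ 2 / 2 * Z ≤ A)
    (hS : (X : ℝ) / (8 * log ((60 * X : ℕ) : ℝ)) *
      (1 / (φ : ℝ) * (1 / 5 * A - Z * ((log X) ^ 4)⁻¹)) ≤ S) :
    1 / 156160 * (log (log X) / log X * (1 - θ) ^ 2) * T * Z ≤ S := by
  refine le_trans ?_ hS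
  set L := log (X : ℝ) with hLd
  set LL := log L with hLLd
  have hφ' : (0 : ℝ) < φ := by exact_mod_cast hφ
  have hM' : (0 : ℝ) < M := by exact_mod_cast hM
  have hT' : (M : ℝ) * T ≤ 61 * X := by exact_mod_cast hT
  have hly0 : 0 < log (y : ℝ) := by linarith
  have hL0 : 0 < L := by linarith
  have hX0 : (0 : ℝ) ≤ X := Nat.cast_nonneg X
  have hq : 0 ≤ (1 - θ) ^ 2 := sq_nonneg _
  have h1 : (1 - θ) ^ 2 / 20 * Z ≤ 1 / 5 * A - Z * (L ^ 4)⁻¹ := by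
    have h2 : (L ^ 4)⁻¹ ≤ (1 - θ) ^ 2 / 20 := by
      refine h16.trans ?_
      have : 1 / (20 * LL) = (1 / LL) / 20 := by
        field_simp
      rw [this]
      linarith
    have h3 : Z * (L ^ 4)⁻¹ ≤ Z * ((1 - θ) ^ 2 / 20) := mul_le_mul_of_nonneg_left h2 hZ
    nlinarith
  have h4 : (T : ℝ) * LL / 488 ≤ X * (1 / φ) := by
    have h5 : 1 / (φ : ℝ) ≥ log y / (4 * M) := by
      rw [ge_iff_le, div_le_div_iff₀ (by positivity) hφ']
      rw [le_div_iff₀ hly0] at hφM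
      linarith
    have h6 : (T : ℝ) ≤ 61 * X / M := by
      rw [le_div_iff₀ hM']
      linarith
    calc (T : ℝ) * LL / 488 ≤ (61 * X / M) * LL / 488 := by gcongr
      _ = X * ((LL / 2) / (4 * M)) := by
          field_simp
          ring
      _ ≤ X * (log y / (4 * M)) := by gcongr
      _ ≤ X * (1 / φ) := mul_le_mul_of_nonneg_left h5 hX0
  have h7 : 0 ≤ (1 - θ) ^ 2 / 20 * Z := by positivity
  calc 1 / 156160 * (LL / L * (1 - θ) ^ 2) * T * Z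
      = ((T : ℝ) * LL / 488) * ((1 - θ) ^ 2 / 20 * Z) / (8 * (2 * L)) := by
        field_simp
        ring
    _ ≤ (X * (1 / φ)) * (1 / 5 * A - Z * (L ^ 4)⁻¹) / (8 * log ((60 * X : ℕ) : ℝ)) := by
        have h8 : ((T : ℝ) * LL / 488) * ((1 - θ) ^ 2 / 20 * Z) ≤
            (X * (1 / φ)) * (1 / 5 * A - Z * (L ^ 4)⁻¹) :=
          mul_le_mul h4 h1 h7 (by positivity)
        have h9 : 0 ≤ (X * (1 / φ)) * (1 / 5 * A - Z * (L ^ 4)⁻¹) := by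
          refine mul_nonneg (by positivity) (h7.trans h1)
        exact div_le_div₀ h9 h8 (by positivity) (by linarith)
    _ = (X : ℝ) / (8 * log ((60 * X : ℕ) : ℝ)) *
      (1 / (φ : ℝ) * (1 / 5 * A - Z * (L ^ 4)⁻¹)) := by
        field_simp

/-- **Lower bound for one form.** `M = MM y D p1` with the `D`, `p1` of `mdata` for `y = ⌊δ log X⌋`.
`count_ge` and `prog_ge` with `c' = cp j c`, `c = cc s (tb s z θ) N` (`maj1_r_le_of_cp_ne`,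
`cp_bounds`), `upp` for the coefficients, `C = 40000`, `par_num`; `X/(φ(M) log X) ≥ c T/M · M/φ(M) /log X`,
`mm_totient`. -/
theorem prime_low : ∃ δ₀ : ℝ, 0 < δ₀ ∧ δ₀ ≤ 1 / 100 ∧ ∀ δ : ℝ, 0 < δ → δ ≤ δ₀ →
    ∃ c c0 : ℝ, 0 < c ∧ 0 < c0 ∧
    ∃ X₀ : ℕ, ∀ X : ℕ, X₀ ≤ X → ∃ (D : Finset ℕ) (p1 : ℕ), OKD ⌊δ * log X⌋₊ D p1 ∧
    ∀ {ι J : Type} [Fintype ι] [DecidableEq ι] [Fintype J] [DecidableEq J] (s : Sys ι J),
    s.M = MM ⌊δ * log X⌋₊ D p1 → IsSieve s δ X → (Fintype.card J : ℝ) ≤ c0 * log X →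
    (∀ j, Nat.Coprime (s.b j) s.M) → (∀ j, (s.b j : ℝ) ≤ (X : ℝ) ^ (1 / 2 : ℝ)) →
    ∀ θ : ℝ, 0 ≤ θ → θ ≤ 1 → 1 / log (log X) ≤ (1 - θ) ^ 2 →
    ∀ T : ℕ, 60 * X ≤ s.M * T → s.M * T ≤ 61 * X → ∀ j : J,
      c * (log (log X) / log X * (1 - θ) ^ 2) * T * ZZ s (tb s (zX δ X) θ) ≤
        ∑ t ∈ (Icc 1 T).filter (fun t => (s.b j + s.M * t).Prime),
          (∑ κ, cc s (tb s (zX δ X) θ) (NX δ X) κ * s.U κ t) ^ 2 := by
  obtain ⟨K, hK, X₁, hmd⟩ := mdata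
  obtain ⟨X₂, hprog⟩ := prog_ge
  obtain ⟨y₀, htot⟩ := mm_totient
  refine ⟨min (1 / 100) (1 / (4 * K)), by positivity, min_le_left _ _, fun δ hδ hδ0 => ?_⟩
  have hδ1 : δ ≤ 1 / 100 := hδ0.trans (min_le_left _ _)
  have hδK : 4 * δ * K ≤ 1 := by
    have h := hδ0.trans (min_le_right _ _)
    rw [le_div_iff₀ (by positivity)] at h
    linarith
  obtain ⟨c1, C1, hc1, hC1, X₃, hupp⟩ := upp δ hδ hδ1
  obtain ⟨c2, hc2, X₄, hpar⟩ := par_num δ hδ hδ1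
  obtain ⟨X₅, hnum⟩ := fc_num K δ hK hδ hδ1 hδK
  have hN : Filter.Tendsto (fun X : ℕ => (X : ℝ)) Filter.atTop Filter.atTop :=
    tendsto_natCast_atTop_atTop
  have hL : Filter.Tendsto (fun X : ℕ => log (X : ℝ)) Filter.atTop Filter.atTop :=
    Real.tendsto_log_atTop.comp hN
  have hall : ∀ᶠ X : ℕ in Filter.atTop, 100 ≤ log (X : ℝ) ∧
      2 / δ * (y₀ + 1) ≤ log (X : ℝ) := by
    filter_upwards [hL.eventually_ge_atTop 100, hL.eventually_ge_atTop (2 / δ * (y₀ + 1))] with X a b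
    exact ⟨a, b⟩
  obtain ⟨X₆, hX₆⟩ := Filter.eventually_atTop.1 hall
  refine ⟨1 / 156160, min c1 c2, by norm_num, lt_min hc1 hc2,
    X₁ + X₂ + X₃ + X₄ + X₅ + X₆ + 1, fun X hX => ?_⟩
  obtain ⟨n1, n2, n3, n4, n5, n6, n7, n8, n9, n10, n11, n12, n13, n14, n15, n16⟩ :=
    hnum X (by omega)
  obtain ⟨hL100, hLy⟩ := hX₆ X (by omega)
  set y := ⌊δ * log X⌋₊ with hy
  obtain ⟨D, p1, hp1, hDp, hDc, hMD⟩ := hmd X (by omega) ⌊(X : ℝ) ^ (4 * δ)⌋₊ n1 y n4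
  have hOK : OKD y D p1 := ⟨hp1, hDp, hDc.trans n11⟩
  refine ⟨D, p1, hOK, ?_⟩
  intro ι J _ _ _ _ s hM hsv hJ hcop hb θ hθ0 hθ1 hθ T hT1 hT2 j
  have hX1 : 1 ≤ X := by omega
  have hXpos : (0 : ℝ) < X := by exact_mod_cast hX1
  have hLpos : 0 < log (X : ℝ) := by linarith
  have hy₀ : y₀ ≤ y := by
    have h1 : (y₀ : ℝ) ≤ y := by
      refine le_trans ?_ n8
      have h2 : δ / 2 * (2 / δ * (y₀ + 1)) ≤ δ / 2 * log X :=
        mul_le_mul_of_nonneg_left hLy (by positivity)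
      have h3 : δ / 2 * (2 / δ * ((y₀ : ℝ) + 1)) = y₀ + 1 := by
        field_simp
      linarith
    exact_mod_cast h1
  obtain ⟨hMpos, hφ⟩ := htot y hy₀ D p1 hOK
  rw [← hM] at hMpos hφ
  have : NeZero s.M := ⟨hMpos.ne'⟩
  have hMle : (s.M : ℝ) ≤ (4 : ℝ) ^ y := by
    rw [hM]
    exact_mod_cast mm_le y D p1
  have hJ1 : (Fintype.card J : ℝ) ≤ c1 * log X :=
    hJ.trans (mul_le_mul_of_nonneg_right (min_le_left _ _) hLpos.le)
  have hJ2 : (Fintype.card J : ℝ) ≤ c2 * log X :=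
    hJ.trans (mul_le_mul_of_nonneg_right (min_le_right _ _) hLpos.le)
  have hXX : (X : ℝ) ^ (1 / 2 : ℝ) ≤ X := by
    calc (X : ℝ) ^ (1 / 2 : ℝ) ≤ (X : ℝ) ^ (1 : ℝ) :=
          Real.rpow_le_rpow_of_exponent_le (by exact_mod_cast hX1) (by norm_num)
      _ = X := Real.rpow_one _
  obtain ⟨hSS, hSS2, -, -, -, -, hcoef⟩ := hupp X (by omega) s hsv hJ1 θ hθ0 hθ1 hθ X hXX
  obtain ⟨p1', p2', -, -, -, -, -, -, -, -, -, -, p13, p14, -, -, -⟩ :=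
    hpar X (by omega) (Fintype.card J) hJ2 _ le_rfl
  obtain ⟨hsv1, hsv2, hsv3⟩ := hsv
  have hpr8 : ∀ i, (s.pr i : ℝ) ≤ X / 8 := fun i => by
    refine le_trans ?_ n6
    exact_mod_cast hsv2 i
  have hN1 : (1 : ℝ) ≤ NX δ X := by exact_mod_cast n12
  have hccne : ∀ κ, cc s (tb s (zX δ X) θ) (NX δ X) κ ≠ 0 → s.r κ ≤ (NX δ X : ℝ) := by
    intro κ hκ
    by_contra hcon
    apply hκ
    unfold cc
    rw [if_neg hcon]
  have hMQ : (s.M : ℝ) * ((NX δ X : ℝ) * NX δ X) ≤ (⌊(X : ℝ) ^ (4 * δ)⌋₊ : ℝ) := by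
    refine le_trans ?_ n3
    exact mul_le_mul_of_nonneg_right hMle (by positivity)
  have hMdata : MData ⌊(X : ℝ) ^ (4 * δ)⌋₊ X s.M := by rw [hM]; exact hMD
  have hPG := hprog X (by omega) ⌊(X : ℝ) ^ (4 * δ)⌋₊ n2 s hMdata
    (fun p hp hpM => by
      rw [hM] at hpM
      have h1 := mm_prime y D p1 p hp hpM
      refine le_trans ?_ n5
      exact_mod_cast h1) hpr8 (WX X) (zX δ X) θ 40000 (NX δ X) p1' hsv1 p2' hN1 hMQ hθ0 hθ1 hSS
    (by norm_num) hSS2 (by exact_mod_cast p14) p13 n13 j (hcop j)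
    (cp j (cc s (tb s (zX δ X) θ) (NX δ X)))
    (fun κ hκ => maj1_r_le_of_cp_ne s _ _ j hccne κ hκ)
    (fun κ hκ => (cp_bounds s (zX δ X) θ hθ0 hθ1 hSS (NX δ X) j κ hκ).2)
  have hbX : ((s.b j + s.M : ℕ) : ℝ) ≤ X / 8 := by
    push_cast
    have h1 := hb j
    have hXe : ∀ a : ℝ, (X : ℝ) ^ a = exp (log X * a) := fun a => Real.rpow_def_of_pos hXpos a
    have h2 : (s.M : ℝ) * 4 ≤ (X : ℝ) ^ (1 / 4 : ℝ) := by
      refine le_trans ?_ n7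
      exact mul_le_mul_of_nonneg_right hMle (by norm_num)
    have h3 : (X : ℝ) ^ (1 / 4 : ℝ) ≤ (X : ℝ) ^ (1 / 2 : ℝ) :=
      Real.rpow_le_rpow_of_exponent_le (by exact_mod_cast hX1) (by norm_num)
    have h4 : 16 * (X : ℝ) ^ (1 / 2 : ℝ) ≤ X := by
      have h5 : (X : ℝ) = exp (log X * (1 / 2)) * exp (log X * (1 / 2)) := by
        rw [← Real.exp_add]
        conv_lhs => rw [← Real.exp_log hXpos]
        congr 1
        ring
      have h6 : 16 ≤ exp (log X * (1 / 2)) := by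
        have := Real.add_one_le_exp (log (X : ℝ) * (1 / 2))
        linarith
      rw [hXe]
      calc 16 * exp (log X * (1 / 2)) ≤ exp (log X * (1 / 2)) * exp (log X * (1 / 2)) :=
            mul_le_mul_of_nonneg_right h6 (exp_pos _).le
        _ = X := h5.symm
    have h7 : 0 ≤ (s.M : ℝ) := Nat.cast_nonneg _
    linarith
  have hCG := count_ge s X T hX1 hpr8 j hbX hT1 (cc s (tb s (zX δ X) θ) (NX δ X))
  have h60 : 0 < log ((60 * X : ℕ) : ℝ) := by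
    refine Real.log_pos ?_
    have : 1 < 60 * X := by omega
    exact_mod_cast this
  have hZnn : 0 ≤ ZZ s (tb s (zX δ X) θ) := by
    unfold ZZ wt vv
    refine Finset.sum_nonneg fun κ _ => Finset.prod_nonneg fun j _ => ?_
    refine mul_nonneg (sq_nonneg _) ?_
    unfold Sys.phi
    refine Finset.prod_nonneg fun i _ => ?_
    have h1 : (1 : ℝ) ≤ s.pr i := by exact_mod_cast (s.prime i).one_lt.le
    linarith
  have hφpos : 0 < s.M.totient := Nat.totient_pos.2 hMpos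
  refine fc2_num X T s.M s.M.totient y θ (ZZ s (tb s (zX δ X) θ))
    (∑ κ ∈ noJ j, (cp j (cc s (tb s (zX δ X) θ) (NX δ X)) κ) ^ 2 * s.ph κ) _ (by linarith)
    ?_ hMpos hφpos hφ n9 hT2 hZnn hθ n16 n15 h60 (hcoef j) ?_
  · have : 1 < log (X : ℝ) := by linarith
    exact Real.log_pos this
  · refine le_trans ?_ hCG
    exact mul_le_mul_of_nonneg_left hPG (by positivity)

end Pool.Agent.Lib.H5C
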