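import Pool.Agent.Lib.H5C.FA
import Pool.Agent.Lib.H5C.FB
import Pool.Agent.Lib.H5C.FC
import Pool.Agent.Lib.H5C.ER7
import Pool.Agent.Lib.H56G.Suppress

/-!
# Chunk FD1: many windows with `k + 1` primes far from each other
-/

open Finset Real
open Pool.Agent.Lib.H56G

namespace Pool.Agent.Lib.H5C

open Classical in
/-- The `t ≤ T` such that at least `k + 1` of the numbers `a + h + M t`, `h ∈ SE`, are prime, and no two
of them with `|h - h'| ≤ d` are both prime. -/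
noncomputable def GT (κ : ℝ) (y M a T k : ℕ) (d : ℝ) : Finset ℕ :=
  (Icc 1 T).filter (fun t => k + 1 ≤ ((SE κ y M a).filter (fun h => (a + h + M * t).Prime)).card ∧
    ∀ h ∈ SE κ y M a, ∀ h' ∈ SE κ y M a, h < h' → (a + h + M * t).Prime →
      (a + h' + M * t).Prime → d < (h' : ℝ) - h)

/-- the number of primes among the forms -/
def fd1_N (R : Finset ℕ) (a M t : ℕ) : ℕ := (R.filter (fun h => (a + h + M * t).Prime)).card

open Classical in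
/-- the number of close pairs of primes -/
noncomputable def fd1_Cl (R : Finset ℕ) (a M : ℕ) (d : ℝ) (t : ℕ) : ℕ :=
  ((CP R d).filter (fun x => (a + x.1 + M * t).Prime ∧ (a + x.2 + M * t).Prime)).card

theorem fd1_sumN (R : Finset ℕ) (a M T : ℕ) (g : ℕ → ℝ) :
    ∑ t ∈ Icc 1 T, g t * (fd1_N R a M t : ℝ) =
      ∑ h ∈ R, ∑ t ∈ (Icc 1 T).filter (fun t => (a + h + M * t).Prime), g t := by
  simp_rw [Finset.sum_filter]
  rw [Finset.sum_comm]
  refine Finset.sum_congr rfl fun t _ => ?_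
  unfold fd1_N
  rw [Finset.card_filter]
  push_cast
  rw [Finset.mul_sum]
  refine Finset.sum_congr rfl fun h _ => ?_
  split_ifs <;> simp

theorem fd1_sumN2 (R : Finset ℕ) (a M T : ℕ) (g : ℕ → ℝ) :
    ∑ t ∈ Icc 1 T, g t * (fd1_N R a M t : ℝ) ^ 2 =
      ∑ h ∈ R, ∑ h' ∈ R, ∑ t ∈ (Icc 1 T).filter (fun t => (a + h + M * t).Prime ∧
        (a + h' + M * t).Prime), g t := by
  have h1 : ∀ t, g t * (fd1_N R a M t : ℝ) ^ 2 = ∑ h ∈ R, ∑ h' ∈ R,
      if (a + h + M * t).Prime ∧ (a + h' + M * t).Prime then g t else 0 := by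
    intro t
    unfold fd1_N
    rw [Finset.card_filter]
    push_cast
    rw [sq, Finset.sum_mul_sum, Finset.mul_sum]
    refine Finset.sum_congr rfl fun h _ => ?_
    rw [Finset.mul_sum]
    refine Finset.sum_congr rfl fun h' _ => ?_
    by_cases p1 : (a + h + M * t).Prime <;> by_cases p2 : (a + h' + M * t).Prime <;> simp [p1, p2]
  simp_rw [h1, Finset.sum_filter]
  rw [Finset.sum_comm]
  refine Finset.sum_congr rfl fun h _ => ?_
  rw [Finset.sum_comm]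

theorem fd1_sumCl (R : Finset ℕ) (a M T : ℕ) (d : ℝ) (g : ℕ → ℝ) :
    ∑ t ∈ Icc 1 T, g t * (fd1_Cl R a M d t : ℝ) =
      ∑ x ∈ CP R d, ∑ t ∈ (Icc 1 T).filter (fun t => (a + x.1 + M * t).Prime ∧
        (a + x.2 + M * t).Prime), g t := by
  classical
  simp_rw [Finset.sum_filter]
  rw [Finset.sum_comm]
  refine Finset.sum_congr rfl fun t _ => ?_
  unfold fd1_Cl
  rw [Finset.card_filter]
  push_cast
  rw [Finset.mul_sum]
  refine Finset.sum_congr rfl fun h _ => ?_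
  split_ifs <;> simp

open Classical in
/-- the second moment argument for one system -/
theorem fd1_comb (R : Finset ℕ) (a M T k : ℕ) (d : ℝ) (g : ℕ → ℝ) (hg : ∀ t, 0 ≤ g t)
    (m E0 cL Cu u P B : ℝ) (hm : 0 ≤ m) (hu : 0 ≤ u) (hCu : 0 ≤ Cu) (hP : 0 ≤ P) (hB0 : 0 < B)
    (hG1 : m / 4 ≤ ∑ t ∈ Icc 1 T, g t) (hG2 : ∑ t ∈ Icc 1 T, g t ≤ 2 * m)
    (hA : ∀ h ∈ R, cL * u * m ≤ ∑ t ∈ (Icc 1 T).filter (fun t => (a + h + M * t).Prime), g t)
    (hB : ∀ h ∈ R, ∑ t ∈ (Icc 1 T).filter (fun t => (a + h + M * t).Prime), g t ≤ Cu * u * m)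
    (hC : ∀ h ∈ R, ∀ h' ∈ R, h ≠ h' → ∑ t ∈ (Icc 1 T).filter (fun t =>
      (a + h + M * t).Prime ∧ (a + h' + M * t).Prime), g t ≤ Cu * u ^ 2 * m)
    (hR1 : 4 * ((k : ℝ) + 1) ≤ R.card * (cL * u)) (hR2 : (R.card : ℝ) * u ≤ P * (k + 1))
    (hBP : 4 * Cu * (P + P ^ 2) ≤ B)
    (hcp : 8 * B * Cu * (((CP R d).card : ℝ) * u ^ 2) ≤ 1)
    (hE : ∀ t, g t ≤ E0) :
    m ≤ 8 * B * E0 * (((Icc 1 T).filter (fun t =>
      k + 1 ≤ (R.filter (fun h => (a + h + M * t).Prime)).card ∧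
      ∀ h ∈ R, ∀ h' ∈ R, h < h' → (a + h + M * t).Prime →
      (a + h' + M * t).Prime → d < (h' : ℝ) - h)).card : ℝ) := by
  set G : ℝ := ∑ t ∈ Icc 1 T, g t with hG
  have hk : (0 : ℝ) ≤ k := Nat.cast_nonneg k
  have hmG : m ≤ 4 * G := by linarith
  have hG0 : 0 ≤ G := Finset.sum_nonneg fun t _ => hg t
  have hs := second_moment (Icc 1 T) g (fd1_N R a M) (fd1_Cl R a M d) k B (fun t _ => hg t) hB0
    (by
      rw [fd1_sumN, ← hG]
      have h1 : ∑ _h ∈ R, cL * u * m ≤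
          ∑ h ∈ R, ∑ t ∈ (Icc 1 T).filter (fun t => (a + h + M * t).Prime), g t :=
        Finset.sum_le_sum hA
      rw [Finset.sum_const, nsmul_eq_mul] at h1
      have h2 : (2 * (k : ℝ) + 2) * G ≤ (2 * (k : ℝ) + 2) * (2 * m) :=
        mul_le_mul_of_nonneg_left hG2 (by positivity)
      have h3 : 4 * ((k : ℝ) + 1) * m ≤ R.card * (cL * u) * m :=
        mul_le_mul_of_nonneg_right hR1 hm
      calc (2 * (k : ℝ) + 2) * G ≤ (2 * (k : ℝ) + 2) * (2 * m) := h2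
        _ = 4 * ((k : ℝ) + 1) * m := by ring
        _ ≤ R.card * (cL * u) * m := h3
        _ = R.card * (cL * u * m) := by ring
        _ ≤ _ := h1)
    (by
      rw [fd1_sumN2, ← hG]
      have h1 : ∑ h ∈ R, ∑ h' ∈ R, ∑ t ∈ (Icc 1 T).filter (fun t => (a + h + M * t).Prime ∧
          (a + h' + M * t).Prime), g t ≤
          ∑ h ∈ R, ∑ h' ∈ R, ((if h = h' then Cu * u * m else 0) + Cu * u ^ 2 * m) := by
        refine Finset.sum_le_sum fun h hh => Finset.sum_le_sum fun h' hh' => ?_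
        by_cases e : h = h'
        · subst e
          simp only [and_self, if_true]
          have h2 := hB h hh
          have h3 : 0 ≤ Cu * u ^ 2 * m := by positivity
          linarith
        · rw [if_neg e, zero_add]
          exact hC h hh h' hh' e
      refine h1.trans ?_
      have h2 : ∑ h ∈ R, ∑ h' ∈ R, ((if h = h' then Cu * u * m else 0) + Cu * u ^ 2 * m) =
          Cu * m * (R.card * u) + Cu * m * (R.card * u) ^ 2 := by
        have h3 : ∀ h ∈ R, ∑ h' ∈ R, ((if h = h' then Cu * u * m else 0) + Cu * u ^ 2 * m) =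
            Cu * u * m + R.card * (Cu * u ^ 2 * m) := by
          intro h hh
          rw [Finset.sum_add_distrib, Finset.sum_const, nsmul_eq_mul, Finset.sum_ite_eq, if_pos hh]
        rw [Finset.sum_congr rfl h3, Finset.sum_const, nsmul_eq_mul]
        ring
      rw [h2]
      have h4 : 0 ≤ (R.card : ℝ) * u := by positivity
      have h5 : (1 : ℝ) ≤ (k : ℝ) + 1 := by linarith
      have h6 : (R.card : ℝ) * u ≤ P * (k + 1) ^ 2 := by
        refine hR2.trans (mul_le_mul_of_nonneg_left ?_ hP)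
        exact le_self_pow₀ h5 (by norm_num)
      have h7 : ((R.card : ℝ) * u) ^ 2 ≤ P ^ 2 * (k + 1) ^ 2 := by
        rw [← mul_pow]
        exact pow_le_pow_left₀ h4 hR2 2
      have h8 : 0 ≤ Cu * m := by positivity
      calc Cu * m * (R.card * u) + Cu * m * (R.card * u) ^ 2
          ≤ Cu * m * (P * (k + 1) ^ 2) + Cu * m * (P ^ 2 * (k + 1) ^ 2) :=
            add_le_add (mul_le_mul_of_nonneg_left h6 h8) (mul_le_mul_of_nonneg_left h7 h8)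
        _ = Cu * (P + P ^ 2) * ((k : ℝ) + 1) ^ 2 * m := by ring
        _ ≤ Cu * (P + P ^ 2) * ((k : ℝ) + 1) ^ 2 * (4 * G) :=
            mul_le_mul_of_nonneg_left hmG (by positivity)
        _ = 4 * Cu * (P + P ^ 2) * (((k : ℝ) + 1) ^ 2 * G) := by ring
        _ ≤ B * (((k : ℝ) + 1) ^ 2 * G) := mul_le_mul_of_nonneg_right hBP (by positivity)
        _ = B * ((k : ℝ) + 1) ^ 2 * G := by ring)
    (by
      rw [fd1_sumCl, ← hG]
      have h1 : ∑ x ∈ CP R d, ∑ t ∈ (Icc 1 T).filter (fun t => (a + x.1 + M * t).Prime ∧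
          (a + x.2 + M * t).Prime), g t ≤ ∑ _x ∈ CP R d, Cu * u ^ 2 * m := by
        refine Finset.sum_le_sum fun x hx => ?_
        unfold CP at hx
        rw [Finset.mem_filter, Finset.mem_product] at hx
        exact hC x.1 hx.1.1 x.2 hx.1.2 hx.2.1.ne
      rw [Finset.sum_const, nsmul_eq_mul] at h1
      have h2 : 0 ≤ 2 * B := by positivity
      calc 2 * B * ∑ x ∈ CP R d, ∑ t ∈ (Icc 1 T).filter (fun t => (a + x.1 + M * t).Prime ∧
          (a + x.2 + M * t).Prime), g t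
          ≤ 2 * B * ((CP R d).card * (Cu * u ^ 2 * m)) := mul_le_mul_of_nonneg_left h1 h2
        _ = 2 * B * Cu * ((CP R d).card * u ^ 2) * m := by ring
        _ ≤ 2 * B * Cu * ((CP R d).card * u ^ 2) * (4 * G) :=
            mul_le_mul_of_nonneg_left hmG (by positivity)
        _ = 8 * B * Cu * ((CP R d).card * u ^ 2) * G := by ring
        _ ≤ 1 * G := mul_le_mul_of_nonneg_right hcp hG0
        _ = G := one_mul G)
  set A := (Icc 1 T).filter (fun t =>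
      k + 1 ≤ (R.filter (fun h => (a + h + M * t).Prime)).card ∧
      ∀ h ∈ R, ∀ h' ∈ R, h < h' → (a + h + M * t).Prime →
      (a + h' + M * t).Prime → d < (h' : ℝ) - h) with hAdef
  have hsub : (Icc 1 T).filter (fun t => k + 1 ≤ fd1_N R a M t ∧ fd1_Cl R a M d t = 0) ⊆ A := by
    intro t ht
    rw [Finset.mem_filter] at ht
    rw [hAdef, Finset.mem_filter]
    refine ⟨ht.1, ht.2.1, ?_⟩
    intro h hh h' hh' hlt p1 p2
    by_contra hcon
    have h1 := ht.2.2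
    unfold fd1_Cl at h1
    rw [Finset.card_eq_zero] at h1
    have h2 : (h, h') ∈ (CP R d).filter
        (fun x => (a + x.1 + M * t).Prime ∧ (a + x.2 + M * t).Prime) := by
      rw [Finset.mem_filter]
      refine ⟨?_, p1, p2⟩
      unfold CP
      rw [Finset.mem_filter, Finset.mem_product]
      refine ⟨⟨hh, hh'⟩, hlt, ?_⟩
      push Not at hcon
      simp only
      linarith
    rw [h1] at h2
    simp at h2
  have hfin : G / (2 * B) ≤ E0 * A.card := by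
    refine hs.trans ?_
    calc ∑ t ∈ (Icc 1 T).filter (fun t => k + 1 ≤ fd1_N R a M t ∧ fd1_Cl R a M d t = 0), g t
        ≤ ∑ t ∈ A, g t := Finset.sum_le_sum_of_subset_of_nonneg hsub fun t _ _ => hg t
      _ ≤ ∑ _t ∈ A, E0 := Finset.sum_le_sum fun t _ => hE t
      _ = E0 * A.card := by rw [Finset.sum_const, nsmul_eq_mul, mul_comm]
  rw [div_le_iff₀ (by positivity)] at hfin
  calc m ≤ 4 * G := hmG
    _ ≤ 4 * (E0 * A.card * (2 * B)) := by linarith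
    _ = 8 * B * E0 * A.card := by ring

theorem fd1_SE_congr (κ : ℝ) (y M a a' : ℕ) (h : a' ≡ a [MOD M]) : SE κ y M a' = SE κ y M a := by
  unfold SE
  refine Finset.filter_congr fun x _ => ?_
  have h1 : (a' + x) ≡ (a + x) [MOD M] := h.add_right x
  unfold Nat.Coprime
  rw [h1.gcd_eq]

theorem fd1_shift (a M N : ℕ) (hM : 0 < M) : ∃ a', a' ≡ a [MOD M] ∧ N < a' ∧ a' ≤ N + 2 * M := by
  refine ⟨a % M + M * (N / M + 1), ?_, ?_, ?_⟩
  · unfold Nat.ModEq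
    rw [Nat.add_mul_mod_self_left, Nat.mod_mod]
  · have h1 := Nat.lt_mul_div_succ N hM
    omega
  · have h1 := Nat.mul_div_le N M
    have h2 := Nat.mod_lt a hM
    have h3 : M * (N / M + 1) = M * (N / M) + M := by ring
    omega

theorem fd1_hE_mono (κ : ℝ) (y : ℕ) (hκ : 0 ≤ κ) (hκ1 : κ ≤ 1) : hE κ y ≤ hE 1 y := by
  unfold hE
  set E := y * (log y) ^ 2 * log (log (log y)) / (log (log y)) ^ 2 with hE
  rcases le_total 0 E with h | h
  · exact Nat.floor_le_floor (mul_le_mul_of_nonneg_right hκ1 h)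
  · have h1 : κ * E ≤ 0 := mul_nonpos_of_nonneg_of_nonpos hκ h
    rw [Nat.floor_of_nonpos h1]
    exact Nat.zero_le _

theorem fd1_fin (δ ε B : ℝ) (hδ : 0 < δ) (hε : 4 * δ ≤ ε) (hB : 0 < B) : ∃ X₀ : ℕ, ∀ X : ℕ,
    X₀ ≤ X → 72 * B * (NX δ X : ℝ) ^ 6 * (4 : ℝ) ^ ⌊δ * log X⌋₊ * (X : ℝ) ^ (1 - ε) ≤ 60 * X := by
  have T0 : Filter.Tendsto (fun n : ℕ => (n : ℝ)) Filter.atTop Filter.atTop :=
    tendsto_natCast_atTop_atTop
  have E1 := T0.eventually_ge_atTop 1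
  have E2 := ((tendsto_rpow_atTop hδ).comp T0).eventually_ge_atTop (72 * B)
  obtain ⟨X₀, hX₀⟩ := Filter.eventually_atTop.mp (E1.and E2)
  refine ⟨X₀, fun X hX => ?_⟩
  obtain ⟨h1, h2⟩ := hX₀ X hX
  simp only [Function.comp_apply] at h2
  have hX0 : (0 : ℝ) < X := by linarith
  have hL : 0 ≤ log (X : ℝ) := log_nonneg h1
  have hN : (NX δ X : ℝ) ≤ (X : ℝ) ^ (δ / 8) := Nat.floor_le (by positivity)
  have hN6 : (NX δ X : ℝ) ^ 6 ≤ (X : ℝ) ^ (6 * (δ / 8)) := by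
    calc (NX δ X : ℝ) ^ 6 ≤ ((X : ℝ) ^ (δ / 8)) ^ 6 := by gcongr
      _ = (X : ℝ) ^ (6 * (δ / 8)) := by
        rw [← rpow_natCast, ← rpow_mul hX0.le]
        congr 1
        push_cast
        ring
  have h4 : (4 : ℝ) ^ ⌊δ * log X⌋₊ ≤ (X : ℝ) ^ (2 * δ) := by
    have hy : (⌊δ * log X⌋₊ : ℝ) ≤ δ * log X := Nat.floor_le (by positivity)
    have hl4 : log 4 ≤ 2 := by
      have : log (4 : ℝ) = 2 * log 2 := by
        rw [show (4 : ℝ) = 2 ^ 2 by norm_num, log_pow]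
        push_cast
        ring
      rw [this]
      have := log_two_lt_d9
      linarith
    have hl40 : 0 ≤ log (4 : ℝ) := log_nonneg (by norm_num)
    rw [← rpow_natCast, rpow_def_of_pos (by norm_num), rpow_def_of_pos hX0]
    apply exp_le_exp.mpr
    calc log 4 * (⌊δ * log X⌋₊ : ℝ) ≤ 2 * (δ * log X) := by gcongr
      _ = log X * (2 * δ) := by ring
  have h5 : (X : ℝ) ^ (1 - ε) ≤ (X : ℝ) ^ (1 - 4 * δ) :=
    rpow_le_rpow_of_exponent_le h1 (by linarith)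
  calc 72 * B * (NX δ X : ℝ) ^ 6 * (4 : ℝ) ^ ⌊δ * log X⌋₊ * (X : ℝ) ^ (1 - ε)
      ≤ 72 * B * (X : ℝ) ^ (6 * (δ / 8)) * (X : ℝ) ^ (2 * δ) * (X : ℝ) ^ (1 - 4 * δ) := by
        gcongr
    _ ≤ (X : ℝ) ^ δ * (X : ℝ) ^ (6 * (δ / 8)) * (X : ℝ) ^ (2 * δ) * (X : ℝ) ^ (1 - 4 * δ) := by
        gcongr
    _ = (X : ℝ) ^ (δ + 6 * (δ / 8) + 2 * δ + (1 - 4 * δ)) := by
        rw [rpow_add hX0, rpow_add hX0, rpow_add hX0]
    _ ≤ (X : ℝ) ^ (1 : ℝ) := rpow_le_rpow_of_exponent_le h1 (by linarith)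
    _ ≤ 60 * X := by rw [rpow_one]; linarith

/-- elementary facts for large `X` -/
theorem fd1_ev (δ c : ℝ) (hδ : 0 < δ) (y₀ : ℕ) : ∃ X₀ : ℕ, ∀ X : ℕ, X₀ ≤ X →
    100 ≤ log (X : ℝ) ∧ 1 ≤ log (log (X : ℝ)) ∧ 8 * c ≤ log (log (X : ℝ)) ∧
    y₀ ≤ ⌊δ * log X⌋₊ ∧ 4 ≤ (X : ℝ) ^ (1 / 4 : ℝ) ∧ 1 ≤ (X : ℝ) := by
  have T0 : Filter.Tendsto (fun n : ℕ => (n : ℝ)) Filter.atTop Filter.atTop :=
    tendsto_natCast_atTop_atTop
  have T1 : Filter.Tendsto (fun n : ℕ => Real.log (n : ℝ)) Filter.atTop Filter.atTop :=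
    Real.tendsto_log_atTop.comp T0
  have T2 : Filter.Tendsto (fun n : ℕ => Real.log (Real.log (n : ℝ))) Filter.atTop Filter.atTop :=
    Real.tendsto_log_atTop.comp T1
  have T3 := (tendsto_rpow_atTop (show (0 : ℝ) < 1 / 4 by norm_num)).comp T0
  obtain ⟨X₀, hX₀⟩ := Filter.eventually_atTop.mp
    (((T1.eventually_ge_atTop 100).and (T2.eventually_ge_atTop 1)).and
    (((T2.eventually_ge_atTop (8 * c)).and (T1.eventually_ge_atTop (y₀ / δ))).and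
    ((T3.eventually_ge_atTop 4).and (T0.eventually_ge_atTop 1))))
  refine ⟨X₀, fun X hX => ?_⟩
  obtain ⟨⟨h1, h2⟩, ⟨h3, h4⟩, h5, h6⟩ := hX₀ X hX
  refine ⟨h1, h2, h3, ?_, h5, h6⟩
  apply Nat.le_floor
  rw [div_le_iff₀ hδ] at h4
  linarith

/-- the arithmetic of the constants -/
theorem fd1_const (δ κ c1 C1 cL Cu C3 P Bc c L k y r cp : ℝ) (hδ : 0 < δ) (hκ : 0 < κ)
    (hc1 : 0 < c1) (hC1 : 0 < C1) (hcL : 0 < cL) (hCu : 0 < Cu) (hC3 : 0 < C3)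
    (hC3' : 8 ≤ c1 * κ * δ * cL * C3) (hP : P = C1 * κ * δ * C3)
    (hBc : 0 < Bc) (hc : 0 < c)
    (hcB : c ≤ 1 / (32 * Bc * Cu * C1 * (κ * δ) ^ 2 * C3 ^ 2))
    (hL : 0 < L) (hk : 1 ≤ k) (hy1 : δ / 2 * L ≤ y) (hy2 : y ≤ δ * L)
    (hr1 : c1 * (κ * y) ≤ r) (hr2 : r ≤ C1 * (κ * y))
    (hcp0 : 0 ≤ cp) (hcp : cp ≤ C1 * (c / k ^ 2) * (κ * y) ^ 2) :
    4 * (k + 1) ≤ r * (cL * (C3 * (k + 1) / L)) ∧ r * (C3 * (k + 1) / L) ≤ P * (k + 1) ∧
    8 * Bc * Cu * (cp * (C3 * (k + 1) / L) ^ 2) ≤ 1 := by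
  have hy0 : 0 < y := lt_of_lt_of_le (by positivity) hy1
  have hk0 : 0 < k := by linarith
  refine ⟨?_, ?_, ?_⟩
  · have h1 : c1 * (κ * (δ / 2 * L)) ≤ r := le_trans (by gcongr) hr1
    have h2 : c1 * (κ * (δ / 2 * L)) * (cL * (C3 * (k + 1) / L)) ≤
        r * (cL * (C3 * (k + 1) / L)) := mul_le_mul_of_nonneg_right h1 (by positivity)
    have h3 : c1 * (κ * (δ / 2 * L)) * (cL * (C3 * (k + 1) / L)) =
        (c1 * κ * δ * cL * C3) * ((k + 1) / 2) := by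
      field_simp
    have h4 : 8 * ((k + 1) / 2) ≤ (c1 * κ * δ * cL * C3) * ((k + 1) / 2) :=
      mul_le_mul_of_nonneg_right hC3' (by positivity)
    linarith
  · have h1 : r ≤ C1 * (κ * (δ * L)) := hr2.trans (by gcongr)
    have h2 : r * (C3 * (k + 1) / L) ≤ C1 * (κ * (δ * L)) * (C3 * (k + 1) / L) :=
      mul_le_mul_of_nonneg_right h1 (by positivity)
    have h3 : C1 * (κ * (δ * L)) * (C3 * (k + 1) / L) = P * (k + 1) := by
      rw [hP]
      field_simp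
    linarith
  · have h1 : cp ≤ C1 * (c / k ^ 2) * (κ * (δ * L)) ^ 2 := hcp.trans (by gcongr)
    have h2 : cp * (C3 * (k + 1) / L) ^ 2 ≤
        C1 * (c / k ^ 2) * (κ * (δ * L)) ^ 2 * (C3 * (k + 1) / L) ^ 2 :=
      mul_le_mul_of_nonneg_right h1 (by positivity)
    have h3 : C1 * (c / k ^ 2) * (κ * (δ * L)) ^ 2 * (C3 * (k + 1) / L) ^ 2 =
        C1 * c * (κ * δ) ^ 2 * C3 ^ 2 * ((k + 1) / k) ^ 2 := by
      field_simp
    have h4 : ((k + 1) / k) ^ 2 ≤ 4 := by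
      have h5 : (k + 1) / k ≤ 2 := by
        rw [div_le_iff₀ hk0]
        linarith
      calc ((k + 1) / k) ^ 2 ≤ 2 ^ 2 := pow_le_pow_left₀ (by positivity) h5 2
        _ = 4 := by norm_num
    have h5 : cp * (C3 * (k + 1) / L) ^ 2 ≤ C1 * c * (κ * δ) ^ 2 * C3 ^ 2 * 4 := by
      rw [h3] at h2
      exact h2.trans (mul_le_mul_of_nonneg_left h4 (by positivity))
    rw [le_div_iff₀ (by positivity)] at hcB
    calc 8 * Bc * Cu * (cp * (C3 * (k + 1) / L) ^ 2)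
        ≤ 8 * Bc * Cu * (C1 * c * (κ * δ) ^ 2 * C3 ^ 2 * 4) :=
          mul_le_mul_of_nonneg_left h5 (by positivity)
      _ = c * (32 * Bc * Cu * C1 * (κ * δ) ^ 2 * C3 ^ 2) := by ring
      _ ≤ 1 := hcB

/-- Many `t` are good.

Proof. `δ = min δ₀ (ε/4)` (`prime_low`), `κ` so small that `C1 κ y ≤ c0 log X`; `(1-θ)² = C (k+1)/loglog X`
with `C` large (`k + 1 ≤ loglog X/C`), `η = c/k²`. `s = mkSys (WX X) (NX δ X) M B`, `B = {a' + h : h ∈ SE}`,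
`a' ≡ a mod M` (`a` from `er`), `N < a' ≤ N + M`; `T = ⌈60 X/M⌉`. With `g = L²`, `G = ∑ g ≤ 2 T ZZ`:
`∑ g N ≥ |B| c (loglog X/log X)(1-θ)² T ZZ ≥ (2k+2) G`;
`∑ g N² ≤ B' (k+1)² G` and `∑ g Cl ≤ #CP · C (..)² T ZZ ≤ C'' η (k+1)² G` by `upp` (a prime
`> N` is not divisible by a sieve prime) and `er`. `second_moment`; `g ≤ 9 N^6` (`L_sq_le`). -/
theorem good_t (ε : ℝ) (hε : 0 < ε) : ∃ (δ κ c : ℝ), 0 < δ ∧ δ ≤ 1 / 100 ∧ 0 < κ ∧ κ ≤ 1 ∧
    0 < c ∧ ∃ X₀ : ℕ, ∀ X : ℕ, X₀ ≤ X → ∀ k : ℕ, 1 ≤ k → (k : ℝ) ≤ c * log (log X) →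
    ∃ (D : Finset ℕ) (p1 a T : ℕ), OKD ⌊δ * log X⌋₊ D p1 ∧
      (⌊δ * log X⌋₊ : ℝ) < a ∧ (a : ℝ) ≤ X ∧ MM ⌊δ * log X⌋₊ D p1 * T ≤ 61 * X ∧
      (X : ℝ) ^ (1 - ε) ≤ (GT κ ⌊δ * log X⌋₊ (MM ⌊δ * log X⌋₊ D p1) a T k
        (c / k ^ 2 * hE κ ⌊δ * log X⌋₊)).card := by
  obtain ⟨δ₀, hδ₀, hδ₀1, hpl0⟩ := prime_low
  obtain ⟨δ, hδ, hδδ₀, hδε⟩ : ∃ δ : ℝ, 0 < δ ∧ δ ≤ δ₀ ∧ 4 * δ ≤ ε :=
    ⟨min δ₀ (ε / 4), lt_min hδ₀ (by positivity), min_le_left _ _, by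
      have := min_le_right δ₀ (ε / 4); linarith⟩
  have hδ1 : δ ≤ 1 / 100 := hδδ₀.trans hδ₀1
  obtain ⟨cL, c0L, hcL, hc0L, XL, hpl⟩ := hpl0 δ hδ hδδ₀
  obtain ⟨c0u, Cu, hc0u, hCu, XU, hupp⟩ := upp δ hδ hδ1
  obtain ⟨c0p, hc0p, XP, hpar⟩ := par_num δ hδ hδ1
  obtain ⟨c1, C1, hc1, hC1, her0⟩ := er
  obtain ⟨κ, hκ, hκ1, hκL, hκu, hκp⟩ : ∃ κ : ℝ, 0 < κ ∧ κ ≤ 1 ∧ C1 * κ ≤ c0L ∧ C1 * κ ≤ c0u ∧
      C1 * κ ≤ c0p := by
    refine ⟨min 1 (min c0L (min c0u c0p) / C1), lt_min one_pos (by positivity), min_le_left _ _,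
      ?_, ?_, ?_⟩
    all_goals
      have h1 : min 1 (min c0L (min c0u c0p) / C1) ≤ min c0L (min c0u c0p) / C1 := min_le_right _ _
      rw [le_div_iff₀ hC1] at h1
      have h2 : min c0L (min c0u c0p) ≤ c0L := min_le_left _ _
      have h3 : min c0L (min c0u c0p) ≤ min c0u c0p := min_le_right _ _
      have h4 : min c0u c0p ≤ c0u := min_le_left _ _
      have h5 : min c0u c0p ≤ c0p := min_le_right _ _
      linarith
  obtain ⟨y₀, her⟩ := her0 κ hκ hκ1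
  obtain ⟨C3, hC31, hC3'⟩ : ∃ C3 : ℝ, 1 ≤ C3 ∧ 8 ≤ c1 * κ * δ * cL * C3 := by
    refine ⟨1 + 8 / (c1 * κ * δ * cL), ?_, ?_⟩
    · have : 0 ≤ 8 / (c1 * κ * δ * cL) := by positivity
      linarith
    · have h1 : c1 * κ * δ * cL * (1 + 8 / (c1 * κ * δ * cL)) = c1 * κ * δ * cL + 8 := by
        field_simp
      have h2 : 0 ≤ c1 * κ * δ * cL := by positivity
      linarith
  have hC3 : 0 < C3 := by linarith
  obtain ⟨P, hP⟩ : ∃ P : ℝ, P = C1 * κ * δ * C3 := ⟨_, rfl⟩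
  have hP0 : 0 ≤ P := by rw [hP]; positivity
  obtain ⟨Bc, hBc, hBP⟩ : ∃ Bc : ℝ, 0 < Bc ∧ 4 * Cu * (P + P ^ 2) ≤ Bc :=
    ⟨4 * Cu * (P + P ^ 2) + 1, by positivity, by linarith⟩
  obtain ⟨c, hc, hc1', hcC3, hcB⟩ : ∃ c : ℝ, 0 < c ∧ c ≤ 1 ∧ c ≤ 1 / (2 * C3) ∧
      c ≤ 1 / (32 * Bc * Cu * C1 * (κ * δ) ^ 2 * C3 ^ 2) :=
    ⟨min 1 (min (1 / (2 * C3)) (1 / (32 * Bc * Cu * C1 * (κ * δ) ^ 2 * C3 ^ 2))),
      lt_min one_pos (lt_min (by positivity) (by positivity)), min_le_left _ _,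
      (min_le_right _ _).trans (min_le_left _ _), (min_le_right _ _).trans (min_le_right _ _)⟩
  obtain ⟨X1, hnum⟩ := fc_num 1 δ le_rfl hδ hδ1 (by linarith)
  obtain ⟨X2, hfin⟩ := fd1_fin δ ε Bc hδ hδε hBc
  obtain ⟨X3, hev⟩ := fd1_ev δ c hδ y₀
  refine ⟨δ, κ, c, hδ, hδ1, hκ, hκ1, hc, XL + XU + XP + X1 + X2 + X3, fun X hX k hk1 hk => ?_⟩
  obtain ⟨-, -, -, n4, n5, n6, n7, n8, n9, n10, n11, n12, n13, n14, n15, n16⟩ :=
    hnum X (by omega)
  obtain ⟨v1, v2, v3, v4, v5, v6⟩ := hev X (by omega)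
  have hfinX := hfin X (by omega)
  obtain ⟨D, p1, hOK, hplX⟩ := hpl X (by omega)
  refine ⟨D, p1, ?_⟩
  have hyfl : (⌊δ * log X⌋₊ : ℝ) ≤ δ * log X := Nat.floor_le (by positivity)
  set y := ⌊δ * log X⌋₊ with hy
  have hkr : (1 : ℝ) ≤ k := by exact_mod_cast hk1
  have hk0 : (0 : ℝ) < k := by linarith
  have hLpos : 0 < log (X : ℝ) := by linarith
  have hlpos : 0 < log (log (X : ℝ)) := by linarith
  have hXpos : (0 : ℝ) < X := by linarith
  -- `η`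
  have hη2 : c / (k : ℝ) ^ 2 ≤ 1 := by
    rw [div_le_one (by positivity)]
    exact hc1'.trans (one_le_pow₀ hkr)
  have hη1 : 1 / (log (y : ℝ)) ^ 3 ≤ c / (k : ℝ) ^ 2 := by
    have h1 : (k : ℝ) ^ 2 ≤ (c * log (log X)) ^ 2 := pow_le_pow_left₀ hk0.le hk 2
    have h2 : (log (log (X : ℝ)) / 2) ^ 3 ≤ (log (y : ℝ)) ^ 3 :=
      pow_le_pow_left₀ (by positivity) n9 3
    have h3 : 0 < log (y : ℝ) := by linarith
    rw [div_le_div_iff₀ (by positivity) (by positivity)]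
    have h4 : c * (log (log (X : ℝ)) / 2) ^ 3 ≤ c * (log (y : ℝ)) ^ 3 :=
      mul_le_mul_of_nonneg_left h2 hc.le
    have h5 : (c * log (log (X : ℝ))) ^ 2 ≤ c * (log (log (X : ℝ)) / 2) ^ 3 := by
      have h6 : c * (log (log (X : ℝ)) / 2) ^ 3 =
          (c * log (log (X : ℝ)) ^ 2) * (log (log (X : ℝ)) / 8) := by ring
      have h7 : (c * log (log (X : ℝ))) ^ 2 = (c * log (log (X : ℝ)) ^ 2) * c := by ring
      rw [h6, h7]
      exact mul_le_mul_of_nonneg_left (by linarith) (by positivity)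
    linarith
  obtain ⟨a₀, ha1, ha2, ha3⟩ := her y v4 D p1 hOK (c / (k : ℝ) ^ 2) hη1 hη2
  -- `M` and `a`
  have hMpos : 0 < MM y D p1 := ER6b_pos y D p1
  have hM4 : (MM y D p1 : ℝ) ≤ (4 : ℝ) ^ y := by exact_mod_cast mm_le y D p1
  have hMprime : ∀ p, p.Prime → WX X < p → ¬ p ∣ MM y D p1 := by
    intro p hp h1 h2
    have h3 := mm_prime y D p1 p hp h2
    have h4 : (y : ℝ) ≤ WX X := by
      refine n4.trans (le_trans ?_ n13)
      exact le_self_pow₀ (by linarith) (by norm_num)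
    have h5 : y ≤ WX X := by exact_mod_cast h4
    omega
  set M := MM y D p1 with hM
  obtain ⟨a, haM, haN, haN2⟩ := fd1_shift a₀ M (NX δ X) hMpos
  rw [← fd1_SE_congr κ y M a₀ a haM] at ha1 ha2 ha3
  -- sizes
  have hcardL : ((SE κ y M a).card : ℝ) ≤ C1 * κ * log X := by
    refine ha2.trans ?_
    calc C1 * (κ * (y : ℝ)) ≤ C1 * (κ * log X) := by gcongr
      _ = C1 * κ * log X := by ring
  obtain ⟨w1, -, w3, -⟩ := hpar X (by omega) (SE κ y M a).card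
    (hcardL.trans (mul_le_mul_of_nonneg_right hκp hLpos.le)) _ le_rfl
  have hEW : hE κ y ≤ WX X := by
    have h1 : (hE κ y : ℝ) ≤ WX X := by
      refine le_trans ?_ n14
      exact_mod_cast fd1_hE_mono κ y hκ.le hκ1
    exact_mod_cast h1
  have hNr : (NX δ X : ℝ) ≤ (X : ℝ) ^ (1 / 4 : ℝ) := by
    refine (Nat.floor_le (by positivity)).trans ?_
    exact rpow_le_rpow_of_exponent_le v6 (by linarith)
  have hE4 : (X : ℝ) ^ (1 / 4 : ℝ) * (X : ℝ) ^ (1 / 4 : ℝ) = (X : ℝ) ^ (1 / 2 : ℝ) := by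
    rw [← rpow_add hXpos]
    norm_num
  have hEE : 4 * (X : ℝ) ^ (1 / 4 : ℝ) ≤ (X : ℝ) ^ (1 / 2 : ℝ) := by
    rw [← hE4]
    exact mul_le_mul_of_nonneg_right v5 (by positivity)
  have hXX : (X : ℝ) ^ (1 / 2 : ℝ) ≤ X := by
    calc (X : ℝ) ^ (1 / 2 : ℝ) ≤ (X : ℝ) ^ (1 : ℝ) := rpow_le_rpow_of_exponent_le v6 (by norm_num)
      _ = X := rpow_one _
  have hMr : 4 * (M : ℝ) ≤ (X : ℝ) ^ (1 / 4 : ℝ) := by
    refine le_trans ?_ n7
    linarith
  have haX : ((a + WX X : ℕ) : ℝ) ≤ (X : ℝ) ^ (1 / 2 : ℝ) := by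
    have h1 : a + WX X ≤ 2 * NX δ X + 2 * M := by omega
    have h2 : ((a + WX X : ℕ) : ℝ) ≤ 2 * NX δ X + 2 * M := by exact_mod_cast h1
    refine h2.trans (le_trans ?_ hEE)
    have h3 : 0 ≤ (X : ℝ) ^ (1 / 4 : ℝ) := by positivity
    linarith
  have hWya : WX X < a := lt_of_le_of_lt w3 haN
  have hyW : (y : ℝ) ≤ WX X := by
    refine n4.trans (le_trans ?_ n13)
    exact le_self_pow₀ (by linarith) (by norm_num)
  -- `T`
  set T := 60 * X / M + 1 with hT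
  have hXM : M ≤ X := by
    have h1 : (M : ℝ) ≤ X := by
      have h3 : (X : ℝ) ^ (1 / 4 : ℝ) ≤ (X : ℝ) ^ (1 / 2 : ℝ) := by
        have : 0 ≤ (X : ℝ) ^ (1 / 4 : ℝ) := by positivity
        linarith
      have h4 : (0 : ℝ) ≤ M := Nat.cast_nonneg M
      linarith
    exact_mod_cast h1
  have hT1 : 60 * X ≤ M * T := (Nat.lt_mul_div_succ (60 * X) hMpos).le
  have hT2 : M * T ≤ 61 * X := by
    have h1 := Nat.mul_div_le (60 * X) M
    have h3 : M * T = M * (60 * X / M) + M := by rw [hT]; ring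
    omega
  refine ⟨a, T, hOK, ?_, ?_, hT2, ?_⟩
  · refine lt_of_le_of_lt hyW ?_
    exact_mod_cast hWya
  · refine le_trans ?_ (haX.trans hXX)
    push_cast
    have : (0 : ℝ) ≤ WX X := Nat.cast_nonneg _
    linarith
  -- the system
  set R := SE κ y M a with hR
  have hRmem : ∀ h ∈ R, 1 ≤ h ∧ h ≤ hE κ y ∧ Nat.Coprime (a + h) M := by
    intro h hh
    rw [hR] at hh
    unfold SE at hh
    rw [Finset.mem_filter, Finset.mem_Icc] at hh
    exact ⟨hh.1.1, hh.1.2, hh.2⟩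
  have hBW : ∀ b ∈ R.image (fun h => a + h), ∀ b' ∈ R.image (fun h => a + h), b ≤ b' + WX X := by
    intro b hb b' hb'
    rw [Finset.mem_image] at hb hb'
    obtain ⟨h, hh, rfl⟩ := hb
    obtain ⟨h', hh', rfl⟩ := hb'
    have := (hRmem h hh).2.1
    omega
  set s := mkSys (WX X) (NX δ X) M (R.image (fun h => a + h)) hMprime hBW with hs
  have hsv : IsSieve s δ X := ⟨fun i => (mem_Ioc.mp (mem_filter.mp i.2).1).1,
    fun i => (mem_Ioc.mp (mem_filter.mp i.2).1).2,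
    fun p hp h1 h2 => ⟨⟨p, mem_filter.mpr ⟨mem_Ioc.mpr ⟨h1, h2⟩, hp⟩⟩, rfl⟩⟩
  have hcard : Fintype.card {b // b ∈ R.image (fun h => a + h)} = R.card := by
    rw [Fintype.card_coe, Finset.card_image_of_injective]
    intro x x' hxx
    simpa using hxx
  -- `θ`
  set q : ℝ := C3 * (k + 1) / log (log X) with hq
  have hq0 : 0 ≤ q := by positivity
  have hq1 : q ≤ 1 := by
    rw [hq, div_le_one hlpos]
    have h1 : (k : ℝ) ≤ 1 / (2 * C3) * log (log X) :=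
      hk.trans (mul_le_mul_of_nonneg_right hcC3 hlpos.le)
    have h2 : C3 * ((k : ℝ) + 1) ≤ C3 * (2 * k) := mul_le_mul_of_nonneg_left (by linarith) hC3.le
    have h3 : C3 * (2 * (k : ℝ)) ≤ C3 * (2 * (1 / (2 * C3) * log (log X))) :=
      mul_le_mul_of_nonneg_left (by linarith) hC3.le
    have h4 : C3 * (2 * (1 / (2 * C3) * log (log (X : ℝ)))) = log (log X) := by
      field_simp
    linarith
  have hsq1 : √q ≤ 1 := (Real.sqrt_le_sqrt hq1).trans (le_of_eq Real.sqrt_one)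
  have hθq : (1 - (1 - √q)) ^ 2 = q := by
    rw [sub_sub_cancel, Real.sq_sqrt hq0]
  have hθ0 : 0 ≤ 1 - √q := by linarith
  have hθ1 : 1 - √q ≤ 1 := by linarith [Real.sqrt_nonneg q]
  have hθl : 1 / log (log (X : ℝ)) ≤ (1 - (1 - √q)) ^ 2 := by
    rw [hθq, hq]
    refine div_le_div_of_nonneg_right ?_ hlpos.le
    have : (1 : ℝ) * 1 ≤ C3 * (k + 1) := mul_le_mul hC31 (by linarith) one_pos.le hC3.le
    linarith
  have hTY : (X : ℝ) ^ (1 / 2 : ℝ) ≤ T := by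
    have h1 : (60 : ℝ) * X ≤ M * T := by exact_mod_cast hT1
    have h2 : (M : ℝ) * T ≤ (X : ℝ) ^ (1 / 4 : ℝ) * T := by
      refine mul_le_mul_of_nonneg_right ?_ (Nat.cast_nonneg _)
      have : (0 : ℝ) ≤ M := Nat.cast_nonneg M
      linarith
    have h3 : (X : ℝ) ^ (1 / 4 : ℝ) * (X : ℝ) ^ (1 / 2 : ℝ) ≤ (X : ℝ) ^ (1 / 4 : ℝ) * T := by
      refine le_trans ?_ h2
      rw [← rpow_add hXpos]
      calc (X : ℝ) ^ (1 / 4 + 1 / 2 : ℝ) ≤ (X : ℝ) ^ (1 : ℝ) :=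
            rpow_le_rpow_of_exponent_le v6 (by norm_num)
        _ ≤ 60 * X := by rw [rpow_one]; linarith
        _ ≤ M * T := h1
    exact le_of_mul_le_mul_left h3 (by positivity)
  have hJu : (Fintype.card {b // b ∈ R.image (fun h => a + h)} : ℝ) ≤ c0u * log X := by
    rw [hcard]
    exact hcardL.trans (mul_le_mul_of_nonneg_right hκu hLpos.le)
  have hJL : (Fintype.card {b // b ∈ R.image (fun h => a + h)} : ℝ) ≤ c0L * log X := by
    rw [hcard]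
    exact hcardL.trans (mul_le_mul_of_nonneg_right hκL hLpos.le)
  obtain ⟨hSpos, -, u1, u2, u3, u4, -⟩ :=
    hupp X (by omega) s hsv hJu (1 - √q) hθ0 hθ1 hθl T hTY
  have hbmem : ∀ j : {b // b ∈ R.image (fun h => a + h)}, ∃ h ∈ R, j.1 = a + h := by
    intro j
    obtain ⟨h, hh, he⟩ := Finset.mem_image.mp j.2
    exact ⟨h, hh, he.symm⟩
  have hl1 := hplX s rfl hsv hJL (fun j => by
      obtain ⟨h, hh, he⟩ := hbmem j
      have h2 : s.b j = a + h := he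
      rw [h2]
      exact (hRmem h hh).2.2) (fun j => by
      obtain ⟨h, hh, he⟩ := hbmem j
      have h2 : s.b j = a + h := he
      rw [h2]
      refine le_trans ?_ haX
      have h3 : a + h ≤ a + WX X := by
        have := (hRmem h hh).2.1
        omega
      exact_mod_cast h3) (1 - √q) hθ0 hθ1 hθl T hT1 hT2
  rw [hθq] at u3 u4 hl1
  -- the numbers
  have hu : log (log (X : ℝ)) / log X * q = C3 * (k + 1) / log X := by
    rw [hq]
    field_simp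
  rw [hu] at u3 u4 hl1
  obtain ⟨r1, r2, r3⟩ := fd1_const δ κ c1 C1 cL Cu C3 P Bc c (log X) k y R.card
    (CP R (c / (k : ℝ) ^ 2 * hE κ y)).card hδ hκ hc1 hC1 hcL hCu hC3 hC3' hP hBc hc hcB hLpos hkr
    n8 hyfl ha1 ha2 (Nat.cast_nonneg _) ha3
  -- no sieve prime divides a prime of the form
  have hnd : ∀ h ∈ R, ∀ t, (a + h + M * t).Prime → ∀ i, ¬ s.pr i ∣ a + h + M * t := by
    intro h hh t hp i hi
    have h1 : s.pr i = a + h + M * t := (Nat.prime_dvd_prime_iff_eq (s.prime i) hp).1 hi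
    have h2 : s.pr i ≤ NX δ X := (mem_Ioc.mp (mem_filter.mp i.2).1).2
    have h3 := (hRmem h hh).1
    omega
  set Z := ZZ s (tb s (zX δ X) (1 - √q)) with hZ
  have hZ1 : 1 ≤ Z := one_le_ZZ s _
  set g : ℕ → ℝ := fun t =>
    (∑ κ', cc s (tb s (zX δ X) (1 - √q)) (NX δ X) κ' * s.U κ' t) ^ 2 with hg
  have hg0 : ∀ t, 0 ≤ g t := fun t => sq_nonneg _
  have hN1 : (1 : ℝ) ≤ NX δ X := by exact_mod_cast n12
  have hgE : ∀ t, g t ≤ 9 * (NX δ X : ℝ) ^ 6 := by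
    intro t
    refine L_sq_le s (WX X) (by omega) hsv.1 ?_ (zX δ X) (1 - √q) (NX δ X) hθ0 hθ1 hSpos hN1 t
    rw [hcard]
    obtain ⟨-, w2, -⟩ := hpar X (by omega) R.card
      (hcardL.trans (mul_le_mul_of_nonneg_right hκp hLpos.le)) _ le_rfl
    exact w2
  have hsubset : ∀ h ∈ R, (Icc 1 T).filter (fun t => (a + h + M * t).Prime) ⊆
      (Icc 1 T).filter (fun t => ∀ i, ¬ s.pr i ∣ a + h + s.M * t) := by
    intro h hh t ht
    rw [Finset.mem_filter] at ht ⊢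
    exact ⟨ht.1, hnd h hh t ht.2⟩
  have hmemB : ∀ h ∈ R, a + h ∈ R.image (fun h => a + h) := fun h hh =>
    Finset.mem_image_of_mem _ hh
  have hcomb := fd1_comb R a M T k (c / (k : ℝ) ^ 2 * hE κ y) g hg0 (T * Z)
    (9 * (NX δ X : ℝ) ^ 6) cL Cu (C3 * (k + 1) / log X) P Bc (by positivity) (by positivity)
    hCu.le hP0 hBc (by
      refine le_trans (le_of_eq ?_) u1
      ring) (by
      refine u2.trans (le_of_eq ?_)
      ring) (by
      intro h hh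
      refine le_trans (le_of_eq ?_) (hl1 ⟨a + h, hmemB h hh⟩)
      ring) (by
      intro h hh
      refine le_trans ?_ ((u3 ⟨a + h, hmemB h hh⟩).trans (le_of_eq ?_))
      · exact Finset.sum_le_sum_of_subset_of_nonneg (hsubset h hh) fun t _ _ => hg0 t
      · ring) (by
      intro h hh h' hh' hne
      refine le_trans ?_ ((u4 ⟨a + h, hmemB h hh⟩ ⟨a + h', hmemB h' hh'⟩ (by
        intro heq
        have := congrArg Subtype.val heq
        simp only at this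
        omega)).trans (le_of_eq ?_))
      · refine Finset.sum_le_sum_of_subset_of_nonneg ?_ fun t _ _ => hg0 t
        intro t ht
        rw [Finset.mem_filter] at ht ⊢
        exact ⟨ht.1, hnd h hh t ht.2.1, hnd h' hh' t ht.2.2⟩
      · ring) r1 r2 hBP r3 hgE
  -- conclusion
  have hGT : ((GT κ y M a T k (c / (k : ℝ) ^ 2 * hE κ y)).card : ℝ) =
      (((Icc 1 T).filter (fun t =>
      k + 1 ≤ (R.filter (fun h => (a + h + M * t).Prime)).card ∧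
      ∀ h ∈ R, ∀ h' ∈ R, h < h' → (a + h + M * t).Prime →
      (a + h' + M * t).Prime → c / (k : ℝ) ^ 2 * hE κ y < (h' : ℝ) - h)).card : ℝ) := rfl
  rw [← hGT] at hcomb
  set A : ℝ := ((GT κ y M a T k (c / (k : ℝ) ^ 2 * hE κ y)).card : ℝ) with hA
  have hT0 : (0 : ℝ) ≤ T := Nat.cast_nonneg T
  have hTA : (T : ℝ) ≤ 8 * Bc * (9 * (NX δ X : ℝ) ^ 6) * A :=
    (le_mul_of_one_le_right hT0 hZ1).trans hcomb
  have hMT : (60 : ℝ) * X ≤ M * T := by exact_mod_cast hT1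
  have hA0 : 0 ≤ A := Nat.cast_nonneg _
  have h60 : 72 * Bc * (NX δ X : ℝ) ^ 6 * (4 : ℝ) ^ y * (X : ℝ) ^ (1 - ε) ≤
      72 * Bc * (NX δ X : ℝ) ^ 6 * (4 : ℝ) ^ y * A := by
    calc 72 * Bc * (NX δ X : ℝ) ^ 6 * (4 : ℝ) ^ y * (X : ℝ) ^ (1 - ε) ≤ 60 * X := hfinX
      _ ≤ M * T := hMT
      _ ≤ (4 : ℝ) ^ y * (8 * Bc * (9 * (NX δ X : ℝ) ^ 6) * A) :=
          mul_le_mul hM4 hTA hT0 (by positivity)
      _ = _ := by ring
  exact le_of_mul_le_mul_left h60 (by positivity)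

end Pool.Agent.Lib.H5C
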