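import Pool.Agent.Lib.H5C.FA
import Pool.Agent.Lib.H5C.FB
import Pool.Agent.Lib.H5C.FC
import Pool.Agent.Lib.H5C.ER7
import Pool.Agent.Lib.H56G.Suppress
import Pool.Agent.Lib.H5C.FD1

/-!
# Chunk FD2: many windows with `k + 1` primes far from each other
-/

open Finset Real
open Pool.Agent.Lib.H56G

namespace Pool.Agent.Lib.H5C

/-- one good `t` gives a chain -/
theorem fd2_one (κ : ℝ) (y M a T k : ℕ) (d : ℝ) (hya : y < a)
    (hM : ∀ p : ℕ, p.Prime → p ∣ M → p ≤ y) (t : ℕ) (ht : t ∈ GT κ y M a T k d) :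
    ∃ n : ℕ, a + M * t < Nat.nth Nat.Prime n ∧
      Nat.nth Nat.Prime (n + k) ≤ a + M * t + hE κ y ∧
      ∀ i < k, d < (Nat.nth Nat.Prime (n + i + 1) : ℝ) - Nat.nth Nat.Prime (n + i) := by
  classical
  unfold GT at ht
  rw [Finset.mem_filter] at ht
  obtain ⟨-, ht1, ht2⟩ := ht
  refine chain_of_window (a + M * t) (hE κ y) k d ?_ ?_
  · refine ht1.trans ?_
    refine Finset.card_le_card_of_injOn (fun h => a + h + M * t) ?_ ?_
    · intro h hh
      have hh' := Finset.mem_filter.1 hh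
      have hs := (Finset.mem_filter.1 hh'.1).1
      rw [Finset.mem_Icc] at hs
      have h1 : a + h + M * t ∈ (Ioc (a + M * t) (a + M * t + hE κ y)).filter Nat.Prime := by
        rw [Finset.mem_filter, Finset.mem_Ioc]
        exact ⟨⟨by omega, by omega⟩, hh'.2⟩
      exact h1
    · intro h _ h' _ hhh
      have h1 : a + h + M * t = a + h' + M * t := hhh
      omega
  · intro p q hp hq hmp hpq hqm
    have key : ∀ r : ℕ, r.Prime → a + M * t < r → r ≤ a + M * t + hE κ y →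
        ∃ h ∈ SE κ y M a, a + h + M * t = r := by
      intro r hr h1 h2
      refine ⟨r - (a + M * t), ?_, by omega⟩
      unfold SE
      rw [Finset.mem_filter, Finset.mem_Icc]
      refine ⟨⟨by omega, by omega⟩, ?_⟩
      have h3 : a + (r - (a + M * t)) + M * t = r := by omega
      by_contra hc
      obtain ⟨l, hl, hla, hlM⟩ := Nat.Prime.not_coprime_iff_dvd.1 hc
      have h4 : l ∣ r := by
        rw [← h3]
        exact dvd_add hla (hlM.trans (dvd_mul_right _ _))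
      have h5 : l = r := ((Nat.prime_dvd_prime_iff_eq hl hr).1 h4)
      have h6 := hM l hl hlM
      omega
    obtain ⟨h, hh, rfl⟩ := key p hp hmp (by omega)
    obtain ⟨h', hh', rfl⟩ := key q hq (by omega) hqm
    have h1 := ht2 h hh h' hh' (by omega) hp hq
    push_cast
    linarith

/-- the numbers `n` of the chains are different -/
theorem fd2_count (κ x d : ℝ) (y M a T k : ℕ) (hya : y < a)
    (hM : ∀ p : ℕ, p.Prime → p ∣ M → p ≤ y) (hHM : hE κ y < M)
    (hx : ((a + M * T + hE κ y : ℕ) : ℝ) ≤ x) :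
    ((GT κ y M a T k d).card : ℝ) ≤ (Set.ncard {n : ℕ | (Nat.nth Nat.Prime (n + k) : ℝ) ≤ x ∧
      ∀ i < k, d < (Nat.nth Nat.Prime (n + i + 1) : ℝ) - Nat.nth Nat.Prime (n + i)} : ℝ) := by
  classical
  have hmono := Nat.nth_strictMono Nat.infinite_setOf_prime
  set S := {n : ℕ | (Nat.nth Nat.Prime (n + k) : ℝ) ≤ x ∧
      ∀ i < k, d < (Nat.nth Nat.Prime (n + i + 1) : ℝ) - Nat.nth Nat.Prime (n + i)} with hS
  have hfin : S.Finite := by
    refine (Set.finite_Iic ⌊x⌋₊).subset ?_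
    rintro n ⟨hn, -⟩
    have h1 : n + k ≤ Nat.nth Nat.Prime (n + k) := hmono.le_apply
    have h2 : ((n : ℕ) : ℝ) ≤ x := by
      have h3 : ((n + k : ℕ) : ℝ) ≤ (Nat.nth Nat.Prime (n + k) : ℝ) := by exact_mod_cast h1
      have h4 : (n : ℝ) ≤ ((n + k : ℕ) : ℝ) := by exact_mod_cast Nat.le_add_right n k
      linarith
    exact Nat.le_floor h2
  have hex : ∀ t ∈ GT κ y M a T k d, ∃ n : ℕ, a + M * t < Nat.nth Nat.Prime n ∧
      Nat.nth Nat.Prime (n + k) ≤ a + M * t + hE κ y ∧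
      ∀ i < k, d < (Nat.nth Nat.Prime (n + i + 1) : ℝ) - Nat.nth Nat.Prime (n + i) :=
    fun t ht => fd2_one κ y M a T k d hya hM t ht
  choose! nn hnn using hex
  have h1 : (GT κ y M a T k d).image nn ⊆ hfin.toFinset := by
    intro n hn
    obtain ⟨t, ht, rfl⟩ := Finset.mem_image.1 hn
    rw [Set.Finite.mem_toFinset]
    obtain ⟨-, h2, h3⟩ := hnn t ht
    refine ⟨?_, h3⟩
    have htT : t ≤ T := (Finset.mem_Icc.1 (Finset.mem_filter.1 ht).1).2
    have h4 : Nat.nth Nat.Prime (nn t + k) ≤ a + M * T + hE κ y := by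
      have h5 : M * t ≤ M * T := Nat.mul_le_mul_left _ htT
      omega
    have h5 : (Nat.nth Nat.Prime (nn t + k) : ℝ) ≤ ((a + M * T + hE κ y : ℕ) : ℝ) := by
      exact_mod_cast h4
    linarith
  have h2 : Set.InjOn nn (GT κ y M a T k d : Set ℕ) := by
    have key : ∀ t ∈ GT κ y M a T k d, ∀ t' ∈ GT κ y M a T k d, t < t' → nn t ≠ nn t' := by
      intro t ht t' ht' htt heq
      obtain ⟨-, h3, -⟩ := hnn t ht
      obtain ⟨h4, -, -⟩ := hnn t' ht'
      have h5 : Nat.nth Nat.Prime (nn t) ≤ Nat.nth Nat.Prime (nn t + k) :=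
        hmono.monotone (Nat.le_add_right _ _)
      have h6 : M * (t + 1) ≤ M * t' := Nat.mul_le_mul_left _ htt
      rw [Nat.mul_add, Nat.mul_one] at h6
      rw [← heq] at h4
      omega
    intro t ht t' ht' heq
    rcases lt_trichotomy t t' with h | h | h
    · exact absurd heq (key t ht t' ht' h)
    · exact h
    · exact absurd heq.symm (key t' ht' t ht h)
  have h3 := Finset.card_le_card h1
  rw [Finset.card_image_of_injOn h2, ← Set.ncard_eq_toFinset_card S hfin] at h3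
  exact_mod_cast h3

/-- size conditions -/
theorem fd2_ev (δ ε : ℝ) (hδ : 0 < δ) (hε : 0 < ε) (X₀ y₀ : ℕ) : ∃ x₀ : ℝ, ∀ x : ℝ, x₀ ≤ x →
    X₀ ≤ ⌊x / 70⌋₊ ∧ y₀ ≤ ⌊δ * log (⌊x / 70⌋₊ : ℝ)⌋₊ ∧
    log (log x) / 2 ≤ log (log (⌊x / 70⌋₊ : ℝ)) ∧ 0 ≤ ff x ∧ 140 ≤ x ^ (ε / 2) ∧ 140 ≤ x ∧
    x / 140 ≤ (⌊x / 70⌋₊ : ℝ) := by
  have hfl : Filter.Tendsto (fun x : ℝ => ⌊x / 70⌋₊) Filter.atTop Filter.atTop :=
    tendsto_nat_floor_atTop.comp (Filter.tendsto_id.atTop_div_const (by norm_num))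
  have hflR : Filter.Tendsto (fun x : ℝ => (⌊x / 70⌋₊ : ℝ)) Filter.atTop Filter.atTop :=
    tendsto_natCast_atTop_atTop.comp hfl
  have hll : Filter.Tendsto (fun x : ℝ => log (log x)) Filter.atTop Filter.atTop :=
    Real.tendsto_log_atTop.comp Real.tendsto_log_atTop
  have hlll : Filter.Tendsto (fun x : ℝ => log (log (log (log x)))) Filter.atTop Filter.atTop :=
    (Real.tendsto_log_atTop.comp Real.tendsto_log_atTop).comp hll
  have hyy : Filter.Tendsto (fun x : ℝ => ⌊δ * log (⌊x / 70⌋₊ : ℝ)⌋₊) Filter.atTop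
      Filter.atTop :=
    tendsto_nat_floor_atTop.comp
      (Filter.Tendsto.const_mul_atTop hδ (Real.tendsto_log_atTop.comp hflR))
  have hpow : Filter.Tendsto (fun x : ℝ => x ^ (ε / 2)) Filter.atTop Filter.atTop :=
    tendsto_rpow_atTop (by positivity)
  have hev : ∀ᶠ x : ℝ in Filter.atTop, X₀ ≤ ⌊x / 70⌋₊ ∧ y₀ ≤ ⌊δ * log (⌊x / 70⌋₊ : ℝ)⌋₊ ∧
      log (log x) / 2 ≤ log (log (⌊x / 70⌋₊ : ℝ)) ∧ 0 ≤ ff x ∧ 140 ≤ x ^ (ε / 2) ∧ 140 ≤ x ∧
      x / 140 ≤ (⌊x / 70⌋₊ : ℝ) := by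
    filter_upwards [hfl.eventually_ge_atTop X₀, hyy.eventually_ge_atTop y₀,
      hll.eventually_ge_atTop 2, hlll.eventually_ge_atTop 0, hpow.eventually_ge_atTop 140,
      Filter.eventually_ge_atTop (19600 : ℝ)] with x h1 h2 h3 h4 h5 h6
    have hx0 : 0 < x := by linarith
    have h7 : x / 140 ≤ (⌊x / 70⌋₊ : ℝ) := by
      have := Nat.lt_floor_add_one (x / 70)
      linarith
    have hlx : 0 < log x := Real.log_pos (by linarith)
    refine ⟨h1, h2, ?_, ?_, h5, by linarith, h7⟩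
    · have h8 : log x / 2 ≤ log (⌊x / 70⌋₊ : ℝ) := by
        have h9 : log (x / 140) ≤ log (⌊x / 70⌋₊ : ℝ) := Real.log_le_log (by positivity) h7
        rw [Real.log_div (by linarith) (by norm_num)] at h9
        have h10 : 2 * log 140 ≤ log x := by
          have h11 : log ((140 : ℝ) ^ 2) ≤ log x := Real.log_le_log (by norm_num) (by linarith)
          rw [Real.log_pow] at h11
          push_cast at h11
          exact h11
        linarith
      have h9 : log (log x / 2) ≤ log (log (⌊x / 70⌋₊ : ℝ)) :=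
        Real.log_le_log (by positivity) h8
      rw [Real.log_div hlx.ne' (by norm_num)] at h9
      have h10 := Real.log_two_lt_d9
      linarith
    · unfold ff
      positivity
  obtain ⟨x₀, hx₀⟩ := Filter.eventually_atTop.1 hev
  exact ⟨x₀, hx₀⟩

/-- For `t ∈ GT` put `m = a + M t`; a prime `m + h > y` is coprime to `M`, so `h ∈ SE`;
`chain_of_window` gives `n = n_t` with `m < p_n ≤ m + H`, and the `n_t` are distinct since `H < M`
(`mm_ge`). `ff_le_hE`, `X = ⌊x/70⌋`; `m + H ≤ 63 X ≤ x`. -/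
theorem chains : ∀ ε : ℝ, 0 < ε → ∃ c : ℝ, 0 < c ∧ ∃ x₀ : ℝ, ∀ x : ℝ, x₀ ≤ x → ∀ k : ℕ, 1 ≤ k →
    (k : ℝ) ≤ c * log (log x) →
    x ^ (1 - ε) ≤ (Set.ncard {n : ℕ | (Nat.nth Nat.Prime (n + k) : ℝ) ≤ x ∧
      ∀ i < k, c / k ^ 2 * ff x ≤
        (Nat.nth Nat.Prime (n + i + 1) : ℝ) - Nat.nth Nat.Prime (n + i)} : ℝ) := by
  intro ε0 hε0
  set ε := min ε0 1 with hεd
  have hε : 0 < ε := lt_min hε0 one_pos
  have hε1 : ε ≤ 1 := min_le_right _ _
  obtain ⟨δ, κ, c, hδ, hδ1, hκ, hκ1, hc, X₀, hX⟩ := good_t (ε / 2) (by positivity)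
  obtain ⟨c', hc', X₁, hff⟩ := ff_le_hE κ δ hκ hδ (by linarith)
  obtain ⟨y₀, hy₀⟩ := mm_ge
  obtain ⟨x₀, hx₀⟩ := fd2_ev δ ε hδ hε (max X₀ X₁) y₀
  refine ⟨min (c / 2) (c * c'), lt_min (by positivity) (by positivity), x₀, ?_⟩
  intro x hx k hk hkx
  obtain ⟨e1, e2, e3, e4, e5, e6, e7⟩ := hx₀ x hx
  set X := ⌊x / 70⌋₊ with hXd
  have hx0 : 0 < x := by linarith
  have hXx : (X : ℝ) ≤ x / 70 := Nat.floor_le (by positivity)
  have hX0 : (0 : ℝ) < X := lt_of_lt_of_le (by positivity) e7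
  have hX1 : (1 : ℝ) ≤ X := by
    have h1 : 0 < X := by exact_mod_cast hX0
    exact_mod_cast h1
  have hll0 : 0 ≤ log (log (X : ℝ)) := by
    by_contra hcon
    have h1 : log (log x) < 0 := by linarith [not_le.1 hcon]
    have h2 : (k : ℝ) < 0 := by
      refine lt_of_le_of_lt hkx ?_
      exact mul_neg_of_pos_of_neg (lt_min (by positivity) (by positivity)) h1
    linarith [Nat.cast_nonneg (α := ℝ) k]
  have hkX : (k : ℝ) ≤ c * log (log (X : ℝ)) := by
    by_cases h0 : 0 ≤ log (log x)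
    · calc (k : ℝ) ≤ min (c / 2) (c * c') * log (log x) := hkx
        _ ≤ c / 2 * log (log x) := mul_le_mul_of_nonneg_right (min_le_left _ _) h0
        _ = c * (log (log x) / 2) := by ring
        _ ≤ c * log (log (X : ℝ)) := mul_le_mul_of_nonneg_left e3 hc.le
    · have h2 : (k : ℝ) < 0 := by
        refine lt_of_le_of_lt hkx ?_
        exact mul_neg_of_pos_of_neg (lt_min (by positivity) (by positivity)) (not_le.1 h0)
      linarith [Nat.cast_nonneg (α := ℝ) k]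
  obtain ⟨D, p1, a, T, hD, ha1, ha2, hMT, hcard⟩ := hX X (le_trans (le_max_left _ _) e1) k hk hkX
  set y := ⌊δ * log (X : ℝ)⌋₊ with hyd
  set M := MM y D p1 with hMd
  have hHM : hE κ y < M := hy₀ y e2 D p1 hD κ hκ hκ1
  have hMX : (M : ℝ) ≤ X := by
    have h1 : (M : ℝ) ≤ (4 : ℝ) ^ y := by exact_mod_cast mm_le y D p1
    have hlX : 0 ≤ log (X : ℝ) := Real.log_nonneg hX1
    have h2 : (y : ℝ) ≤ δ * log X := Nat.floor_le (by positivity)
    have h3 : (4 : ℝ) ^ y = exp (y * log 4) := by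
      rw [Real.exp_nat_mul, Real.exp_log (by norm_num)]
    have h4 : log 4 ≤ 2 := by
      have h5 : (4 : ℝ) = 2 ^ 2 := by norm_num
      rw [h5, Real.log_pow]
      have := Real.log_two_lt_d9
      push_cast
      linarith
    have h5 : (y : ℝ) * log 4 ≤ log X := by
      have h6 : 0 ≤ log (4 : ℝ) := Real.log_nonneg (by norm_num)
      calc (y : ℝ) * log 4 ≤ (δ * log X) * 2 := mul_le_mul h2 h4 h6 (by positivity)
        _ = (2 * δ) * log X := by ring
        _ ≤ 1 * log X := mul_le_mul_of_nonneg_right (by linarith) hlX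
        _ = log X := one_mul _
    calc (M : ℝ) ≤ (4 : ℝ) ^ y := h1
      _ = exp (y * log 4) := h3
      _ ≤ exp (log X) := Real.exp_le_exp.2 h5
      _ = X := Real.exp_log hX0
  have hsize : ((a + M * T + hE κ y : ℕ) : ℝ) ≤ x := by
    have h1 : ((M * T : ℕ) : ℝ) ≤ ((61 * X : ℕ) : ℝ) := Nat.cast_le.2 hMT
    have h2 : ((hE κ y : ℕ) : ℝ) ≤ M := Nat.cast_le.2 hHM.le
    push_cast at h1 ⊢
    linarith
  have hcount := fd2_count κ x (c / k ^ 2 * hE κ y) y M a T k (by exact_mod_cast ha1)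
    (fun p hp hpM => mm_prime y D p1 p hp hpM) hHM hsize
  have hk0 : (0 : ℝ) < (k : ℝ) ^ 2 := by
    have : (0 : ℝ) < k := by exact_mod_cast hk
    positivity
  have hsub : {n : ℕ | (Nat.nth Nat.Prime (n + k) : ℝ) ≤ x ∧
      ∀ i < k, c / k ^ 2 * hE κ y <
        (Nat.nth Nat.Prime (n + i + 1) : ℝ) - Nat.nth Nat.Prime (n + i)} ⊆
      {n : ℕ | (Nat.nth Nat.Prime (n + k) : ℝ) ≤ x ∧
      ∀ i < k, min (c / 2) (c * c') / k ^ 2 * ff x ≤
        (Nat.nth Nat.Prime (n + i + 1) : ℝ) - Nat.nth Nat.Prime (n + i)} := by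
    rintro n ⟨h1, h2⟩
    refine ⟨h1, fun i hi => le_trans ?_ (h2 i hi).le⟩
    have h3 := hff X (le_trans (le_max_right _ _) e1) x (by linarith) (by
      have := Nat.lt_floor_add_one (x / 70)
      rw [← hXd] at this
      linarith)
    calc min (c / 2) (c * c') / (k : ℝ) ^ 2 * ff x
        ≤ (c * c') / (k : ℝ) ^ 2 * ff x := by
          refine mul_le_mul_of_nonneg_right ?_ e4
          exact div_le_div_of_nonneg_right (min_le_right _ _) hk0.le
      _ = c / (k : ℝ) ^ 2 * (c' * ff x) := by ring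
      _ ≤ c / (k : ℝ) ^ 2 * hE κ y := mul_le_mul_of_nonneg_left h3 (by positivity)
  have hfin : {n : ℕ | (Nat.nth Nat.Prime (n + k) : ℝ) ≤ x ∧
      ∀ i < k, min (c / 2) (c * c') / k ^ 2 * ff x ≤
        (Nat.nth Nat.Prime (n + i + 1) : ℝ) - Nat.nth Nat.Prime (n + i)}.Finite := by
    refine (Set.finite_Iic ⌊x⌋₊).subset ?_
    rintro n ⟨hn, -⟩
    have hmono := Nat.nth_strictMono Nat.infinite_setOf_prime
    have h1 : n + k ≤ Nat.nth Nat.Prime (n + k) := hmono.le_apply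
    have h3 : ((n + k : ℕ) : ℝ) ≤ (Nat.nth Nat.Prime (n + k) : ℝ) := by exact_mod_cast h1
    have h4 : (n : ℝ) ≤ ((n + k : ℕ) : ℝ) := by exact_mod_cast Nat.le_add_right n k
    exact Nat.le_floor (by linarith)
  have hle : (Set.ncard {n : ℕ | (Nat.nth Nat.Prime (n + k) : ℝ) ≤ x ∧
      ∀ i < k, c / k ^ 2 * hE κ y <
        (Nat.nth Nat.Prime (n + i + 1) : ℝ) - Nat.nth Nat.Prime (n + i)} : ℝ) ≤
      (Set.ncard {n : ℕ | (Nat.nth Nat.Prime (n + k) : ℝ) ≤ x ∧
      ∀ i < k, min (c / 2) (c * c') / k ^ 2 * ff x ≤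
        (Nat.nth Nat.Prime (n + i + 1) : ℝ) - Nat.nth Nat.Prime (n + i)} : ℝ) := by
    exact_mod_cast Set.ncard_le_ncard hsub hfin
  have hpow : x ^ (1 - ε0) ≤ (X : ℝ) ^ (1 - ε / 2) := by
    have h1 : x ^ (1 - ε0) ≤ x ^ (1 - ε) :=
      Real.rpow_le_rpow_of_exponent_le (by linarith) (by linarith [min_le_left ε0 1])
    have h2 : x ^ (1 - ε) * 140 ≤ x ^ (1 - ε / 2) := by
      have h3 : x ^ (1 - ε / 2) = x ^ (1 - ε) * x ^ (ε / 2) := by
        rw [← Real.rpow_add hx0]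
        congr 1
        ring
      rw [h3]
      exact mul_le_mul_of_nonneg_left e5 (Real.rpow_nonneg hx0.le _)
    have h3 : (x / 140) ^ (1 - ε / 2) ≤ (X : ℝ) ^ (1 - ε / 2) :=
      Real.rpow_le_rpow (by positivity) e7 (by linarith)
    have h4 : x ^ (1 - ε / 2) / 140 ≤ (x / 140) ^ (1 - ε / 2) := by
      rw [Real.div_rpow hx0.le (by norm_num)]
      refine div_le_div_of_nonneg_left (Real.rpow_nonneg hx0.le _) (by positivity) ?_
      calc (140 : ℝ) ^ (1 - ε / 2) ≤ (140 : ℝ) ^ (1 : ℝ) :=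
            Real.rpow_le_rpow_of_exponent_le (by norm_num) (by linarith)
        _ = 140 := Real.rpow_one _
    linarith
  linarith

end Pool.Agent.Lib.H5C
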