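import Mathlib

/-!
# Chunk HIT1: greedy hitting sets
-/

open Finset

namespace Pool.Agent.Lib.H5C

theorem hit1_pick {α β : Type} [DecidableEq α] [DecidableEq β] (U : Finset α) (B : Finset β)
    (S : β → Finset α) (hS : ∀ b ∈ B, S b ⊆ U) (m : ℕ) (hU : U.Nonempty)
    (hb : ∀ b ∈ B, m ≤ (S b).card) :
    ∃ d ∈ U, (B.card : ℝ) * (m / U.card) ≤ ((B.filter (fun b => d ∈ S b)).card : ℝ) := by
  have hU0 : (0 : ℝ) < U.card := by exact_mod_cast hU.card_pos
  refine Finset.exists_le_of_sum_le hU ?_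
  rw [Finset.sum_const, nsmul_eq_mul]
  have h1 : (U.card : ℝ) * ((B.card : ℝ) * (m / U.card)) = B.card * m := by
    field_simp
  rw [h1]
  have h2 : ∑ d ∈ U, ((B.filter (fun b => d ∈ S b)).card : ℝ) = ∑ b ∈ B, ((S b).card : ℝ) := by
    have h3 : ∑ d ∈ U, (B.filter (fun b => d ∈ S b)).card =
        ∑ b ∈ B, (U.filter (fun d => d ∈ S b)).card :=
      Finset.sum_card_bipartiteAbove_eq_sum_card_bipartiteBelow (fun d b => d ∈ S b)
    have h4 : ∀ b ∈ B, (U.filter (fun d => d ∈ S b)).card = (S b).card := by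
      intro b hbB
      congr 1
      ext d
      simp only [mem_filter]
      exact ⟨fun h => h.2, fun h => ⟨hS b hbB h, h⟩⟩
    rw [Finset.sum_congr rfl h4] at h3
    exact_mod_cast h3
  rw [h2]
  calc (B.card : ℝ) * m = ∑ b ∈ B, (m : ℝ) := by rw [Finset.sum_const, nsmul_eq_mul]
    _ ≤ ∑ b ∈ B, ((S b).card : ℝ) := Finset.sum_le_sum fun b hbB => by exact_mod_cast hb b hbB

/-- Greedy choice: some `d ∈ U` is in at least `(m/|U|) |B|` of the sets `S b`, `b ∈ B`; remove these
`b` and repeat. After `n` steps at most `|B| (1 - m/|U|)^n ≤ |B| exp (-n m/|U|) < 1` sets are left. -/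
theorem hitting {α β : Type} [DecidableEq α] [DecidableEq β] (U : Finset α) (B : Finset β)
    (S : β → Finset α) (hS : ∀ b ∈ B, S b ⊆ U) (m n : ℕ) (hm : 1 ≤ m)
    (hb : ∀ b ∈ B, m ≤ (S b).card) (hn : (B.card : ℝ) < Real.exp (n * m / U.card)) :
    ∃ D ⊆ U, D.card ≤ n ∧ ∀ b ∈ B, ∃ d ∈ D, d ∈ S b := by
  induction n generalizing B with
  | zero =>
    have h0 : B.card = 0 := by
      have : (B.card : ℝ) < 1 := by simpa using hn
      have : B.card < 1 := by exact_mod_cast this
      omega
    rw [Finset.card_eq_zero] at h0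
    subst h0
    exact ⟨∅, Finset.empty_subset _, by simp, by simp⟩
  | succ n ih =>
    rcases B.eq_empty_or_nonempty with rfl | hB
    · exact ⟨∅, Finset.empty_subset _, by simp, by simp⟩
    have hU : U.Nonempty := by
      obtain ⟨b, hbB⟩ := hB
      have h1 := hb b hbB
      have h2 : 0 < (S b).card := by omega
      exact (Finset.card_pos.1 h2).mono (hS b hbB)
    obtain ⟨d, hdU, hd⟩ := hit1_pick U B S hS m hU hb
    have hsplit : (B.filter (fun b => d ∈ S b)).card + (B.filter (fun b => ¬ d ∈ S b)).card =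
        B.card := Finset.card_filter_add_card_filter_not _
    have key : ((B.filter (fun b => ¬ d ∈ S b)).card : ℝ) < Real.exp (n * m / U.card) := by
      have h1 : ((B.filter (fun b => ¬ d ∈ S b)).card : ℝ) ≤ B.card * (1 - m / U.card) := by
        have : ((B.filter (fun b => d ∈ S b)).card : ℝ) +
          ((B.filter (fun b => ¬ d ∈ S b)).card : ℝ) = B.card := by exact_mod_cast hsplit
        linarith
      have h2 : (1 : ℝ) - m / U.card ≤ Real.exp (-(m / U.card)) := by
        have := Real.add_one_le_exp (-((m : ℝ) / U.card))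
        linarith
      have h3 : (B.card : ℝ) * (1 - m / U.card) ≤ B.card * Real.exp (-(m / U.card)) :=
        mul_le_mul_of_nonneg_left h2 (Nat.cast_nonneg _)
      have h4 : (B.card : ℝ) * Real.exp (-(m / U.card)) <
          Real.exp (((n + 1 : ℕ) : ℝ) * m / U.card) * Real.exp (-(m / U.card)) :=
        mul_lt_mul_of_pos_right hn (Real.exp_pos _)
      rw [← Real.exp_add] at h4
      have h5 : ((n + 1 : ℕ) : ℝ) * m / U.card + -(m / U.card) = n * m / U.card := by
        push_cast
        ring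
      rw [h5] at h4
      linarith
    obtain ⟨D, hDU, hDn, hD⟩ := ih (B.filter (fun b => ¬ d ∈ S b))
      (fun b hbB => hS b (Finset.mem_filter.1 hbB).1)
      (fun b hbB => hb b (Finset.mem_filter.1 hbB).1) key
    refine ⟨insert d D, Finset.insert_subset hdU hDU,
      (Finset.card_insert_le _ _).trans (by omega), fun b hbB => ?_⟩
    by_cases h : d ∈ S b
    · exact ⟨d, Finset.mem_insert_self _ _, h⟩
    · obtain ⟨d', hd', hd''⟩ := hD b (Finset.mem_filter.2 ⟨hbB, h⟩)
      exact ⟨d', Finset.mem_insert_of_mem hd', hd''⟩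

end Pool.Agent.Lib.H5C
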