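import Pool.Agent.Lib.H5C.Defs

/-!
# Chunk PM1b: Fourier coefficients at one sieve prime
-/

open Finset
open Pool.Agent.Lib.H56G

namespace Pool.Agent.Lib.H5C

variable {ι J : Type} [Fintype ι] [DecidableEq ι] [Fintype J] [DecidableEq J]

/-- The coefficients at the trivial character. -/
noncomputable def g1 (s : Sys ι J) (i : ι) : Option J → Option J → ℝ
  | none, none => 1
  | some j, some j' => if j = j' then ((s.pr i : ℝ) ^ 2 - s.pr i - 1) / ((s.pr i : ℝ) - 1)
      else -(((s.pr i : ℝ) + 1) / ((s.pr i : ℝ) - 1))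
  | _, _ => -(1 / ((s.pr i : ℝ) - 1))

/-- Bounds for the coefficients at the other characters. -/
noncomputable def g2 (s : Sys ι J) (i : ι) : Option J → Option J → ℝ
  | none, none => 0
  | some j, some j' => if j = j' then (s.pr i : ℝ) - 1 else 4
  | _, _ => 2

/-- the units -/
def pm1b_U (p : ℕ) : Finset ℕ := (range p).filter (fun x => Nat.Coprime x p)

theorem pm1b_card {p : ℕ} (hp : p.Prime) : (pm1b_U p).card = p - 1 := by
  rw [← Nat.totient_prime hp, Nat.totient_eq_card_coprime]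
  unfold pm1b_U
  congr 1
  ext x
  simp only [Finset.mem_filter, Finset.mem_range]
  rw [Nat.coprime_comm]

theorem pm1b_delta (s : Sys ι J) (j0 : J) (i : ι) {j : J} (hj : j ≠ j0) :
    ∃ d ∈ pm1b_U (s.pr i), (d + s.b j ≡ s.b j0 [MOD s.pr i]) ∧
      ∀ x ∈ pm1b_U (s.pr i), (x + s.b j ≡ s.b j0 [MOD s.pr i]) ↔ x = d := by
  have hp := s.prime i
  set p := s.pr i with hpdef
  have hpos : 0 < p := hp.pos
  obtain ⟨d, hd⟩ : ∃ d, d = (s.b j0 + (p - s.b j % p)) % p := ⟨_, rfl⟩
  have hdlt : d < p := by rw [hd]; exact Nat.mod_lt _ hpos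
  have hbj : s.b j % p ≤ p := (Nat.mod_lt _ hpos).le
  have h1 : d + s.b j ≡ s.b j0 [MOD p] := by
    have h2 : d ≡ s.b j0 + (p - s.b j % p) [MOD p] := by
      rw [hd]
      exact Nat.mod_modEq _ _
    have h3 : s.b j ≡ s.b j % p [MOD p] := (Nat.mod_modEq _ _).symm
    have h4 := h2.add h3
    have h5 : s.b j0 + (p - s.b j % p) + s.b j % p = s.b j0 + p := by omega
    rw [h5] at h4
    have h6 : s.b j0 + p ≡ s.b j0 [MOD p] := by
      simp [Nat.ModEq]
    exact h4.trans h6
  have hdcop : Nat.Coprime d p := by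
    rw [Nat.coprime_comm, Nat.Prime.coprime_iff_not_dvd hp]
    intro h2
    have h3 : d = 0 := Nat.eq_zero_of_dvd_of_lt h2 hdlt
    rw [h3, zero_add] at h1
    exact s.dist i j j0 hj h1
  refine ⟨d, ?_, h1, ?_⟩
  · unfold pm1b_U
    rw [Finset.mem_filter, Finset.mem_range]
    exact ⟨hdlt, hdcop⟩
  · intro x hx
    unfold pm1b_U at hx
    rw [Finset.mem_filter, Finset.mem_range] at hx
    constructor
    · intro h2
      have h3 : x + s.b j ≡ d + s.b j [MOD p] := h2.trans h1.symm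
      have h4 : x ≡ d [MOD p] := Nat.ModEq.add_right_cancel' _ h3
      have h5 : x % p = d % p := h4
      rwa [Nat.mod_eq_of_lt hx.1, Nat.mod_eq_of_lt hdlt] at h5
    · intro h2
      rw [h2]
      exact h1

theorem pm1b_core (p : ℕ) (χ : DirichletCharacter ℂ p) (A B B' : ℂ) {d d' : ℕ}
    (hd : d ∈ pm1b_U p) (hd' : d' ∈ pm1b_U p) :
    ∑ x ∈ pm1b_U p, (A + (if x = d then B else 0) + (if x = d' then B' else 0)) *
      (starRingEnd ℂ) (χ (x : ZMod p)) =
      A * ∑ x ∈ pm1b_U p, (starRingEnd ℂ) (χ (x : ZMod p)) +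
        B * (starRingEnd ℂ) (χ (d : ZMod p)) + B' * (starRingEnd ℂ) (χ (d' : ZMod p)) := by
  have h1 : ∀ x ∈ pm1b_U p, (A + (if x = d then B else 0) + (if x = d' then B' else 0)) *
      (starRingEnd ℂ) (χ (x : ZMod p)) = A * (starRingEnd ℂ) (χ (x : ZMod p)) +
        (if x = d then B * (starRingEnd ℂ) (χ (d : ZMod p)) else 0) +
        (if x = d' then B' * (starRingEnd ℂ) (χ (d' : ZMod p)) else 0) := by
    intro x _
    by_cases h2 : x = d
    · by_cases h3 : x = d'
      · rw [if_pos h2, if_pos h3, if_pos h2, if_pos h3, ← h2, ← h3]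
        ring
      · rw [if_pos h2, if_neg h3, if_pos h2, if_neg h3, ← h2]
        ring
    · by_cases h3 : x = d'
      · rw [if_neg h2, if_pos h3, if_neg h2, if_pos h3, ← h3]
        ring
      · rw [if_neg h2, if_neg h3, if_neg h2, if_neg h3]
        ring
  rw [Finset.sum_congr rfl h1, Finset.sum_add_distrib, Finset.sum_add_distrib, ← Finset.mul_sum,
    Finset.sum_ite_eq', if_pos hd, Finset.sum_ite_eq', if_pos hd']

theorem pm1b_sum_one {p : ℕ} (hp : p.Prime) :
    ∑ x ∈ pm1b_U p, (starRingEnd ℂ) ((1 : DirichletCharacter ℂ p) (x : ZMod p)) =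
      (p : ℂ) - 1 := by
  have h1 : ∀ x ∈ pm1b_U p, (starRingEnd ℂ) ((1 : DirichletCharacter ℂ p) (x : ZMod p)) = 1 := by
    intro x hx
    unfold pm1b_U at hx
    rw [Finset.mem_filter] at hx
    rw [MulChar.one_apply ((ZMod.isUnit_iff_coprime x p).2 hx.2), map_one]
  rw [Finset.sum_congr rfl h1, Finset.sum_const, pm1b_card hp, nsmul_eq_mul, mul_one,
    Nat.cast_sub hp.one_le, Nat.cast_one]

theorem pm1b_sum_ne_one {p : ℕ} (hp : p.Prime) (χ : DirichletCharacter ℂ p) (hχ : χ ≠ 1) :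
    ∑ x ∈ pm1b_U p, (starRingEnd ℂ) (χ (x : ZMod p)) = 0 := by
  have : NeZero p := ⟨hp.ne_zero⟩
  rw [← map_sum]
  have h1 : ∑ x ∈ pm1b_U p, χ (x : ZMod p) = ∑ x ∈ range p, χ (x : ZMod p) := by
    unfold pm1b_U
    refine Finset.sum_filter_of_ne fun x _ hne => ?_
    by_contra h2
    apply hne
    refine χ.map_nonunit fun h3 => h2 ?_
    exact (ZMod.isUnit_iff_coprime x p).1 h3
  have h2 : ∑ x ∈ range p, χ (x : ZMod p) = ∑ a : ZMod p, χ a := by
    refine Finset.sum_bij' (fun x _ => (x : ZMod p)) (fun a _ => a.val) ?_ ?_ ?_ ?_ ?_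
    · intro x _
      exact Finset.mem_univ _
    · intro a _
      exact Finset.mem_range.2 (ZMod.val_lt a)
    · intro x hx
      exact ZMod.val_cast_of_lt (Finset.mem_range.1 hx)
    · intro a _
      exact ZMod.natCast_zmod_val a
    · intro x _
      rfl
  rw [h1, h2, MulChar.sum_eq_zero_of_ne_one hχ, map_zero]

theorem pm1b_ut (s : Sys ι J) (j0 : J) (i : ι) {j : J} {d : ℕ}
    (hd : ∀ x ∈ pm1b_U (s.pr i), (x + s.b j ≡ s.b j0 [MOD s.pr i]) ↔ x = d) {x : ℕ}
    (hx : x ∈ pm1b_U (s.pr i)) :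
    ut s j0 i (some j) x = if x = d then 1 - (s.pr i : ℝ) else 1 := by
  unfold ut
  simp only [Option.elim]
  by_cases h : x = d
  · rw [if_pos h, if_pos ((hd x hx).2 h)]
  · rw [if_neg h, if_neg fun h1 => h ((hd x hx).1 h1)]

theorem pm1b_one_mem {p : ℕ} (hp : p.Prime) : 1 ∈ pm1b_U p := by
  unfold pm1b_U
  rw [Finset.mem_filter, Finset.mem_range]
  exact ⟨hp.one_lt, Nat.coprime_one_left p⟩

/-- all cases at once: the shape of `gh` -/
theorem pm1b_shape (s : Sys ι J) (j0 : J) (i : ι) (a a' : Option J) (ha : a ≠ some j0)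
    (ha' : a' ≠ some j0) :
    ∃ d ∈ pm1b_U (s.pr i), ∃ d' ∈ pm1b_U (s.pr i), ∃ B B' : ℝ,
      (∀ χ : DirichletCharacter ℂ (s.pr i), gh s j0 i a a' χ = (1 / ((s.pr i : ℂ) - 1)) *
        (∑ x ∈ pm1b_U (s.pr i), (starRingEnd ℂ) (χ (x : ZMod (s.pr i))) +
        B * (starRingEnd ℂ) (χ (d : ZMod (s.pr i))) +
        B' * (starRingEnd ℂ) (χ (d' : ZMod (s.pr i))))) ∧
      g1 s i a a' = (1 / ((s.pr i : ℝ) - 1)) * ((s.pr i : ℝ) - 1 + B + B') ∧
      (1 / ((s.pr i : ℝ) - 1)) * (|B| + |B'|) ≤ g2 s i a a' := by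
  have hp := s.prime i
  have h2 : (2 : ℝ) ≤ (s.pr i : ℝ) := by exact_mod_cast hp.two_le
  have hp1 : (0 : ℝ) < (s.pr i : ℝ) - 1 := by linarith
  have key : ∀ (B B' : ℝ) (d d' : ℕ), d ∈ pm1b_U (s.pr i) → d' ∈ pm1b_U (s.pr i) →
      (∀ x ∈ pm1b_U (s.pr i), ut s j0 i a x * ut s j0 i a' x =
        1 + (if x = d then B else 0) + (if x = d' then B' else 0)) →
      ∀ χ : DirichletCharacter ℂ (s.pr i), gh s j0 i a a' χ = (1 / ((s.pr i : ℂ) - 1)) *
        (∑ x ∈ pm1b_U (s.pr i), (starRingEnd ℂ) (χ (x : ZMod (s.pr i))) +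
        B * (starRingEnd ℂ) (χ (d : ZMod (s.pr i))) +
        B' * (starRingEnd ℂ) (χ (d' : ZMod (s.pr i)))) := by
    intro B B' d d' hd hd' hf χ
    have h3 := pm1b_core (s.pr i) χ 1 (B : ℂ) (B' : ℂ) hd hd'
    rw [one_mul] at h3
    rw [← h3]
    unfold gh
    congr 1
    refine Finset.sum_congr rfl fun x hx => ?_
    rw [hf x hx]
    congr 1
    split_ifs <;> push_cast <;> ring
  have h1m := pm1b_one_mem hp
  rcases a with _ | j
  · rcases a' with _ | j'
    · refine ⟨1, h1m, 1, h1m, 0, 0, key 0 0 1 1 h1m h1m ?_, ?_, ?_⟩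
      · intro x _
        simp [ut]
      · simp only [g1]
        field_simp
        ring
      · simp [g2]
    · have hj' : j' ≠ j0 := fun h => ha' (by rw [h])
      obtain ⟨d, hd, -, hd2⟩ := pm1b_delta s j0 i hj'
      refine ⟨d, hd, 1, h1m, -(s.pr i : ℝ), 0, key _ _ d 1 hd h1m ?_, ?_, ?_⟩
      · intro x hx
        rw [pm1b_ut s j0 i hd2 hx]
        by_cases h4 : x = d
        · simp only [h4, if_true, ut, Option.elim]
          norm_num
          ring
        · simp only [h4, if_false, ut, Option.elim]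
          norm_num
      · simp only [g1]
        field_simp
        ring
      · simp only [g2, abs_neg, abs_zero, add_zero, abs_of_pos (by linarith : (0:ℝ) < (s.pr i : ℝ))]
        rw [one_div, inv_mul_le_iff₀ hp1]
        linarith
  · have hj : j ≠ j0 := fun h => ha (by rw [h])
    obtain ⟨d, hd, hd1, hd2⟩ := pm1b_delta s j0 i hj
    rcases a' with _ | j'
    · refine ⟨d, hd, 1, h1m, -(s.pr i : ℝ), 0, key _ _ d 1 hd h1m ?_, ?_, ?_⟩
      · intro x hx
        rw [pm1b_ut s j0 i hd2 hx]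
        by_cases h4 : x = d
        · simp only [h4, if_true, ut, Option.elim]
          norm_num
          ring
        · simp only [h4, if_false, ut, Option.elim]
          norm_num
      · simp only [g1]
        field_simp
        ring
      · simp only [g2, abs_neg, abs_zero, add_zero, abs_of_pos (by linarith : (0:ℝ) < (s.pr i : ℝ))]
        rw [one_div, inv_mul_le_iff₀ hp1]
        linarith
    · have hj' : j' ≠ j0 := fun h => ha' (by rw [h])
      by_cases hjj : j = j'
      · subst hjj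
        refine ⟨d, hd, 1, h1m, (s.pr i : ℝ) ^ 2 - 2 * s.pr i, 0, key _ _ d 1 hd h1m ?_, ?_, ?_⟩
        · intro x hx
          rw [pm1b_ut s j0 i hd2 hx]
          by_cases h4 : x = d
          · simp only [h4, if_true]
            norm_num
            ring
          · simp only [h4, if_false]
            norm_num
        · simp only [g1, if_true]
          field_simp
          ring
        · have h5 : 0 ≤ (s.pr i : ℝ) ^ 2 - 2 * s.pr i := by nlinarith
          simp only [g2, if_true, abs_zero, add_zero, abs_of_nonneg h5]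
          rw [one_div, inv_mul_le_iff₀ hp1]
          nlinarith
      · obtain ⟨d', hd', hd1', hd2'⟩ := pm1b_delta s j0 i hj'
        have hne : d ≠ d' := by
          intro h4
          rw [← h4] at hd1'
          have h5 : d + s.b j ≡ d + s.b j' [MOD s.pr i] := hd1.trans hd1'.symm
          exact s.dist i j j' hjj (Nat.ModEq.add_left_cancel' _ h5)
        refine ⟨d, hd, d', hd', -(s.pr i : ℝ), -(s.pr i : ℝ), key _ _ d d' hd hd' ?_, ?_, ?_⟩
        · intro x hx
          rw [pm1b_ut s j0 i hd2 hx, pm1b_ut s j0 i hd2' hx]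
          by_cases h4 : x = d
          · have h5 : x ≠ d' := fun h6 => hne (h4.symm.trans h6)
            rw [if_pos h4, if_pos h4, if_neg h5, if_neg h5]
            ring
          · by_cases h5 : x = d'
            · rw [if_neg h4, if_neg h4, if_pos h5, if_pos h5]
              ring
            · rw [if_neg h4, if_neg h4, if_neg h5, if_neg h5]
              ring
        · simp only [g1, hjj, if_false]
          field_simp
          ring
        · simp only [g2, hjj, if_false, abs_neg, abs_of_pos (by linarith : (0:ℝ) < (s.pr i : ℝ))]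
          rw [one_div, inv_mul_le_iff₀ hp1]
          linarith

/-- `δ_j = b j0 - b j` is a unit mod `p` for `j ≠ j0` and the `δ_j` are distinct (`Sys.dist`), and
`u^j(x) = 1 - p [x = δ_j]`; count. -/
theorem gh_one (s : Sys ι J) (j0 : J) (i : ι) (a a' : Option J) (ha : a ≠ some j0)
    (ha' : a' ≠ some j0) : gh s j0 i a a' 1 = (g1 s i a a' : ℂ) := by
  obtain ⟨d, hd, d', hd', B, B', h1, h2, -⟩ := pm1b_shape s j0 i a a' ha ha'
  have hu : ∀ x ∈ pm1b_U (s.pr i), (starRingEnd ℂ)
      ((1 : DirichletCharacter ℂ (s.pr i)) (x : ZMod (s.pr i))) = 1 := by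
    intro x hx
    unfold pm1b_U at hx
    rw [Finset.mem_filter] at hx
    rw [MulChar.one_apply ((ZMod.isUnit_iff_coprime x _).2 hx.2), map_one]
  rw [h1, pm1b_sum_one (s.prime i), hu d hd, hu d' hd', h2]
  push_cast
  ring

/-- For `χ ≠ 1` the constant parts disappear (`∑_x χ(x) = 0`):
`(j, none)`: `p/(p-1) ≤ 2`; `(j, j)`: `(p² - 2p)/(p-1) ≤ p - 1`; `(j, j')`: `≤ 2p/(p-1) ≤ 4`. -/
theorem norm_gh_le (s : Sys ι J) (j0 : J) (i : ι) (a a' : Option J) (ha : a ≠ some j0)
    (ha' : a' ≠ some j0) (χ : DirichletCharacter ℂ (s.pr i)) (hχ : χ ≠ 1) :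
    ‖gh s j0 i a a' χ‖ ≤ g2 s i a a' := by
  obtain ⟨d, hd, d', hd', B, B', h1, -, h3⟩ := pm1b_shape s j0 i a a' ha ha'
  have hp := s.prime i
  have h2 : (2 : ℝ) ≤ (s.pr i : ℝ) := by exact_mod_cast hp.two_le
  have hp1 : (0 : ℝ) < (s.pr i : ℝ) - 1 := by linarith
  refine le_trans ?_ h3
  rw [h1, pm1b_sum_ne_one hp χ hχ, zero_add, norm_mul]
  have h4 : ‖(1 / ((s.pr i : ℂ) - 1))‖ = 1 / ((s.pr i : ℝ) - 1) := by
    have h5 : (1 / ((s.pr i : ℂ) - 1)) = ((1 / ((s.pr i : ℝ) - 1) : ℝ) : ℂ) := by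
      push_cast
      rfl
    rw [h5, Complex.norm_real, Real.norm_eq_abs, abs_of_pos (by positivity)]
  rw [h4]
  refine mul_le_mul_of_nonneg_left ?_ (by positivity)
  refine (norm_add_le _ _).trans (add_le_add ?_ ?_)
  · rw [norm_mul, Complex.norm_real, Real.norm_eq_abs, RCLike.norm_conj]
    exact mul_le_of_le_one_right (abs_nonneg _) (χ.norm_le_one _)
  · rw [norm_mul, Complex.norm_real, Real.norm_eq_abs, RCLike.norm_conj]
    exact mul_le_of_le_one_right (abs_nonneg _) (χ.norm_le_one _)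

end Pool.Agent.Lib.H5C
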