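import Pool.Agent.Lib.H5C.Defs

/-!
# Chunk PM1a: Fourier coefficients at one sieve prime
-/

open Finset
open Pool.Agent.Lib.H56G

namespace Pool.Agent.Lib.H5C

variable {ι J : Type} [Fintype ι] [DecidableEq ι] [Fintype J] [DecidableEq J]

theorem pm1a_modEq (p b0 bj m : ℕ) : (b0 + m + bj ≡ b0 [MOD p]) ↔ p ∣ bj + m := by
  rw [← Nat.modEq_zero_iff_dvd]
  constructor
  · intro h
    have h1 : b0 + (bj + m) ≡ b0 + 0 [MOD p] := by
      rw [add_zero, show b0 + (bj + m) = b0 + m + bj by ring]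
      exact h
    exact Nat.ModEq.add_left_cancel' b0 h1
  · intro h
    have h1 := Nat.ModEq.add_left b0 h
    rw [add_zero, show b0 + (bj + m) = b0 + m + bj by ring] at h1
    exact h1

/-- `pr i ∣ b j + M t` iff `b j0 + M t + b j ≡ b j0`. -/
theorem U_eq_ut (s : Sys ι J) (j0 : J) (κ : ι → Option J) (t : ℕ) :
    s.U κ t = ∏ i, ut s j0 i (κ i) (s.b j0 + s.M * t) := by
  unfold Sys.U
  refine Finset.prod_congr rfl fun i _ => ?_
  unfold ut
  cases κ i with
  | none => rfl
  | some j =>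
    simp only [Option.elim]
    unfold Sys.u
    by_cases h : s.pr i ∣ s.b j + s.M * t
    · rw [if_pos h, if_pos ((pm1a_modEq _ _ _ _).2 h)]
    · rw [if_neg h, if_neg fun h1 => h ((pm1a_modEq _ _ _ _).1 h1)]

theorem pm1a_ut_mod (s : Sys ι J) (j0 : J) (i : ι) (a : Option J) {x y : ℕ}
    (h : x ≡ y [MOD s.pr i]) : ut s j0 i a x = ut s j0 i a y := by
  unfold ut
  cases a with
  | none => rfl
  | some j =>
    simp only [Option.elim]
    by_cases h1 : x + s.b j ≡ s.b j0 [MOD s.pr i]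
    · rw [if_pos h1, if_pos ((h.symm.add_right _).trans h1)]
    · rw [if_neg h1, if_neg fun h2 => h1 ((h.add_right _).trans h2)]

/-- Fourier inversion on the units modulo the prime `pr i`
(`DirichletCharacter.sum_char_inv_mul_char_eq`). -/
theorem gh_inv (s : Sys ι J) (j0 : J) (i : ι) (a a' : Option J) (x : ℕ)
    (hx : Nat.Coprime x (s.pr i)) :
    ((ut s j0 i a x * ut s j0 i a' x : ℝ) : ℂ) =
      ∑ χ : DirichletCharacter ℂ (s.pr i), gh s j0 i a a' χ * χ (x : ZMod (s.pr i)) := by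
  classical
  have hp := s.prime i
  haveI : Fact (s.pr i).Prime := ⟨hp⟩
  set p := s.pr i with hpdef
  set f : ℕ → ℂ := fun y => ((ut s j0 i a y * ut s j0 i a' y : ℝ) : ℂ) with hf
  have hfmod : ∀ y z : ℕ, y ≡ z [MOD p] → f y = f z := by
    intro y z h
    simp only [hf]
    rw [pm1a_ut_mod s j0 i a h, pm1a_ut_mod s j0 i a' h]
  have hp1 : ((p : ℂ) - 1) ≠ 0 := by
    have h2 := hp.two_le
    have h3 : (p : ℂ) - 1 = ((p - 1 : ℕ) : ℂ) := by
      rw [Nat.cast_sub (by omega)]
      simp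
    rw [h3]
    have : p - 1 ≠ 0 := by omega
    exact_mod_cast this
  have hpos : 0 < p := hp.pos
  set U := (range p).filter (fun y => Nat.Coprime y p) with hU
  have h1 : ∑ χ : DirichletCharacter ℂ p, gh s j0 i a a' χ * χ (x : ZMod p) =
      (1 / ((p : ℂ) - 1)) * ∑ y ∈ U, f y *
        ∑ χ : DirichletCharacter ℂ p, χ ((y : ZMod p)⁻¹) * χ (x : ZMod p) := by
    unfold gh
    simp only [← hpdef]
    rw [← hU]
    calc ∑ χ : DirichletCharacter ℂ p, 1 / ((p : ℂ) - 1) * (∑ y ∈ U,
            ((ut s j0 i a y * ut s j0 i a' y : ℝ) : ℂ) * (starRingEnd ℂ) (χ (y : ZMod p))) *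
            χ (x : ZMod p)
        = ∑ χ : DirichletCharacter ℂ p, (1 / ((p : ℂ) - 1)) * ∑ y ∈ U,
            f y * (χ ((y : ZMod p)⁻¹) * χ (x : ZMod p)) := by
          refine Finset.sum_congr rfl fun χ _ => ?_
          rw [mul_assoc, Finset.sum_mul]
          congr 1
          refine Finset.sum_congr rfl fun y _ => ?_
          have h2 : (starRingEnd ℂ) (χ (y : ZMod p)) = χ ((y : ZMod p)⁻¹) := by
            rw [starRingEnd_apply, MulChar.star_apply', MulChar.inv_apply']
          rw [h2]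
          simp only [hf]
          ring
      _ = _ := by
          rw [← Finset.mul_sum, Finset.sum_comm]
          congr 1
          refine Finset.sum_congr rfl fun y _ => ?_
          rw [Finset.mul_sum]
  rw [h1]
  have h2 : ∀ y ∈ U, f y * ∑ χ : DirichletCharacter ℂ p, χ ((y : ZMod p)⁻¹) * χ (x : ZMod p) =
      if y = x % p then f x * ((p : ℂ) - 1) else 0 := by
    intro y hy
    obtain ⟨hy1, hy2⟩ := Finset.mem_filter.1 hy
    rw [Finset.mem_range] at hy1
    have hunit : IsUnit (y : ZMod p) := (ZMod.isUnit_iff_coprime y p).2 hy2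
    rw [DirichletCharacter.sum_char_inv_mul_char_eq ℂ hunit]
    by_cases h3 : y = x % p
    · have h4 : y ≡ x [MOD p] := by
        rw [h3]
        exact Nat.mod_modEq x p
      rw [if_pos h3, if_pos ((ZMod.natCast_eq_natCast_iff y x p).2 h4), hfmod y x h4,
        Nat.totient_prime hp, Nat.cast_sub hp.one_le, Nat.cast_one]
    · rw [if_neg h3, if_neg, mul_zero]
      intro h4
      apply h3
      have h5 : y ≡ x [MOD p] := (ZMod.natCast_eq_natCast_iff y x p).1 h4
      have h6 : y % p = x % p := h5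
      rwa [Nat.mod_eq_of_lt hy1] at h6
  rw [Finset.sum_congr rfl h2, Finset.sum_ite_eq', if_pos]
  · rw [one_div, mul_comm (f x), ← mul_assoc, inv_mul_cancel₀ hp1, one_mul]
  · rw [Finset.mem_filter, Finset.mem_range]
    refine ⟨Nat.mod_lt _ hpos, ?_⟩
    have h4 := Nat.mod_modEq x p
    rw [Nat.coprime_iff_gcd_eq_one, h4.gcd_eq]
    exact hx

end Pool.Agent.Lib.H5C
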