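import Pool.Agent.Lib.H5C.PM1
import Pool.Agent.Lib.H56G.Off

/-!
# Chunk PM2: expansion of `L'^2` in characters of the sieve primes
-/

open Finset
open Pool.Agent.Lib.H56G

namespace Pool.Agent.Lib.H5C

variable {ι J : Type} [Fintype ι] [DecidableEq ι] [Fintype J] [DecidableEq J]

/-- Square out, insert `gh_inv` for every prime and use `Finset.prod_univ_sum`. -/
theorem Lx_sq (s : Sys ι J) (j0 : J) (c' : (ι → Option J) → ℝ) (x : ℕ)
    (hx : ∀ i, Nat.Coprime x (s.pr i)) :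
    ((Lx s j0 c' x ^ 2 : ℝ) : ℂ) = ∑ χ : Fam s, wch s j0 c' χ * fval s χ x := by
  have h1 : Lx s j0 c' x ^ 2 = ∑ κ ∈ noJ j0, ∑ κ' ∈ noJ j0,
      (c' κ * c' κ') * ∏ i, (ut s j0 i (κ i) x * ut s j0 i (κ' i) x) := by
    unfold Lx
    rw [sq, Finset.sum_mul_sum]
    refine Finset.sum_congr rfl fun κ _ => Finset.sum_congr rfl fun κ' _ => ?_
    rw [Finset.prod_mul_distrib]
    ring
  have h2 : ∀ κ κ' : ι → Option J,
      ∏ i, ((ut s j0 i (κ i) x * ut s j0 i (κ' i) x : ℝ) : ℂ) =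
        ∑ χ : Fam s, ∏ i, (gh s j0 i (κ i) (κ' i) (χ i) * χ i (x : ZMod (s.pr i))) := by
    intro κ κ'
    rw [Finset.prod_congr rfl fun i _ => gh_inv s j0 i (κ i) (κ' i) x (hx i)]
    rw [Finset.prod_univ_sum, Fintype.piFinset_univ]
  rw [h1]
  push_cast
  have h3 : ∀ χ : Fam s, wch s j0 c' χ * fval s χ x = ∑ κ ∈ noJ j0, ∑ κ' ∈ noJ j0,
      ((c' κ : ℂ) * (c' κ' : ℂ)) *
        ∏ i, (gh s j0 i (κ i) (κ' i) (χ i) * χ i (x : ZMod (s.pr i))) := by
    intro χ
    unfold wch fval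
    rw [Finset.sum_mul]
    refine Finset.sum_congr rfl fun κ _ => ?_
    rw [Finset.sum_mul]
    refine Finset.sum_congr rfl fun κ' _ => ?_
    rw [Finset.prod_mul_distrib]
    push_cast
    ring
  have h4 : ∑ χ : Fam s, wch s j0 c' χ * fval s χ x =
      ∑ κ ∈ noJ j0, ∑ κ' ∈ noJ j0, ∑ χ : Fam s, ((c' κ : ℂ) * (c' κ' : ℂ)) *
        ∏ i, (gh s j0 i (κ i) (κ' i) (χ i) * χ i (x : ZMod (s.pr i))) := by
    rw [Finset.sum_congr rfl fun (χ : Fam s) _ => h3 χ, Finset.sum_comm]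
    refine Finset.sum_congr rfl fun κ _ => ?_
    rw [Finset.sum_comm]
  rw [h4]
  refine Finset.sum_congr rfl fun κ _ => Finset.sum_congr rfl fun κ' _ => ?_
  rw [← Finset.mul_sum, ← h2 κ κ']
  push_cast
  rfl

/-- If a term of `wch` is not `0` then `csupp χ ⊆ supp κ ∪ supp κ'` (`norm_gh_le` for
`none, none`), so `ρ(csupp χ) ≤ r κ r κ' ≤ D²`. -/
theorem wch_eq_zero (s : Sys ι J) (j0 : J) (c' : (ι → Option J) → ℝ) (D : ℝ)
    (hc : ∀ κ, c' κ ≠ 0 → s.r κ ≤ D) (χ : Fam s) (hχ : D * D < s.rho (csupp s χ)) :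
    wch s j0 c' χ = 0 := by
  unfold wch
  refine Finset.sum_eq_zero fun κ hκ => Finset.sum_eq_zero fun κ' hκ' => ?_
  by_cases h1 : c' κ = 0
  · simp [h1]
  by_cases h2 : c' κ' = 0
  · simp [h2]
  have e1 := hc κ h1
  have e2 := hc κ' h2
  have hr1 : 1 ≤ s.r κ := one_le_rho s _
  have hr2 : 1 ≤ s.r κ' := one_le_rho s _
  have hex : ∃ i ∈ csupp s χ, i ∉ supp κ ∪ supp κ' := by
    by_contra hcon
    push Not at hcon
    have hsub : csupp s χ ⊆ supp κ ∪ supp κ' := fun i hi => hcon i hi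
    have h3 : s.rho (csupp s χ) ≤ s.rho (supp κ ∪ supp κ') := by
      unfold Sys.rho
      apply Finset.prod_le_prod_of_subset_of_one_le hsub
      · intro i _
        positivity
      · intro i _ _
        exact_mod_cast (s.prime i).one_lt.le
    have h4 : s.rho (supp κ ∪ supp κ') * s.rho (supp κ ∩ supp κ') =
        s.rho (supp κ) * s.rho (supp κ') := by
      unfold Sys.rho
      exact Finset.prod_union_inter
    have h5 : 1 ≤ s.rho (supp κ ∩ supp κ') := one_le_rho s _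
    have h6 : 0 ≤ s.rho (supp κ ∪ supp κ') := zero_le_one.trans (one_le_rho s _)
    have h7 : s.rho (supp κ ∪ supp κ') ≤ s.rho (supp κ ∪ supp κ') * s.rho (supp κ ∩ supp κ') :=
      le_mul_of_one_le_right h6 h5
    have h8 : s.rho (supp κ) * s.rho (supp κ') ≤ D * D :=
      mul_le_mul e1 e2 (zero_le_one.trans hr2) (zero_le_one.trans (hr1.trans e1))
    linarith
  obtain ⟨i, hi, hni⟩ := hex
  rw [mem_union, not_or] at hni
  have k1 : κ i = none := by
    have := hni.1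
    rw [off_mem_supp] at this
    exact not_not.mp this
  have k2 : κ' i = none := by
    have := hni.2
    rw [off_mem_supp] at this
    exact not_not.mp this
  have hχi : χ i ≠ 1 := by
    unfold csupp at hi
    exact (Finset.mem_filter.mp hi).2
  have h9 := norm_gh_le s j0 i none none (by simp) (by simp) (χ i) hχi
  have h10 : gh s j0 i (κ i) (κ' i) (χ i) = 0 := by
    rw [k1, k2, ← norm_le_zero_iff]
    exact h9
  rw [Finset.prod_eq_zero (Finset.mem_univ i) h10, mul_zero]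

end Pool.Agent.Lib.H5C
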