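import Pool.Agent.Lib.H5C.PM1
import Pool.Agent.Lib.H56G.Cnt

/-!
# Chunk PM3a: Schur test for the matrix of the trivial characters
-/

open Finset
open Pool.Agent.Lib.H56G

namespace Pool.Agent.Lib.H5C

variable {ι J : Type} [Fintype ι] [DecidableEq ι] [Fintype J] [DecidableEq J]

/-- `q_none = 1`, `q_j = p - 1` -/
noncomputable def qw (s : Sys ι J) (i : ι) (a : Option J) : ℝ :=
  a.elim 1 (fun _ => (s.pr i : ℝ) - 1)

theorem pm3a_qw_none (s : Sys ι J) (i : ι) : qw s i none = 1 := rfl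

theorem pm3a_qw_some (s : Sys ι J) (i : ι) (j : J) : qw s i (some j) = (s.pr i : ℝ) - 1 := rfl

theorem pm3a_rpow {x : ℝ} (hx : 0 < x) : x ^ (-(3 / 2) : ℝ) = 1 / x / √x := by
  rw [Real.rpow_neg hx.le, show (3 / 2 : ℝ) = 1 + 1 / 2 by norm_num, Real.rpow_add hx,
    Real.rpow_one, Real.sqrt_eq_rpow]
  rw [div_div]
  exact (one_div _).symm

/-- Normalised row sums at one prime: `a = none`: `1 + |J| (p-1)^(-3/2)`; `a = some j`:
`(p²-p-1)/(p-1)² + (|J|-1)(p+1)/(p-1)² + (p-1)^(-3/2) ≤ 1 + 3|J|/(p-1)` for `p ≥ 3`. -/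
theorem row_one (s : Sys ι J) (i : ι) (h3 : 3 ≤ s.pr i) (a : Option J) :
    ∑ a' : Option J, |g1 s i a a'| / (√(qw s i a) * √(qw s i a')) ≤
      if a = none then 1 + Fintype.card J * ((s.pr i : ℝ) - 1) ^ (-(3 / 2) : ℝ)
        else 1 + 3 * Fintype.card J / ((s.pr i : ℝ) - 1) := by
  have hx : (2 : ℝ) ≤ (s.pr i : ℝ) - 1 := by
    have : (3 : ℝ) ≤ s.pr i := by exact_mod_cast h3
    linarith
  have hx0 : (0 : ℝ) < (s.pr i : ℝ) - 1 := by linarith
  have hs0 : 0 < √((s.pr i : ℝ) - 1) := Real.sqrt_pos.2 hx0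
  rw [Fintype.sum_option]
  cases a with
  | none =>
    rw [if_pos rfl]
    simp only [pm3a_qw_none, pm3a_qw_some, Real.sqrt_one, one_mul, g1, abs_one, div_one, abs_neg,
      Finset.sum_const, Finset.card_univ, nsmul_eq_mul]
    rw [pm3a_rpow hx0, abs_of_pos (by positivity)]
  | some j =>
    rw [if_neg (by simp)]
    simp only [pm3a_qw_none, pm3a_qw_some, Real.sqrt_one, mul_one, g1, abs_neg,
      Real.mul_self_sqrt hx0.le]
    rw [← Finset.add_sum_erase univ _ (mem_univ j)]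
    have h1 : ∑ a' ∈ univ.erase j, |if j = a' then ((s.pr i : ℝ) ^ 2 - s.pr i - 1) /
        ((s.pr i : ℝ) - 1) else -(((s.pr i : ℝ) + 1) / ((s.pr i : ℝ) - 1))| /
          ((s.pr i : ℝ) - 1) = ((Fintype.card J : ℝ) - 1) *
            (((s.pr i : ℝ) + 1) / ((s.pr i : ℝ) - 1) / ((s.pr i : ℝ) - 1)) := by
      rw [Finset.sum_congr rfl (g := fun _ => ((s.pr i : ℝ) + 1) / ((s.pr i : ℝ) - 1) /
        ((s.pr i : ℝ) - 1)), Finset.sum_const, Finset.card_erase_of_mem (mem_univ j),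
        Finset.card_univ, nsmul_eq_mul, Nat.cast_sub (Fintype.card_pos_iff.2 ⟨j⟩), Nat.cast_one]
      intro a' ha'
      rw [if_neg (Finset.ne_of_mem_erase ha').symm, abs_neg, abs_of_pos (by positivity)]
    rw [h1, if_pos rfl]
    have hJ : (1 : ℝ) ≤ Fintype.card J := by
      exact_mod_cast (Fintype.card_pos_iff.2 ⟨j⟩ : 0 < Fintype.card J)
    set x : ℝ := (s.pr i : ℝ) - 1 with hxdef
    have hp : (s.pr i : ℝ) = x + 1 := by rw [hxdef]; ring
    rw [hp]
    have e1 : |((x + 1) ^ 2 - (x + 1) - 1) / x| / x = (x ^ 2 + x - 1) / x / x := by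
      rw [abs_of_nonneg]
      · congr 2
        ring
      · apply div_nonneg _ hx0.le
        nlinarith
    rw [e1, abs_of_pos (by positivity)]
    have hs1 : 1 ≤ √x := by
      rw [show (1 : ℝ) = √1 by simp]
      exact Real.sqrt_le_sqrt (by linarith)
    have e2 : 1 / x / √x ≤ 1 / x := div_le_self (by positivity) hs1
    have e3 : (x ^ 2 + x - 1) / x / x ≤ 1 + 1 / x := by
      rw [div_div, div_le_iff₀ (by positivity)]
      have : (1 + 1 / x) * (x * x) = x ^ 2 + x := by field_simp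
      rw [this]
      linarith
    have e4 : (x + 1 + 1) / x / x ≤ 2 / x := by
      rw [div_div, div_le_iff₀ (by positivity)]
      have : 2 / x * (x * x) = 2 * x := by field_simp
      rw [this]
      linarith
    have e5 := mul_le_mul_of_nonneg_left e4 (by linarith : (0 : ℝ) ≤ (Fintype.card J : ℝ) - 1)
    have e6 : 1 / x + (1 + 1 / x + ((Fintype.card J : ℝ) - 1) * (2 / x)) =
        1 + 2 * Fintype.card J / x := by ring
    have e7 : 2 * (Fintype.card J : ℝ) / x ≤ 3 * Fintype.card J / x := by gcongr; norm_num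
    linarith

theorem pm3a_tele {x : ℝ} (hx : 1 ≤ x) :
    x ^ (-(3 / 2) : ℝ) ≤ 2 / √(x - 1 / 2) - 2 / √(x + 1 / 2) := by
  have hx0 : 0 < x := by linarith
  rw [pm3a_rpow hx0]
  set a := √(x - 1 / 2) with ha
  set b := √(x + 1 / 2) with hb
  have ha2 : a ^ 2 = x - 1 / 2 := Real.sq_sqrt (by linarith)
  have hb2 : b ^ 2 = x + 1 / 2 := Real.sq_sqrt (by linarith)
  have ha0 : 0 < a := Real.sqrt_pos.2 (by linarith)
  have hb0 : 0 < b := Real.sqrt_pos.2 (by linarith)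
  set c := √x with hc
  have hc0 : 0 < c := Real.sqrt_pos.2 hx0
  have hc2 : c ^ 2 = x := Real.sq_sqrt hx0.le
  have hab : a * b ≤ x := by
    have : (a * b) ^ 2 ≤ x ^ 2 := by
      rw [mul_pow, ha2, hb2]
      nlinarith
    exact le_of_sq_le_sq this hx0.le
  have hsum : a + b ≤ 2 * c := by
    have : (a + b) ^ 2 ≤ (2 * c) ^ 2 := by
      nlinarith
    exact le_of_sq_le_sq this (by positivity)
  have h1 : 2 / a - 2 / b = 2 / (a * b * (a + b)) := by
    have h2 : (b - a) * (a + b) = 1 := by nlinarith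
    field_simp
    linarith
  rw [h1, div_div, div_le_div_iff₀ (by positivity) (by positivity)]
  have h3 : a * b * (a + b) ≤ x * (2 * c) := mul_le_mul hab hsum (by positivity) hx0.le
  linarith

/-- `∑_i (pr i - 1)^(-3/2) ≤ ∑_{n ≥ W} n^(-3/2) ≤ 3 W^(-1/2)` (distinct integers `pr i - 1 ≥ W`). -/
theorem sum_three_half (s : Sys ι J) (W : ℕ) (hW : 1 ≤ W) (hpr : ∀ i, W < s.pr i) :
    ∑ i, ((s.pr i : ℝ) - 1) ^ (-(3 / 2) : ℝ) ≤ 3 / √(W : ℝ) := by
  classical
  obtain ⟨N, hN⟩ : ∃ N, W ≤ N ∧ ∀ i, s.pr i ≤ N :=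
    ⟨max W (univ.sup s.pr), le_max_left _ _, fun i =>
      (Finset.le_sup (f := s.pr) (mem_univ i)).trans (le_max_right _ _)⟩
  have hinj : Function.Injective fun i => s.pr i - 1 := by
    intro i i' h
    apply s.inj
    have h1 := (s.prime i).pos
    have h2 := (s.prime i').pos
    simp only at h
    omega
  have h1 : ∑ i, ((s.pr i : ℝ) - 1) ^ (-(3 / 2) : ℝ) =
      ∑ n ∈ (univ : Finset ι).image (fun i => s.pr i - 1), (n : ℝ) ^ (-(3 / 2) : ℝ) := by
    rw [Finset.sum_image (fun a _ b _ h => hinj h)]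
    refine Finset.sum_congr rfl fun i _ => ?_
    rw [Nat.cast_sub (s.prime i).one_le, Nat.cast_one]
  have hsub : (univ : Finset ι).image (fun i => s.pr i - 1) ⊆ Ico W N := by
    intro n hn
    obtain ⟨i, _, rfl⟩ := Finset.mem_image.1 hn
    have h2 := hpr i
    have h3 := hN.2 i
    have h4 := (s.prime i).pos
    rw [Finset.mem_Ico]
    omega
  rw [h1]
  have h2 : ∀ N, W ≤ N → ∑ n ∈ Ico W N, (n : ℝ) ^ (-(3 / 2) : ℝ) ≤
      2 / √((W : ℝ) - 1 / 2) - 2 / √((N : ℝ) - 1 / 2) := by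
    intro N hN
    induction N, hN using Nat.le_induction with
    | base => simp
    | succ N hN ih =>
      rw [Finset.sum_Ico_succ_top hN]
      have h3 := pm3a_tele (x := N) (by exact_mod_cast hW.trans hN)
      push_cast
      have h4 : (N : ℝ) + 1 - 1 / 2 = N + 1 / 2 := by ring
      rw [h4]
      linarith
  have hW' : (1 : ℝ) ≤ W := by exact_mod_cast hW
  have h5 : 2 / √((W : ℝ) - 1 / 2) ≤ 3 / √(W : ℝ) := by
    rw [div_le_div_iff₀ (Real.sqrt_pos.2 (by linarith)) (Real.sqrt_pos.2 (by linarith))]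
    have h6 : (2 * √(W : ℝ)) ^ 2 ≤ (3 * √((W : ℝ) - 1 / 2)) ^ 2 := by
      rw [mul_pow, mul_pow, Real.sq_sqrt (by linarith), Real.sq_sqrt (by linarith)]
      linarith
    exact le_of_sq_le_sq h6 (by positivity)
  calc ∑ n ∈ (univ : Finset ι).image (fun i => s.pr i - 1), (n : ℝ) ^ (-(3 / 2) : ℝ)
      ≤ ∑ n ∈ Ico W N, (n : ℝ) ^ (-(3 / 2) : ℝ) :=
        Finset.sum_le_sum_of_subset_of_nonneg hsub (fun _ _ _ => by positivity)
    _ ≤ 2 / √((W : ℝ) - 1 / 2) - 2 / √((N : ℝ) - 1 / 2) := h2 N hN.1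
    _ ≤ 2 / √((W : ℝ) - 1 / 2) := by
        have : (0 : ℝ) ≤ 2 / √((N : ℝ) - 1 / 2) := by positivity
        linarith
    _ ≤ 3 / √(W : ℝ) := h5

end Pool.Agent.Lib.H5C
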