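import Pool.Agent.Lib.H5C.PM1
import Pool.Agent.Lib.H56G.Cnt
import Pool.Agent.Lib.H5C.PM3a

/-!
# Chunk PM3b: Schur test for the matrix of the trivial characters
-/

open Finset
open Pool.Agent.Lib.H56G

namespace Pool.Agent.Lib.H5C

variable {ι J : Type} [Fintype ι] [DecidableEq ι] [Fintype J] [DecidableEq J]

/-- The constant of the Schur test. -/
noncomputable def RR (J : Type) [Fintype J] (W : ℕ) (D : ℝ) : ℝ :=
  Real.exp (3 * Fintype.card J / √(W : ℝ) + 6 * Fintype.card J * Real.log D / W)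

/-- Product of `row_one` over a set of primes containing all the used ones or not: for every
`T : Finset ι`, `1 + x ≤ exp x`, `sum_three_half` and `card_supp_le`. -/
theorem row_prod (s : Sys ι J) (W : ℕ) (hW : 2 ≤ W) (hpr : ∀ i, W < s.pr i) (D : ℝ)
    (κ : ι → Option J) (hκ : s.r κ ≤ D) (T : Finset ι) :
    ∏ i ∈ T, ∑ a' : Option J, |g1 s i (κ i) a'| / (√(qw s i (κ i)) * √(qw s i a')) ≤ RR J W D := by
  classical
  have hW0 : (0 : ℝ) < W := by exact_mod_cast (by omega : 0 < W)
  have hp : ∀ i, (W : ℝ) ≤ (s.pr i : ℝ) - 1 := by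
    intro i
    have : (W : ℝ) + 1 ≤ s.pr i := by exact_mod_cast hpr i
    linarith
  have h3 : ∀ i, 3 ≤ s.pr i := fun i => by have := hpr i; omega
  have hx : ∀ i, (0 : ℝ) ≤ Fintype.card J * ((s.pr i : ℝ) - 1) ^ (-(3 / 2) : ℝ) := by
    intro i
    have := hp i
    have h0 : (0 : ℝ) ≤ (s.pr i : ℝ) - 1 := by linarith
    positivity
  have hy : (0 : ℝ) ≤ 3 * Fintype.card J / W := by positivity
  have h1 : ∀ i, ∑ a' : Option J, |g1 s i (κ i) a'| / (√(qw s i (κ i)) * √(qw s i a')) ≤
      Real.exp (Fintype.card J * ((s.pr i : ℝ) - 1) ^ (-(3 / 2) : ℝ) +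
        if κ i = none then 0 else 3 * (Fintype.card J : ℝ) / W) := by
    intro i
    refine (row_one s i (h3 i) (κ i)).trans ?_
    split_ifs with hk
    · rw [add_zero]
      have := Real.add_one_le_exp (Fintype.card J * ((s.pr i : ℝ) - 1) ^ (-(3 / 2) : ℝ))
      linarith
    · have h4 := Real.add_one_le_exp (3 * Fintype.card J / (W : ℝ))
      have h5 : 3 * (Fintype.card J : ℝ) / ((s.pr i : ℝ) - 1) ≤ 3 * Fintype.card J / W := by
        gcongr
        exact hp i
      have h6 : Real.exp (3 * Fintype.card J / (W : ℝ)) ≤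
          Real.exp (Fintype.card J * ((s.pr i : ℝ) - 1) ^ (-(3 / 2) : ℝ) +
            3 * Fintype.card J / W) := by
        apply Real.exp_le_exp.2
        linarith [hx i]
      linarith
  have h2 : ∏ i ∈ T, ∑ a' : Option J, |g1 s i (κ i) a'| / (√(qw s i (κ i)) * √(qw s i a')) ≤
      ∏ i ∈ T, Real.exp (Fintype.card J * ((s.pr i : ℝ) - 1) ^ (-(3 / 2) : ℝ) +
        if κ i = none then 0 else 3 * (Fintype.card J : ℝ) / W) :=
    Finset.prod_le_prod (fun i _ => Finset.sum_nonneg fun a' _ => by positivity)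
      (fun i _ => h1 i)
  refine h2.trans ?_
  rw [← Real.exp_sum]
  unfold RR
  apply Real.exp_le_exp.2
  have h7 : ∑ i ∈ T, (Fintype.card J * ((s.pr i : ℝ) - 1) ^ (-(3 / 2) : ℝ) +
        if κ i = none then 0 else 3 * (Fintype.card J : ℝ) / W) ≤
      ∑ i, (Fintype.card J * ((s.pr i : ℝ) - 1) ^ (-(3 / 2) : ℝ) +
        if κ i = none then 0 else 3 * (Fintype.card J : ℝ) / W) := by
    refine Finset.sum_le_sum_of_subset_of_nonneg (Finset.subset_univ _) fun i _ _ => ?_
    refine add_nonneg (hx i) ?_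
    split_ifs
    · exact le_rfl
    · exact hy
  refine h7.trans ?_
  rw [Finset.sum_add_distrib, ← Finset.mul_sum]
  have h8 := mul_le_mul_of_nonneg_left (sum_three_half s W (by omega) hpr)
    (Nat.cast_nonneg (α := ℝ) (Fintype.card J))
  have h9 : ∑ i, (if κ i = none then 0 else 3 * (Fintype.card J : ℝ) / W) =
      (supp κ).card * (3 * (Fintype.card J : ℝ) / W) := by
    rw [← nsmul_eq_mul, ← Finset.sum_const]
    unfold supp
    rw [Finset.sum_filter]
    refine Finset.sum_congr rfl fun i _ => ?_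
    cases hk : κ i <;> simp
  rw [h9]
  have h10 := mul_le_mul_of_nonneg_right (card_supp_le s κ D hκ) hy
  have h11 : 2 * Real.log D * (3 * (Fintype.card J : ℝ) / W) =
      6 * Fintype.card J * Real.log D / W := by ring
  have h12 : (Fintype.card J : ℝ) * (3 / √(W : ℝ)) = 3 * Fintype.card J / √(W : ℝ) := by ring
  linarith

end Pool.Agent.Lib.H5C
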