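import Pool.Agent.Lib.H5C.PM1
import Pool.Agent.Lib.H56G.Cnt
import Pool.Agent.Lib.H5C.PM3b

/-!
# Chunk PM3c: Schur test for the matrix of the trivial characters
-/

open Finset
open Pool.Agent.Lib.H56G

namespace Pool.Agent.Lib.H5C

variable {ι J : Type} [Fintype ι] [DecidableEq ι] [Fintype J] [DecidableEq J]

/-- the product of the entries -/
noncomputable def pm3c_A (s : Sys ι J) (κ κ' : ι → Option J) : ℝ := ∏ i, g1 s i (κ i) (κ' i)

theorem pm3c_g1_symm (s : Sys ι J) (i : ι) (a a' : Option J) : g1 s i a a' = g1 s i a' a := by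
  cases a <;> cases a'
  · rfl
  · rfl
  · rfl
  · rename_i j j'
    by_cases h : j = j'
    · subst h; rfl
    · simp only [g1, if_neg h, if_neg (Ne.symm h)]

theorem pm3c_ph (s : Sys ι J) (κ : ι → Option J) : s.ph κ = ∏ i, qw s i (κ i) := by
  unfold Sys.ph Sys.phi supp
  rw [Finset.prod_filter]
  refine Finset.prod_congr rfl fun i _ => ?_
  cases h : κ i <;> simp [qw]

/-- normalised absolute entries -/
noncomputable def pm3c_B (s : Sys ι J) (κ κ' : ι → Option J) : ℝ :=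
  ∏ i, |g1 s i (κ i) (κ' i)| / (√(qw s i (κ i)) * √(qw s i (κ' i)))

theorem pm3c_qw_pos (s : Sys ι J) (h2 : ∀ i, 2 ≤ s.pr i) (i : ι) (a : Option J) :
    0 < qw s i a := by
  have : (2 : ℝ) ≤ s.pr i := by exact_mod_cast h2 i
  cases a
  · exact one_pos
  · change (0 : ℝ) < (s.pr i : ℝ) - 1
    linarith

theorem pm3c_B_nonneg (s : Sys ι J) (κ κ' : ι → Option J) : 0 ≤ pm3c_B s κ κ' :=
  Finset.prod_nonneg fun i _ => by positivity

theorem pm3c_B_symm (s : Sys ι J) (κ κ' : ι → Option J) : pm3c_B s κ κ' = pm3c_B s κ' κ := by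
  unfold pm3c_B
  refine Finset.prod_congr rfl fun i _ => ?_
  rw [pm3c_g1_symm, mul_comm (√(qw s i (κ i)))]

theorem pm3c_AB (s : Sys ι J) (h2 : ∀ i, 2 ≤ s.pr i) (κ κ' : ι → Option J) :
    |pm3c_A s κ κ'| = pm3c_B s κ κ' * (√(s.ph κ) * √(s.ph κ')) := by
  have hs : ∀ κ : ι → Option J, √(s.ph κ) = ∏ i, √(qw s i (κ i)) := by
    intro κ
    rw [pm3c_ph, Real.sqrt_prod]
    intro i _
    exact (pm3c_qw_pos s h2 i _).le
  rw [hs, hs]
  unfold pm3c_A pm3c_B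
  rw [← Finset.prod_mul_distrib, ← Finset.prod_mul_distrib, Finset.abs_prod]
  refine Finset.prod_congr rfl fun i _ => ?_
  have h3 := Real.sqrt_pos.2 (pm3c_qw_pos s h2 i (κ i))
  have h4 := Real.sqrt_pos.2 (pm3c_qw_pos s h2 i (κ' i))
  field_simp

theorem pm3c_row (s : Sys ι J) (W : ℕ) (hW : 2 ≤ W) (hpr : ∀ i, W < s.pr i) (D : ℝ)
    (κ : ι → Option J) (hκ : s.r κ ≤ D) (t : Finset (ι → Option J)) :
    ∑ κ' ∈ t, pm3c_B s κ κ' ≤ RR J W D := by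
  classical
  have h1 := row_prod s W hW hpr D κ hκ univ
  have h2 := Finset.prod_univ_sum (t := fun _ : ι => (univ : Finset (Option J)))
    (f := fun i a' => |g1 s i (κ i) a'| / (√(qw s i (κ i)) * √(qw s i a')))
  rw [Fintype.piFinset_univ] at h2
  rw [h2] at h1
  exact (Finset.sum_le_sum_of_subset_of_nonneg (Finset.subset_univ t)
    fun κ' _ _ => pm3c_B_nonneg s κ κ').trans h1

theorem pm3c_diag (s : Sys ι J) (h2 : ∀ i, 2 ≤ s.pr i) (κ : ι → Option J) :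
    s.ph κ ≤ pm3c_A s κ κ := by
  rw [pm3c_ph]
  unfold pm3c_A
  refine Finset.prod_le_prod (fun i _ => (pm3c_qw_pos s h2 i _).le) fun i _ => ?_
  have hx : (2 : ℝ) ≤ s.pr i := by exact_mod_cast h2 i
  cases h : κ i
  · exact le_rfl
  · simp only [g1, if_true]
    change (s.pr i : ℝ) - 1 ≤ _
    rw [le_div_iff₀ (by linarith)]
    nlinarith

/-- `|c κ c κ'| ∏ |g1| ≤ ½ (c κ² ph κ + c κ'² ph κ') ∏ |g1|/(√q √q')`, row sums by `row_prod`
(`∑_{κ'} ∏_i = ∏_i ∑_{a'}`), diagonal entries `∏_{supp κ} (p²-p-1)/(p-1) ≥ ph κ`. -/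
theorem wch_one_re (s : Sys ι J) (W : ℕ) (hW : 2 ≤ W) (hpr : ∀ i, W < s.pr i) (j0 : J)
    (c' : (ι → Option J) → ℝ) (D : ℝ) (hc : ∀ κ, c' κ ≠ 0 → s.r κ ≤ D) :
    ∃ r : ℝ, wch s j0 c' (fun _ => 1) = (r : ℂ) ∧
      (2 - RR J W D) * ∑ κ ∈ noJ j0, (c' κ) ^ 2 * s.ph κ ≤ r ∧
      r ≤ RR J W D * ∑ κ ∈ noJ j0, (c' κ) ^ 2 * s.ph κ := by
  classical
  have h2 : ∀ i, 2 ≤ s.pr i := fun i => (s.prime i).two_le
  have hph0 : ∀ κ, 0 ≤ s.ph κ := by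
    intro κ
    rw [pm3c_ph]
    exact Finset.prod_nonneg fun i _ => (pm3c_qw_pos s h2 i _).le
  set r : ℝ := ∑ κ ∈ noJ j0, ∑ κ' ∈ noJ j0, c' κ * c' κ' * pm3c_A s κ κ' with hr
  -- the bound of one term
  have hterm : ∀ κ κ', |c' κ * c' κ' * pm3c_A s κ κ'| ≤
      ((c' κ) ^ 2 * s.ph κ + (c' κ') ^ 2 * s.ph κ') / 2 * pm3c_B s κ κ' := by
    intro κ κ'
    rw [abs_mul, pm3c_AB s h2, abs_mul]
    have hB := pm3c_B_nonneg s κ κ'
    have h3 : (|c' κ| * √(s.ph κ)) * (|c' κ'| * √(s.ph κ')) ≤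
        ((c' κ) ^ 2 * s.ph κ + (c' κ') ^ 2 * s.ph κ') / 2 := by
      have e1 : (|c' κ| * √(s.ph κ)) ^ 2 = (c' κ) ^ 2 * s.ph κ := by
        rw [mul_pow, sq_abs, Real.sq_sqrt (hph0 κ)]
      have e2 : (|c' κ'| * √(s.ph κ')) ^ 2 = (c' κ') ^ 2 * s.ph κ' := by
        rw [mul_pow, sq_abs, Real.sq_sqrt (hph0 κ')]
      rw [← e1, ← e2]
      nlinarith [sq_nonneg (|c' κ| * √(s.ph κ) - |c' κ'| * √(s.ph κ'))]
    have h4 := mul_le_mul_of_nonneg_right h3 hB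
    calc |c' κ| * |c' κ'| * (pm3c_B s κ κ' * (√(s.ph κ) * √(s.ph κ')))
        = (|c' κ| * √(s.ph κ)) * (|c' κ'| * √(s.ph κ')) * pm3c_B s κ κ' := by ring
      _ ≤ _ := h4
  -- the sum of the bounds
  have hsum : ∑ κ ∈ noJ j0, ∑ κ' ∈ noJ j0,
      ((c' κ) ^ 2 * s.ph κ + (c' κ') ^ 2 * s.ph κ') / 2 * pm3c_B s κ κ' ≤
        RR J W D * ∑ κ ∈ noJ j0, (c' κ) ^ 2 * s.ph κ := by
    have e1 : ∑ κ ∈ noJ j0, ∑ κ' ∈ noJ j0,
        ((c' κ) ^ 2 * s.ph κ + (c' κ') ^ 2 * s.ph κ') / 2 * pm3c_B s κ κ' =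
        (∑ κ ∈ noJ j0, ∑ κ' ∈ noJ j0, (c' κ) ^ 2 * s.ph κ / 2 * pm3c_B s κ κ') +
        ∑ κ ∈ noJ j0, ∑ κ' ∈ noJ j0, (c' κ') ^ 2 * s.ph κ' / 2 * pm3c_B s κ κ' := by
      rw [← Finset.sum_add_distrib]
      refine Finset.sum_congr rfl fun κ _ => ?_
      rw [← Finset.sum_add_distrib]
      refine Finset.sum_congr rfl fun κ' _ => ?_
      ring
    have e2 : ∑ κ ∈ noJ j0, ∑ κ' ∈ noJ j0, (c' κ') ^ 2 * s.ph κ' / 2 * pm3c_B s κ κ' =
        ∑ κ ∈ noJ j0, ∑ κ' ∈ noJ j0, (c' κ) ^ 2 * s.ph κ / 2 * pm3c_B s κ κ' := by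
      rw [Finset.sum_comm]
      refine Finset.sum_congr rfl fun κ _ => Finset.sum_congr rfl fun κ' _ => ?_
      rw [pm3c_B_symm]
    rw [e1, e2, ← two_mul, Finset.mul_sum, Finset.mul_sum]
    refine Finset.sum_le_sum fun κ _ => ?_
    rw [← Finset.mul_sum]
    by_cases hk : c' κ = 0
    · simp [hk]
    · have h5 := pm3c_row s W hW hpr D κ (hc κ hk) (noJ j0)
      have h6 : 0 ≤ (c' κ) ^ 2 * s.ph κ := mul_nonneg (sq_nonneg _) (hph0 κ)
      nlinarith [mul_le_mul_of_nonneg_left h5 h6]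
  refine ⟨r, ?_, ?_, ?_⟩
  · rw [hr]
    unfold wch
    push_cast
    refine Finset.sum_congr rfl fun κ hκ => Finset.sum_congr rfl fun κ' hκ' => ?_
    have hk := (Finset.mem_filter.1 hκ).2
    have hk' := (Finset.mem_filter.1 hκ').2
    congr 1
    unfold pm3c_A
    push_cast
    exact Finset.prod_congr rfl fun i _ => gh_one s j0 i _ _ (hk i) (hk' i)
  · -- lower bound
    have h7 : ∀ κ κ', -(((c' κ) ^ 2 * s.ph κ + (c' κ') ^ 2 * s.ph κ') / 2 * pm3c_B s κ κ') +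
        (if κ = κ' then 2 * ((c' κ) ^ 2 * s.ph κ) else 0) ≤ c' κ * c' κ' * pm3c_A s κ κ' := by
      intro κ κ'
      split_ifs with h
      · subst h
        have hA := pm3c_diag s h2 κ
        have hA0 : 0 ≤ pm3c_A s κ κ := (hph0 κ).trans hA
        have hAB := pm3c_AB s h2 κ κ
        rw [abs_of_nonneg hA0, Real.mul_self_sqrt (hph0 κ)] at hAB
        have h8 : ((c' κ) ^ 2 * s.ph κ + (c' κ) ^ 2 * s.ph κ) / 2 * pm3c_B s κ κ =
            (c' κ) ^ 2 * pm3c_A s κ κ := by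
          rw [hAB]
          ring
        rw [h8]
        have h9 := mul_le_mul_of_nonneg_left hA (sq_nonneg (c' κ))
        nlinarith
      · rw [add_zero]
        exact (abs_le.1 (hterm κ κ')).1
    have h10 := Finset.sum_le_sum fun κ (_ : κ ∈ noJ j0) =>
      Finset.sum_le_sum fun κ' (_ : κ' ∈ noJ j0) => h7 κ κ'
    rw [← hr] at h10
    refine le_trans ?_ h10
    have h11 : ∑ κ ∈ noJ j0, ∑ κ' ∈ noJ j0,
        (-(((c' κ) ^ 2 * s.ph κ + (c' κ') ^ 2 * s.ph κ') / 2 * pm3c_B s κ κ') +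
        (if κ = κ' then 2 * ((c' κ) ^ 2 * s.ph κ) else 0)) =
        -(∑ κ ∈ noJ j0, ∑ κ' ∈ noJ j0,
          ((c' κ) ^ 2 * s.ph κ + (c' κ') ^ 2 * s.ph κ') / 2 * pm3c_B s κ κ') +
        2 * ∑ κ ∈ noJ j0, (c' κ) ^ 2 * s.ph κ := by
      rw [Finset.mul_sum, ← Finset.sum_neg_distrib, ← Finset.sum_add_distrib]
      refine Finset.sum_congr rfl fun κ hκ => ?_
      rw [Finset.sum_add_distrib, Finset.sum_neg_distrib, Finset.sum_ite_eq, if_pos hκ]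
    rw [h11]
    linarith
  · refine le_trans ?_ hsum
    rw [hr]
    exact Finset.sum_le_sum fun κ _ => Finset.sum_le_sum fun κ' _ =>
      (le_abs_self _).trans (hterm κ κ')

end Pool.Agent.Lib.H5C
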