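import Pool.Agent.Lib.H5C.PM2
import Pool.Agent.Lib.H5C.AN6

/-!
# Chunk PM6a: primes in the progression `b j0 mod M`, weighted with `L'^2`
-/

open Finset
open Pool.Agent.Lib.H56G
open Pool.Agent.Lib.H68T (PC p0 FL Mu v lp)

namespace Pool.Agent.Lib.H5C

variable {ι J : Type} [Fintype ι] [DecidableEq ι] [Fintype J] [DecidableEq J]

/-- one term of the sum over `P` -/
theorem pm6a_term (s : Sys ι J) [NeZero s.M] (j0 : J)
    (hb : Nat.Coprime (s.b j0) s.M) (c' : (ι → Option J) → ℝ) (P : ℕ) (w : ℝ)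
    (hP : w ≠ 0 → ∀ i, Nat.Coprime P (s.pr i)) :
    ∑ ξ : DirichletCharacter ℂ s.M, ∑ χ : Fam s,
      ξ ((s.b j0 : ZMod s.M)⁻¹) * wch s j0 c' χ *
        ((w : ℂ) * (ξ (P : ZMod s.M) * fval s χ P)) =
      if P ≡ s.b j0 [MOD s.M] then (s.M.totient : ℂ) * ((w * (Lx s j0 c' P) ^ 2 : ℝ) : ℂ)
        else 0 := by
  classical
  by_cases hw : w = 0
  · rw [hw]
    simp
  have h1 : ∑ ξ : DirichletCharacter ℂ s.M, ∑ χ : Fam s,
      ξ ((s.b j0 : ZMod s.M)⁻¹) * wch s j0 c' χ *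
        ((w : ℂ) * (ξ (P : ZMod s.M) * fval s χ P)) =
      (∑ ξ : DirichletCharacter ℂ s.M, ξ ((s.b j0 : ZMod s.M)⁻¹) * ξ (P : ZMod s.M)) *
        ((w : ℂ) * ∑ χ : Fam s, wch s j0 c' χ * fval s χ P) := by
    rw [Finset.sum_mul]
    refine Finset.sum_congr rfl fun ξ _ => ?_
    rw [Finset.mul_sum, Finset.mul_sum]
    refine Finset.sum_congr rfl fun χ _ => ?_
    ring
  have hunit : IsUnit (s.b j0 : ZMod s.M) := (ZMod.isUnit_iff_coprime _ _).2 hb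
  rw [h1, ← Lx_sq s j0 c' P (hP hw), DirichletCharacter.sum_char_inv_mul_char_eq ℂ hunit]
  by_cases h2 : P ≡ s.b j0 [MOD s.M]
  · rw [if_pos h2, if_pos ((ZMod.natCast_eq_natCast_iff _ _ _).2 h2.symm)]
    push_cast
    ring
  · rw [if_neg h2, if_neg fun h3 => h2 ((ZMod.natCast_eq_natCast_iff _ _ _).1 h3).symm, zero_mul]

/-- Orthogonality modulo `M` (`DirichletCharacter.sum_char_inv_mul_char_eq`; both sides vanish if
`P` and `M` are not coprime) and `Lx_sq` (`P > X/8 ≥ pr i` where the weight is not `0`). -/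
theorem prog_eq (s : Sys ι J) [NeZero s.M] (X : ℕ) (hpr : ∀ i, (s.pr i : ℝ) ≤ X / 8) (j0 : J)
    (hb : Nat.Coprime (s.b j0) s.M) (c' : (ι → Option J) → ℝ) :
    (((∑ P ∈ (Icc 1 (60 * X)).filter (fun P => P ≡ s.b j0 [MOD s.M]),
        lp (P : ℤ) * v X P / P * (Lx s j0 c' P) ^ 2 : ℝ)) : ℂ) =
      (1 / (s.M.totient : ℂ)) * ∑ ξ : DirichletCharacter ℂ s.M, ∑ χ : Fam s,
        ξ ((s.b j0 : ZMod s.M)⁻¹) * wch s j0 c' χ *
          SP X (fun P => ξ (P : ZMod s.M) * fval s χ P) := by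
  have hM : s.M ≠ 0 := NeZero.ne s.M
  have hφ : (s.M.totient : ℂ) ≠ 0 := by
    have : 0 < s.M.totient := Nat.totient_pos.2 (Nat.pos_of_ne_zero hM)
    exact_mod_cast this.ne'
  have hcop : ∀ P : ℕ, lp (P : ℤ) * v X P / P ≠ 0 → ∀ i, Nat.Coprime P (s.pr i) := by
    intro P hP i
    obtain ⟨h1, h2⟩ := large_of_weight X P hP
    rw [Nat.Prime.coprime_iff_not_dvd h1]
    intro h3
    have h4 := Nat.le_of_dvd (s.prime i).pos h3
    have h5 : (P : ℝ) ≤ s.pr i := by exact_mod_cast h4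
    have h6 := hpr i
    linarith
  have h1 : ∑ ξ : DirichletCharacter ℂ s.M, ∑ χ : Fam s,
        ξ ((s.b j0 : ZMod s.M)⁻¹) * wch s j0 c' χ *
          SP X (fun P => ξ (P : ZMod s.M) * fval s χ P) =
      ∑ P ∈ Icc 1 (60 * X), ∑ ξ : DirichletCharacter ℂ s.M, ∑ χ : Fam s,
        ξ ((s.b j0 : ZMod s.M)⁻¹) * wch s j0 c' χ *
          (((lp (P : ℤ) * v X P / P : ℝ) : ℂ) * (ξ (P : ZMod s.M) * fval s χ P)) := by
    unfold SP
    refine (Finset.sum_comm.trans ?_).symm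
    refine Finset.sum_congr rfl fun ξ _ => ?_
    refine Finset.sum_comm.trans ?_
    refine Finset.sum_congr rfl fun χ _ => ?_
    rw [Finset.mul_sum]
  rw [h1, Finset.sum_congr rfl fun P _ =>
    pm6a_term s j0 hb c' P (lp (P : ℤ) * v X P / P) (hcop P), ← Finset.sum_filter,
    ← Finset.mul_sum, ← mul_assoc, one_div, inv_mul_cancel₀ hφ, one_mul, Complex.ofReal_sum]

end Pool.Agent.Lib.H5C
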