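import Pool.Agent.Lib.H5C.Defs
import Pool.Agent.Lib.H56G.Main0

/-!
# Chunk TH1b: the weights `θ bw`; one form
-/

open Finset
open Pool.Agent.Lib.H56G

namespace Pool.Agent.Lib.H5C

variable {ι J : Type} [Fintype ι] [DecidableEq ι] [Fintype J] [DecidableEq J]

theorem th1b_vv (s : Sys ι J) (z θ : ℝ) (A : Finset ι) (hA : A ≠ ∅) :
    vv s (tb s z θ) A = θ ^ 2 * ((bw s z A) ^ 2 * s.phi A) := by
  unfold vv gam tb
  rw [if_neg hA, neg_sq]
  ring

theorem th1b_vv_bw (s : Sys ι J) (z : ℝ) (A : Finset ι) (hA : A ≠ ∅) :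
    vv s (bw s z) A = (bw s z A) ^ 2 * s.phi A := by
  unfold vv gam
  rw [if_neg hA, neg_sq]

theorem th1b_le_rho (s : Sys ι J) (W : ℕ) (hpr : ∀ i, W < s.pr i) (A : Finset ι) (hA : A ≠ ∅) :
    (W : ℝ) ≤ s.rho A := by
  obtain ⟨i, hi⟩ := Finset.nonempty_iff_ne_empty.mpr hA
  have h1 : s.rho A = (s.pr i : ℝ) * s.rho (A.erase i) := by
    unfold Sys.rho
    rw [Finset.mul_prod_erase A (fun i => (s.pr i : ℝ)) hi]
  have h2 : (W : ℝ) ≤ (s.pr i : ℝ) := by exact_mod_cast (hpr i).le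
  have h3 := one_le_rho s (A.erase i)
  have h4 : (0 : ℝ) ≤ (s.pr i : ℝ) := Nat.cast_nonneg _
  rw [h1]
  nlinarith

/-- `bb² φ` sums: `∑_{A ≠ ∅} vv (tb) A ≤ 1/(S log W)` (`bw² φ = 1/(S² φ log² ρ)` and
`log ρ ≥ log W` for `A ≠ ∅`). -/
theorem vv_sum_le (s : Sys ι J) (W : ℕ) (hW : 2 ≤ W) (hpr : ∀ i, W < s.pr i) (z θ : ℝ)
    (hθ : 0 ≤ θ) (hθ1 : θ ≤ 1) (hS : 0 < SS s z) :
    ∑ A ∈ univ.filter (fun A : Finset ι => A ≠ ∅), vv s (tb s z θ) A ≤
      1 / (SS s z * Real.log W) := by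
  have hW2 : (2 : ℝ) ≤ W := by exact_mod_cast hW
  have hlW : 0 < Real.log W := Real.log_pos (by linarith)
  have key : ∀ A ∈ univ.filter (fun A : Finset ι => A ≠ ∅),
      vv s (tb s z θ) A ≤ (1 / (SS s z * Real.log W)) * bw s z A := by
    intro A hA
    rw [Finset.mem_filter] at hA
    have hA := hA.2
    have hb0 := bw_nonneg s z A
    have hph : 0 < s.phi A := lt_of_lt_of_le zero_lt_one (one_le_phi s A)
    rw [th1b_vv s z θ A hA]
    have hθ2 : θ ^ 2 ≤ 1 := by nlinarith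
    have h0 : 0 ≤ (bw s z A) ^ 2 * s.phi A := by positivity
    refine (mul_le_of_le_one_left h0 hθ2).trans ?_
    by_cases hzA : s.rho A ≤ z
    · have hρ := th1b_le_rho s W hpr A hA
      have hlρ : Real.log W ≤ Real.log (s.rho A) := Real.log_le_log (by linarith) hρ
      have hlρ0 : 0 < Real.log (s.rho A) := hlW.trans_le hlρ
      have hbw : bw s z A * (s.phi A * Real.log (s.rho A)) = 1 / SS s z := by
        unfold bw
        rw [if_pos ⟨hA, hzA⟩]
        field_simp
      have h1 : bw s z A * s.phi A = 1 / (SS s z * Real.log (s.rho A)) := by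
        rw [eq_div_iff (mul_pos hS hlρ0).ne']
        calc bw s z A * s.phi A * (SS s z * Real.log (s.rho A))
            = (bw s z A * (s.phi A * Real.log (s.rho A))) * SS s z := by ring
          _ = 1 := by rw [hbw, one_div, inv_mul_cancel₀ hS.ne']
      calc (bw s z A) ^ 2 * s.phi A = bw s z A * (bw s z A * s.phi A) := by ring
        _ = bw s z A * (1 / (SS s z * Real.log (s.rho A))) := by rw [h1]
        _ ≤ bw s z A * (1 / (SS s z * Real.log W)) := by
            apply mul_le_mul_of_nonneg_left _ hb0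
            apply one_div_le_one_div_of_le (by positivity)
            exact mul_le_mul_of_nonneg_left hlρ hS.le
        _ = _ := by ring
    · have hbw : bw s z A = 0 := by
        unfold bw
        rw [if_neg (fun h => hzA h.2)]
      rw [hbw]
      simp
  calc _ ≤ ∑ A ∈ univ.filter (fun A : Finset ι => A ≠ ∅),
        (1 / (SS s z * Real.log W)) * bw s z A := Finset.sum_le_sum key
    _ = 1 / (SS s z * Real.log W) := by
      rw [← Finset.mul_sum, bw_sum s z hS, mul_one]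

/-- The tail: `cher` with `z²` in place of `z`, `σ = 1/log z`; the moment is at most the one of
`bw` (`vv (tb) A = θ² vv (bw) A` for `A ≠ ∅`), `bw_moment`. -/
theorem tail_le (s : Sys ι J) (z θ D ε : ℝ) (hθ : 0 ≤ θ) (hθ1 : θ ≤ 1) (hz : 1 < z)
    (hD : 0 < D) (hS : 0 < SS s z)
    (hε : (z ^ 2 / D) ^ (1 / Real.log z) *
      (1 + 2 / (SS s z * Real.log z)) ^ (Fintype.card J) ≤ ε) :
    ∑ κ ∈ univ.filter (fun κ : ι → Option J => D < s.r κ * z ^ 2), wt s (tb s z θ) κ
      ≤ ε * ZZ s (tb s z θ) := by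
  have hlz : 0 < Real.log z := Real.log_pos hz
  have h1 := cher s (tb s z θ) (1 / Real.log z) (z ^ 2) D (by positivity) (by positivity) hD
  refine h1.trans ?_
  have hpow : ∀ A : Finset ι, 0 ≤ (s.rho A) ^ (1 / Real.log z) - 1 := fun A => by
    have h2 := Real.one_le_rpow (one_le_rho s A) (by positivity : (0:ℝ) ≤ 1 / Real.log z)
    linarith
  have hm : ∑ A ∈ univ.filter (fun A : Finset ι => A ≠ ∅),
      vv s (tb s z θ) A * ((s.rho A) ^ (1 / Real.log z) - 1) ≤ 2 / (SS s z * Real.log z) := by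
    refine le_trans (Finset.sum_le_sum fun A hA => ?_) (bw_moment s z hz hS)
    rw [Finset.mem_filter] at hA
    rw [th1b_vv s z θ A hA.2, th1b_vv_bw s z A hA.2]
    have hph : 0 < s.phi A := lt_of_lt_of_le zero_lt_one (one_le_phi s A)
    have hθ2 : θ ^ 2 ≤ 1 := by nlinarith
    have h0 : 0 ≤ (bw s z A) ^ 2 * s.phi A := by positivity
    exact mul_le_mul_of_nonneg_right (mul_le_of_le_one_left h0 hθ2) (hpow A)
  have hm0 : 0 ≤ ∑ A ∈ univ.filter (fun A : Finset ι => A ≠ ∅),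
      vv s (tb s z θ) A * ((s.rho A) ^ (1 / Real.log z) - 1) := by
    apply Finset.sum_nonneg
    intro A _
    apply mul_nonneg _ (hpow A)
    unfold vv
    have := one_le_phi s A
    positivity
  have hZ : 0 ≤ ZZ s (tb s z θ) := by
    have := one_le_ZZ s (tb s z θ)
    linarith
  have hz0 : 0 ≤ (z ^ 2 / D) ^ (1 / Real.log z) := by positivity
  apply mul_le_mul_of_nonneg_right _ hZ
  refine le_trans ?_ hε
  apply mul_le_mul_of_nonneg_left _ hz0
  apply pow_le_pow_left₀ (by linarith)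
  linarith

end Pool.Agent.Lib.H5C
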