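import Pool.Agent.Lib.H5C.Defs
import Pool.Agent.Lib.H56G.Main0

/-!
# Chunk TH1a: the weights `θ bw`; one form
-/

open Finset
open Pool.Agent.Lib.H56G

namespace Pool.Agent.Lib.H5C

variable {ι J : Type} [Fintype ι] [DecidableEq ι] [Fintype J] [DecidableEq J]

/-- The bracket in `cp_cc`. -/
noncomputable def br (s : Sys ι J) (bb : Finset ι → ℝ) (D : ℝ) (κ : ι → Option J) : ℝ :=
  1 - ∑ A ∈ (free κ).powerset.filter (fun A => A ≠ ∅ ∧ s.r κ * s.rho A ≤ D), bb A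

theorem tb_nonneg (s : Sys ι J) (z θ : ℝ) (hθ : 0 ≤ θ) (A : Finset ι) : 0 ≤ tb s z θ A :=
  mul_nonneg hθ (bw_nonneg s z A)

theorem tb_le_one (s : Sys ι J) (z θ : ℝ) (hθ : 0 ≤ θ) (hθ1 : θ ≤ 1) (hS : 0 < SS s z)
    (A : Finset ι) : tb s z θ A ≤ 1 := by
  unfold tb
  calc θ * bw s z A ≤ 1 * 1 :=
        mul_le_mul hθ1 (bw_le_one s z hS A) (bw_nonneg s z A) zero_le_one
    _ = 1 := one_mul 1

theorem tb_rho (s : Sys ι J) (z θ : ℝ) (A : Finset ι) (h : tb s z θ A ≠ 0) : s.rho A ≤ z :=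
  bw_rho s z A (right_ne_zero_of_mul h)

/-- `bw_sum` -/
theorem tb_sum (s : Sys ι J) (z θ : ℝ) (hS : 0 < SS s z) :
    ∑ A ∈ univ.filter (fun A : Finset ι => A ≠ ∅), tb s z θ A = θ := by
  unfold tb
  rw [← Finset.mul_sum, bw_sum s z hS, mul_one]

/-- `bw_through` -/
theorem tb_through (s : Sys ι J) (W : ℕ) (hW : 1 ≤ W) (hpr : ∀ i, W < s.pr i) (z θ : ℝ)
    (hθ : 0 ≤ θ) (hθ1 : θ ≤ 1) (hS : 0 < SS s z) (i : ι) :
    ∑ A ∈ univ.filter (fun A : Finset ι => i ∈ A), tb s z θ A ≤ (2 / SS s z + 1) / W := by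
  unfold tb
  rw [← Finset.mul_sum]
  have h := bw_through s W hW hpr z hS i
  have h0 : 0 ≤ ∑ A ∈ univ.filter (fun A : Finset ι => i ∈ A), bw s z A :=
    Finset.sum_nonneg fun A _ => bw_nonneg s z A
  exact (mul_le_of_le_one_left h0 hθ1).trans h

/-- `1 - θ ≤ br ≤ 1` (partial sums of `tb_sum`). -/
theorem br_bounds (s : Sys ι J) (z θ : ℝ) (hθ : 0 ≤ θ) (hS : 0 < SS s z) (D : ℝ)
    (κ : ι → Option J) :
    1 - θ ≤ br s (tb s z θ) D κ ∧ br s (tb s z θ) D κ ≤ 1 := by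
  unfold br
  constructor
  · have h1 : ∑ A ∈ (free κ).powerset.filter (fun A => A ≠ ∅ ∧ s.r κ * s.rho A ≤ D),
        tb s z θ A ≤ θ := by
      conv_rhs => rw [← tb_sum s z θ hS]
      refine Finset.sum_le_sum_of_subset_of_nonneg ?_ fun A _ _ => tb_nonneg s z θ hθ A
      intro A hA
      rw [mem_filter] at hA ⊢
      exact ⟨mem_univ _, hA.2.1⟩
    linarith
  · have := Finset.sum_nonneg (fun A (_ : A ∈ (free κ).powerset.filter
      (fun A => A ≠ ∅ ∧ s.r κ * s.rho A ≤ D)) => tb_nonneg s z θ hθ A)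
    linarith

/-- If `r κ z ≤ D`, the sets `A` which are missing in the bracket meet `supp κ`, so
`br ≤ 1 - θ + ∑_{i ∈ supp κ} ∑_{A ∋ i} tb A` (cf. `abs_cp_le_mul`). -/
theorem br_le (s : Sys ι J) (z θ : ℝ) (hθ : 0 ≤ θ) (hS : 0 < SS s z) (D : ℝ)
    (κ : ι → Option J) (hr : s.r κ * z ≤ D) :
    br s (tb s z θ) D κ ≤ (1 - θ) +
      ∑ i ∈ supp κ, ∑ A ∈ univ.filter (fun A : Finset ι => i ∈ A), tb s z θ A := by
  unfold br
  have h0 : ∀ A, 0 ≤ tb s z θ A := tb_nonneg s z θ hθ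
  have hz : ∀ A, tb s z θ A ≠ 0 → s.rho A ≤ z := fun A => tb_rho s z θ A
  have hr0 : 0 ≤ s.r κ := le_trans zero_le_one (one_le_rho s _)
  have hsum := tb_sum s z θ hS
  -- every nonempty A is either in the filter set or meets the support (or has bb A = 0)
  have h3 : ∑ A ∈ univ.filter (fun A : Finset ι => A ≠ ∅), tb s z θ A ≤
      ∑ A ∈ (supp κ).biUnion (fun i => univ.filter (fun A : Finset ι => i ∈ A)) ∪
        (free κ).powerset.filter (fun A => A ≠ ∅ ∧ s.r κ * s.rho A ≤ D), tb s z θ A := by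
    rw [← Finset.sum_filter_add_sum_filter_not (univ.filter (fun A : Finset ι => A ≠ ∅))
      (fun A => tb s z θ A ≠ 0)]
    have h4 : ∑ A ∈ (univ.filter (fun A : Finset ι => A ≠ ∅)).filter
        (fun A => ¬ tb s z θ A ≠ 0), tb s z θ A = 0 := by
      refine Finset.sum_eq_zero fun A hA => ?_
      rw [mem_filter] at hA
      exact not_not.mp hA.2
    rw [h4, add_zero]
    refine Finset.sum_le_sum_of_subset_of_nonneg ?_ fun A _ _ => h0 A
    intro A hA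
    rw [mem_filter, mem_filter] at hA
    obtain ⟨⟨_, hE⟩, hb⟩ := hA
    rw [mem_union]
    by_cases hf : A ⊆ free κ
    · right
      rw [mem_filter, mem_powerset]
      exact ⟨hf, hE, le_trans (mul_le_mul_of_nonneg_left (hz A hb) hr0) hr⟩
    · left
      rw [Finset.not_subset] at hf
      obtain ⟨i, hi, hi2⟩ := hf
      rw [mem_biUnion]
      refine ⟨i, ?_, by rw [mem_filter]; exact ⟨mem_univ _, hi⟩⟩
      unfold supp
      rw [mem_filter]
      refine ⟨mem_univ _, ?_⟩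
      unfold free at hi2
      rw [mem_filter] at hi2
      push Not at hi2
      exact Option.isSome_iff_ne_none.mpr (hi2 (mem_univ _))
  have h4 := le_trans h3 (coef2_union_le (tb s z θ) h0 _ _)
  have h5 := coef2_biUnion_le (tb s z θ) h0 (supp κ)
    (fun i => univ.filter (fun A : Finset ι => i ∈ A))
  linarith

/-- `cp_cc` and `br_bounds`. -/
theorem cp_bounds (s : Sys ι J) (z θ : ℝ) (hθ : 0 ≤ θ) (hθ1 : θ ≤ 1) (hS : 0 < SS s z) (D : ℝ)
    (j0 : J) (κ : ι → Option J) (hκ : κ ∈ noJ j0) :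
    (1 - θ) * |cc s (tb s z θ) D κ| ≤ |cp j0 (cc s (tb s z θ) D) κ| ∧
      |cp j0 (cc s (tb s z θ) D) κ| ≤ |cc s (tb s z θ) D κ| := by
  obtain ⟨h1, h2⟩ := br_bounds s z θ hθ hS D κ
  have h3 : cp j0 (cc s (tb s z θ) D) κ = cc s (tb s z θ) D κ * br s (tb s z θ) D κ :=
    cp_cc s (tb s z θ) D j0 κ hκ
  have h4 : 0 ≤ br s (tb s z θ) D κ := le_trans (by linarith) h1
  rw [h3, abs_mul, abs_of_nonneg h4]
  constructor
  · rw [mul_comm]
    exact mul_le_mul_of_nonneg_left h1 (abs_nonneg _)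
  · exact mul_le_of_le_one_right (abs_nonneg _) h2

end Pool.Agent.Lib.H5C
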