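import Pool.Agent.Lib.H5C.TH2
import Pool.Agent.Lib.H5C.TH4
import Pool.Agent.Lib.H5C.PAR
import Pool.Agent.Lib.H56G.Slow
import Pool.Agent.Lib.H5C.TH5a

/-!
# Chunk TH5b: the upper bounds
-/

open Finset
open Pool.Agent.Lib.H56G

namespace Pool.Agent.Lib.H5C

/-- elementary facts for large `X` -/
theorem th5b_large : ∃ X₀ : ℕ, ∀ X : ℕ, X₀ ≤ X → 1 ≤ (X : ℝ) ∧ 100 ≤ Real.log (Real.log X) ∧
    Real.log (Real.log X) ≤ Real.log X ∧
    16 * (Real.log X) ^ 2 ≤ (X : ℝ) ^ (1 / 4 : ℝ) := by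
  have T0 : Filter.Tendsto (fun n : ℕ => (n : ℝ)) Filter.atTop Filter.atTop :=
    tendsto_natCast_atTop_atTop
  have T1 : Filter.Tendsto (fun n : ℕ => Real.log (n : ℝ)) Filter.atTop Filter.atTop :=
    Real.tendsto_log_atTop.comp T0
  have T2 : Filter.Tendsto (fun n : ℕ => Real.log (Real.log (n : ℝ))) Filter.atTop Filter.atTop :=
    Real.tendsto_log_atTop.comp T1
  have E1 := T0.eventually_ge_atTop 1
  have E2 := T2.eventually_ge_atTop 100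
  have E3 := T1.eventually_ge_atTop 1
  have E4 : ∀ᶠ n : ℕ in Filter.atTop, 16 * (Real.log (n : ℝ)) ^ 2 ≤ (n : ℝ) ^ (1 / 4 : ℝ) := by
    have h1 : ∀ᶠ x : ℝ in Filter.atTop, ‖(Real.log x) ^ 2‖ ≤ (1 / 16) * ‖x ^ (1 / 4 : ℝ)‖ := by
      have := (isLittleO_log_rpow_rpow_atTop (s := 1 / 4) 2 (by norm_num)).def
        (c := 1 / 16) (by norm_num)
      filter_upwards [this] with x hx
      rw [Real.rpow_two] at hx
      exact hx
    filter_upwards [T0.eventually h1, E1] with n hn hn1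
    rw [Real.norm_of_nonneg (by positivity), Real.norm_of_nonneg (by positivity)] at hn
    linarith
  obtain ⟨X₀, hX₀⟩ := Filter.eventually_atTop.mp ((E1.and E2).and (E3.and E4))
  refine ⟨X₀, fun X hX => ?_⟩
  obtain ⟨⟨h1, h2⟩, h3, h4⟩ := hX₀ X hX
  refine ⟨h1, h2, ?_, h4⟩
  have := Real.log_le_sub_one_of_pos (show 0 < Real.log (X : ℝ) by linarith)
  linarith

/-- All bounds for the weights `L(t)²`, `L = ∑ c U`, `c = cc s (tb s z θ) N`: total mass; one form; two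
forms; coefficients. `maj`, `pair_maj` with `D1 = D2 = N`, `V0 = log N/(1000 log W)`,
`K = exp (6 (|J|+1) log N/W) ≤ 3/2`; `sum_sq_le`, `le_sum_sq`; the errors are at most `X^(1/4)`,
and `ZZ ≥ 1`, `Y ≥ X^(1/2)`, `(1-θ)^2 ≥ 1/loglog X`, `ε ≤ (loglog X)^(-7)`, `τ ≤ (log X)^(-8)`. -/
theorem upp (δ : ℝ) (hδ : 0 < δ) (hδ1 : δ ≤ 1 / 100) : ∃ c0 C : ℝ, 0 < c0 ∧ 0 < C ∧ ∃ X₀ : ℕ,
    ∀ X : ℕ, X₀ ≤ X →
    ∀ {ι J : Type} [Fintype ι] [DecidableEq ι] [Fintype J] [DecidableEq J] (s : Sys ι J),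
    IsSieve s δ X → (Fintype.card J : ℝ) ≤ c0 * Real.log X →
    ∀ θ : ℝ, 0 ≤ θ → θ ≤ 1 → 1 / Real.log (Real.log X) ≤ (1 - θ) ^ 2 →
    ∀ Y : ℕ, (X : ℝ) ^ (1 / 2 : ℝ) ≤ Y →
      0 < SS s (zX δ X) ∧ 1 / SS s (zX δ X) ≤ 40000 ∧
      (Y : ℝ) / 4 * ZZ s (tb s (zX δ X) θ) ≤
        ∑ t ∈ Icc 1 Y, (∑ κ, cc s (tb s (zX δ X) θ) (NX δ X) κ * s.U κ t) ^ 2 ∧
      ∑ t ∈ Icc 1 Y, (∑ κ, cc s (tb s (zX δ X) θ) (NX δ X) κ * s.U κ t) ^ 2 ≤
        2 * (Y : ℝ) * ZZ s (tb s (zX δ X) θ) ∧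
      (∀ j : J, ∑ t ∈ (Icc 1 Y).filter (fun t => ∀ i, ¬ s.pr i ∣ s.b j + s.M * t),
        (∑ κ, cc s (tb s (zX δ X) θ) (NX δ X) κ * s.U κ t) ^ 2 ≤
        C * (Real.log (Real.log X) / Real.log X * (1 - θ) ^ 2) * Y * ZZ s (tb s (zX δ X) θ)) ∧
      (∀ j1 j2 : J, j1 ≠ j2 →
        ∑ t ∈ (Icc 1 Y).filter (fun t => (∀ i, ¬ s.pr i ∣ s.b j1 + s.M * t) ∧
          ∀ i, ¬ s.pr i ∣ s.b j2 + s.M * t),
        (∑ κ, cc s (tb s (zX δ X) θ) (NX δ X) κ * s.U κ t) ^ 2 ≤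
        C * (Real.log (Real.log X) / Real.log X * (1 - θ) ^ 2) ^ 2 * Y *
          ZZ s (tb s (zX δ X) θ)) ∧
      (∀ j : J, (1 - θ) ^ 2 / 2 * ZZ s (tb s (zX δ X) θ) ≤
        ∑ κ ∈ noJ j, (cp j (cc s (tb s (zX δ X) θ) (NX δ X)) κ) ^ 2 * s.ph κ) := by
  obtain ⟨c0, hc0, X1, hpar⟩ := par_num δ hδ hδ1
  obtain ⟨X2, hlarge⟩ := th5b_large
  obtain ⟨X3, hvv⟩ := vv_low δ hδ hδ1
  refine ⟨c0, 26 * (300000 / δ) ^ 2 + 5 * (300000 / δ) + 1, hc0, by positivity,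
    max X1 (max X2 X3), fun X hX => ?_⟩
  intro ι J _ _ _ _ s hs hJc θ hθ hθ1 hq Y hY
  have hX1 : X1 ≤ X := (le_max_left _ _).trans hX
  have hX2 : X2 ≤ X := ((le_max_left _ _).trans (le_max_right _ _)).trans hX
  have hX3 : X3 ≤ X := ((le_max_right _ _).trans (le_max_right _ _)).trans hX
  obtain ⟨hXr, hl, hlL, hE⟩ := hlarge X hX2
  obtain ⟨hpr, hprN, hall⟩ := hs
  obtain ⟨hW2, hRW, hWN, hz1, hz2, hWz, -⟩ := hpar X hX1 (Fintype.card J) hJc _ le_rfl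
  have hz0 : 0 < zX δ X := by linarith
  have hzN : zX δ X ≤ NX δ X := (le_self_pow₀ hz1.le (by norm_num)).trans hz2
  have hS := slow s (WX X) (NX δ X) hW2 hpr hall (zX δ X) hzN hz0 hWz
  obtain ⟨-, -, -, -, -, -, hS0, hSW, hV1, hV2, hNW, hK2, -, -, hε, hτ, hE2⟩ :=
    hpar X hX1 (Fintype.card J) hJc _ hS
  set L := Real.log X with hL
  set l := Real.log L with hldef
  set W := WX X with hWdef
  set N : ℝ := (NX δ X : ℝ) with hNdef
  set z := zX δ X with hzdef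
  have hSpos : 0 < SS s z := by linarith
  have hlpos : 0 < l := by linarith
  have hLpos : 0 < L := by linarith
  have hL1 : 1 ≤ L := by linarith
  have hW1 : 1 ≤ W := by omega
  have hWpos : (0 : ℝ) < W := by exact_mod_cast (by omega : 0 < W)
  have hN1 : 1 ≤ N := by
    have h1 : 1 ≤ NX δ X := by omega
    rw [hNdef]
    exact_mod_cast h1
  have hN0 : 0 < N := by linarith
  have hlogN : 0 ≤ Real.log N := Real.log_nonneg hN1
  set V0 := Real.log N / (1000 * Real.log W) with hV0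
  set K := Real.exp (6 * ((Fintype.card J : ℝ) + 1) * Real.log N / W) with hKdef
  have hK0 : 0 ≤ K := (Real.exp_pos _).le
  have hKps : ∀ κ : ι → Option J, s.r κ ≤ N * N * N → s.ps κ ≤ K * s.ph κ := by
    intro κ hκ
    have h1 := ps_le s W hW1 hpr κ _ hκ
    refine h1.trans (le_of_eq ?_)
    rw [hKdef]
    congr 2
    rw [Real.log_mul (by positivity) (by positivity), Real.log_mul (by positivity) (by positivity)]
    ring
  have hVV : ∀ κ : ι → Option J, s.r κ ≤ N * N → V0 ≤ s.VV N κ := fun κ hκ =>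
    hvv X hX3 s ⟨hpr, hprN, hall⟩ κ hκ
  -- ε and τ
  set ε := l⁻¹ ^ 7 with hεdef
  set τ := L⁻¹ ^ 8 with hτdef
  set q := (1 - θ) ^ 2 with hqdef
  have hθ' : 0 ≤ 1 - θ := by linarith
  have hq1 : q ≤ 1 - θ := by
    rw [hqdef, sq]
    exact mul_le_of_le_one_left hθ' (by linarith only [hθ])
  have hτ0 : 0 ≤ τ := by positivity
  have hε0 : 0 ≤ ε := by positivity
  have hlinv : 0 < l⁻¹ := inv_pos.mpr hlpos
  have hlinv1 : l⁻¹ ≤ 1 / 100 := by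
    rw [one_div]
    exact inv_anti₀ (by norm_num) hl
  have hq0 : l⁻¹ ≤ q := by rw [← one_div]; exact hq
  have hεl : ε ≤ l⁻¹ ^ 2 := pow_le_pow_of_le_one hlinv.le (by linarith) (by norm_num)
  have hεl1 : l⁻¹ ^ 2 ≤ l⁻¹ := by
    calc l⁻¹ ^ 2 ≤ l⁻¹ ^ 1 := pow_le_pow_of_le_one hlinv.le (by linarith) (by norm_num)
      _ = l⁻¹ := pow_one _
  have hε4 : ε ≤ 1 / 4 := by linarith
  have hεq : ε ≤ q := by linarith
  have hεq2 : ε ≤ q ^ 2 := hεl.trans (pow_le_pow_left₀ hlinv.le hq0 2)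
  have hτL : τ ≤ L⁻¹ := by
    have hLinv : 0 < L⁻¹ := inv_pos.mpr hLpos
    have hLinv1 : L⁻¹ ≤ 1 := inv_le_one_of_one_le₀ hL1
    calc τ ≤ L⁻¹ ^ 1 := pow_le_pow_of_le_one hLinv.le hLinv1 (by norm_num)
      _ = L⁻¹ := pow_one _
  have hτl : τ ≤ l⁻¹ := hτL.trans (inv_anti₀ hlpos hlL)
  have hτq : τ ≤ q := hτl.trans hq0
  have hτθ : τ ≤ 1 - θ := hτq.trans hq1
  have htail := tail_le s z θ N ε hθ hθ1 hz1 hN0 hSpos hε
  have hτ' : ∀ κ : ι → Option J, s.r κ ≤ N →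
      ∑ i ∈ supp κ, ∑ A ∈ univ.filter (fun A : Finset ι => i ∈ A), tb s z θ A ≤ τ := by
    intro κ hκ
    have h1 : ∑ i ∈ supp κ, ∑ A ∈ univ.filter (fun A : Finset ι => i ∈ A), tb s z θ A ≤
        ∑ _i ∈ supp κ, (2 / SS s z + 1) / W :=
      Finset.sum_le_sum fun i _ => tb_through s W hW1 hpr z θ hθ hθ1 hSpos i
    rw [Finset.sum_const, nsmul_eq_mul] at h1
    have h2 := card_supp_le s κ N hκ
    have h3 : 0 ≤ (2 / SS s z + 1) / (W : ℝ) := by positivity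
    exact (h1.trans (mul_le_mul_of_nonneg_right h2 h3)).trans hτ
  set c := cc s (tb s z θ) N with hcdef
  set Z := ZZ s (tb s z θ) with hZdef
  have hZ1 : 1 ≤ Z := one_le_ZZ s (tb s z θ)
  have htb0 := tb_nonneg s z θ hθ
  have htb1 := tb_le_one s z θ hθ hθ1 hSpos
  have hc : ∀ κ : ι → Option J, c κ ≠ 0 → s.r κ ≤ N := by
    intro κ h
    by_contra h'
    exact h (if_neg h')
  have hc1 : ∀ κ : ι → Option J, |c κ| ≤ 1 := abs_cc_le_one s (tb s z θ) htb0 htb1 N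
  have hcs := main0_sum_abs s W hW1 hpr hRW c N hN1 hc hc1
  have hNN : N ≤ N * N := le_mul_of_one_le_right hN0.le hN1
  have hNNN : N * N ≤ N * N * N := le_mul_of_one_le_right (by positivity) hN1
  -- errors
  set E := (X : ℝ) ^ (1 / 4 : ℝ) with hEdef
  have hE0 : 0 ≤ E := by positivity
  have hEE : E * E = (X : ℝ) ^ (1 / 2 : ℝ) := by
    rw [hEdef, ← Real.rpow_add (by linarith)]
    norm_num
  have hEY : 16 * L ^ 2 * E ≤ Y := by
    calc 16 * L ^ 2 * E ≤ E * E := mul_le_mul_of_nonneg_right hE hE0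
      _ ≤ Y := by rw [hEE]; exact hY
  have herr1 : 18 * N ^ 8 ≤ E := by
    refine le_trans ?_ hE2
    have : N ^ 8 ≤ (N * N * N) ^ 8 := pow_le_pow_left₀ hN0.le (hNN.trans hNNN) 8
    linarith
  have herr2 : 18 * (N * N) ^ 8 ≤ E := by
    refine le_trans ?_ hE2
    have : (N * N) ^ 8 ≤ (N * N * N) ^ 8 := pow_le_pow_left₀ (by positivity) hNNN 8
    linarith
  have hY0 : (0 : ℝ) ≤ Y := Nat.cast_nonneg Y
  have hE16 : 16 * E ≤ Y := by
    refine le_trans ?_ hEY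
    have h1 : 1 ≤ L ^ 2 := one_le_pow₀ hL1
    calc 16 * E = 16 * 1 * E := by ring
      _ ≤ 16 * L ^ 2 * E := by gcongr
  have hEYZ : 16 * E ≤ Y * Z := hE16.trans (le_mul_of_one_le_right hY0 hZ1)
  have herr0 : 2 * N ^ 4 * (∑ κ, |c κ|) ^ 2 ≤ 18 * N ^ 8 := by
    have e8 : (∑ κ, |c κ|) ^ 2 ≤ (3 * N ^ 2) ^ 2 :=
      pow_le_pow_left₀ (Finset.sum_nonneg fun κ _ => abs_nonneg _) hcs 2
    calc 2 * N ^ 4 * (∑ κ, |c κ|) ^ 2 ≤ 2 * N ^ 4 * (3 * N ^ 2) ^ 2 := by gcongr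
      _ = 18 * N ^ 8 := by ring
  have hph0 : ∀ κ : ι → Option J, 0 ≤ s.ph κ := fun κ =>
    le_trans zero_le_one (one_le_phi s (supp κ))
  have hcZ : ∑ κ, (c κ) ^ 2 * s.ph κ ≤ Z := by
    rw [hZdef]
    unfold ZZ
    refine Finset.sum_le_sum fun κ _ => ?_
    by_cases hk : c κ = 0
    · rw [hk]
      have := wt_nonneg s (tb s z θ) κ
      simpa using this
    · rw [hcdef, cc_sq_mul_ph s (tb s z θ) N κ (hc κ hk)]
  have hpsc : ∀ κ : ι → Option J, (c κ) ^ 2 * s.ps κ ≤ (c κ) ^ 2 * (3 / 2 * s.ph κ) := by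
    intro κ
    by_cases hk : c κ = 0
    · simp [hk]
    · refine mul_le_mul_of_nonneg_left ?_ (sq_nonneg _)
      exact (hKps κ ((hc κ hk).trans (hNN.trans hNNN))).trans
        (mul_le_mul_of_nonneg_right hK2 (hph0 κ))
  -- K / V0
  have hKV : K / V0 ≤ 300000 / δ * (l / L) := by
    have hV0pos : 0 < V0 := by linarith
    rw [div_le_iff₀ hV0pos]
    have h1 : 300000 / δ * (l / L) * (δ / 200000 * (L / l)) = 3 / 2 := by
      field_simp
      norm_num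
    have h2 : 300000 / δ * (l / L) * (δ / 200000 * (L / l)) ≤ 300000 / δ * (l / L) * V0 :=
      mul_le_mul_of_nonneg_left hV2 (by positivity)
    linarith
  have hKV0 : 0 ≤ K / V0 := div_nonneg hK0 (by linarith)
  have hlL0 : 0 ≤ l / L := by positivity
  -- the error against the main terms
  have hmain1 : E ≤ l / L * q * Y * Z := by
    have h1 : 1 / L ≤ l / L * q := by
      calc 1 / L = l / L * l⁻¹ := by field_simp
        _ ≤ l / L * q := mul_le_mul_of_nonneg_left hq0 hlL0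
    have h2 : E ≤ 1 / L * Y := by
      rw [one_div, inv_mul_eq_div, le_div_iff₀ hLpos]
      refine le_trans ?_ hEY
      have h3 : L ≤ 16 * L ^ 2 := by
        have h4 : L ≤ L ^ 2 := le_self_pow₀ hL1 (by norm_num)
        linarith only [h4, sq_nonneg L]
      calc E * L ≤ E * (16 * L ^ 2) := mul_le_mul_of_nonneg_left h3 hE0
        _ = 16 * L ^ 2 * E := by ring
    calc E ≤ 1 / L * Y := h2
      _ ≤ l / L * q * Y := mul_le_mul_of_nonneg_right h1 hY0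
      _ ≤ l / L * q * Y * Z := le_mul_of_one_le_right (by positivity) hZ1
  have hmain2 : E ≤ (l / L * q) ^ 2 * Y * Z := by
    have h1 : 1 / L ≤ l / L * q := by
      calc 1 / L = l / L * l⁻¹ := by field_simp
        _ ≤ l / L * q := mul_le_mul_of_nonneg_left hq0 hlL0
    have h1' : (1 / L) ^ 2 ≤ (l / L * q) ^ 2 := pow_le_pow_left₀ (by positivity) h1 2
    have h2 : E ≤ (1 / L) ^ 2 * Y := by
      rw [div_pow, one_pow, one_div, inv_mul_eq_div, le_div_iff₀ (by positivity)]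
      refine le_trans ?_ hEY
      have h3 : L ^ 2 ≤ 16 * L ^ 2 := by linarith only [sq_nonneg L]
      calc E * L ^ 2 ≤ E * (16 * L ^ 2) := mul_le_mul_of_nonneg_left h3 hE0
        _ = 16 * L ^ 2 * E := by ring
    calc E ≤ (1 / L) ^ 2 * Y := h2
      _ ≤ (l / L * q) ^ 2 * Y := mul_le_mul_of_nonneg_right h1' hY0
      _ ≤ (l / L * q) ^ 2 * Y * Z := le_mul_of_one_le_right (by positivity) hZ1
  have hq00 : 0 ≤ q := sq_nonneg _
  have hsq1 : ((1 - θ) + τ) ^ 2 ≤ 4 * q := by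
    calc ((1 - θ) + τ) ^ 2 ≤ ((1 - θ) + (1 - θ)) ^ 2 :=
          pow_le_pow_left₀ (by linarith) (by linarith) 2
      _ = 4 * q := by rw [hqdef]; ring
  refine ⟨hSpos, ?_, ?_, ?_, ?_, ?_, ?_⟩
  · rw [div_le_iff₀ hSpos]
    linarith
  · -- lower bound of the mass
    have e1 := le_sum_sq s c N hN1 hc Y
    have e2 : (1 / 2 : ℝ) * ∑ κ, (c κ) ^ 2 * s.ph κ
        ≤ ∑ κ, (c κ) ^ 2 * (2 * s.ph κ - s.ps κ) := by
      rw [Finset.mul_sum]
      refine Finset.sum_le_sum fun κ _ => ?_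
      have h1 := hpsc κ
      have h2 : (c κ) ^ 2 * (2 * s.ph κ - s.ps κ) = 2 * ((c κ) ^ 2 * s.ph κ) -
          (c κ) ^ 2 * s.ps κ := by ring
      have h3 : (c κ) ^ 2 * (3 / 2 * s.ph κ) = 3 / 2 * ((c κ) ^ 2 * s.ph κ) := by ring
      rw [h2]
      linarith only [h1, h3]
    have e3 := le_sum_cc_sq s (tb s z θ) (z ^ 2) N (one_le_pow₀ hz1.le)
    have e4 : (3 / 4 : ℝ) * Z ≤ ∑ κ, (c κ) ^ 2 * s.ph κ := by
      refine le_trans ?_ e3
      have : ε * Z ≤ 1 / 4 * Z := mul_le_mul_of_nonneg_right hε4 (by linarith)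
      linarith
    have e5 : (Y : ℝ) * ((3 / 8) * Z) ≤ Y * ∑ κ, (c κ) ^ 2 * (2 * s.ph κ - s.ps κ) :=
      mul_le_mul_of_nonneg_left (by linarith) hY0
    linarith
  · -- upper bound of the mass
    have e1 := sum_sq_le s c N hN1 hc Y
    have e2 : ∑ κ, (c κ) ^ 2 * s.ps κ ≤ 3 / 2 * Z := by
      calc ∑ κ, (c κ) ^ 2 * s.ps κ ≤ ∑ κ, (c κ) ^ 2 * (3 / 2 * s.ph κ) :=
            Finset.sum_le_sum fun κ _ => hpsc κ
        _ = 3 / 2 * ∑ κ, (c κ) ^ 2 * s.ph κ := by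
            rw [Finset.mul_sum]
            exact Finset.sum_congr rfl fun κ _ => by ring
        _ ≤ 3 / 2 * Z := by linarith
    have e3 : (Y : ℝ) * ∑ κ, (c κ) ^ 2 * s.ps κ ≤ Y * (3 / 2 * Z) :=
      mul_le_mul_of_nonneg_left e2 hY0
    linarith
  · -- one form
    intro j
    have hcp : ∀ κ ∈ noJ j, |cp j c κ| ≤ 1 := fun κ hκ =>
      (cp_bounds s z θ hθ hθ1 hSpos N j κ hκ).2.trans (hc1 κ)
    have e1 := maj s W hW1 hpr hRW c N N V0 K hN1 hN1 hV1 hK0 j hc hcp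
      (fun κ _ h => hVV κ (h.trans hNN)) (fun κ h => hKps κ (h.trans hNNN)) Y
    have e2 := sum_cp_sq_theta s z θ N τ ε hθ hθ1 hz1 hSpos hτ0 hτ' htail j
    have e3 : ∑ κ ∈ noJ j, (cp j c κ) ^ 2 * s.ph κ ≤ 5 * q * Z := by
      refine e2.trans (mul_le_mul_of_nonneg_right ?_ (by linarith))
      linarith
    have e4 : (Y : ℝ) * (K / V0) * ∑ κ ∈ noJ j, (cp j c κ) ^ 2 * s.ph κ ≤
        Y * (300000 / δ * (l / L)) * (5 * q * Z) := by
      have h1 : 0 ≤ ∑ κ ∈ noJ j, (cp j c κ) ^ 2 * s.ph κ :=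
        Finset.sum_nonneg fun κ _ => mul_nonneg (sq_nonneg _) (hph0 κ)
      gcongr
    calc _ ≤ Y * (300000 / δ * (l / L)) * (5 * q * Z) + E := by linarith
      _ ≤ Y * (300000 / δ * (l / L)) * (5 * q * Z) + l / L * q * Y * Z := by linarith
      _ = (5 * (300000 / δ) + 1) * (l / L * q * Y * Z) := by ring
      _ ≤ (26 * (300000 / δ) ^ 2 + 5 * (300000 / δ) + 1) * (l / L * q * Y * Z) := by
          refine mul_le_mul_of_nonneg_right ?_ (by positivity)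
          have : 0 ≤ 26 * (300000 / δ) ^ 2 := by positivity
          linarith
      _ = _ := by ring
  · -- two forms
    intro j1 j2 hj
    have hcp : ∀ κ ∈ noJ j2, |cp j2 (cr j1 c) κ| ≤ 1 := fun κ hκ =>
      (abs_cp_cr_le s z θ hθ hθ1 hSpos N j1 j2 hj κ hκ).trans (hc1 κ)
    have e1 := pair_maj s W hW1 hpr hRW c N N V0 K hN1 hN1 hV1 hK0 j1 j2 hj hc hcp hVV hKps Y
    have e2 := sum_cp_cr_sq s z θ hθ hθ1 hz1 hSpos N τ ε hτ0 hτ' htail j1 j2 hj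
    have e3 : ∑ κ ∈ noJ j2, (cp j2 (cr j1 c) κ) ^ 2 * s.ph κ ≤ 26 * q ^ 2 * Z := by
      refine e2.trans (mul_le_mul_of_nonneg_right ?_ (by linarith))
      have h1 : ((1 - θ) + τ) ^ 2 + τ ≤ 5 * q := by linarith
      have h2 : (((1 - θ) + τ) ^ 2 + τ) ^ 2 ≤ (5 * q) ^ 2 :=
        pow_le_pow_left₀ (by positivity) h1 2
      have h3 : (5 * q) ^ 2 = 25 * q ^ 2 := by ring
      linarith only [h2, h3, hεq2]
    have e4 : (Y : ℝ) * (K / V0) ^ 2 * ∑ κ ∈ noJ j2, (cp j2 (cr j1 c) κ) ^ 2 * s.ph κ ≤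
        Y * (300000 / δ * (l / L)) ^ 2 * (26 * q ^ 2 * Z) := by
      have h1 : 0 ≤ ∑ κ ∈ noJ j2, (cp j2 (cr j1 c) κ) ^ 2 * s.ph κ :=
        Finset.sum_nonneg fun κ _ => mul_nonneg (sq_nonneg _) (hph0 κ)
      gcongr
    calc _ ≤ Y * (300000 / δ * (l / L)) ^ 2 * (26 * q ^ 2 * Z) + E := by linarith
      _ ≤ Y * (300000 / δ * (l / L)) ^ 2 * (26 * q ^ 2 * Z) + (l / L * q) ^ 2 * Y * Z := by
          linarith
      _ = (26 * (300000 / δ) ^ 2 + 1) * ((l / L * q) ^ 2 * Y * Z) := by ring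
      _ ≤ (26 * (300000 / δ) ^ 2 + 5 * (300000 / δ) + 1) * ((l / L * q) ^ 2 * Y * Z) := by
          refine mul_le_mul_of_nonneg_right ?_ (by positivity)
          have : 0 ≤ 5 * (300000 / δ) := by positivity
          linarith
      _ = _ := by ring
  · -- lower bound of the coefficients
    intro j
    exact le_sum_cp_sq_theta s W hW2 hpr z θ N ε hθ hθ1 hz1 hSpos hSW hε4 htail j

end Pool.Agent.Lib.H5C
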